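import Pool.Agent.Lib.MP_f3090c_an.D.WDefs

/-! Doubling DB01: words and positions, cells as sets. -/

open Set Filter Topology

namespace CarpetLib

private theorem wb_unique {M a b r s : ℕ} (hr : r < M) (hs : s < M)
    (h : a * M + r = b * M + s) : a = b ∧ r = s := by
  have hM : 0 < M := by omega
  have h1 : (a * M + r) / M = a := by
    rw [Nat.add_comm, Nat.add_mul_div_right _ _ hM, Nat.div_eq_of_lt hr, zero_add]
  have h2 : (b * M + s) / M = b := by
    rw [Nat.add_comm, Nat.add_mul_div_right _ _ hM, Nat.div_eq_of_lt hs, zero_add]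
  have h3 : a = b := by rw [← h1, ← h2, h]
  subst h3
  exact ⟨rfl, by omega⟩

/-- words of the same length with the same position are equal. Proof: induction on `v`; for
`d :: v`, `d' :: w` the first digits are `ix (d :: v) / 3 ^ v.length` (by `ix_lt`). -/
theorem word_ext {v w : List Dig} (hl : v.length = w.length) (hx : ix v = ix w)
    (hy : iy v = iy w) : v = w := by
  induction v generalizing w with
  | nil => exact (List.length_eq_zero_iff.1 hl.symm).symm
  | cons d v ih =>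
    cases w with
    | nil => simp at hl
    | cons d' w =>
      have hl' : v.length = w.length := by simpa using hl
      rw [ix, ix, ← hl'] at hx
      rw [iy, iy, ← hl'] at hy
      have hw1 := ix_lt w
      have hw2 := iy_lt w
      rw [← hl'] at hw1 hw2
      obtain ⟨h1, h2⟩ := wb_unique (ix_lt v) hw1 hx
      obtain ⟨h3, h4⟩ := wb_unique (iy_lt v) hw2 hy
      have h5 : d = d' := Subtype.ext (Prod.ext (Fin.ext h1) (Fin.ext h3))
      rw [h5, ih hl' h2 h4]

theorem ix_append (v w : List Dig) : ix (v ++ w) = ix v * 3 ^ w.length + ix w := by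
  induction v with
  | nil => simp [ix]
  | cons d v ih =>
    rw [List.cons_append, ix, ix, ih, List.length_append, pow_add]
    ring

theorem iy_append (v w : List Dig) : iy (v ++ w) = iy v * 3 ^ w.length + iy w := by
  induction v with
  | nil => simp [iy]
  | cons d v ih =>
    rw [List.cons_append, iy, iy, ih, List.length_append, pow_add]
    ring

/-- every point lies in a cell of level `m`. Proof: induction, `carpet_subset_iUnion`. -/
theorem exists_mem_cellW (m : ℕ) (z : K) : ∃ w ∈ Wd m, z ∈ cellW w := by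
  induction m generalizing z with
  | zero => exact ⟨[], mem_Wd.2 rfl, z, rfl⟩
  | succ m ih =>
    have h1 := carpet_subset_iUnion z.2
    simp only [mem_iUnion] at h1
    obtain ⟨d, q, hq, hqz⟩ := h1
    obtain ⟨w, hw, y, hy⟩ := ih ⟨q, hq⟩
    refine ⟨d :: w, mem_Wd.2 (by rw [List.length_cons, mem_Wd.1 hw]), y, ?_⟩
    change psiK d (psiW w y) = z
    rw [hy]
    exact Subtype.ext hqz

private theorem wb_unit (z : K) : (0 ≤ z.1.1 ∧ z.1.1 ≤ 1) ∧ (0 ≤ z.1.2 ∧ z.1.2 ≤ 1) :=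
  carpet_subset_unitSq z.2

private theorem wb_mul (w : List Dig) (z : K) :
    3 ^ w.length * (psiW w z).1.1 = z.1.1 + ix w ∧ 3 ^ w.length * (psiW w z).1.2 = z.1.2 + iy w := by
  have h : (3 : ℝ) ^ w.length ≠ 0 := by positivity
  rw [psiW_fst, psiW_snd]
  constructor <;> field_simp

private theorem wb_far {a b : ℕ} {s t : ℝ} (hab : a ≠ b) (hs : 0 ≤ s ∧ s ≤ 1) (ht : 0 ≤ t ∧ t ≤ 1)
    (h : s + a = t + b) : t = 0 ∨ t = 1 := by
  rcases lt_or_gt_of_ne hab with h1 | h1
  · left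
    have h2 : (a : ℝ) + 1 ≤ b := by exact_mod_cast h1
    linarith [hs.1, hs.2, ht.1, ht.2]
  · right
    have h2 : (b : ℝ) + 1 ≤ a := by exact_mod_cast h1
    linarith [hs.1, hs.2, ht.1, ht.2]

/-- The cell of `w` is the part of the carpet in the closed square of `w`. Proof of `←`: `z` lies
in the cell of some word `w'` of the same length; if `w' = w` this is it; otherwise `w'` has another
position, so a coordinate of `3 ^ |w| z - (ix w, iy w)`, which is in `[0,1]²`, is `0` or `1`, and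
`left_mem`, `right_mem`, `bot_mem`, `top_mem` give the preimage. -/
theorem mem_cellW_iff {w : List Dig} {z : K} :
    z ∈ cellW w ↔ ((ix w : ℝ) ≤ 3 ^ w.length * z.1.1 ∧ 3 ^ w.length * z.1.1 ≤ ix w + 1) ∧
      ((iy w : ℝ) ≤ 3 ^ w.length * z.1.2 ∧ 3 ^ w.length * z.1.2 ≤ iy w + 1) := by
  constructor
  · rintro ⟨y, rfl⟩
    obtain ⟨h1, h2⟩ := wb_mul w y
    obtain ⟨⟨a, b⟩, c, d⟩ := wb_unit y
    rw [h1, h2]
    exact ⟨⟨by linarith, by linarith⟩, by linarith, by linarith⟩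
  · rintro ⟨⟨h1, h2⟩, h3, h4⟩
    have hp : (3 : ℝ) ^ w.length ≠ 0 := by positivity
    have key : ((3 : ℝ) ^ w.length * z.1.1 - ix w, (3 : ℝ) ^ w.length * z.1.2 - iy w) ∈ carpet →
        z ∈ cellW w := by
      intro hc
      refine ⟨⟨_, hc⟩, ?_⟩
      refine Subtype.ext (Prod.ext ?_ ?_)
      · rw [psiW_fst]
        field_simp
        ring
      · rw [psiW_snd]
        field_simp
        ring
    obtain ⟨w', hw', y, hy⟩ := exists_mem_cellW w.length z
    have hl := mem_Wd.1 hw'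
    obtain ⟨e1, e2⟩ := wb_mul w' y
    rw [hy, hl] at e1 e2
    obtain ⟨u1, u2⟩ := wb_unit y
    have hX : 0 ≤ (3 : ℝ) ^ w.length * z.1.1 - ix w ∧ (3 : ℝ) ^ w.length * z.1.1 - ix w ≤ 1 :=
      ⟨by linarith, by linarith⟩
    have hY : 0 ≤ (3 : ℝ) ^ w.length * z.1.2 - iy w ∧ (3 : ℝ) ^ w.length * z.1.2 - iy w ≤ 1 :=
      ⟨by linarith, by linarith⟩
    by_cases hx : ix w' = ix w
    · by_cases hyy : iy w' = iy w
      · rw [word_ext hl hx hyy] at hy
        exact ⟨y, hy⟩
      · rcases wb_far hyy u2 hY (by linarith) with h | h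
        · apply key
          rw [h]
          exact bot_mem hX.1 hX.2
        · apply key
          rw [h]
          exact top_mem hX.1 hX.2
    · rcases wb_far hx u1 hX (by linarith) with h | h
      · apply key
        rw [h]
        exact left_mem hY.1 hY.2
      · apply key
        rw [h]
        exact right_mem hY.1 hY.2

private theorem wb_cast {a b : ℕ} {t : ℝ} (h1 : (a : ℝ) ≤ t) (h2 : t ≤ (b : ℝ) + 1) :
    a ≤ b + 1 := by
  have h3 : (a : ℝ) ≤ (b : ℝ) + 1 := h1.trans h2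
  exact_mod_cast h3

theorem nb_of_mem {m : ℕ} {w w' : List Dig} (hw : w ∈ Wd m) (hw' : w' ∈ Wd m) {z : K}
    (h : z ∈ cellW w) (h' : z ∈ cellW w') : Nb 1 w w' := by
  rw [mem_cellW_iff, mem_Wd.1 hw] at h
  rw [mem_cellW_iff, mem_Wd.1 hw'] at h'
  obtain ⟨⟨a1, a2⟩, a3, a4⟩ := h
  obtain ⟨⟨b1, b2⟩, b3, b4⟩ := h'
  exact ⟨⟨wb_cast a1 b2, wb_cast b1 a2⟩, wb_cast a3 b4, wb_cast b3 a4⟩

private theorem wb_share {m : ℕ} {w w' : List Dig} (hw : w ∈ Wd m) (hw' : w' ∈ Wd m) (y y' : K)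
    (h1 : y.1.1 + ix w = y'.1.1 + ix w') (h2 : y.1.2 + iy w = y'.1.2 + iy w') :
    (cellW w ∩ cellW w').Nonempty := by
  refine ⟨psiW w y, ⟨y, rfl⟩, y', ?_⟩
  refine Subtype.ext (Prod.ext ?_ ?_)
  · rw [psiW_fst, psiW_fst, mem_Wd.1 hw, mem_Wd.1 hw', h1]
  · rw [psiW_snd, psiW_snd, mem_Wd.1 hw, mem_Wd.1 hw', h2]

/-- side adjacent cells of the same level share a point -/
theorem sadj_inter {m : ℕ} {w w' : List Dig} (hw : w ∈ Wd m) (hw' : w' ∈ Wd m)
    (h : SAdj w w') : (cellW w ∩ cellW w').Nonempty := by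
  have c1 : (c00.1.1 : ℝ) = 0 ∧ (c00.1.2 : ℝ) = 0 := ⟨rfl, rfl⟩
  have c2 : (c10.1.1 : ℝ) = 1 ∧ (c10.1.2 : ℝ) = 0 := ⟨rfl, rfl⟩
  have c3 : (c01.1.1 : ℝ) = 0 ∧ (c01.1.2 : ℝ) = 1 := ⟨rfl, rfl⟩
  rcases h with ⟨h1, h2 | h2 | h2⟩ | ⟨h1, h2 | h2⟩
  · have e := word_ext ((mem_Wd.1 hw).trans (mem_Wd.1 hw').symm) h1 h2
    rw [e, inter_self]
    exact cellW_nonempty w'
  · refine wb_share hw hw' c01 c00 ?_ ?_
    · rw [c3.1, c1.1, h1]
    · rw [c3.2, c1.2, ← h2]
      push_cast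
      ring
  · refine wb_share hw hw' c00 c01 ?_ ?_
    · rw [c3.1, c1.1, h1]
    · rw [c3.2, c1.2, ← h2]
      push_cast
      ring
  · refine wb_share hw hw' c10 c00 ?_ ?_
    · rw [c2.1, c1.1, ← h2]
      push_cast
      ring
    · rw [c2.2, c1.2, h1]
  · refine wb_share hw hw' c00 c10 ?_ ?_
    · rw [c2.1, c1.1, ← h2]
      push_cast
      ring
    · rw [c2.2, c1.2, h1]

theorem sadj_symm {w w' : List Dig} (h : SAdj w w') : SAdj w' w := by
  unfold SAdj at h ⊢
  omega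

/-- the cell of `v ++ w` lies in the cell of `v` -/
theorem cellW_append_subset (v w : List Dig) : cellW (v ++ w) ⊆ cellW v := by
  rintro _ ⟨y, rfl⟩
  rw [psiW_append]
  exact ⟨_, rfl⟩

/-- every point of the cell of `v` lies in a cell `v ++ w` with `w` of length `m` -/
theorem exists_cell_append (m : ℕ) {v : List Dig} {z : K} (hz : z ∈ cellW v) :
    ∃ w ∈ Wd m, z ∈ cellW (v ++ w) := by
  obtain ⟨y, rfl⟩ := hz
  obtain ⟨w, hw, x, hx⟩ := exists_mem_cellW m y
  refine ⟨w, hw, x, ?_⟩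
  rw [psiW_append, hx]

/-- positions of cells -/
theorem cel_iff {m a b : ℕ} : Cel m a b ↔ ∃ w ∈ Wd m, ix w = a ∧ iy w = b := by
  induction m generalizing a b with
  | zero =>
    constructor
    · rintro ⟨rfl, rfl⟩
      exact ⟨[], mem_Wd.2 rfl, rfl, rfl⟩
    · rintro ⟨w, hw, h1, h2⟩
      have h3 : w = [] := List.length_eq_zero_iff.1 (mem_Wd.1 hw)
      subst h3
      exact ⟨h1.symm, h2.symm⟩
  | succ m ih =>
    constructor
    · rintro ⟨h1, h2⟩
      obtain ⟨w, hw, h3, h4⟩ := ih.1 h2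
      have ha : a % 3 < 3 := Nat.mod_lt _ (by norm_num)
      have hb : b % 3 < 3 := Nat.mod_lt _ (by norm_num)
      have hd : ((⟨a % 3, ha⟩ : Fin 3), (⟨b % 3, hb⟩ : Fin 3)) ≠ (1, 1) := by
        intro h
        rw [Prod.mk.injEq] at h
        have h5 := congrArg Fin.val h.1
        have h6 := congrArg Fin.val h.2
        exact h1 ⟨h5, h6⟩
      refine ⟨w ++ [⟨_, hd⟩], mem_Wd.2 (by simp [mem_Wd.1 hw]), ?_, ?_⟩
      · rw [ix_append, h3]
        simp only [List.length_cons, List.length_nil, ix]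
        omega
      · rw [iy_append, h4]
        simp only [List.length_cons, List.length_nil, iy]
        omega
    · rintro ⟨w, hw, h1, h2⟩
      have hl := mem_Wd.1 hw
      rcases List.eq_nil_or_concat w with rfl | ⟨v, d, rfl⟩
      · simp at hl
      · rw [List.concat_eq_append] at h1 h2 hl
        rw [ix_append] at h1
        rw [iy_append] at h2
        simp only [List.length_cons, List.length_nil, ix, iy] at h1 h2
        have hlv : v.length = m := by simpa using hl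
        have hd1 : (d.1.1 : ℕ) < 3 := d.1.1.2
        have hd2 : (d.1.2 : ℕ) < 3 := d.1.2.2
        refine ⟨?_, ih.2 ⟨v, mem_Wd.2 hlv, by omega, by omega⟩⟩
        rintro ⟨h3, h4⟩
        apply d.2
        refine Prod.ext (Fin.ext ?_) (Fin.ext ?_)
        · change (d.1.1 : ℕ) = 1
          omega
        · change (d.1.2 : ℕ) = 1
          omega

theorem Cel.lt {m a b : ℕ} (h : Cel m a b) : a < 3 ^ m ∧ b < 3 ^ m := by
  obtain ⟨w, hw, rfl, rfl⟩ := cel_iff.1 h
  rw [← mem_Wd.1 hw]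
  exact ⟨ix_lt w, iy_lt w⟩

/-- `Cel` of a composed position -/
theorem cel_add {n m A B a b : ℕ} (ha : a < 3 ^ m) (hb : b < 3 ^ m) :
    Cel (n + m) (3 ^ m * A + a) (3 ^ m * B + b) ↔ Cel n A B ∧ Cel m a b := by
  induction m generalizing a b with
  | zero =>
    rw [pow_zero] at ha hb
    have ha0 : a = 0 := by omega
    have hb0 : b = 0 := by omega
    subst ha0 hb0
    simp [Cel]
  | succ m ih =>
    rw [pow_succ] at ha hb
    have h1 : (3 ^ (m + 1) * A + a) % 3 = a % 3 := by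
      rw [pow_succ, show 3 ^ m * 3 * A + a = 3 * (3 ^ m * A) + a by ring]
      omega
    have h2 : (3 ^ (m + 1) * B + b) % 3 = b % 3 := by
      rw [pow_succ, show 3 ^ m * 3 * B + b = 3 * (3 ^ m * B) + b by ring]
      omega
    have h3 : (3 ^ (m + 1) * A + a) / 3 = 3 ^ m * A + a / 3 := by
      rw [pow_succ, show 3 ^ m * 3 * A + a = 3 * (3 ^ m * A) + a by ring]
      omega
    have h4 : (3 ^ (m + 1) * B + b) / 3 = 3 ^ m * B + b / 3 := by
      rw [pow_succ, show 3 ^ m * 3 * B + b = 3 * (3 ^ m * B) + b by ring]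
      omega
    change (¬ ((3 ^ (m + 1) * A + a) % 3 = 1 ∧ (3 ^ (m + 1) * B + b) % 3 = 1) ∧
      Cel (n + m) ((3 ^ (m + 1) * A + a) / 3) ((3 ^ (m + 1) * B + b) / 3)) ↔
      Cel n A B ∧ (¬ (a % 3 = 1 ∧ b % 3 = 1) ∧ Cel m (a / 3) (b / 3))
    rw [h1, h2, h3, h4, ih (by omega) (by omega)]
    tauto

/-- `Cel` is symmetric under the reflections of the square -/
theorem cel_symm {m a b : ℕ} : Cel m a b ↔ Cel m b a := by
  induction m generalizing a b with
  | zero => exact and_comm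
  | succ m ih =>
    change (¬ (a % 3 = 1 ∧ b % 3 = 1) ∧ Cel m (a / 3) (b / 3)) ↔
      (¬ (b % 3 = 1 ∧ a % 3 = 1) ∧ Cel m (b / 3) (a / 3))
    rw [ih]
    tauto

theorem cel_rx {m a b : ℕ} (ha : a < 3 ^ m) : Cel m a b ↔ Cel m (3 ^ m - 1 - a) b := by
  induction m generalizing a b with
  | zero =>
    rw [pow_zero] at ha
    have ha0 : a = 0 := by omega
    subst ha0
    simp [Cel]
  | succ m ih =>
    rw [pow_succ] at ha
    have h0 : 3 ^ (m + 1) = 3 ^ m * 3 := pow_succ 3 m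
    have h1 : (3 ^ (m + 1) - 1 - a) % 3 = 2 - a % 3 := by omega
    have h2 : (3 ^ (m + 1) - 1 - a) / 3 = 3 ^ m - 1 - a / 3 := by omega
    change (¬ (a % 3 = 1 ∧ b % 3 = 1) ∧ Cel m (a / 3) (b / 3)) ↔
      (¬ ((3 ^ (m + 1) - 1 - a) % 3 = 1 ∧ b % 3 = 1) ∧
        Cel m ((3 ^ (m + 1) - 1 - a) / 3) (b / 3))
    rw [h1, h2, ih (by omega)]
    have h3 : a % 3 = 1 ↔ 2 - a % 3 = 1 := by omega
    rw [h3]

end CarpetLib
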