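import Pool.Agent.Lib.MP_f3090c_an.D.Defs
import Pool.Agent.Lib.MP_f3090c_an.D.WBasic

/-! D04: present squares and words. -/

open Set Filter Topology

namespace CarpetLib

private theorem Basic1_pres_iff {l a b : ℕ} : Pres l ((a : ℤ), (b : ℤ)) ↔ Cel l a b := by
  induction l generalizing a b with
  | zero =>
    change ((a : ℤ), (b : ℤ)) = (0, 0) ↔ a = 0 ∧ b = 0
    rw [Prod.mk.injEq]
    omega
  | succ l ih =>
    change (Pres l ((a : ℤ) / 3, (b : ℤ) / 3) ∧ ¬ ((a : ℤ) % 3 = 1 ∧ (b : ℤ) % 3 = 1)) ↔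
      (¬ (a % 3 = 1 ∧ b % 3 = 1) ∧ Cel l (a / 3) (b / 3))
    have e1 : (a : ℤ) / 3 = ((a / 3 : ℕ) : ℤ) := by omega
    have e2 : (b : ℤ) / 3 = ((b / 3 : ℕ) : ℤ) := by omega
    rw [e1, e2, ih]
    have e3 : (a : ℤ) % 3 = 1 ↔ a % 3 = 1 := by omega
    have e4 : (b : ℤ) % 3 = 1 ↔ b % 3 = 1 := by omega
    rw [e3, e4]
    tauto

private theorem Basic1_bd {l : ℕ} {q : Ix} (h : Pres l q) :
    0 ≤ q.1 ∧ q.1 < 3 ^ l ∧ 0 ≤ q.2 ∧ q.2 < 3 ^ l := by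
  induction l generalizing q with
  | zero =>
    have h' : q = (0, 0) := h
    subst h'
    simp
  | succ l ih =>
    obtain ⟨h1, h2, h3, h4⟩ := ih h.1
    simp only at h1 h2 h3 h4
    rw [pow_succ]
    omega

/-- Proof: induction on `l`; a word of length `l + 1` is `w ++ [d]` and `ix (w ++ [d]) = 3 * ix w + d`,
`iy (w ++ [d]) = 3 * iy w + d` (`ix_append`, `iy_append`). -/
theorem pres_iff_word {l : ℕ} {q : Ix} :
    Pres l q ↔ ∃ w : List Dig, w.length = l ∧ (ix w : ℤ) = q.1 ∧ (iy w : ℤ) = q.2 := by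
  constructor
  · intro h
    obtain ⟨h1, -, h3, -⟩ := Basic1_bd h
    obtain ⟨a, ha⟩ := Int.eq_ofNat_of_zero_le h1
    obtain ⟨b, hb⟩ := Int.eq_ofNat_of_zero_le h3
    have hq : q = ((a : ℤ), (b : ℤ)) := Prod.ext ha hb
    rw [hq] at h ⊢
    obtain ⟨w, hw, hx, hy⟩ := cel_iff.1 (Basic1_pres_iff.1 h)
    exact ⟨w, mem_Wd.1 hw, by rw [hx], by rw [hy]⟩
  · rintro ⟨w, hw, hx, hy⟩
    have hq : q = ((ix w : ℤ), (iy w : ℤ)) := Prod.ext hx.symm hy.symm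
    rw [hq]
    exact Basic1_pres_iff.2 (cel_iff.2 ⟨w, mem_Wd.2 hw, rfl, rfl⟩)

theorem pres_bd {l : ℕ} {q : Ix} (h : Pres l q) : 0 ≤ q.1 ∧ q.1 < 3 ^ l ∧ 0 ≤ q.2 ∧ q.2 < 3 ^ l :=
  Basic1_bd h

/-- Proof: finite box. -/
theorem pres_finite (l : ℕ) : {q : Ix | Pres l q}.Finite := by
  refine ((Set.finite_Ico (0 : ℤ) (3 ^ l)).prod (Set.finite_Ico (0 : ℤ) (3 ^ l))).subset ?_
  intro q hq
  obtain ⟨h1, h2, h3, h4⟩ := pres_bd hq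
  exact ⟨⟨h1, h2⟩, h3, h4⟩

/-- `K ∩ (closed square) = ψ_w(K)`: `mem_cellW_iff`. -/
theorem cell_word (w : List Dig) :
    cell w.length ((ix w : ℤ), (iy w : ℤ)) = range (psiW w) := by
  ext z
  have h := mem_cellW_iff (w := w) (z := z)
  change _ ↔ z ∈ cellW w
  rw [h]
  change ((((ix w : ℤ) : ℝ) ≤ 3 ^ w.length * z.1.1 ∧ 3 ^ w.length * z.1.1 ≤ ((ix w : ℤ) : ℝ) + 1) ∧
    (((iy w : ℤ) : ℝ) ≤ 3 ^ w.length * z.1.2 ∧ 3 ^ w.length * z.1.2 ≤ ((iy w : ℤ) : ℝ) + 1)) ↔ _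
  rw [Int.cast_natCast, Int.cast_natCast]

theorem exists_cell_mem (l : ℕ) (z : K) : ∃ q, Pres l q ∧ z ∈ cell l q := by
  obtain ⟨w, hw, hz⟩ := exists_mem_cellW l z
  have hl := mem_Wd.1 hw
  refine ⟨((ix w : ℤ), (iy w : ℤ)), pres_iff_word.2 ⟨w, hl, rfl, rfl⟩, ?_⟩
  rw [← hl, cell_word]
  exact hz

end CarpetLib
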