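import Pool.Agent.Lib.MP_f3090c_an.D.Basic1
import Pool.Agent.Lib.MP_f3090c_an.R.Sep

/-! D05: elementary geometry of cells. Use `pres_iff_word`, `cell_word`, `mem_cellW_iff`, `psiW_fst`, `psiW_snd`. -/

open Set Filter Topology

namespace CarpetLib

private theorem b2_word {l : ℕ} {q : Ix} (h : Pres l q) :
    ∃ w : List Dig, w.length = l ∧ ((ix w : ℝ) = q.1 ∧ (iy w : ℝ) = q.2) ∧
      cell l q = range (psiW w) := by
  obtain ⟨w, rfl, h1, h2⟩ := pres_iff_word.1 h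
  refine ⟨w, rfl, ⟨?_, ?_⟩, ?_⟩
  · rw [← h1]; push_cast; rfl
  · rw [← h2]; push_cast; rfl
  · rw [← cell_word w, h1, h2]

/-- the copy of `z : K` in the cell `q` -/
theorem emb_mem {l : ℕ} {q : Ix} (h : Pres l q) (z : K) :
    ∃ y : K, y.1 = ((z.1.1 + q.1) / 3 ^ l, (z.1.2 + q.2) / 3 ^ l) ∧ y ∈ cell l q := by
  obtain ⟨w, hl, ⟨h1, h2⟩, h3⟩ := b2_word h
  refine ⟨psiW w z, Prod.ext ?_ ?_, ?_⟩
  · rw [psiW_fst, h1, hl]
  · rw [psiW_snd, h2, hl]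
  · rw [h3]; exact mem_range_self z

/-- every point of a present cell is such a copy -/
theorem emb_surj {l : ℕ} {q : Ix} (h : Pres l q) {y : K} (hy : y ∈ cell l q) :
    ∃ z : K, y.1 = ((z.1.1 + q.1) / 3 ^ l, (z.1.2 + q.2) / 3 ^ l) := by
  obtain ⟨w, hl, ⟨h1, h2⟩, h3⟩ := b2_word h
  rw [h3] at hy
  obtain ⟨z, rfl⟩ := hy
  refine ⟨z, Prod.ext ?_ ?_⟩
  · rw [psiW_fst, h1, hl]
  · rw [psiW_snd, h2, hl]

/-- vertices of present cells are points of the carpet -/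
theorem vert_mem {l : ℕ} {q v : Ix} (h : Pres l q) (h1 : q.1 ≤ v.1 ∧ v.1 ≤ q.1 + 1)
    (h2 : q.2 ≤ v.2 ∧ v.2 ≤ q.2 + 1) :
    ∃ y : K, y.1 = ((v.1 : ℝ) / 3 ^ l, (v.2 : ℝ) / 3 ^ l) ∧ y ∈ cell l q := by
  have key : ∀ (z : K) (a b : ℤ), z.1 = ((a : ℝ), (b : ℝ)) → v.1 = q.1 + a → v.2 = q.2 + b →
      ∃ y : K, y.1 = ((v.1 : ℝ) / 3 ^ l, (v.2 : ℝ) / 3 ^ l) ∧ y ∈ cell l q := by
    intro z a b hz ha hb
    obtain ⟨y, hy, hy'⟩ := emb_mem h z
    refine ⟨y, ?_, hy'⟩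
    rw [hy, hz, ha, hb]
    push_cast
    rw [add_comm (a : ℝ), add_comm (b : ℝ)]
  obtain ⟨h3, h4⟩ := h1
  obtain ⟨h5, h6⟩ := h2
  have e1 : v.1 = q.1 + 0 ∨ v.1 = q.1 + 1 := by omega
  have e2 : v.2 = q.2 + 0 ∨ v.2 = q.2 + 1 := by omega
  rcases e1 with e1 | e1 <;> rcases e2 with e2 | e2
  · exact key c00 0 0 (by simp [c00]) e1 e2
  · exact key c01 0 1 (by simp [c01]) e1 e2
  · exact key c10 1 0 (by simp [c10]) e1 e2
  · exact key c11 1 1 (by simp [c11]) e1 e2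

private theorem b2_closed (l : ℕ) (a b c d : ℝ) :
    IsClosed {z : K | (a ≤ 3 ^ l * z.1.1 ∧ 3 ^ l * z.1.1 ≤ b) ∧
      (c ≤ 3 ^ l * z.1.2 ∧ 3 ^ l * z.1.2 ≤ d)} := by
  have h1 : Continuous fun z : K => 3 ^ l * z.1.1 :=
    continuous_const.mul (continuous_fst.comp continuous_subtype_val)
  have h2 : Continuous fun z : K => 3 ^ l * z.1.2 :=
    continuous_const.mul (continuous_snd.comp continuous_subtype_val)
  exact ((isClosed_le continuous_const h1).inter (isClosed_le h1 continuous_const)).inter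
    ((isClosed_le continuous_const h2).inter (isClosed_le h2 continuous_const))

theorem cell_closed (l : ℕ) (q : Ix) : IsClosed (cell l q) :=
  b2_closed l q.1 (q.1 + 1) q.2 (q.2 + 1)

theorem nb_closed (l : ℕ) (q : Ix) : IsClosed (nb l q) :=
  b2_closed l (q.1 - 1 / 3) (q.1 + 4 / 3) (q.2 - 1 / 3) (q.2 + 4 / 3)

theorem cell_nonempty {l : ℕ} {q : Ix} (h : Pres l q) : (cell l q).Nonempty := by
  obtain ⟨y, -, hy⟩ := emb_mem h c00
  exact ⟨y, hy⟩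

/-- `K` is preconnected (any `SymForm` gives this: `RForm.preconnected`), so its image under `psiW w` is. -/
theorem cell_conn (S : SymForm) {l : ℕ} {q : Ix} (h : Pres l q) : IsPreconnected (cell l q) := by
  obtain ⟨w, -, -, h3⟩ := b2_word h
  rw [h3]
  exact cellW_preconnected_of S.toRForm.preconnected w

theorem cell_subset_nb (l : ℕ) (q : Ix) : cell l q ⊆ nb l q := by
  rintro z ⟨⟨h1, h2⟩, h3, h4⟩
  exact ⟨⟨by linarith, by linarith⟩, by linarith, by linarith⟩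

/-- (0.1) -/
theorem near_of_nb {l : ℕ} {p q : Ix} {z : K} (h : z ∈ nb l p) (hq : z ∈ cell l q) : Near 1 p q := by
  obtain ⟨⟨h1, h2⟩, h3, h4⟩ := h
  obtain ⟨⟨k1, k2⟩, k3, k4⟩ := hq
  have key : ∀ (a b : ℤ) (t : ℝ), (a : ℝ) - 1 / 3 ≤ t → t ≤ a + 4 / 3 → (b : ℝ) ≤ t →
      t ≤ b + 1 → |a - b| ≤ 1 := by
    intro a b t ha ha' hb hb'
    have e1 : (a : ℝ) < b + 2 := by linarith
    have e2 : (b : ℝ) < a + 2 := by linarith
    have e3 : a < b + 2 := by exact_mod_cast e1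
    have e4 : b < a + 2 := by exact_mod_cast e2
    rw [abs_le]
    omega
  exact ⟨key _ _ _ h1 h2 k1 k2, key _ _ _ h3 h4 k3 k4⟩

/-- points of `nb l p` lie in present cells touching `p` -/
theorem nb_cover {l : ℕ} {p : Ix} {z : K} (h : z ∈ nb l p) :
    ∃ q, Pres l q ∧ z ∈ cell l q ∧ Near 1 p q := by
  obtain ⟨q, hq, hz⟩ := exists_cell_mem l z
  exact ⟨q, hq, hz, near_of_nb h hz⟩

/-- touching present cells have a common vertex -/
theorem near_share {l : ℕ} {p q : Ix} (hp : Pres l p) (h : Near 1 p q) :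
    ∃ y : K, y ∈ cell l p ∧ y ∈ cell l q := by
  obtain ⟨h1, h2⟩ := h
  rw [abs_le] at h1 h2
  obtain ⟨y, hy, hyp⟩ := vert_mem (v := (max p.1 q.1, max p.2 q.2)) hp
    (by constructor <;> omega) (by constructor <;> omega)
  refine ⟨y, hyp, ?_⟩
  have h3 : (3 : ℝ) ^ l ≠ 0 := by positivity
  have e1 : 3 ^ l * y.1.1 = ((max p.1 q.1 : ℤ) : ℝ) := by
    rw [hy]; field_simp
  have e2 : 3 ^ l * y.1.2 = ((max p.2 q.2 : ℤ) : ℝ) := by
    rw [hy]; field_simp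
  have f1 : q.1 ≤ max p.1 q.1 ∧ max p.1 q.1 ≤ q.1 + 1 := by constructor <;> omega
  have f2 : q.2 ≤ max p.2 q.2 ∧ max p.2 q.2 ≤ q.2 + 1 := by constructor <;> omega
  change ((q.1 : ℝ) ≤ 3 ^ l * y.1.1 ∧ 3 ^ l * y.1.1 ≤ q.1 + 1) ∧
    ((q.2 : ℝ) ≤ 3 ^ l * y.1.2 ∧ 3 ^ l * y.1.2 ≤ q.2 + 1)
  rw [e1, e2]
  exact ⟨⟨by exact_mod_cast f1.1, by exact_mod_cast f1.2⟩,
    by exact_mod_cast f2.1, by exact_mod_cast f2.2⟩

/-- closed square of a present cell, intersected with the carpet -/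
theorem mem_cell {l : ℕ} {q : Ix} {z : K} : z ∈ cell l q ↔ z.1 ∈ sqr l q := Iff.rfl

end CarpetLib
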