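import Pool.Agent.Lib.MP_f3090c_an.D.Basic2

/-! D05b: levels. -/

open Set Filter Topology

namespace CarpetLib

private theorem b3_mod {M : ℤ} (hM : 0 < M) (x : ℤ) :
    x % (3 * M) / 3 = x / 3 % M ∧ x % (3 * M) % 3 = x % 3 := by
  have h3 : x % (3 * M) = 3 * (x / 3 % M) + x % 3 := by
    have e1 : x = (3 * (x / 3 % M) + x % 3) + (3 * M) * (x / 3 / M) := by
      have h1 := Int.mul_ediv_add_emod x 3
      have h2 := Int.mul_ediv_add_emod (x / 3) M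
      linear_combination -h1 - 3 * h2
    have b1 := Int.emod_nonneg (x / 3) hM.ne'
    have b2 := Int.emod_lt_of_pos (x / 3) hM
    have b3 : 0 ≤ x % 3 := Int.emod_nonneg x (by norm_num)
    have b4 : x % 3 < 3 := Int.emod_lt_of_pos x (by norm_num)
    conv_lhs => rw [e1]
    rw [Int.add_mul_emod_self_left]
    exact Int.emod_eq_of_lt (by omega) (by omega)
  constructor
  · rw [h3]; omega
  · rw [h3]; omega

/-- Proof: induction on `m`. -/
theorem pres_add (n m : ℕ) (x : Ix) :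
    Pres (n + m) x ↔ Pres n (par m x) ∧ Pres m (x.1 % 3 ^ m, x.2 % 3 ^ m) := by
  induction m generalizing x with
  | zero =>
    simp [par, Pres]
  | succ m ih =>
    have hM : (0 : ℤ) < 3 ^ m := by positivity
    have e1 : Pres (n + (m + 1)) x ↔
        Pres (n + m) (x.1 / 3, x.2 / 3) ∧ ¬ (x.1 % 3 = 1 ∧ x.2 % 3 = 1) := Iff.rfl
    have e2 : Pres (m + 1) (x.1 % 3 ^ (m + 1), x.2 % 3 ^ (m + 1)) ↔
        Pres m (x.1 % 3 ^ (m + 1) / 3, x.2 % 3 ^ (m + 1) / 3) ∧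
          ¬ (x.1 % 3 ^ (m + 1) % 3 = 1 ∧ x.2 % 3 ^ (m + 1) % 3 = 1) := Iff.rfl
    have e3 : par m (x.1 / 3, x.2 / 3) = par (m + 1) x := by
      unfold par
      simp only
      rw [Int.ediv_ediv_of_nonneg (by norm_num), Int.ediv_ediv_of_nonneg (by norm_num), pow_succ']
    rw [e1, e2, ih, e3]
    have a1 := b3_mod hM x.1
    have a2 := b3_mod hM x.2
    rw [pow_succ', a1.1, a1.2, a2.1, a2.2]
    exact and_assoc

theorem pres_par {n m : ℕ} {x : Ix} (h : Pres (n + m) x) : Pres n (par m x) :=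
  ((pres_add n m x).1 h).1

private theorem b3_par {n m : ℕ} {a : ℤ} {t : ℝ} (h1 : (a : ℝ) ≤ 3 ^ (n + m) * t)
    (h2 : 3 ^ (n + m) * t ≤ a + 1) :
    ((a / 3 ^ m : ℤ) : ℝ) ≤ 3 ^ n * t ∧ 3 ^ n * t ≤ ((a / 3 ^ m : ℤ) : ℝ) + 1 := by
  have hM : (0 : ℤ) < 3 ^ m := by positivity
  have hMr : (0 : ℝ) < 3 ^ m := by positivity
  have k1 : 3 ^ m * (a / 3 ^ m) ≤ a := Int.mul_ediv_self_le hM.ne'
  have k2 : a + 1 ≤ 3 ^ m * (a / 3 ^ m) + 3 ^ m := by
    have := Int.lt_mul_ediv_self_add (x := a) hM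
    omega
  have k1' : (3 : ℝ) ^ m * ((a / 3 ^ m : ℤ) : ℝ) ≤ a := by exact_mod_cast k1
  have k2' : (a : ℝ) + 1 ≤ (3 : ℝ) ^ m * ((a / 3 ^ m : ℤ) : ℝ) + 3 ^ m := by exact_mod_cast k2
  rw [pow_add] at h1 h2
  constructor
  · refine le_of_mul_le_mul_left ?_ hMr
    nlinarith
  · refine le_of_mul_le_mul_left ?_ hMr
    nlinarith

theorem cell_par (n m : ℕ) (x : Ix) : cell (n + m) x ⊆ cell n (par m x) := by
  rintro z ⟨⟨h1, h2⟩, h3, h4⟩
  exact ⟨b3_par h1 h2, b3_par h3 h4⟩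

/-- each point of a present cell is in a present subcell of each finer level -/
theorem cell_sub {n m : ℕ} {U : Ix} (hU : Pres n U) {z : K} (hz : z ∈ cell n U) :
    ∃ q, Pres (n + m) q ∧ par m q = U ∧ z ∈ cell (n + m) q := by
  obtain ⟨z', hz'⟩ := emb_surj hU hz
  obtain ⟨q, hq, hqz⟩ := exists_cell_mem m z'
  obtain ⟨b1, b2, b3, b4⟩ := pres_bd hq
  have hM : (0 : ℤ) < 3 ^ m := by positivity
  have d1 : (q.1 + 3 ^ m * U.1) / 3 ^ m = U.1 := by
    rw [Int.add_mul_ediv_left _ _ hM.ne', Int.ediv_eq_zero_of_lt b1 b2, zero_add]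
  have d2 : (q.2 + 3 ^ m * U.2) / 3 ^ m = U.2 := by
    rw [Int.add_mul_ediv_left _ _ hM.ne', Int.ediv_eq_zero_of_lt b3 b4, zero_add]
  have m1 : (q.1 + 3 ^ m * U.1) % 3 ^ m = q.1 := by
    rw [Int.add_mul_emod_self_left, Int.emod_eq_of_lt b1 b2]
  have m2 : (q.2 + 3 ^ m * U.2) % 3 ^ m = q.2 := by
    rw [Int.add_mul_emod_self_left, Int.emod_eq_of_lt b3 b4]
  have hpar : par m (q.1 + 3 ^ m * U.1, q.2 + 3 ^ m * U.2) = U := Prod.ext d1 d2
  refine ⟨(q.1 + 3 ^ m * U.1, q.2 + 3 ^ m * U.2), ?_, hpar, ?_⟩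
  · rw [pres_add, hpar]
    refine ⟨hU, ?_⟩
    simp only
    rw [m1, m2]
    exact hq
  · obtain ⟨⟨c1, c2⟩, c3, c4⟩ := hqz
    have f1 : z.1.1 = (z'.1.1 + U.1) / 3 ^ n := by rw [hz']
    have f2 : z.1.2 = (z'.1.2 + U.2) / 3 ^ n := by rw [hz']
    have g1 : (3 : ℝ) ^ (n + m) * z.1.1 = 3 ^ m * z'.1.1 + 3 ^ m * U.1 := by
      rw [f1, pow_add]
      field_simp
    have g2 : (3 : ℝ) ^ (n + m) * z.1.2 = 3 ^ m * z'.1.2 + 3 ^ m * U.2 := by
      rw [f2, pow_add]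
      field_simp
    refine ⟨⟨?_, ?_⟩, ?_, ?_⟩
    · rw [g1]; push_cast; linarith
    · rw [g1]; push_cast; linarith
    · rw [g2]; push_cast; linarith
    · rw [g2]; push_cast; linarith

private theorem b3_near {M a b : ℤ} (hM : 0 < M) (h : |a - b| ≤ 1) : |a / M - b / M| ≤ 1 := by
  rw [abs_le] at h ⊢
  have h1 : a / M ≤ b / M + 1 := by
    calc a / M ≤ (b + M) / M := Int.ediv_le_ediv hM (by omega)
      _ = b / M + 1 := by rw [← Int.add_mul_ediv_right b 1 hM.ne', one_mul]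
  have h2 : b / M ≤ a / M + 1 := by
    calc b / M ≤ (a + M) / M := Int.ediv_le_ediv hM (by omega)
      _ = a / M + 1 := by rw [← Int.add_mul_ediv_right a 1 hM.ne', one_mul]
  constructor <;> omega

theorem near_par {m : ℕ} {x y : Ix} (h : Near 1 x y) : Near 1 (par m x) (par m y) := by
  have hM : (0 : ℤ) < 3 ^ m := by positivity
  exact ⟨b3_near hM h.1, b3_near hM h.2⟩

end CarpetLib
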