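import Pool.Agent.Lib.MP_f3090c_an.R.Carre
import Pool.Agent.Lib.MP_f3090c_an.R.Glue

/-! Doubling DB08: energy of products and lattice operations; a Caccioppoli inequality. -/

open Set Filter Topology

namespace CarpetLib

variable {X : Type*}

namespace RForm

section
variable [TopologicalSpace X] [CompactSpace X] (R : RForm X)

private theorem RMul_infsup {f g : C(X, ℝ)} (hf : f ∈ R.dom) (hg : g ∈ R.dom) :
    R.E (f ⊓ g) (f ⊓ g) + R.E (f ⊔ g) (f ⊔ g) ≤ R.E f f + R.E g g := by
  have h1 : f ⊓ g = (2:ℝ)⁻¹ • (f + g - |f - g|) := by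
    ext x
    simp only [ContinuousMap.inf_apply, ContinuousMap.smul_apply, ContinuousMap.add_apply,
      ContinuousMap.abs_apply, ContinuousMap.sub_apply, smul_eq_mul]
    rcases le_total (f x) (g x) with h | h
    · rw [inf_eq_left.2 h, abs_of_nonpos (by linarith)]; ring
    · rw [inf_eq_right.2 h, abs_of_nonneg (by linarith)]; ring
  have h2 : f ⊔ g = (2:ℝ)⁻¹ • (f + g + |f - g|) := by
    ext x
    simp only [ContinuousMap.sup_apply, ContinuousMap.smul_apply, ContinuousMap.add_apply,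
      ContinuousMap.abs_apply, ContinuousMap.sub_apply, smul_eq_mul]
    rcases le_total (f x) (g x) with h | h
    · rw [sup_eq_right.2 h, abs_of_nonpos (by linarith)]; ring
    · rw [sup_eq_left.2 h, abs_of_nonneg (by linarith)]; ring
  have h3 := (R.abs_mem (R.dom.sub_mem hf hg)).2
  rw [h1, h2]
  set k : C(X, ℝ) := |f - g| with hk
  simp only [map_add, map_sub, map_smul, LinearMap.add_apply, LinearMap.sub_apply,
    LinearMap.smul_apply, smul_eq_mul] at h3 ⊢
  rw [R.symm k f, R.symm k g, R.symm g f] at *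
  linarith

/-- Proof: `E(f ⊓ g) + E(f ⊔ g) ≤ E(f) + E(g)` since `f ⊓ g = (f + g - |f - g|)/2`,
`f ⊔ g = (f + g + |f - g|)/2` and `E|f - g| ≤ E(f - g)`. -/
theorem E_inf_le {f g : C(X, ℝ)} (hf : f ∈ R.dom) (hg : g ∈ R.dom) :
    R.E (f ⊓ g) (f ⊓ g) ≤ R.E f f + R.E g g := by
  have h1 := R.RMul_infsup hf hg
  have h2 := R.nonneg (f ⊔ g)
  linarith

theorem E_sup_le {f g : C(X, ℝ)} (hf : f ∈ R.dom) (hg : g ∈ R.dom) :
    R.E (f ⊔ g) (f ⊔ g) ≤ R.E f f + R.E g g := by
  have h1 := R.RMul_infsup hf hg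
  have h2 := R.nonneg (f ⊓ g)
  linarith

end

private theorem RMul_alg {a b u v w z : ℝ} (hu : |u| ≤ a) (hv : |v| ≤ a) (hw : |w| ≤ b)
    (hz : |z| ≤ b) :
    (u * w - v * z) ^ 2 ≤ 2 * (a ^ 2 * (w - z) ^ 2 + b ^ 2 * (u - v) ^ 2) := by
  have h1 : ((u + v) / 2) ^ 2 ≤ a ^ 2 := by
    apply sq_le_sq'
    · linarith [(abs_le.1 hu).1, (abs_le.1 hv).1]
    · linarith [(abs_le.1 hu).2, (abs_le.1 hv).2]
  have h2 : ((w + z) / 2) ^ 2 ≤ b ^ 2 := by
    apply sq_le_sq'
    · linarith [(abs_le.1 hw).1, (abs_le.1 hz).1]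
    · linarith [(abs_le.1 hw).2, (abs_le.1 hz).2]
  have h3 := mul_le_mul_of_nonneg_right h1 (sq_nonneg (w - z))
  have h4 := mul_le_mul_of_nonneg_right h2 (sq_nonneg (u - v))
  have h5 : (u * w - v * z) = (u + v) / 2 * (w - z) + (w + z) / 2 * (u - v) := by ring
  rw [h5]
  have h6 := sq_nonneg ((u + v) / 2 * (w - z) - (w + z) / 2 * (u - v))
  linarith [h3, h4, h6, mul_pow ((u + v) / 2) (w - z) 2, mul_pow ((w + z) / 2) (u - v) 2,
    add_sq ((u + v) / 2 * (w - z)) ((w + z) / 2 * (u - v)),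
    sub_sq ((u + v) / 2 * (w - z)) ((w + z) / 2 * (u - v))]

section
variable [MetricSpace X] [CompactSpace X] (R : RForm X)

/-- the extension operators attached to an increasing dense sequence of finite sets converge -/
private theorem RMul_conv (d : ℕ → X) (hd : DenseRange d) (H : ℕ → C(X, ℝ) →ₗ[ℝ] C(X, ℝ))
    (hH : ∀ n, ∀ f ∈ R.dom, H n f ∈ R.dom ∧ (∀ k ≤ n, H n f (d k) = f (d k)) ∧
      ∀ g ∈ R.dom, (∀ k ≤ n, g (d k) = 0) → R.E (H n f) g = 0)
    {a : C(X, ℝ)} (ha : a ∈ R.dom) :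
    Tendsto (fun n => R.E (a - H n a) (a - H n a)) atTop (𝓝 0) := by
  have h0 : ∀ n m, n ≤ m → R.E (H n a) (H m a - H n a) = 0 := by
    intro n m hnm
    refine (hH n a ha).2.2 _ (R.dom.sub_mem (hH m a ha).1 (hH n a ha).1) ?_
    intro k hk
    rw [ContinuousMap.sub_apply, (hH m a ha).2.1 k (hk.trans hnm), (hH n a ha).2.1 k hk, sub_self]
  have h1 : ∀ n, R.E (H n a) (a - H n a) = 0 := by
    intro n
    refine (hH n a ha).2.2 _ (R.dom.sub_mem ha (hH n a ha).1) ?_
    intro k hk
    rw [ContinuousMap.sub_apply, (hH n a ha).2.1 k hk, sub_self]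
  have e0 : ∀ n m, n ≤ m → R.E (H m a - H n a) (H m a - H n a) =
      R.E (H m a) (H m a) - R.E (H n a) (H n a) := by
    intro n m hnm
    have h := h0 n m hnm
    simp only [map_sub, LinearMap.sub_apply] at h ⊢
    rw [R.symm (H m a) (H n a)]
    linarith
  have e1 : ∀ n, R.E (H n a) (H n a) ≤ R.E a a := by
    intro n
    have h := h1 n
    have h2 := R.nonneg (a - H n a)
    simp only [map_sub, LinearMap.sub_apply] at h h2
    rw [R.symm a (H n a)] at h2
    linarith
  have hmono : Monotone fun n => R.E (H n a) (H n a) := by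
    intro n m hnm
    have h := e0 n m hnm
    have h2 := R.nonneg (H m a - H n a)
    simp only
    linarith
  have hbdd : BddAbove (range fun n => R.E (H n a) (H n a)) := ⟨R.E a a, by
    rintro _ ⟨n, rfl⟩
    exact e1 n⟩
  have hconv := tendsto_atTop_ciSup hmono hbdd
  have hcau := hconv.cauchySeq
  obtain ⟨F, hF, hFt⟩ := R.complete (fun n => H n a) (fun n => (hH n a ha).1) (by
    intro ε hε
    obtain ⟨N, hN⟩ := Metric.cauchySeq_iff.1 hcau ε hε
    refine ⟨N, ?_⟩
    intro m hm n hn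
    rcases le_total n m with h | h
    · rw [e0 n m h]
      have := hN m hm n hn
      rw [Real.dist_eq] at this
      exact (le_abs_self _).trans_lt this
    · have h3 : R.E (H m a - H n a) (H m a - H n a) = R.E (H n a - H m a) (H n a - H m a) := by
        simp only [map_sub, LinearMap.sub_apply]
        ring
      rw [h3, e0 m n h]
      have := hN n hn m hm
      rw [Real.dist_eq] at this
      exact (le_abs_self _).trans_lt this)
  obtain ⟨C, hC, hb⟩ := R.bound
  have hg : ∀ k, (a - F) (d k) = (a - F) (d 0) := by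
    intro k
    have hlim : Tendsto (fun n => C * R.E (H n a - F) (H n a - F)) atTop (𝓝 (C * 0)) :=
      hFt.const_mul C
    have hle : ∀ᶠ n in atTop, ((a - F) (d k) - (a - F) (d 0)) ^ 2 ≤
        C * R.E (H n a - F) (H n a - F) := by
      filter_upwards [eventually_ge_atTop k] with n hn
      have h := hb (H n a - F) (R.dom.sub_mem (hH n a ha).1 hF) (d k) (d 0)
      rw [ContinuousMap.sub_apply, ContinuousMap.sub_apply, (hH n a ha).2.1 k hn,
        (hH n a ha).2.1 0 (Nat.zero_le n)] at h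
      rwa [ContinuousMap.sub_apply, ContinuousMap.sub_apply]
    have h := ge_of_tendsto hlim hle
    rw [mul_zero] at h
    have h2 := pow_eq_zero_iff (two_ne_zero) |>.1 (le_antisymm h (sq_nonneg _))
    linarith
  have hc : a - F = ContinuousMap.const X ((a - F) (d 0)) := by
    have h := hd.equalizer (a - F).continuous
      (ContinuousMap.const X ((a - F) (d 0))).continuous (by
        funext k
        exact hg k)
    exact DFunLike.coe_injective h
  have hz : ∀ g, R.E (a - F) g = 0 := by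
    intro g
    rw [hc, R.E_const_left]
  have he : ∀ n, R.E (a - H n a) (a - H n a) = R.E (H n a - F) (H n a - F) := by
    intro n
    have h3 := hz (a - H n a)
    have h4 := hz (H n a - F)
    simp only [map_sub, LinearMap.sub_apply] at h3 h4 ⊢
    rw [R.symm (H n a) a, R.symm F a, R.symm F (H n a)] at *
    linarith
  simpa only [he] using hFt

/-- networks approximating the form -/
private theorem RMul_net [Nonempty X] : ∃ (V : ℕ → Finset X) (c : ℕ → X → X → ℝ),
    (∀ n p q, 0 ≤ c n p q) ∧ ∀ a ∈ R.dom, ∀ b ∈ R.dom,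
      Tendsto (fun n => ∑ p ∈ V n, ∑ q ∈ V n, c n p q * (a p - a q) * (b p - b q)) atTop
        (𝓝 (R.E a b)) := by
  let d : ℕ → X := TopologicalSpace.denseSeq X
  have hd : DenseRange d := TopologicalSpace.denseRange_denseSeq X
  classical
  let V : ℕ → Finset X := fun n => (Finset.range (n + 1)).image d
  have hV : ∀ n, (V n).Nonempty := fun n => ⟨d 0, Finset.mem_image.2 ⟨0, by simp, rfl⟩⟩
  choose H c hc hH hE using fun n => R.trace_form (V n) (hV n)
  have hH' : ∀ n, ∀ f ∈ R.dom, H n f ∈ R.dom ∧ (∀ k ≤ n, H n f (d k) = f (d k)) ∧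
      ∀ g ∈ R.dom, (∀ k ≤ n, g (d k) = 0) → R.E (H n f) g = 0 := by
    intro n g hg
    obtain ⟨h1, h2, h3⟩ := hH n g hg
    refine ⟨h1, ?_, ?_⟩
    · intro k hk
      exact h2 _ (Finset.mem_image.2 ⟨k, Finset.mem_range.2 (Nat.lt_succ_of_le hk), rfl⟩)
    · intro u hu hu0
      refine h3 u hu ?_
      intro p hp
      obtain ⟨k, hk, rfl⟩ := Finset.mem_image.1 hp
      exact hu0 k (Nat.le_of_lt_succ (Finset.mem_range.1 hk))
  refine ⟨V, c, hc, ?_⟩
  intro a ha b hb
  have key : Tendsto (fun n => R.E (H n a) (H n b)) atTop (𝓝 (R.E a b)) := by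
    have h1 := R.RMul_conv d hd H hH' ha
    have h2 : ∀ n, R.E a b - R.E (H n a) (H n b) = R.E (a - H n a) b := by
      intro n
      have h3 : R.E (H n a) (b - H n b) = 0 := by
        refine (hH' n a ha).2.2 _ (R.dom.sub_mem hb (hH' n b hb).1) ?_
        intro k hk
        rw [ContinuousMap.sub_apply, (hH' n b hb).2.1 k hk, sub_self]
      simp only [map_sub, LinearMap.sub_apply] at h3 ⊢
      linarith
    have h4 : Tendsto (fun n => (R.E a b - R.E (H n a) (H n b)) ^ 2) atTop (𝓝 0) := by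
      have h5 : Tendsto (fun n => R.E (a - H n a) (a - H n a) * R.E b b) atTop
          (𝓝 (0 * R.E b b)) := h1.mul_const _
      rw [zero_mul] at h5
      refine squeeze_zero (fun n => sq_nonneg _) (fun n => ?_) h5
      rw [h2 n]
      exact R.cs _ _
    have h6 : Tendsto (fun n => R.E a b - R.E (H n a) (H n b)) atTop (𝓝 0) := by
      have h7 := (Real.continuous_sqrt.tendsto 0).comp h4
      rw [Real.sqrt_zero] at h7
      refine squeeze_zero_norm (fun n => ?_) h7
      simp only [Function.comp_apply]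
      rw [Real.sqrt_sq_eq_abs, Real.norm_eq_abs]
    have h8 : Tendsto (fun n => R.E a b - (R.E a b - R.E (H n a) (H n b))) atTop
        (𝓝 (R.E a b - 0)) := h6.const_sub _
    rw [sub_zero] at h8
    refine h8.congr (fun n => ?_)
    ring
  refine key.congr fun n => ?_
  exact hE n a ha b hb

/-- Product rule. Proof: as in `carre_nonneg`, pass to the traces on finite sets: for a network
`f_x g_x - f_y g_y = (f_x + f_y)/2 (g_x - g_y) + (g_x + g_y)/2 (f_x - f_y)`, so
`(f_x g_x - f_y g_y)² ≤ 2 a² (g_x - g_y)² + 2 b² (f_x - f_y)²`. -/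
theorem E_mul_le {f g : C(X, ℝ)} (hf : f ∈ R.dom) (hg : g ∈ R.dom) {a b : ℝ}
    (ha : ∀ x, |f x| ≤ a) (hb : ∀ x, |g x| ≤ b) :
    R.E (f * g) (f * g) ≤ 2 * (a ^ 2 * R.E g g + b ^ 2 * R.E f f) := by
  rcases isEmpty_or_nonempty X with hX | hX
  · have h0 : ∀ u : C(X, ℝ), u = 0 := fun u => by
      ext x
      exact (hX.false x).elim
    rw [h0 (f * g), h0 f, h0 g]
    simp
  obtain ⟨V, c, hc, hV⟩ := R.RMul_net
  have hfg := R.mul_mem hf hg
  refine le_of_tendsto_of_tendsto' (hV _ hfg _ hfg)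
    ((((hV _ hg _ hg).const_mul (a ^ 2)).add ((hV _ hf _ hf).const_mul (b ^ 2))).const_mul 2)
    fun n => ?_
  rw [Finset.mul_sum, Finset.mul_sum, ← Finset.sum_add_distrib, Finset.mul_sum]
  refine Finset.sum_le_sum fun p _ => ?_
  rw [Finset.mul_sum, Finset.mul_sum, ← Finset.sum_add_distrib, Finset.mul_sum]
  refine Finset.sum_le_sum fun q _ => ?_
  simp only [ContinuousMap.mul_apply]
  have h1 := RMul_alg (ha p) (ha q) (hb p) (hb q)
  have h2 := mul_le_mul_of_nonneg_left h1 (hc n p q)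
  have e1 : c n p q * (f p * g p - f q * g q) * (f p * g p - f q * g q) =
      c n p q * (f p * g p - f q * g q) ^ 2 := by ring
  have e2 : 2 * (a ^ 2 * (c n p q * (g p - g q) * (g p - g q)) +
      b ^ 2 * (c n p q * (f p - f q) * (f p - f q))) =
      c n p q * (2 * (a ^ 2 * (g p - g q) ^ 2 + b ^ 2 * (f p - f q) ^ 2)) := by ring
  rw [e1, e2]
  exact h2

/-- Caccioppoli. Proof: let `P` be `p` truncated at `± s`; `χ p = χ P`, `χ (χ p) = χ (χ P)`, and
`E(p - P, χ (χ P)) = 0` by `loc_zero` with the open set `{χ ≠ 0}` where `p = P`. So we may assume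
`|p| ≤ s` everywhere. For a network `(χ_x p_x - χ_y p_y)² - (p_x - p_y)(χ_x² p_x - χ_y² p_y) = p_x p_y (χ_x - χ_y)²
≤ s² (χ_x - χ_y)²`; pass to the limit as in `carre_nonneg`. -/
theorem caccioppoli {p χ : C(X, ℝ)} (hp : p ∈ R.dom) (hχ : χ ∈ R.dom) {s : ℝ} (hs : 0 ≤ s)
    (h : ∀ x, χ x ≠ 0 → |p x| ≤ s) :
    R.E (χ * p) (χ * p) ≤ R.E p (χ * (χ * p)) + s ^ 2 * R.E χ χ := by
  rcases isEmpty_or_nonempty X with hX | hX
  · have h0 : ∀ u : C(X, ℝ), u = 0 := fun u => by
      ext x
      exact (hX.false x).elim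
    rw [h0 (χ * p), h0 χ, h0 p]
    simp
  have hlip : LipschitzWith 1 (⟨fun t => max (-s) (min s t), by fun_prop⟩ : C(ℝ, ℝ)) := by
    apply LipschitzWith.of_dist_le_mul
    intro x y
    simp only [ContinuousMap.coe_mk, NNReal.coe_one, one_mul, Real.dist_eq]
    have k1 : |max (-s) (min s x) - max (-s) (min s y)| ≤ |min s x - min s y| := by
      have := abs_max_sub_max_le_max (-s) (min s x) (-s) (min s y)
      simpa using this
    have k2 : |min s x - min s y| ≤ |x - y| := by
      have := abs_min_sub_min_le_max s x s y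
      simpa using this
    exact k1.trans k2
  obtain ⟨P, hP, hPx⟩ : ∃ P : C(X, ℝ), P ∈ R.dom ∧ ∀ x, P x = max (-s) (min s (p x)) :=
    ⟨_, (R.markov p hp _ hlip).1, fun x => rfl⟩
  have hPs : ∀ x, |P x| ≤ s := by
    intro x
    rw [hPx, abs_le]
    exact ⟨le_max_left _ _, max_le (by linarith) (min_le_left _ _)⟩
  have hPp : ∀ x, χ x ≠ 0 → P x = p x := by
    intro x hx
    obtain ⟨h1, h2⟩ := abs_le.1 (h x hx)
    rw [hPx, min_eq_right h2, max_eq_right h1]
  have hχp : χ * p = χ * P := by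
    ext x
    by_cases hx : χ x = 0
    · simp [hx]
    · rw [ContinuousMap.mul_apply, ContinuousMap.mul_apply, hPp x hx]
  have hχP := R.mul_mem hχ hP
  have hχχP := R.mul_mem hχ hχP
  have hz : R.E (χ * (χ * P)) (p - P) = 0 := by
    refine R.loc_zero (O := {x | χ x ≠ 0}) (isOpen_ne_fun χ.continuous continuous_const) hχχP
      (R.dom.sub_mem hp hP) ?_ ?_
    · intro x hx
      have hx0 : χ x = 0 := by
        by_contra hne
        exact hx hne
      rw [ContinuousMap.mul_apply, hx0, zero_mul]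
    · intro x hx
      rw [ContinuousMap.sub_apply, hPp x hx, sub_self]
  have hz2 : R.E p (χ * (χ * P)) = R.E P (χ * (χ * P)) := by
    rw [map_sub] at hz
    rw [R.symm p, R.symm P]
    linarith
  rw [hχp, hz2]
  obtain ⟨V, c, hc, hV⟩ := R.RMul_net
  refine le_of_tendsto_of_tendsto' (hV _ hχP _ hχP)
    ((hV _ hP _ hχχP).add ((hV _ hχ _ hχ).const_mul (s ^ 2))) fun n => ?_
  rw [Finset.mul_sum, ← Finset.sum_add_distrib]
  refine Finset.sum_le_sum fun x _ => ?_
  rw [Finset.mul_sum, ← Finset.sum_add_distrib]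
  refine Finset.sum_le_sum fun y _ => ?_
  simp only [ContinuousMap.mul_apply]
  have h1 : P x * P y ≤ s ^ 2 := by
    have h2 : P x * P y ≤ |P x * P y| := le_abs_self _
    rw [abs_mul] at h2
    have h3 : |P x| * |P y| ≤ s * s := mul_le_mul (hPs x) (hPs y) (abs_nonneg _) hs
    rw [sq]
    exact h2.trans h3
  have h2 := mul_le_mul_of_nonneg_left h1 (mul_nonneg (hc n x y) (sq_nonneg (χ x - χ y)))
  have e1 : c n x y * (χ x * P x - χ y * P y) * (χ x * P x - χ y * P y) =
      c n x y * (P x - P y) * (χ x * (χ x * P x) - χ y * (χ y * P y)) +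
      c n x y * (χ x - χ y) ^ 2 * (P x * P y) := by ring
  have e2 : s ^ 2 * (c n x y * (χ x - χ y) * (χ x - χ y)) =
      c n x y * (χ x - χ y) ^ 2 * s ^ 2 := by ring
  rw [e1, e2]
  exact add_le_add le_rfl h2

end

end RForm

end CarpetLib
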