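import Pool.Agent.Lib.MP_f3090c_an.D.Cross0
import Pool.Agent.Lib.MP_f3090c_an.D.RMul

/-! Doubling DB12: bumps and cut-off functions at level `m`. -/

open Set Filter Topology

namespace CarpetLib

private theorem bp_unit (z : K) : (0 ≤ z.1.1 ∧ z.1.1 ≤ 1) ∧ (0 ≤ z.1.2 ∧ z.1.2 ≤ 1) :=
  carpet_subset_unitSq z.2

private theorem bp_eq {m : ℕ} {w w' : List Dig} (hw : w ∈ Wd m) (hw' : w' ∈ Wd m) {z z' : K}
    (h : psiW w z = psiW w' z') :
    z.1.1 + ix w = z'.1.1 + ix w' ∧ z.1.2 + iy w = z'.1.2 + iy w' := by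
  have h3 : (3 : ℝ) ^ m ≠ 0 := by positivity
  have h1 : (psiW w z).1.1 = (psiW w' z').1.1 := by rw [h]
  have h2 : (psiW w z).1.2 = (psiW w' z').1.2 := by rw [h]
  rw [psiW_fst, psiW_fst, mem_Wd.1 hw, mem_Wd.1 hw', div_left_inj' h3] at h1
  rw [psiW_snd, psiW_snd, mem_Wd.1 hw, mem_Wd.1 hw', div_left_inj' h3] at h2
  exact ⟨h1, h2⟩

private theorem bp_num {a b : ℕ} {s t : ℝ} (hs : 0 ≤ s ∧ s ≤ 1) (ht : 0 ≤ t ∧ t ≤ 1)
    (h : s + a = t + b) (hab : a < b) : b = a + 1 ∧ s = 1 ∧ t = 0 := by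
  have h1 : (a : ℝ) + 1 ≤ b := by exact_mod_cast hab
  have h2 : (b : ℝ) ≤ a + 1 := by linarith [hs.2, ht.1]
  have h3 : b ≤ a + 1 := by exact_mod_cast h2
  have h4 : b = a + 1 := by omega
  refine ⟨h4, ?_, ?_⟩ <;> linarith [hs.1, hs.2, ht.1, ht.2]

private theorem bp_same {u : C(K, ℝ)} (hs : u.comp ryK = u) {m : ℕ} {w w' : List Dig}
    (hw : w ∈ Wd m) (hw' : w' ∈ Wd m) {z z' : K} (h : psiW w z = psiW w' z')
    (hx : ix w = ix w') : u z = u z' := by
  obtain ⟨h1, h2⟩ := bp_eq hw hw' h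
  have hxx : z.1.1 = z'.1.1 := by
    rw [hx] at h1
    linarith
  have hs' : ∀ y : K, u (ryK y) = u y := fun y => by
    conv_rhs => rw [← hs]
    rfl
  rcases lt_trichotomy (iy w) (iy w') with h3 | h3 | h3
  · obtain ⟨-, h5, h6⟩ := bp_num (bp_unit z).2 (bp_unit z').2 h2 h3
    have : z' = ryK z := by
      refine Subtype.ext (Prod.ext ?_ ?_)
      · rw [ryK_fst, hxx]
      · rw [ryK_snd, h5, h6, sub_self]
    rw [this, hs']
  · have : z = z' := by
      refine Subtype.ext (Prod.ext hxx ?_)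
      rw [h3] at h2
      linarith
    rw [this]
  · obtain ⟨-, h5, h6⟩ := bp_num (bp_unit z').2 (bp_unit z).2 h2.symm h3
    have : z = ryK z' := by
      refine Subtype.ext (Prod.ext ?_ ?_)
      · rw [ryK_fst, hxx]
      · rw [ryK_snd, h5, h6, sub_self]
    rw [this, hs']

/-- the column function on a cell -/
private noncomputable def bpCol (u : C(K, ℝ)) (a : ℤ) (w : List Dig) : C(K, ℝ) :=
  if (ix w : ℤ) < a then 0 else if (ix w : ℤ) = a then u else 1

private theorem bp_step {u : C(K, ℝ)} (h0 : ∀ z : K, z.1.1 = 0 → u z = 0)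
    (h1 : ∀ z : K, z.1.1 = 1 → u z = 1) {a : ℤ} {w w' : List Dig} {z z' : K}
    (hx : ix w' = ix w + 1) (hz : z.1.1 = 1) (hz' : z'.1.1 = 0) :
    bpCol u a w z = bpCol u a w' z' := by
  unfold bpCol
  rcases lt_trichotomy (ix w : ℤ) a with h | h | h
  · rw [if_pos h]
    by_cases h2 : (ix w' : ℤ) < a
    · rw [if_pos h2]
      rfl
    · have h3 : (ix w' : ℤ) = a := by omega
      rw [if_neg h2, if_pos h3, h0 z' hz']
      rfl
  · rw [if_neg (by omega), if_pos h, if_neg (by omega), if_neg (by omega), h1 z hz]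
    rfl
  · rw [if_neg (by omega), if_neg (by omega), if_neg (by omega), if_neg (by omega)]
    rfl

/-- column functions: `0` on the cells left of column `a`, `u` in column `a`, `1` to the right.
Proof: `glue_words`. -/
theorem exists_column (S : SymForm) {u : C(K, ℝ)} (hu : u ∈ S.dom)
    (h0 : ∀ z : K, z.1.1 = 0 → u z = 0) (h1 : ∀ z : K, z.1.1 = 1 → u z = 1)
    (hs : u.comp ryK = u) (m : ℕ) (a : ℤ) : ∃ G ∈ S.dom, ∀ w ∈ Wd m,
      ((ix w : ℤ) < a → G.comp (psiW w) = 0) ∧ ((ix w : ℤ) = a → G.comp (psiW w) = u) ∧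
      (a < ix w → G.comp (psiW w) = 1) := by
  obtain ⟨G, hG⟩ := glue_words m (bpCol u a) (by
    intro w hw w' hw' z z' h
    obtain ⟨e1, e2⟩ := bp_eq hw hw' h
    rcases lt_trichotomy (ix w) (ix w') with h3 | h3 | h3
    · obtain ⟨h4, h5, h6⟩ := bp_num (bp_unit z).1 (bp_unit z').1 e1 h3
      exact bp_step h0 h1 h4 h5 h6
    · have h4 := bp_same hs hw hw' h h3
      unfold bpCol
      rw [h3]
      split_ifs
      · rfl
      · exact h4
      · rfl
    · obtain ⟨h4, h5, h6⟩ := bp_num (bp_unit z').1 (bp_unit z).1 e1.symm h3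
      exact (bp_step h0 h1 h4 h5 h6).symm)
  refine ⟨G, (mem_words S m G).2 fun w hw => ?_, fun w hw => ⟨fun h => ?_, fun h => ?_,
    fun h => ?_⟩⟩
  · rw [hG w hw]
    unfold bpCol
    split_ifs
    · exact S.dom.zero_mem
    · exact hu
    · exact S.one_mem
  · rw [hG w hw]
    unfold bpCol
    rw [if_pos h]
  · rw [hG w hw]
    unfold bpCol
    rw [if_neg (by omega), if_pos h]
  · rw [hG w hw]
    unfold bpCol
    rw [if_neg (by omega), if_neg (by omega)]

/-- one dimensional bump: `1` on column `a`, `0` on the columns at distance at least `2` -/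
private theorem bp_col (S : SymForm) {u : C(K, ℝ)} (hu : u ∈ S.dom)
    (hu01 : ∀ z, 0 ≤ u z ∧ u z ≤ 1)
    (h0 : ∀ z : K, z.1.1 = 0 → u z = 0) (h1 : ∀ z : K, z.1.1 = 1 → u z = 1)
    (hs : u.comp ryK = u) (m : ℕ) (a : ℤ) : ∃ G ∈ S.dom, (∀ z, 0 ≤ G z ∧ G z ≤ 1) ∧
      ∀ w ∈ Wd m, ((ix w : ℤ) = a → ∀ z, G (psiW w z) = 1) ∧
        ((ix w : ℤ) < a - 1 ∨ a + 1 < (ix w : ℤ) → ∀ z, G (psiW w z) = 0) ∧
        S.E (G.comp (psiW w)) (G.comp (psiW w)) ≤ S.E u u + S.E u u := by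
  obtain ⟨G1, hG1, hc1⟩ := exists_column S hu h0 h1 hs m (a - 1)
  obtain ⟨G2, hG2, hc2⟩ := exists_column S hu h0 h1 hs m (a + 1)
  have hG2' : (1 - G2) ∈ S.dom := S.dom.sub_mem S.one_mem hG2
  have hval : ∀ (G : C(K, ℝ)) (c : ℤ), (∀ w ∈ Wd m,
      ((ix w : ℤ) < c → G.comp (psiW w) = 0) ∧ ((ix w : ℤ) = c → G.comp (psiW w) = u) ∧
      (c < ix w → G.comp (psiW w) = 1)) → ∀ w ∈ Wd m, ∀ z,
      ((ix w : ℤ) < c ∧ G (psiW w z) = 0) ∨ ((ix w : ℤ) = c ∧ G (psiW w z) = u z) ∨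
        (c < ix w ∧ G (psiW w z) = 1) := by
    intro G c hc w hw z
    rcases lt_trichotomy (ix w : ℤ) c with h | h | h
    · left
      refine ⟨h, ?_⟩
      have := (hc w hw).1 h
      exact DFunLike.congr_fun this z
    · right; left
      refine ⟨h, ?_⟩
      have := (hc w hw).2.1 h
      exact DFunLike.congr_fun this z
    · right; right
      refine ⟨h, ?_⟩
      have := (hc w hw).2.2 h
      exact DFunLike.congr_fun this z
  have hE : ∀ (G : C(K, ℝ)) (c : ℤ), (∀ w ∈ Wd m,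
      ((ix w : ℤ) < c → G.comp (psiW w) = 0) ∧ ((ix w : ℤ) = c → G.comp (psiW w) = u) ∧
      (c < ix w → G.comp (psiW w) = 1)) → ∀ w ∈ Wd m,
      S.E (G.comp (psiW w)) (G.comp (psiW w)) ≤ S.E u u := by
    intro G c hc w hw
    rcases lt_trichotomy (ix w : ℤ) c with h | h | h
    · rw [(hc w hw).1 h, map_zero]
      exact S.nonneg u
    · rw [(hc w hw).2.1 h]
    · rw [(hc w hw).2.2 h, S.E_one]
      exact S.nonneg u
  have h01 : ∀ (G : C(K, ℝ)) (c : ℤ), (∀ w ∈ Wd m,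
      ((ix w : ℤ) < c → G.comp (psiW w) = 0) ∧ ((ix w : ℤ) = c → G.comp (psiW w) = u) ∧
      (c < ix w → G.comp (psiW w) = 1)) → ∀ z, 0 ≤ G z ∧ G z ≤ 1 := by
    intro G c hc z
    obtain ⟨w, hw, y, rfl⟩ := exists_mem_cellW m z
    rcases hval G c hc w hw y with ⟨-, h⟩ | ⟨-, h⟩ | ⟨-, h⟩
    · rw [h]; norm_num
    · rw [h]; exact hu01 y
    · rw [h]; norm_num
  have e1 := h01 G1 _ hc1
  have e2 := h01 G2 _ hc2
  refine ⟨G1 ⊓ (1 - G2), S.inf_mem hG1 hG2', fun z => ?_, fun w hw => ⟨fun h z => ?_, fun h z => ?_,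
    ?_⟩⟩
  · rw [ContinuousMap.inf_apply, ContinuousMap.sub_apply, ContinuousMap.one_apply]
    exact ⟨le_inf (e1 z).1 (by linarith [(e2 z).2]), inf_le_left.trans (e1 z).2⟩
  · rw [ContinuousMap.inf_apply, ContinuousMap.sub_apply, ContinuousMap.one_apply]
    have k1 : G1 (psiW w z) = 1 := by
      rcases hval G1 _ hc1 w hw z with ⟨h', -⟩ | ⟨h', -⟩ | ⟨-, h'⟩
      · omega
      · omega
      · exact h'
    have k2 : G2 (psiW w z) = 0 := by
      rcases hval G2 _ hc2 w hw z with ⟨-, h'⟩ | ⟨h', -⟩ | ⟨h', -⟩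
      · exact h'
      · omega
      · omega
    rw [k1, k2, sub_zero, inf_idem]
  · rw [ContinuousMap.inf_apply, ContinuousMap.sub_apply, ContinuousMap.one_apply]
    rcases h with h | h
    · have k1 : G1 (psiW w z) = 0 := by
        rcases hval G1 _ hc1 w hw z with ⟨-, h'⟩ | ⟨h', -⟩ | ⟨h', -⟩
        · exact h'
        · omega
        · omega
      rw [k1]
      exact inf_eq_left.2 (by linarith [(e2 (psiW w z)).2])
    · have k2 : G2 (psiW w z) = 1 := by
        rcases hval G2 _ hc2 w hw z with ⟨h', -⟩ | ⟨h', -⟩ | ⟨-, h'⟩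
        · omega
        · omega
        · exact h'
      rw [k2, sub_self]
      exact inf_eq_right.2 (e1 _).1
  · have hcomp : (G1 ⊓ (1 - G2)).comp (psiW w) = (G1.comp (psiW w)) ⊓ (1 - G2.comp (psiW w)) := by
      ext z
      rfl
    rw [hcomp]
    have hm1 := comp_mem S hG1 w
    have hm2 := comp_mem S hG2 w
    have hm2' : (1 - G2.comp (psiW w)) ∈ S.dom := S.dom.sub_mem S.one_mem hm2
    refine (S.toRForm.E_inf_le hm1 hm2').trans ?_
    have hE2 : S.E (1 - G2.comp (psiW w)) (1 - G2.comp (psiW w)) =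
        S.E (G2.comp (psiW w)) (G2.comp (psiW w)) := by
      simp only [map_sub, LinearMap.sub_apply, S.E_one, S.toRForm.E_one_left,
        S.toRForm.E_one_right]
      ring
    rw [hE2]
    exact add_le_add (hE G1 _ hc1 w hw) (hE G2 _ hc2 w hw)

private theorem bp_sw_mem {m : ℕ} {w : List Dig} (hw : w ∈ Wd m) : w.map Dig.sw ∈ Wd m := by
  rw [mem_Wd, List.length_map]
  exact mem_Wd.1 hw

/-- Bumps. Proof: for `w` at `(a, b)`: the minimum of `G_{a-1}`, `1 - G_{a+1}` (columns) and of the same for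
rows (compose with `swK`); `E_inf_le` on each cell. -/
theorem exists_bump' (S : SymForm) : ∃ Cb : ℝ, 0 < Cb ∧ ∀ m, ∀ w ∈ Wd m, ∃ β ∈ S.dom,
    (∀ z, 0 ≤ β z ∧ β z ≤ 1) ∧ (∀ z ∈ cellW w, β z = 1) ∧
    (∀ w' ∈ Wd m, ¬ Nb 1 w w' → ∀ z ∈ cellW w', β z = 0) ∧
    ∀ w' ∈ Wd m, S.E (β.comp (psiW w')) (β.comp (psiW w')) ≤ Cb := by
  obtain ⟨u, hu, hu01, h0, h1, hs⟩ := exists_cross S
  have huE := S.nonneg u
  refine ⟨4 * S.E u u + 1, by linarith, fun m w hw => ?_⟩
  obtain ⟨G, hG, hG01, hGw⟩ := bp_col S hu hu01 h0 h1 hs m (ix w : ℤ)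
  obtain ⟨H, hH, hH01, hHw⟩ := bp_col S hu hu01 h0 h1 hs m (iy w : ℤ)
  have hHs : H.comp swK ∈ S.dom := S.sw_inv.1 H hH
  have hsw : ∀ (w' : List Dig) (z : K), (H.comp swK) (psiW w' z) =
      H (psiW (w'.map Dig.sw) (swK z)) := by
    intro w' z
    change H (swK (psiW w' z)) = _
    rw [swK_psiW]
  refine ⟨G ⊓ H.comp swK, S.inf_mem hG hHs, fun z => ?_, ?_, ?_, ?_⟩
  · rw [ContinuousMap.inf_apply]
    exact ⟨le_inf (hG01 z).1 (hH01 (swK z)).1, inf_le_left.trans (hG01 z).2⟩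
  · rintro _ ⟨z, rfl⟩
    rw [ContinuousMap.inf_apply, (hGw w hw).1 rfl z, hsw,
      (hHw _ (bp_sw_mem hw)).1 (by rw [ix_sw]) _, inf_idem]
  · rintro w' hw' hnb _ ⟨z, rfl⟩
    rw [ContinuousMap.inf_apply]
    by_cases hx : (ix w' : ℤ) < ix w - 1 ∨ (ix w : ℤ) + 1 < ix w'
    · rw [(hGw w' hw').2.1 hx z]
      exact inf_eq_left.2 (hH01 _).1
    · have hy : (ix (w'.map Dig.sw) : ℤ) < iy w - 1 ∨ (iy w : ℤ) + 1 < ix (w'.map Dig.sw) := by
        rw [ix_sw]
        by_contra hy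
        apply hnb
        push Not at hx hy
        unfold Nb
        omega
      rw [hsw, (hHw _ (bp_sw_mem hw')).2.1 hy _]
      exact inf_eq_right.2 (hG01 _).1
  · intro w' hw'
    have hcomp : (G ⊓ H.comp swK).comp (psiW w') =
        (G.comp (psiW w')) ⊓ ((H.comp (psiW (w'.map Dig.sw))).comp swK) := by
      ext z
      change G (psiW w' z) ⊓ H (swK (psiW w' z)) = G (psiW w' z) ⊓ H (psiW (w'.map Dig.sw) (swK z))
      rw [swK_psiW]
    have hm1 := comp_mem S hG w'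
    have hm2 := comp_mem S hH (w'.map Dig.sw)
    rw [hcomp]
    refine (S.toRForm.E_inf_le hm1 (S.sw_inv.1 _ hm2)).trans ?_
    rw [S.sw_inv.2 _ hm2 _ hm2]
    have k1 := (hGw w' hw').2.2
    have k2 := (hHw _ (bp_sw_mem hw')).2.2
    linarith

private theorem nb_symm {r : ℕ} {w w' : List Dig} (h : Nb r w w') : Nb r w' w := by
  unfold Nb at h ⊢
  tauto

open Classical in
private theorem card_nb_le (r m : ℕ) (w : List Dig) :
    ((Wd m).filter fun w' => Nb r w w').card ≤ (2 * r + 1) ^ 2 := by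
  have h : ((Wd m).filter fun w' => Nb r w w').card ≤
      (Finset.range (2 * r + 1) ×ˢ Finset.range (2 * r + 1)).card := by
    refine Finset.card_le_card_of_injOn (fun w' => (ix w' + r - ix w, iy w' + r - iy w)) ?_ ?_
    · intro w' hw'
      obtain ⟨-, ⟨h1, h2⟩, h3, h4⟩ := Finset.mem_filter.1 (Finset.mem_coe.1 hw')
      rw [Finset.mem_coe, Finset.mem_product, Finset.mem_range, Finset.mem_range]
      dsimp only
      constructor <;> omega
    · intro v hv v' hv' hvv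
      obtain ⟨hl, ⟨h1, h2⟩, h3, h4⟩ := Finset.mem_filter.1 (Finset.mem_coe.1 hv)
      obtain ⟨hl', ⟨h1', h2'⟩, h3', h4'⟩ := Finset.mem_filter.1 (Finset.mem_coe.1 hv')
      rw [Prod.mk.injEq] at hvv
      refine word_ext ((mem_Wd.1 hl).trans (mem_Wd.1 hl').symm) ?_ ?_ <;> omega
  rw [Finset.card_product, Finset.card_range] at h
  rw [sq]
  exact h

/-- Cut-off functions of a set `Z` of `m`-words: the maximum of the bumps of its words. On each cell at most
nine bumps do not vanish (`E_sup_le`); the cell energies vanish outside the at most `9 Z.card` words at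
distance at most `1` from `Z`; `E_words` for the total energy. -/
theorem exists_cutoff (S : SymForm) : ∃ Cc : ℝ, 1 ≤ Cc ∧ ∀ m, ∀ Z : Finset (List Dig), Z ⊆ Wd m →
    ∃ χ ∈ S.dom, (∀ z, 0 ≤ χ z ∧ χ z ≤ 1) ∧ (∀ w ∈ Z, ∀ z ∈ cellW w, χ z = 1) ∧
      (∀ w' ∈ Wd m, (∀ w ∈ Z, ¬ Nb 1 w w') → ∀ z ∈ cellW w', χ z = 0) ∧
      (∀ w' ∈ Wd m, S.E (χ.comp (psiW w')) (χ.comp (psiW w')) ≤ Cc) ∧
      S.E χ χ ≤ Cc * Z.card * S.ρ ^ m := by
  classical
  obtain ⟨Cb, hCb, hb⟩ := exists_bump' S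
  have key : ∀ m, ∀ Z : Finset (List Dig), Z ⊆ Wd m →
      ∃ χ ∈ S.dom, (∀ z, 0 ≤ χ z ∧ χ z ≤ 1) ∧ (∀ w ∈ Z, ∀ z ∈ cellW w, χ z = 1) ∧
      (∀ w' ∈ Wd m, (∀ w ∈ Z, ¬ Nb 1 w w') → ∀ z ∈ cellW w', χ z = 0) ∧
      (∀ w' ∈ Wd m, S.E (χ.comp (psiW w')) (χ.comp (psiW w')) ≤
        Cb * (Z.filter fun w => Nb 1 w w').card) := by
    intro m Z
    induction Z using Finset.induction_on with
    | empty =>
      intro _
      refine ⟨0, S.dom.zero_mem, fun z => ⟨le_rfl, zero_le_one⟩, ?_, fun w' _ _ z _ => rfl, ?_⟩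
      · intro w hw
        exact absurd hw (Finset.notMem_empty w)
      · intro w' _
        have : (0 : C(K, ℝ)).comp (psiW w') = 0 := rfl
        rw [this, map_zero]
        positivity
    | insert w Z hwZ ih =>
      intro hsub
      obtain ⟨χ, hχ, h1, h2, h3, h4⟩ := ih fun v hv => hsub (Finset.mem_insert_of_mem hv)
      obtain ⟨β, hβ, k1, k2, k3, k4⟩ := hb m w (hsub (Finset.mem_insert_self w Z))
      refine ⟨χ ⊔ β, S.sup_mem hχ hβ, fun z => ?_, ?_, ?_, ?_⟩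
      · rw [ContinuousMap.sup_apply]
        exact ⟨(h1 z).1.trans le_sup_left, sup_le (h1 z).2 (k1 z).2⟩
      · intro v hv z hz
        rw [ContinuousMap.sup_apply]
        rcases Finset.mem_insert.1 hv with rfl | hv
        · rw [k2 z hz]
          exact sup_eq_right.2 (h1 z).2
        · rw [h2 v hv z hz]
          exact sup_eq_left.2 (k1 z).2
      · intro w' hw' hno z hz
        rw [ContinuousMap.sup_apply, h3 w' hw' (fun v hv => hno v (Finset.mem_insert_of_mem hv)) z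
          hz, k3 w' hw' (hno w (Finset.mem_insert_self w Z)) z hz, sup_idem]
      · intro w' hw'
        have hcomp : (χ ⊔ β).comp (psiW w') = χ.comp (psiW w') ⊔ β.comp (psiW w') := by
          ext z
          rfl
        rw [hcomp]
        refine (S.toRForm.E_sup_le (comp_mem S hχ w') (comp_mem S hβ w')).trans ?_
        rw [Finset.filter_insert]
        by_cases hnb : Nb 1 w w'
        · rw [if_pos hnb, Finset.card_insert_of_notMem
            (fun h => hwZ (Finset.mem_filter.1 h).1)]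
          push_cast
          linarith [h4 w' hw', k4 w' hw']
        · rw [if_neg hnb]
          have : β.comp (psiW w') = 0 := by
            ext z
            exact k3 w' hw' hnb _ ⟨z, rfl⟩
          rw [this, map_zero, add_zero]
          exact h4 w' hw'
  refine ⟨9 * Cb + 1, by linarith, fun m Z hZ => ?_⟩
  obtain ⟨χ, hχ, h1, h2, h3, h4⟩ := key m Z hZ
  refine ⟨χ, hχ, h1, h2, h3, fun w' hw' => ?_, ?_⟩
  · have h5 : (Z.filter fun w => Nb 1 w w').card ≤ 9 := by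
      refine (Finset.card_le_card ?_).trans (card_nb_le 1 m w')
      intro v hv
      obtain ⟨hv1, hv2⟩ := Finset.mem_filter.1 hv
      exact Finset.mem_filter.2 ⟨hZ hv1, nb_symm hv2⟩
    have h6 : ((Z.filter fun w => Nb 1 w w').card : ℝ) ≤ 9 := by exact_mod_cast h5
    have h7 := h4 w' hw'
    nlinarith
  · have hρ : 0 ≤ S.ρ ^ m := pow_nonneg S.ρ_pos.le m
    have h5 : ∑ w' ∈ Wd m, S.E (χ.comp (psiW w')) (χ.comp (psiW w')) ≤ 9 * Cb * Z.card := by
      calc ∑ w' ∈ Wd m, S.E (χ.comp (psiW w')) (χ.comp (psiW w'))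
          ≤ ∑ w' ∈ Wd m, Cb * ((Z.filter fun w => Nb 1 w w').card : ℝ) :=
            Finset.sum_le_sum fun w' hw' => h4 w' hw'
        _ = Cb * ((∑ w' ∈ Wd m, (Z.filter fun w => Nb 1 w w').card : ℕ) : ℝ) := by
            rw [← Finset.mul_sum]
            push_cast
            rfl
        _ = Cb * ((∑ w ∈ Z, ((Wd m).filter fun w' => Nb 1 w w').card : ℕ) : ℝ) := by
            congr 2
            simp_rw [Finset.card_filter]
            rw [Finset.sum_comm]
        _ ≤ Cb * ((∑ w ∈ Z, 9 : ℕ) : ℝ) := by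
            refine mul_le_mul_of_nonneg_left ?_ hCb.le
            exact_mod_cast Finset.sum_le_sum fun w _ => card_nb_le 1 m w
        _ = 9 * Cb * Z.card := by
            rw [Finset.sum_const, smul_eq_mul]
            push_cast
            ring
    rw [E_words S m hχ hχ]
    calc S.ρ ^ m * ∑ w' ∈ Wd m, S.E (χ.comp (psiW w')) (χ.comp (psiW w'))
        ≤ S.ρ ^ m * (9 * Cb * Z.card) := mul_le_mul_of_nonneg_left h5 hρ
      _ ≤ S.ρ ^ m * ((9 * Cb + 1) * Z.card) := by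
          refine mul_le_mul_of_nonneg_left ?_ hρ
          have : (0 : ℝ) ≤ Z.card := Nat.cast_nonneg _
          nlinarith
      _ = _ := by ring

/-- the words at distance at most `r` from `Z` -/
def nbhd (r m : ℕ) (Z : Finset (List Dig)) : Finset (List Dig) :=
  (Wd m).filter fun w' => ∃ w ∈ Z, (ix w ≤ ix w' + r ∧ ix w' ≤ ix w + r) ∧
    (iy w ≤ iy w' + r ∧ iy w' ≤ iy w + r)

theorem mem_nbhd {r m : ℕ} {Z : Finset (List Dig)} {w' : List Dig} :
    w' ∈ nbhd r m Z ↔ w' ∈ Wd m ∧ ∃ w ∈ Z, Nb r w w' := by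
  unfold nbhd
  rw [Finset.mem_filter]
  rfl

/-- Proof: injectivity of positions (`word_ext`). -/
theorem card_nbhd_le {r m : ℕ} {Z : Finset (List Dig)} (hZ : Z ⊆ Wd m) :
    (nbhd r m Z).card ≤ (2 * r + 1) ^ 2 * Z.card := by
  classical
  have h1 : nbhd r m Z ⊆ Z.biUnion fun w => (Wd m).filter fun w' => Nb r w w' := by
    intro w' hw'
    obtain ⟨h1, w, hw, h2⟩ := mem_nbhd.1 hw'
    exact Finset.mem_biUnion.2 ⟨w, hw, Finset.mem_filter.2 ⟨h1, h2⟩⟩
  refine (Finset.card_le_card h1).trans (Finset.card_biUnion_le.trans ?_)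
  refine (Finset.sum_le_sum fun w _ => card_nb_le r m w).trans ?_
  rw [Finset.sum_const, smul_eq_mul, mul_comm]

end CarpetLib
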