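import Pool.Agent.Lib.MP_f3090c_an.D.WDefs

/-! Doubling DB02: two diagonal cells have a common side neighbour; cells near a coarse line. -/

namespace CarpetLib

/-- Proof by induction on `m` with cases on `a % 3`, `b % 3`: if `a % 3 < 2` and `b % 3 < 2`
everything happens in the last digit; if `a % 3 = 2`, `b % 3 < 2` then `(a, b + 1)` differs from
`(a, b)` only in the last digit, which is not `(1, 1)`; if both are `2` use the induction hypothesis
for `a / 3`, `b / 3`. -/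
theorem cel_diag {m a b : ℕ} (h : Cel m a b) (h' : Cel m (a + 1) (b + 1)) :
    Cel m (a + 1) b ∨ Cel m a (b + 1) := by
  induction m generalizing a b with
  | zero => exact absurd h'.1 (Nat.succ_ne_zero a)
  | succ m ih =>
    obtain ⟨h1, h2⟩ := h
    obtain ⟨h3, h4⟩ := h'
    by_cases ha : a % 3 = 2
    · have ea : (a + 1) / 3 = a / 3 + 1 := by omega
      by_cases hb : b % 3 = 2
      · have eb : (b + 1) / 3 = b / 3 + 1 := by omega
        rw [ea, eb] at h4
        rcases ih h2 h4 with h | h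
        · left
          refine ⟨by omega, ?_⟩
          rw [ea]
          exact h
        · right
          refine ⟨by omega, ?_⟩
          rw [eb]
          exact h
      · have eb : (b + 1) / 3 = b / 3 := by omega
        right
        refine ⟨by omega, ?_⟩
        rw [eb]
        exact h2
    · have ea : (a + 1) / 3 = a / 3 := by omega
      by_cases hb : b % 3 = 2
      · left
        refine ⟨by omega, ?_⟩
        rw [ea]
        exact h2
      · have eb : (b + 1) / 3 = b / 3 := by omega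
        by_cases ha1 : a % 3 = 1
        · left
          refine ⟨by omega, ?_⟩
          rw [ea]
          exact h2
        · right
          refine ⟨by omega, ?_⟩
          rw [eb]
          exact h2

theorem cel_anti {m a b : ℕ} (h : Cel m (a + 1) b) (h' : Cel m a (b + 1)) :
    Cel m a b ∨ Cel m (a + 1) (b + 1) := by
  induction m generalizing a b with
  | zero => exact absurd h.1 (Nat.succ_ne_zero a)
  | succ m ih =>
    obtain ⟨h1, h2⟩ := h
    obtain ⟨h3, h4⟩ := h'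
    by_cases ha : a % 3 = 2
    · have ea : (a + 1) / 3 = a / 3 + 1 := by omega
      by_cases hb : b % 3 = 2
      · have eb : (b + 1) / 3 = b / 3 + 1 := by omega
        rw [ea] at h2
        rw [eb] at h4
        rcases ih h2 h4 with h | h
        · left
          exact ⟨by omega, h⟩
        · right
          refine ⟨by omega, ?_⟩
          rw [ea, eb]
          exact h
      · have eb : (b + 1) / 3 = b / 3 := by omega
        rw [eb] at h4
        left
        exact ⟨by omega, h4⟩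
    · have ea : (a + 1) / 3 = a / 3 := by omega
      rw [ea] at h2
      by_cases hb : b % 3 = 2
      · left
        exact ⟨by omega, h2⟩
      · have eb : (b + 1) / 3 = b / 3 := by omega
        by_cases hb1 : a % 3 = 1 ∧ b % 3 = 1
        · right
          refine ⟨by omega, ?_⟩
          rw [ea, eb]
          exact h2
        · left
          exact ⟨hb1, h2⟩

/-- one step of a path -/
private def CdSt (p q : ℕ × ℕ) : Prop :=
  p.1 = q.1 ∧ (p.2 = q.2 ∨ p.2 + 1 = q.2 ∨ q.2 + 1 = p.2) ∨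
    p.2 = q.2 ∧ (p.1 + 1 = q.1 ∨ q.1 + 1 = p.1)

/-- paths -/
private def CdPth (G : ℕ × ℕ → Prop) (n : ℕ) (p q : ℕ × ℕ) : Prop :=
  ∃ P : ℕ → ℕ × ℕ, P 0 = p ∧ P n = q ∧ (∀ i ≤ n, G (P i)) ∧ ∀ i < n, CdSt (P i) (P (i + 1))

private theorem CdPth.zero {G : ℕ × ℕ → Prop} {p : ℕ × ℕ} (h : G p) : CdPth G 0 p p :=
  ⟨fun _ => p, rfl, rfl, fun _ _ => h, fun i hi => absurd hi (Nat.not_lt_zero i)⟩

private theorem CdPth.succ {G : ℕ × ℕ → Prop} {n : ℕ} {p q : ℕ × ℕ} (h : CdPth G n p q)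
    (q' : ℕ × ℕ) (hg : G q') (hs : CdSt q q') : CdPth G (n + 1) p q' := by
  obtain ⟨P, h0, h1, h2, h3⟩ := h
  refine ⟨fun i => if i ≤ n then P i else q', ?_, ?_, ?_, ?_⟩
  · show (if 0 ≤ n then P 0 else q') = p
    rw [if_pos (Nat.zero_le n), h0]
  · show (if n + 1 ≤ n then P (n + 1) else q') = q'
    rw [if_neg (by omega)]
  · intro i _
    show G (if i ≤ n then P i else q')
    split_ifs with hi
    · exact h2 i hi
    · exact hg
  · intro i hi
    show CdSt (if i ≤ n then P i else q') (if i + 1 ≤ n then P (i + 1) else q')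
    by_cases hin : i < n
    · rw [if_pos hin.le, if_pos (show i + 1 ≤ n from hin)]
      exact h3 i hin
    · have : i = n := by omega
      subst this
      rw [if_pos le_rfl, if_neg (by omega), h1]
      exact hs

private theorem CdPth.stay {G : ℕ × ℕ → Prop} {n : ℕ} {p q : ℕ × ℕ} (h : CdPth G n p q)
    (k : ℕ) (hk : n ≤ k) : CdPth G k p q := by
  induction k, hk using Nat.le_induction with
  | base => exact h
  | succ k _ ih =>
    have hq : G q := by
      obtain ⟨P, _, h1, h2, _⟩ := ih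
      rw [← h1]
      exact h2 k le_rfl
    exact ih.succ q hq (Or.inl ⟨rfl, Or.inl rfl⟩)

private theorem cel_up {k a t j : ℕ} (hj : j < 3) :
    Cel (k + 2) a (9 * t + 9 + j) ↔ ¬ (a % 3 = 1 ∧ j = 1) ∧ Cel k (a / 9) (t + 1) := by
  have e1 : (9 * t + 9 + j) % 3 = j := by omega
  have e2 : (9 * t + 9 + j) / 3 = 3 * t + 3 := by omega
  have e3 : (3 * t + 3) % 3 = 0 := by omega
  have e4 : (3 * t + 3) / 3 = t + 1 := by omega
  have e5 : a / 3 / 3 = a / 9 := by omega
  show ¬ (a % 3 = 1 ∧ (9 * t + 9 + j) % 3 = 1) ∧ ¬ (a / 3 % 3 = 1 ∧ (9 * t + 9 + j) / 3 % 3 = 1) ∧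
    Cel k (a / 3 / 3) ((9 * t + 9 + j) / 3 / 3) ↔ _
  rw [e1, e2, e3, e4, e5]
  constructor
  · rintro ⟨h1, _, h3⟩
    exact ⟨h1, h3⟩
  · rintro ⟨h1, h3⟩
    exact ⟨h1, by omega, h3⟩

private theorem cel_dn {k a t i : ℕ} (hi : i < 3) :
    Cel (k + 2) a (9 * t + 6 + i) ↔ ¬ (a % 3 = 1 ∧ i = 1) ∧ Cel k (a / 9) t := by
  have e1 : (9 * t + 6 + i) % 3 = i := by omega
  have e2 : (9 * t + 6 + i) / 3 = 3 * t + 2 := by omega
  have e3 : (3 * t + 2) % 3 = 2 := by omega
  have e4 : (3 * t + 2) / 3 = t := by omega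
  have e5 : a / 3 / 3 = a / 9 := by omega
  show ¬ (a % 3 = 1 ∧ (9 * t + 6 + i) % 3 = 1) ∧ ¬ (a / 3 % 3 = 1 ∧ (9 * t + 6 + i) / 3 % 3 = 1) ∧
    Cel k (a / 3 / 3) ((9 * t + 6 + i) / 3 / 3) ↔ _
  rw [e1, e2, e3, e4, e5]
  constructor
  · rintro ⟨h1, _, h3⟩
    exact ⟨h1, h3⟩
  · rintro ⟨h1, h3⟩
    exact ⟨h1, by omega, h3⟩

/-- the allowed cells -/
private def TipG (k e t : ℕ) (p : ℕ × ℕ) : Prop :=
  Cel (k + 2) p.1 p.2 ∧ e ≤ p.1 ∧ p.1 ≤ e + 2 ∧ 9 * t + 9 ≤ p.2 + 3 ∧ p.2 ≤ 9 * t + 9 + 2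

private theorem tip_aux {k e t r : ℕ} (h0 : Cel (k + 2) e (9 * t + 9))
    (h1 : Cel (k + 2) (e + 1) (9 * t + 9)) (h2 : Cel (k + 2) (e + 2) (9 * t + 9))
    (hr1 : 9 * t + 6 ≤ r) (hr2 : r ≤ 9 * t + 11) (hr : Cel (k + 2) (e + 2) r) :
    CdPth (TipG k e t) 8 (e, 9 * t + 9) (e + 2, r) := by
  have U0 : Cel k (e / 9) (t + 1) := ((cel_up (j := 0) (by norm_num)).1 h0).2
  have U1 : Cel k ((e + 1) / 9) (t + 1) := ((cel_up (j := 0) (by norm_num)).1 h1).2
  have U2 : Cel k ((e + 2) / 9) (t + 1) := ((cel_up (j := 0) (by norm_num)).1 h2).2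
  have gu : ∀ a j, e ≤ a → a ≤ e + 2 → j < 3 → ¬ (a % 3 = 1 ∧ j = 1) →
      TipG k e t (a, 9 * t + 9 + j) := by
    intro a j ha1 ha2 hj hn
    refine ⟨(cel_up hj).2 ⟨hn, ?_⟩, ha1, ha2, ?_, ?_⟩
    · have : a = e ∨ a = e + 1 ∨ a = e + 2 := by omega
      rcases this with rfl | rfl | rfl
      · exact U0
      · exact U1
      · exact U2
    · show 9 * t + 9 ≤ 9 * t + 9 + j + 3
      omega
    · show 9 * t + 9 + j ≤ 9 * t + 9 + 2
      omega
  have gd : ∀ a i, e ≤ a → a ≤ e + 2 → i < 3 → ¬ (a % 3 = 1 ∧ i = 1) → Cel k (a / 9) t →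
      TipG k e t (a, 9 * t + 6 + i) := by
    intro a i ha1 ha2 hi hn hc
    refine ⟨(cel_dn hi).2 ⟨hn, hc⟩, ha1, ha2, ?_, ?_⟩
    · show 9 * t + 9 ≤ 9 * t + 6 + i + 3
      omega
    · show 9 * t + 6 + i ≤ 9 * t + 9 + 2
      omega
  have p0 := CdPth.zero (gu e 0 le_rfl (by omega) (by norm_num) (by omega))
  have p1 := p0.succ (e + 1, 9 * t + 9 + 0)
    (gu (e + 1) 0 (by omega) (by omega) (by norm_num) (by omega)) (Or.inr ⟨rfl, Or.inl rfl⟩)
  have p2 := p1.succ (e + 2, 9 * t + 9 + 0)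
    (gu (e + 2) 0 (by omega) (by omega) (by norm_num) (by omega)) (Or.inr ⟨rfl, Or.inl rfl⟩)
  by_cases hup : 9 * t + 9 ≤ r
  · obtain ⟨j, rfl⟩ : ∃ j, r = 9 * t + 9 + j := ⟨r - (9 * t + 9), by omega⟩
    have hj : j < 3 := by omega
    have hrj := ((cel_up hj).1 hr).1
    have hcase : j = 0 ∨ j = 1 ∨ j = 2 := by omega
    rcases hcase with rfl | rfl | rfl
    · exact p2.stay 8 (by norm_num)
    · have p3 := p2.succ (e + 2, 9 * t + 9 + 1)
        (gu (e + 2) 1 (by omega) (by omega) (by norm_num) (by omega))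
        (Or.inl ⟨rfl, Or.inr (Or.inl rfl)⟩)
      exact p3.stay 8 (by norm_num)
    · by_cases hc : (e + 2) % 3 = 1
      · have p3 := p1.succ (e + 1, 9 * t + 9 + 1)
          (gu (e + 1) 1 (by omega) (by omega) (by norm_num) (by omega))
          (Or.inl ⟨rfl, Or.inr (Or.inl rfl)⟩)
        have p4 := p3.succ (e + 1, 9 * t + 9 + 2)
          (gu (e + 1) 2 (by omega) (by omega) (by norm_num) (by omega))
          (Or.inl ⟨rfl, Or.inr (Or.inl rfl)⟩)
        have p5 := p4.succ (e + 2, 9 * t + 9 + 2)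
          (gu (e + 2) 2 (by omega) (by omega) (by norm_num) (by omega))
          (Or.inr ⟨rfl, Or.inl rfl⟩)
        exact p5.stay 8 (by norm_num)
      · have p3 := p2.succ (e + 2, 9 * t + 9 + 1)
          (gu (e + 2) 1 (by omega) (by omega) (by norm_num) (by omega))
          (Or.inl ⟨rfl, Or.inr (Or.inl rfl)⟩)
        have p4 := p3.succ (e + 2, 9 * t + 9 + 2)
          (gu (e + 2) 2 (by omega) (by omega) (by norm_num) (by omega))
          (Or.inl ⟨rfl, Or.inr (Or.inl rfl)⟩)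
        exact p4.stay 8 (by norm_num)
  · obtain ⟨i, rfl⟩ : ∃ i, r = 9 * t + 6 + i := ⟨r - (9 * t + 6), by omega⟩
    have hi : i < 3 := by omega
    obtain ⟨hri, D2⟩ := (cel_dn hi).1 hr
    have hcase : i = 0 ∨ i = 1 ∨ i = 2 := by omega
    by_cases hc : (e + 2) % 3 = 1
    · have e9 : (e + 1) / 9 = (e + 2) / 9 := by omega
      have D1 : Cel k ((e + 1) / 9) t := by rw [e9]; exact D2
      rcases hcase with rfl | rfl | rfl
      · have p3 := p1.succ (e + 1, 9 * t + 6 + 2)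
          (gd (e + 1) 2 (by omega) (by omega) (by norm_num) (by omega) D1)
          (Or.inl ⟨rfl, Or.inr (Or.inr rfl)⟩)
        have p4 := p3.succ (e + 1, 9 * t + 6 + 1)
          (gd (e + 1) 1 (by omega) (by omega) (by norm_num) (by omega) D1)
          (Or.inl ⟨rfl, Or.inr (Or.inr rfl)⟩)
        have p5 := p4.succ (e + 1, 9 * t + 6 + 0)
          (gd (e + 1) 0 (by omega) (by omega) (by norm_num) (by omega) D1)
          (Or.inl ⟨rfl, Or.inr (Or.inr rfl)⟩)
        have p6 := p5.succ (e + 2, 9 * t + 6 + 0)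
          (gd (e + 2) 0 (by omega) (by omega) (by norm_num) (by omega) D2)
          (Or.inr ⟨rfl, Or.inl rfl⟩)
        exact p6.stay 8 (by norm_num)
      · exact (hri ⟨hc, rfl⟩).elim
      · have p3 := p2.succ (e + 2, 9 * t + 6 + 2)
          (gd (e + 2) 2 (by omega) (by omega) (by norm_num) (by omega) D2)
          (Or.inl ⟨rfl, Or.inr (Or.inr rfl)⟩)
        exact p3.stay 8 (by norm_num)
    · have p3 := p2.succ (e + 2, 9 * t + 6 + 2)
        (gd (e + 2) 2 (by omega) (by omega) (by norm_num) (by omega) D2)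
        (Or.inl ⟨rfl, Or.inr (Or.inr rfl)⟩)
      have p4 := p3.succ (e + 2, 9 * t + 6 + 1)
        (gd (e + 2) 1 (by omega) (by omega) (by norm_num) (by omega) D2)
        (Or.inl ⟨rfl, Or.inr (Or.inr rfl)⟩)
      have p5 := p4.succ (e + 2, 9 * t + 6 + 0)
        (gd (e + 2) 0 (by omega) (by omega) (by norm_num) (by omega) D2)
        (Or.inl ⟨rfl, Or.inr (Or.inr rfl)⟩)
      rcases hcase with rfl | rfl | rfl
      · exact p5.stay 8 (by norm_num)
      · exact p4.stay 8 (by norm_num)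
      · exact p3.stay 8 (by norm_num)

/-- Near a line `y = H`, `9 ∣ H`, whose upper row is full: from `(e, H)` one reaches each cell
`(e + 2, r)`, `H - 3 ≤ r ≤ H + 2`, in at most eight steps in the columns `e, e + 1, e + 2`.
Proof: digits. Above the line: the last two digits of `H, H + 1, H + 2` are `00, 01, 02`, so the rows
`H`, `H + 2` have the same cells and `(a, H + 1)` is a cell iff `(a, H)` is and `a % 3 ≠ 1`. Below: the
last two digits of `H - 1, H - 2, H - 3` are `22, 21, 20` and the higher digits agree, so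
`(a, H - 3)` is a cell iff `(a, H - 1)` is, `(a, H - 2)` iff moreover `a % 3 ≠ 1`. If
`(e + 2) % 3 ≠ 1` go along the row `H` to the column `e + 2` and then up or down. If `(e + 2) % 3 = 1` then
`r ≠ H + 1, H - 2`; the columns `e + 1` and `e + 2` have the same higher digits; for `r = H + 2` go up in the
column `e + 1`; for `r = H - 3` go down in the column `e + 1` (its cells below the line exist since
`(e + 2, r)` does), for `r = H - 1` go down in the column `e + 2`. -/
theorem tip_chain {m e H r : ℕ} (h0 : Cel m e H) (h1 : Cel m (e + 1) H) (h2 : Cel m (e + 2) H)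
    (h9 : 9 ∣ H) (hH : 9 ≤ H) (hr1 : H ≤ r + 3) (hr2 : r ≤ H + 2) (hr : Cel m (e + 2) r) :
    ∃ P : ℕ → ℕ × ℕ, P 0 = (e, H) ∧ P 8 = (e + 2, r) ∧
      (∀ i ≤ 8, Cel m (P i).1 (P i).2 ∧ e ≤ (P i).1 ∧ (P i).1 ≤ e + 2 ∧ H ≤ (P i).2 + 3 ∧
        (P i).2 ≤ H + 2) ∧
      ∀ i < 8, (P i).1 = (P (i + 1)).1 ∧ ((P i).2 = (P (i + 1)).2 ∨ (P i).2 + 1 = (P (i + 1)).2 ∨
          (P (i + 1)).2 + 1 = (P i).2) ∨
        (P i).2 = (P (i + 1)).2 ∧ ((P i).1 + 1 = (P (i + 1)).1 ∨ (P (i + 1)).1 + 1 = (P i).1) := by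
  obtain ⟨s, rfl⟩ := h9
  obtain ⟨t, rfl⟩ : ∃ t, s = t + 1 := ⟨s - 1, by omega⟩
  rw [show 9 * (t + 1) = 9 * t + 9 by ring] at *
  obtain ⟨k, rfl⟩ : ∃ k, m = k + 2 := by
    rcases m with _ | _ | m
    · have := h0.2
      omega
    · have := h0.2.2
      omega
    · exact ⟨m, rfl⟩
  exact tip_aux h0 h1 h2 (by omega) (by omega) hr

end CarpetLib
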