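import Pool.Agent.Lib.MP_f3090c_an.R.Glue
import Pool.Agent.Lib.MP_f3090c_an.R.Basic

/-! D01: comparison principle. -/

open Set Filter Topology

namespace CarpetLib

variable {X : Type*} [MetricSpace X] [CompactSpace X]

namespace RForm
variable (R : RForm X)

/-- Comparison principle.
Proof: `v := (-u) ⊔ 0` cut off outside `O` (`exists_cut`, it vanishes on the frontier of `O`), `v ∈ dom` by `glue`.
Write `u = u ⊔ 0 - (-u) ⊔ 0`. `E (u ⊔ 0) v ≤ 0` by `E_disj_nonpos` (both are nonnegative and their product is `0`).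
`E v ((-u) ⊔ 0 - v) = 0` by `loc_zero` (or the second part of `glue`). So `0 ≤ E u v ≤ - E v v`, `E v v = 0`,
`v` is constant (`const_of_zero`), it vanishes off `O`, so `v = 0`, that is `u ≥ 0` on `O`. -/
theorem compare {O : Set X} (hO : IsOpen O) (hne : ∃ x, x ∉ O) {u : C(X, ℝ)} (hu : u ∈ R.dom)
    (hfr : ∀ x ∈ frontier O, 0 ≤ u x)
    (hsup : ∀ v ∈ R.dom, (∀ x, 0 ≤ v x) → (∀ x, x ∉ O → v x = 0) → 0 ≤ R.E u v) :
    ∀ x ∈ O, 0 ≤ u x := by
  have hum : ((-u) ⊔ 0 : C(X, ℝ)) ∈ R.dom := R.sup_mem (R.dom.neg_mem hu) R.dom.zero_mem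
  have hup : (u ⊔ 0 : C(X, ℝ)) ∈ R.dom := R.sup_mem hu R.dom.zero_mem
  have hval : ∀ x, ((-u) ⊔ 0 : C(X, ℝ)) x = max (-(u x)) 0 := fun x => rfl
  have hval' : ∀ x, (u ⊔ 0 : C(X, ℝ)) x = max (u x) 0 := fun x => rfl
  have hfr0 : ∀ x ∈ frontier O, ((-u) ⊔ 0 : C(X, ℝ)) x = 0 := by
    intro x hx
    rw [hval, max_eq_right]
    linarith [hfr x hx]
  obtain ⟨v, hv1, hv0⟩ := exists_cut hO ((-u) ⊔ 0 : C(X, ℝ)) hfr0
  obtain ⟨hv, hE⟩ := R.glue hO hum hfr0 hv1 hv0
  have hvnn : ∀ x, 0 ≤ v x := by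
    intro x
    by_cases hx : x ∈ O
    · rw [hv1 x hx, hval]
      exact le_max_right _ _
    · rw [hv0 x hx]
  have hdec : u = (u ⊔ 0 : C(X, ℝ)) - ((-u) ⊔ 0 : C(X, ℝ)) := by
    ext x
    rw [ContinuousMap.sub_apply, hval, hval']
    rcases le_total (u x) 0 with h | h
    · rw [max_eq_right h, max_eq_left (by linarith)]
      ring
    · rw [max_eq_left h, max_eq_right (by linarith)]
      ring
  have h1 : R.E (u ⊔ 0 : C(X, ℝ)) v ≤ 0 := by
    refine R.E_disj_nonpos hup hv (fun x => ?_) hvnn (fun x => ?_)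
    · change 0 ≤ max (u x) 0
      exact le_max_right _ _
    · by_cases hx : x ∈ O
      · rcases le_total (u x) 0 with h | h
        · left
          rw [hval', max_eq_right h]
        · right
          rw [hv1 x hx, hval, max_eq_right (by linarith)]
      · right
        exact hv0 x hx
  have h2 : R.E ((-u) ⊔ 0 : C(X, ℝ)) v = R.E v v := by
    rw [R.symm]
    rw [map_sub, sub_eq_zero] at hE
    exact hE
  have h3 := hsup v hv hvnn hv0
  have h4 : R.E u v = R.E (u ⊔ 0 : C(X, ℝ)) v - R.E ((-u) ⊔ 0 : C(X, ℝ)) v := by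
    conv_lhs => rw [hdec]
    rw [map_sub, LinearMap.sub_apply]
  rw [h4, h2] at h3
  have h5 : R.E v v = 0 := le_antisymm (by linarith) (R.nonneg v)
  have hconst := R.const_of_zero v hv h5
  obtain ⟨x0, hx0⟩ := hne
  intro x hx
  have h6 := hconst x x0
  rw [hv0 x0 hx0, hv1 x hx, hval] at h6
  have h7 := le_max_left (-(u x)) 0
  rw [h6] at h7
  linarith

end RForm

end CarpetLib
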