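import Pool.Agent.Lib.MP_f3090c_an.D.TipDefs

/-! Doubling DB13: chain components. -/

open Set Filter Topology

namespace CarpetLib

private def Comp_rel (m : ℕ) (Z : Finset (List Dig)) (u v : List Dig) : Prop :=
  u ∈ Wd m \ Z ∧ v ∈ Wd m \ Z ∧ (cellW u ∩ cellW v).Nonempty

/-- The chain component of a point. Proof: `C` = the `m`-words outside `Z` chain related (inside
`Wd m \ Z`, `Relation.ReflTransGen`) to a word whose cell contains `b`. Last claim: `sub C` and the union of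
the other cells outside `Z` are disjoint closed sets which together with `sub Z` cover `K`
(`exists_mem_cellW`). -/
theorem exists_component {m : ℕ} {Z : Finset (List Dig)} (hZ : Z ⊆ Wd m) {b : K}
    (hb : b ∉ sub Z) : ∃ C : Finset (List Dig), C ⊆ Wd m ∧ C.Nonempty ∧ (∀ w ∈ C, w ∉ Z) ∧
      ChainConn C ∧ b ∈ sub C ∧
      (∀ w ∈ C, ∀ w' ∈ Wd m, w' ∉ Z → (cellW w ∩ cellW w').Nonempty → w' ∈ C) ∧
      ∀ D : Set K, IsPreconnected D → Disjoint D (sub Z) → (D ∩ sub C).Nonempty →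
        D ⊆ sub C := by
  classical
  obtain ⟨w0, hw0, hb0⟩ := exists_mem_cellW m b
  have hw0Z : w0 ∉ Z := fun h => hb (mem_sub.2 ⟨w0, h, hb0⟩)
  have hw0' : w0 ∈ Wd m \ Z := Finset.mem_sdiff.2 ⟨hw0, hw0Z⟩
  obtain ⟨C, hCm⟩ : ∃ C : Finset (List Dig), ∀ w, w ∈ C ↔
      w ∈ Wd m \ Z ∧ Relation.ReflTransGen (Comp_rel m Z) w0 w :=
    ⟨(Wd m \ Z).filter (fun w => Relation.ReflTransGen (Comp_rel m Z) w0 w),
      fun w => Finset.mem_filter⟩
  have hclosed : ∀ w ∈ C, ∀ w' ∈ Wd m, w' ∉ Z → (cellW w ∩ cellW w').Nonempty → w' ∈ C := by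
    intro w hw w' hw' hZ' hne
    have h1 := (hCm w).1 hw
    exact (hCm w').2 ⟨Finset.mem_sdiff.2 ⟨hw', hZ'⟩,
      h1.2.tail ⟨h1.1, Finset.mem_sdiff.2 ⟨hw', hZ'⟩, hne⟩⟩
  have key : ∀ w, Relation.ReflTransGen (Comp_rel m Z) w0 w →
      Relation.ReflTransGen (fun u v => u ∈ C ∧ v ∈ C ∧ (cellW u ∩ cellW v).Nonempty) w0 w := by
    intro w h
    induction h with
    | refl => exact .refl
    | @tail u v hu huv ih =>
      exact ih.tail ⟨(hCm u).2 ⟨huv.1, hu⟩, (hCm v).2 ⟨huv.2.1, hu.tail huv⟩, huv.2.2⟩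
  have hw0C : w0 ∈ C := (hCm w0).2 ⟨hw0', .refl⟩
  have hsymm : ∀ w w', Relation.ReflTransGen
      (fun u v => u ∈ C ∧ v ∈ C ∧ (cellW u ∩ cellW v).Nonempty) w w' →
      Relation.ReflTransGen
      (fun u v => u ∈ C ∧ v ∈ C ∧ (cellW u ∩ cellW v).Nonempty) w' w := by
    intro w w' h
    induction h with
    | refl => exact .refl
    | @tail u v hu huv ih =>
      exact .head ⟨huv.2.1, huv.1, by rw [inter_comm]; exact huv.2.2⟩ ih
  refine ⟨C, fun w hw => (Finset.mem_sdiff.1 ((hCm w).1 hw).1).1, ⟨w0, hw0C⟩,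
    fun w hw => (Finset.mem_sdiff.1 ((hCm w).1 hw).1).2,
    fun w hw w' hw' => (hsymm _ _ (key w ((hCm w).1 hw).2)).trans (key w' ((hCm w').1 hw').2),
    mem_sub.2 ⟨w0, hw0C, hb0⟩, hclosed, ?_⟩
  intro D hD hdis hne x hx
  by_contra hxC
  have hcov : ∀ z ∈ D, z ∈ sub C ∨ z ∈ sub ((Wd m \ Z) \ C) := by
    intro z hz
    obtain ⟨w, hw, hzw⟩ := exists_mem_cellW m z
    have hwZ : w ∉ Z := fun h => Set.disjoint_left.1 hdis hz (mem_sub.2 ⟨w, h, hzw⟩)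
    by_cases hwC : w ∈ C
    · exact Or.inl (mem_sub.2 ⟨w, hwC, hzw⟩)
    · exact Or.inr (mem_sub.2 ⟨w, Finset.mem_sdiff.2 ⟨Finset.mem_sdiff.2 ⟨hw, hwZ⟩, hwC⟩, hzw⟩)
  have hx' : x ∈ sub ((Wd m \ Z) \ C) := (hcov x hx).resolve_left hxC
  obtain ⟨z, -, hz1, hz2⟩ := (isPreconnected_closed_iff.1 hD) (sub C) (sub ((Wd m \ Z) \ C))
    (sub_closed _) (sub_closed _) (fun z hz => hcov z hz) hne ⟨x, hx, hx'⟩
  obtain ⟨w, hw, hzw⟩ := mem_sub.1 hz1
  obtain ⟨w', hw', hzw'⟩ := mem_sub.1 hz2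
  obtain ⟨h1, h2⟩ := Finset.mem_sdiff.1 hw'
  obtain ⟨h3, h4⟩ := Finset.mem_sdiff.1 h1
  exact h2 (hclosed w hw w' h3 h4 ⟨z, hzw, hzw'⟩)

theorem TipCtx.neg {S : SymForm} {m : ℕ} {Z C : Finset (List Dig)} {R : RForm (sub C)}
    {q : C(K, ℝ)} {b1 b2 : K} {c0 s : ℝ} (h : TipCtx S m Z C R q b1 b2 c0 s) :
    TipCtx S m Z C R (-q) b2 b1 (-c0) s where
  hZ := h.hZ
  hC := h.hC
  hCZ := h.hCZ
  closed := h.closed
  comp := h.comp
  isSub := h.isSub
  dip := h.dip.neg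
  b1mem := h.b2mem
  b2mem := h.b1mem
  far := fun w hw => ⟨(h.far w hw).2, (h.far w hw).1⟩
  spos := h.spos
  good := fun w hw z hz => by
    have h1 := h.good w hw z hz
    rw [ContinuousMap.neg_apply, show -q z - -c0 = -(q z - c0) by ring, abs_neg]
    exact h1

/-- a chain of cells outside `Z` ending in `sub C` lies in `C` -/
theorem TipCtx.chain {S : SymForm} {m : ℕ} {Z C : Finset (List Dig)} {R : RForm (sub C)}
    {q : C(K, ℝ)} {b1 b2 : K} {c0 s : ℝ} (h : TipCtx S m Z C R q b1 b2 c0 s) {l : ℕ} {x y : K}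
    (hc : ChainPts (Wd m \ Z) l x y) (hy : y ∈ sub C) : ChainPts C l x y := by
  obtain ⟨L, h1, h2, h3, h4⟩ := hc
  have hl : L l ∈ C := by
    obtain ⟨w, hw, hyw⟩ := mem_sub.1 hy
    have h5 := Finset.mem_sdiff.1 (h1 l le_rfl)
    exact h.closed w hw (L l) h5.1 h5.2 ⟨y, hyw, h3⟩
  have key : ∀ j ≤ l, L (l - j) ∈ C := by
    intro j
    induction j with
    | zero => intro _; exact hl
    | succ j ih =>
      intro hj
      have h5 := ih (by omega)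
      have h6 := Finset.mem_sdiff.1 (h1 (l - (j + 1)) (by omega))
      have h7 := h4 (l - (j + 1)) (by omega)
      rw [show l - (j + 1) + 1 = l - j by omega, inter_comm] at h7
      exact h.closed _ h5 _ h6.1 h6.2 h7
  refine ⟨L, fun i hi => ?_, h2, h3, h4⟩
  have h5 := key (l - i) (by omega)
  rwa [show l - (l - i) = i by omega] at h5

end CarpetLib
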