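import Pool.Agent.Lib.MP_f3090c_an.D.GlueW
import Pool.Agent.Lib.MP_f3090c_an.R.Sep

/-! Doubling DB11: a crossing function; `ρ ≥ 9/8`. -/

open Set Filter Topology

namespace CarpetLib

private theorem cross_ryK_ryK (z : K) : ryK (ryK z) = z := by
  refine Subtype.ext (Prod.ext ?_ ?_)
  · rw [ryK_fst, ryK_fst]
  · rw [ryK_snd, ryK_snd]; ring

/-- Proof: `exists_sep` for the left and the right side, averaged with its reflection `ryK`. -/
theorem exists_cross (S : SymForm) : ∃ u ∈ S.dom, (∀ z, 0 ≤ u z ∧ u z ≤ 1) ∧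
    (∀ z : K, z.1.1 = 0 → u z = 0) ∧ (∀ z : K, z.1.1 = 1 → u z = 1) ∧ u.comp ryK = u := by
  have c1 : Continuous fun z : K => z.1.1 := by fun_prop
  have hA : IsClosed {z : K | z.1.1 = 0} := isClosed_eq c1 continuous_const
  have hB : IsClosed {z : K | z.1.1 = 1} := isClosed_eq c1 continuous_const
  have hAB : Disjoint {z : K | z.1.1 = 0} {z : K | z.1.1 = 1} := by
    rw [Set.disjoint_left]
    intro z h0 h1
    have h0' : z.1.1 = 0 := h0
    have h1' : z.1.1 = 1 := h1
    rw [h0'] at h1'
    exact zero_ne_one h1'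
  obtain ⟨f, hf, h01, h0, h1⟩ := S.toRForm.exists_sep hA hB hAB
  refine ⟨(2 : ℝ)⁻¹ • (f + f.comp ryK), S.dom.smul_mem _ (S.dom.add_mem hf (S.ry_inv.1 f hf)),
    ?_, ?_, ?_, ?_⟩
  · intro z
    simp only [ContinuousMap.smul_apply, ContinuousMap.add_apply, ContinuousMap.comp_apply,
      smul_eq_mul]
    have a := h01 z
    have b := h01 (ryK z)
    constructor <;> linarith [a.1, a.2, b.1, b.2]
  · intro z hz
    simp only [ContinuousMap.smul_apply, ContinuousMap.add_apply, ContinuousMap.comp_apply,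
      smul_eq_mul]
    rw [h0 z hz, h0 (ryK z) (by show (ryK z).1.1 = 0; rw [ryK_fst]; exact hz)]
    norm_num
  · intro z hz
    simp only [ContinuousMap.smul_apply, ContinuousMap.add_apply, ContinuousMap.comp_apply,
      smul_eq_mul]
    rw [h1 z hz, h1 (ryK z) (by show (ryK z).1.1 = 1; rw [ryK_fst]; exact hz)]
    norm_num
  · ext z
    simp only [ContinuousMap.smul_apply, ContinuousMap.add_apply, ContinuousMap.comp_apply,
      smul_eq_mul, cross_ryK_ryK]
    ring

private theorem cross_ryK_psiW (w : List Dig) (z : K) :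
    ryK (psiW w z) = psiW (ryW w) (ryK z) := by
  have ryK_eq : ∀ z, ryK z = swK (rxK (swK z)) := fun z => rfl
  rw [ryK_eq, swK_psiW, rxK_psiW, swK_psiW, ← ryK_eq]
  rfl

private theorem cross_card : (Wd 1).card = 8 := by
  decide

/-- the properties of the crossing functions -/
private def CrossP (S : SymForm) (u : C(K, ℝ)) : Prop :=
  u ∈ S.dom ∧ (∀ z : K, z.1.1 = 0 → u z = 0) ∧ (∀ z : K, z.1.1 = 1 → u z = 1) ∧ u.comp ryK = u

private theorem cross_step (S : SymForm) {u : C(K, ℝ)} (hu : CrossP S u) :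
    ∃ v, CrossP S v ∧ S.E v v = S.ρ * 8 / 9 * S.E u u := by
  obtain ⟨hd, h0, h1, hs⟩ := hu
  have hs' : ∀ z, u (ryK z) = u z := fun z => by
    have := congrArg (fun f : C(K, ℝ) => f z) hs
    simpa using this
  obtain ⟨F, hF⟩ := glue_words 1
    (fun w => (3 : ℝ)⁻¹ • (ContinuousMap.const K (ix w : ℝ) + u)) (by
      intro w hw w' hw' z z' he
      have hl := mem_Wd.1 hw
      have hl' := mem_Wd.1 hw'
      have e1 : (psiW w z).1.1 = (psiW w' z').1.1 := by rw [he]
      have e2 : (psiW w z).1.2 = (psiW w' z').1.2 := by rw [he]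
      rw [psiW_fst, psiW_fst, hl, hl'] at e1
      rw [psiW_snd, psiW_snd, hl, hl'] at e2
      have hz := carpet_subset_unitSq z.2
      have hz' := carpet_subset_unitSq z'.2
      obtain ⟨⟨a1, a2⟩, a3, a4⟩ := hz
      obtain ⟨⟨b1, b2⟩, b3, b4⟩ := hz'
      have e1' : z.1.1 + ix w = z'.1.1 + ix w' := by
        have : (3 : ℝ) ^ 1 ≠ 0 := by norm_num
        field_simp at e1
        linarith
      have e2' : z.1.2 + iy w = z'.1.2 + iy w' := by
        have : (3 : ℝ) ^ 1 ≠ 0 := by norm_num
        field_simp at e2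
        linarith
      simp only [ContinuousMap.smul_apply, ContinuousMap.add_apply, ContinuousMap.const_apply,
        smul_eq_mul]
      rcases lt_trichotomy (ix w) (ix w') with hlt | heq | hgt
      · have h2 : (ix w : ℝ) + 1 ≤ ix w' := by exact_mod_cast hlt
        have h3 : z.1.1 = 1 := by linarith
        have h4 : z'.1.1 = 0 := by linarith
        rw [h1 z h3, h0 z' h4]
        have : (ix w : ℝ) + 1 = ix w' := by linarith
        rw [this]; ring
      · have hx : z.1.1 = z'.1.1 := by rw [heq] at e1'; linarith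
        rw [heq]
        have key : u z = u z' := by
          rcases lt_trichotomy (iy w) (iy w') with hlt | heq' | hgt
          · have h2 : (iy w : ℝ) + 1 ≤ iy w' := by exact_mod_cast hlt
            have h3 : z.1.2 = 1 := by linarith
            have h4 : z'.1.2 = 0 := by linarith
            have : z' = ryK z := by
              refine Subtype.ext (Prod.ext ?_ ?_)
              · rw [ryK_fst, hx]
              · rw [ryK_snd, h3, h4]; norm_num
            rw [this, hs']
          · have hy : z.1.2 = z'.1.2 := by rw [heq'] at e2'; linarith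
            rw [show z = z' from Subtype.ext (Prod.ext hx hy)]
          · have h2 : (iy w' : ℝ) + 1 ≤ iy w := by exact_mod_cast hgt
            have h3 : z'.1.2 = 1 := by linarith
            have h4 : z.1.2 = 0 := by linarith
            have : z' = ryK z := by
              refine Subtype.ext (Prod.ext ?_ ?_)
              · rw [ryK_fst, hx]
              · rw [ryK_snd, h3, h4]; norm_num
            rw [this, hs']
        rw [key]
      · have h2 : (ix w' : ℝ) + 1 ≤ ix w := by exact_mod_cast hgt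
        have h3 : z'.1.1 = 1 := by linarith
        have h4 : z.1.1 = 0 := by linarith
        rw [h1 z' h3, h0 z h4]
        have : (ix w' : ℝ) + 1 = ix w := by linarith
        rw [← this]; ring)
  have hFa : ∀ w ∈ Wd 1, ∀ z, F (psiW w z) = (3 : ℝ)⁻¹ * ((ix w : ℝ) + u z) := by
    intro w hw z
    have := congrArg (fun f : C(K, ℝ) => f z) (hF w hw)
    simpa [mul_add] using this
  have hmem : ∀ w ∈ Wd 1, (3 : ℝ)⁻¹ • (ContinuousMap.const K (ix w : ℝ) + u) ∈ S.dom := fun w _ =>
    S.dom.smul_mem _ (S.dom.add_mem (S.toRForm.const_mem _) hd)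
  have hFd : F ∈ S.dom := (mem_words S 1 F).2 fun w hw => by
    rw [hF w hw]; exact hmem w hw
  have hE : S.E F F = S.ρ * 8 / 9 * S.E u u := by
    rw [E_words S 1 hFd hFd]
    have : ∀ w ∈ Wd 1, S.E (F.comp (psiW w)) (F.comp (psiW w)) = (9 : ℝ)⁻¹ * S.E u u := by
      intro w hw
      rw [hF w hw]
      simp only [map_smul, map_add, LinearMap.smul_apply, LinearMap.add_apply, smul_eq_mul]
      rw [S.toRForm.E_const_right, S.toRForm.E_const_left, S.toRForm.E_const_right]
      ring
    rw [Finset.sum_congr rfl this, Finset.sum_const, cross_card]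
    simp only [nsmul_eq_mul, pow_one]
    push_cast
    ring
  refine ⟨F, ⟨hFd, ?_, ?_, ?_⟩, hE⟩
  · intro z hz
    obtain ⟨w, hw, y, rfl⟩ := exists_mem_cellW 1 z
    have hl := mem_Wd.1 hw
    rw [psiW_fst, hl] at hz
    have hy := carpet_subset_unitSq y.2
    obtain ⟨⟨a1, a2⟩, a3, a4⟩ := hy
    have hi : (0 : ℝ) ≤ ix w := Nat.cast_nonneg _
    have hz' : y.1.1 + ix w = 0 := by
      field_simp at hz
      linarith
    have hy0 : y.1.1 = 0 := by linarith
    have hi0 : (ix w : ℝ) = 0 := by linarith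
    rw [hFa w hw y, h0 y hy0, hi0]
    norm_num
  · intro z hz
    obtain ⟨w, hw, y, rfl⟩ := exists_mem_cellW 1 z
    have hl := mem_Wd.1 hw
    rw [psiW_fst, hl] at hz
    have hy := carpet_subset_unitSq y.2
    obtain ⟨⟨a1, a2⟩, a3, a4⟩ := hy
    have hi : (ix w : ℝ) ≤ 2 := by
      have := ix_lt w
      rw [hl] at this
      have : ix w ≤ 2 := by omega
      exact_mod_cast this
    have hz' : y.1.1 + ix w = 3 := by
      field_simp at hz
      linarith
    have hy0 : y.1.1 = 1 := by linarith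
    have hi0 : (ix w : ℝ) = 2 := by linarith
    rw [hFa w hw y, h1 y hy0, hi0]
    norm_num
  · ext z
    rw [ContinuousMap.comp_apply]
    obtain ⟨w, hw, y, rfl⟩ := exists_mem_cellW 1 z
    have hw' : ryW w ∈ Wd 1 := mem_Wd.2 (by rw [ryW_length]; exact mem_Wd.1 hw)
    rw [cross_ryK_psiW, hFa _ hw', hFa _ hw, ix_ry, hs']

/-- Proof: for `u` as above let `T u` be `(i + u) / 3` on the level `1` cells of column `i`
(`glue_words` with `m = 1`; the common sides: vertical ones by the boundary values, horizontal ones by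
the symmetry in `y`); it has the same properties and `E(Tu, Tu) = ρ · 8 / 9 · E(u, u)`. So
`1 ≤ Rc (8 ρ / 9)^n E(u, u)` for all `n`. -/
theorem rho_ge (S : SymForm) : 9 / 8 ≤ S.ρ := by
  by_contra hlt
  rw [not_le] at hlt
  obtain ⟨u, hd, -, h0, h1, hs⟩ := exists_cross S
  obtain ⟨R, hR, hb⟩ := S.bound
  have hn : ∀ n : ℕ, ∃ v, CrossP S v ∧ S.E v v = (S.ρ * 8 / 9) ^ n * S.E u u := by
    intro n
    induction n with
    | zero => exact ⟨u, ⟨hd, h0, h1, hs⟩, by simp⟩
    | succ n ih =>
      obtain ⟨v, hv, hE⟩ := ih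
      obtain ⟨v', hv', hE'⟩ := cross_step S hv
      exact ⟨v', hv', by rw [hE', hE, pow_succ]; ring⟩
  have hle : ∀ n : ℕ, 1 ≤ R * ((S.ρ * 8 / 9) ^ n * S.E u u) := by
    intro n
    obtain ⟨v, ⟨hv, hv0, hv1, -⟩, hE⟩ := hn n
    have := hb v hv c10 c00
    rw [hv1 c10 rfl, hv0 c00 rfl, hE] at this
    linarith
  have hρ := S.ρ_pos
  have hlim : Tendsto (fun n : ℕ => R * ((S.ρ * 8 / 9) ^ n * S.E u u)) atTop (𝓝 0) := by
    have h := tendsto_pow_atTop_nhds_zero_of_lt_one (r := S.ρ * 8 / 9) (by positivity)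
      (by linarith)
    have h2 := (h.mul_const (S.E u u)).const_mul R
    simpa using h2
  have := ge_of_tendsto' hlim hle
  linarith

end CarpetLib
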