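import Pool.Agent.Lib.MP_f3090c_an.D.SitDefs
import Pool.Agent.Lib.MP_f3090c_an.D.Basic3
import Pool.Agent.Lib.MP_f3090c_an.R.Basic

/-! D22b: 5.5 (b) of the paper proof. -/

open Set Filter Topology

namespace CarpetLib

/-- points of `nb` of a neighbour of an ancestor are not far -/
private theorem Decay_far {l j k : ℕ} (hjk : j + 1 ≤ k) {a b : ℤ} {r : ℝ}
    (hb : |a / 3 ^ (j + 1) - b| ≤ 1) (h1 : (b : ℝ) - 1 / 3 ≤ 3 ^ l * r)
    (h2 : 3 ^ l * r ≤ b + 4 / 3) : |3 ^ (l + (j + 1)) * r - a| ≤ 3 ^ (k + 1) := by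
  have hM : (0 : ℤ) < 3 ^ (j + 1) := by positivity
  have hMr : (0 : ℝ) < 3 ^ (j + 1) := by positivity
  have k1 : 3 ^ (j + 1) * (a / 3 ^ (j + 1)) ≤ a := Int.mul_ediv_self_le hM.ne'
  have k2 : a + 1 ≤ 3 ^ (j + 1) * (a / 3 ^ (j + 1)) + 3 ^ (j + 1) := by
    have := Int.lt_mul_ediv_self_add (x := a) hM
    omega
  rw [abs_le] at hb
  set u : ℤ := a / 3 ^ (j + 1) with hu
  have k1' : (3 : ℝ) ^ (j + 1) * (u : ℝ) ≤ a := by exact_mod_cast k1
  have k2' : (a : ℝ) + 1 ≤ (3 : ℝ) ^ (j + 1) * (u : ℝ) + 3 ^ (j + 1) := by exact_mod_cast k2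
  have b1 : (b : ℝ) ≤ u + 1 := by
    have : b ≤ u + 1 := by omega
    exact_mod_cast this
  have b2 : (u : ℝ) - 1 ≤ b := by
    have : u - 1 ≤ b := by omega
    exact_mod_cast this
  have e : (3 : ℝ) ^ (k + 1) = 3 ^ (j + 1) * 3 ^ (k - j) := by
    rw [← pow_add]
    congr 1
    omega
  have e3 : (3 : ℝ) ≤ 3 ^ (k - j) := by
    calc (3 : ℝ) = 3 ^ 1 := by norm_num
      _ ≤ 3 ^ (k - j) := pow_le_pow_right₀ (by norm_num) (by omega)
  have e4 : (3 : ℝ) ^ (j + 1) * 3 ≤ 3 ^ (k + 1) := by
    rw [e]
    exact mul_le_mul_of_nonneg_left e3 hMr.le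
  have e5 : (3 : ℝ) ^ (l + (j + 1)) * r = 3 ^ (j + 1) * (3 ^ l * r) := by
    rw [pow_add]; ring
  rw [e5, abs_le]
  have m1 : (3 : ℝ) ^ (j + 1) * (u - 1 - 1 / 3) ≤ 3 ^ (j + 1) * (3 ^ l * r) :=
    mul_le_mul_of_nonneg_left (by linarith) hMr.le
  have m2 : (3 : ℝ) ^ (j + 1) * (3 ^ l * r) ≤ 3 ^ (j + 1) * (u + 1 + 4 / 3) :=
    mul_le_mul_of_nonneg_left (by linarith) hMr.le
  constructor
  · nlinarith
  · nlinarith

/-- 5.5 (b). Proof: by downward induction on `j ≤ k`: for all present `V` of level `p - j` with `Near 2 (par j x) V` and all `y ∈ cell (p-j) V`: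
`g y ≤ (1 - c^2)^(k-j)`. `j = k`: `g ≤ 1`. Step from `j` to `j - 1`: let `s = (1-c^2)^(k-j)`, `w = s - g`. For `V` present of level `p - j` touching `U = par j x`:
`SupOn S (nb (p-j) V) w` (`nb` is covered by the cells at distance `≤ 1` of `V`, so `≤ 2` of `U`, `w ≥ 0` there; `z ∉ nb (p-j) V` because points of these
cells are at distance `≤ 3 * 3^j` in pixel coordinates from the corner `x`). Harnack in `U` from the point `t` (`g t = 0`): `w ≥ c s` on `cell U`; Harnack in
`V` from a common point of `U` and `V` (`near_share`): `w ≥ c² s` on `cell V`. A present `V'` of level `p - j + 1` with `Near 2 (par (j-1) x) V'` has a parent touching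
`U`. -/
theorem decay {S : SymForm} {c : ℝ} (hc : 0 < c) (hc1 : c < 1) (har : Harnack S c)
    {g : C(K, ℝ)} (hg : g ∈ S.dom) (g01 : ∀ t, 0 ≤ g t ∧ g t ≤ 1) {z : K}
    (hE : ∀ v ∈ S.dom, (∀ t, 0 ≤ v t) → v z = 0 → S.E g v ≤ 0) {p : ℕ} {x : Ix} (hx : Pres p x)
    {t : K} (ht : t ∈ cell p x) (hgt : g t = 0) (k : ℕ) (hk : k ≤ p)
    (hz : (3 : ℝ) ^ (k + 1) < |3 ^ p * z.1.1 - x.1| ∨ (3 : ℝ) ^ (k + 1) < |3 ^ p * z.1.2 - x.2|)
    {y : K} (hy : y ∈ cell p x) : g y ≤ (1 - c ^ 2) ^ k := by
  have hc2 : 0 ≤ 1 - c ^ 2 := by nlinarith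
  have main : ∀ i j : ℕ, j + i = k → ∀ V, Pres (p - j) V → Near 2 (par j x) V →
      ∀ y ∈ cell (p - j) V, g y ≤ (1 - c ^ 2) ^ i := by
    intro i
    induction i with
    | zero =>
      intro j _ V _ _ y _
      rw [pow_zero]
      exact (g01 y).2
    | succ i ih =>
      intro j hj V' hV' hn y hy
      obtain ⟨l, hl⟩ : ∃ l, p = l + (j + 1) := ⟨p - (j + 1), by omega⟩
      have hl1 : p - j = l + 1 := by omega
      have hl2 : p - (j + 1) = l := by omega
      rw [hl1] at hV' hy
      have IH := ih (j + 1) (by omega)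
      rw [hl2] at IH
      set s : ℝ := (1 - c ^ 2) ^ i with hs
      have hs0 : 0 ≤ s := pow_nonneg hc2 i
      set U : Ix := par (j + 1) x with hU
      have hUp : Pres l U := pres_par (n := l) (m := j + 1) (by rw [← hl]; exact hx)
      set w : C(K, ℝ) := ContinuousMap.const K s - g with hw
      have hwx : ∀ u, w u = s - g u := fun u => rfl
      have hwd : w ∈ S.dom := S.dom.sub_mem (S.toRForm.const_mem s) hg
      have sup : ∀ V, Pres l V → Near 1 U V → SupOn S (nb l V) w := by
        intro V hV hUV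
        refine ⟨hwd, ?_, ?_⟩
        · intro u hu
          obtain ⟨q, hq, huq, hVq⟩ := nb_cover hu
          have h2 : Near 2 U q := by
            obtain ⟨a1, a2⟩ := hUV
            obtain ⟨b1, b2⟩ := hVq
            rw [abs_le] at a1 a2 b1 b2
            refine ⟨?_, ?_⟩
            · rw [abs_le]; constructor <;> linarith
            · rw [abs_le]; constructor <;> linarith
          have := IH q hq h2 u huq
          rw [hwx]
          linarith
        · intro v hv hv0 hvz
          have hzn : z ∉ nb l V := by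
            intro hzn
            obtain ⟨⟨c1, c2⟩, c3, c4⟩ := hzn
            have f1 := Decay_far (k := k) (by omega) hUV.1 c1 c2
            have f2 := Decay_far (k := k) (by omega) hUV.2 c3 c4
            rw [hl] at hz
            rcases hz with h | h
            · exact absurd h (not_lt.2 f1)
            · exact absurd h (not_lt.2 f2)
          have h1 := hE v hv hv0 (hvz z hzn)
          have e : S.E w v = - S.E g v := by
            rw [hw, map_sub, LinearMap.sub_apply, S.toRForm.E_const_left, zero_sub]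
          rw [e]
          linarith
      -- Harnack on `U`
      have hUU : Near 1 U U := by simp [Near]
      have htU : t ∈ cell l U := by
        have := cell_par l (j + 1) x
        rw [← hl] at this
        exact this ht
      have onU : ∀ u ∈ cell l U, c * s ≤ w u := by
        intro u hu
        have := har l U hUp w (sup U hUp hUU) u hu t htU
        rw [hwx t, hgt, sub_zero] at this
        exact this
      set V : Ix := par 1 V' with hVd
      have hV : Pres l V := pres_par (n := l) (m := 1) hV'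
      have hUV : Near 1 U V := by
        have e1 : U = ((par j x).1 / 3, (par j x).2 / 3) := by
          rw [hU]
          unfold par
          simp only
          rw [Int.ediv_ediv_of_nonneg (by positivity), Int.ediv_ediv_of_nonneg (by positivity),
            pow_succ]
        have e2 : V = (V'.1 / 3, V'.2 / 3) := by
          rw [hVd]
          unfold par
          simp
        obtain ⟨a1, a2⟩ := hn
        rw [abs_le] at a1 a2
        rw [e1, e2]
        refine ⟨?_, ?_⟩
        · rw [abs_le]; constructor <;> dsimp only <;> omega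
        · rw [abs_le]; constructor <;> dsimp only <;> omega
      obtain ⟨u, hu1, hu2⟩ := near_share hUp hUV
      have hyV : y ∈ cell l V := cell_par l 1 V' hy
      have h1 := har l V hV w (sup V hV hUV) y hyV u hu2
      have h2 := onU u hu1
      have h3 : c * (c * s) ≤ c * w u := mul_le_mul_of_nonneg_left h2 hc.le
      rw [hwx y] at h1
      rw [pow_succ, ← hs]
      nlinarith
  refine main k 0 (by omega) x (by simpa using hx) ?_ y (by simpa using hy)
  simp [Near, par]

end CarpetLib
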