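import Pool.Agent.Lib.MP_f3090c_an.K.Points
import Pool.Agent.Lib.MP_f3090c_an.K.WordDefs
import Pool.Agent.Lib.MP_f3090c_an.P.King

/-!
# Definitions for the doubling theorem (paper proof: /team-store/MP_f3090c_doubling.md)
-/

open Set Filter Topology

namespace CarpetLib

/-- index of a square of some level -/
abbrev Ix : Type := ℤ × ℤ

/-- `q` is the index of a present square of level `l`: `0 ≤ q.1, q.2 < 3 ^ l` and no common
ternary digit `1`. -/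
def Pres : ℕ → Ix → Prop
  | 0, q => q = (0, 0)
  | l + 1, q => Pres l (q.1 / 3, q.2 / 3) ∧ ¬ (q.1 % 3 = 1 ∧ q.2 % 3 = 1)

/-- closed square of level `l` with index `q` in the plane -/
def sqr (l : ℕ) (q : Ix) : Set (ℝ × ℝ) :=
  {x | ((q.1 : ℝ) ≤ 3 ^ l * x.1 ∧ 3 ^ l * x.1 ≤ q.1 + 1) ∧
    ((q.2 : ℝ) ≤ 3 ^ l * x.2 ∧ 3 ^ l * x.2 ≤ q.2 + 1)}

/-- the part of the carpet in the square -/
def cell (l : ℕ) (q : Ix) : Set K := {z | z.1 ∈ sqr l q}

/-- the part of the carpet in the square enlarged by one third of its side in all directions -/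
def nb (l : ℕ) (q : Ix) : Set K :=
  {z | ((q.1 : ℝ) - 1 / 3 ≤ 3 ^ l * z.1.1 ∧ 3 ^ l * z.1.1 ≤ q.1 + 4 / 3) ∧
    ((q.2 : ℝ) - 1 / 3 ≤ 3 ^ l * z.1.2 ∧ 3 ^ l * z.1.2 ≤ q.2 + 4 / 3)}

/-- equal or neighbours with a common side -/
def Rook (p q : Ix) : Prop := (p.1 = q.1 ∧ |p.2 - q.2| ≤ 1) ∨ (p.2 = q.2 ∧ |p.1 - q.1| ≤ 1)

/-- index of the ancestor `m` levels up -/
def par (m : ℕ) (q : Ix) : Ix := (q.1 / 3 ^ m, q.2 / 3 ^ m)

/-- reachable from `p` by rook steps through indices with property `A` -/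
def Reach (A : Ix → Prop) : Ix → Ix → Prop := Relation.ReflTransGen fun a b => Rook a b ∧ A b

/-- `w` is nonnegative and superharmonic on `N` -/
def SupOn (S : SymForm) (N : Set K) (w : C(K, ℝ)) : Prop :=
  w ∈ S.dom ∧ (∀ x ∈ N, 0 ≤ w x) ∧
    ∀ v ∈ S.dom, (∀ x, 0 ≤ v x) → (∀ x, x ∉ N → v x = 0) → 0 ≤ S.E w v

/-- Harnack inequality with constant `c` in all cells -/
def Harnack (S : SymForm) (c : ℝ) : Prop :=
  ∀ (l : ℕ) (q : Ix), Pres l q → ∀ w, SupOn S (nb l q) w →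
    ∀ x ∈ cell l q, ∀ z ∈ cell l q, c * w z ≤ w x

/-- `E(h, v) = v(0,0) - v(1,1)` for all `v` -/
def IsPole (S : SymForm) (h : C(K, ℝ)) : Prop :=
  h ∈ S.dom ∧ ∀ v ∈ S.dom, S.E h v = v c00 - v c11

/-- oscillation at most `r` on `A` -/
def OscLe (f : C(K, ℝ)) (A : Set K) (r : ℝ) : Prop := ∀ x ∈ A, ∀ y ∈ A, |f x - f y| ≤ r

/-- the cells containing the corners `(0,0)` and `(1,1)` are at distance at least `15` -/
def Far (n : ℕ) (q : Ix) : Prop := (15 ≤ q.1 ∨ 15 ≤ q.2) ∧ (q.1 + 16 ≤ 3 ^ n ∨ q.2 + 16 ≤ 3 ^ n)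

/-- the main claim (OD): comparison of oscillations on touching cells -/
def OscDoubling (S : SymForm) (Λ : ℝ) : Prop :=
  ∀ h, IsPole S h → ∀ (n : ℕ) (p q : Ix), Pres n p → Pres n q → Near 1 p q → Far n p →
    ∀ r, 0 ≤ r → OscLe h (cell n p) r → OscLe h (cell n q) (Λ * r)

end CarpetLib
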