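import Pool.Agent.Lib.MP_f3090c_an.D.WDefs
import Pool.Agent.Lib.MP_f3090c_an.R.Riesz
import Pool.Agent.Lib.MP_f3090c_an.R.Nodal

/-! Doubling DB10: dipole potentials. -/

open Set Filter Topology

namespace CarpetLib

/-- `q` is a dipole potential with poles `b1`, `b2` -/
def IsDip (S : SymForm) (b1 b2 : K) (q : C(K, ℝ)) : Prop :=
  q ∈ S.dom ∧ ∀ f ∈ S.dom, S.E q f = f b1 - f b2

/-- Proof: `riesz` with `κ = 0`, `Z = {b2}` and the functional `f ↦ f b1` (bounded by `S.bound`); for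
`f ∈ dom` apply it to `f - f b2`. -/
theorem exists_dip (S : SymForm) (b1 b2 : K) : ∃ q, IsDip S b1 b2 q := by
  have hG : Good (0 : C(K, ℝ) →ₗ[ℝ] ℝ) ({b2} : Set K) :=
    ⟨fun _ _ => le_rfl, isClosed_singleton, Or.inr ⟨b2, rfl⟩⟩
  have hQ : ∀ u f : C(K, ℝ), S.toRForm.Q 0 u f = S.E u f := by
    intro u f
    unfold RForm.Q
    rw [LinearMap.zero_apply, add_zero]
  obtain ⟨R0, -, hb⟩ := S.bound
  obtain ⟨v, hv, hvf⟩ := S.toRForm.riesz hG (ev b1) ⟨R0, fun f hf => by
    have h1 := hb f hf.1 b1 b2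
    have h2 : f b2 = 0 := hf.2 b2 rfl
    rw [h2, sub_zero] at h1
    rw [hQ]
    exact h1⟩
  refine ⟨v, hv.1, fun f hf => ?_⟩
  have hm : f - ContinuousMap.const K (f b2) ∈ S.toRForm.domZ {b2} := by
    refine ⟨S.dom.sub_mem hf (S.toRForm.const_mem _), fun z hz => ?_⟩
    have hz' : z = b2 := hz
    rw [hz', ContinuousMap.sub_apply, ContinuousMap.const_apply, sub_self]
  have h1 := hvf _ hm
  rw [hQ, map_sub, S.toRForm.E_const_right, sub_zero] at h1
  rw [h1]
  rfl

theorem IsDip.neg {S : SymForm} {b1 b2 : K} {q : C(K, ℝ)} (h : IsDip S b1 b2 q) :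
    IsDip S b2 b1 (-q) := by
  refine ⟨S.dom.neg_mem h.1, fun f hf => ?_⟩
  rw [map_neg, LinearMap.neg_apply, h.2 f hf, neg_sub]

private theorem Dip_inv {S : SymForm} {σ : C(K, K)} (hσ : S.toRForm.Inv σ)
    (hσσ : ∀ z, σ (σ z) = z) {b1 b2 : K} {q : C(K, ℝ)} (h : IsDip S b1 b2 q) :
    IsDip S (σ b1) (σ b2) (q.comp σ) := by
  refine ⟨hσ.1 q h.1, fun f hf => ?_⟩
  have e : (f.comp σ).comp σ = f := by
    ext z
    show f (σ (σ z)) = f z
    rw [hσσ]
  have h1 := hσ.2 q h.1 (f.comp σ) (hσ.1 f hf)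
  rw [e] at h1
  rw [h1, h.2 _ (hσ.1 f hf)]
  rfl

theorem IsDip.rx {S : SymForm} {b1 b2 : K} {q : C(K, ℝ)} (h : IsDip S b1 b2 q) :
    IsDip S (rxK b1) (rxK b2) (q.comp rxK) := by
  refine Dip_inv S.rx_inv (fun z => ?_) h
  apply Subtype.ext
  apply Prod.ext
  · rw [rxK_fst, rxK_fst, sub_sub_cancel]
  · rw [rxK_snd, rxK_snd]

theorem IsDip.sw {S : SymForm} {b1 b2 : K} {q : C(K, ℝ)} (h : IsDip S b1 b2 q) :
    IsDip S (swK b1) (swK b2) (q.comp swK) := by
  refine Dip_inv S.sw_inv (fun z => ?_) h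
  apply Subtype.ext
  apply Prod.ext
  · rw [swK_fst, swK_snd]
  · rw [swK_snd, swK_fst]

/-- uniqueness up to constants -/
theorem IsDip.unique {S : SymForm} {b1 b2 : K} {q q' : C(K, ℝ)} (h : IsDip S b1 b2 q)
    (h' : IsDip S b1 b2 q') : ∀ x y, q x - q' x = q y - q' y := by
  have hm : q - q' ∈ S.dom := S.dom.sub_mem h.1 h'.1
  have h0 : S.E (q - q') (q - q') = 0 := by
    have e : S.E (q - q') = S.E q - S.E q' := map_sub _ _ _
    rw [e, LinearMap.sub_apply, h.2 _ hm, h'.2 _ hm, sub_self]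
  exact S.const_of_zero _ hm h0

/-- every point with `q > c` is joined to `b1` inside `{q > c}`. Proof: the cut-off argument: `v = q - c`,
`0 < ε < v y`; if not joined, the clopen argument of `R/Nodal.lean` gives `φ ∈ dom`, `φ ≥ 0`, `φ b1 = 0`,
`φ y > 0`, `E(φ, φ) ≤ E(v, φ) = φ b1 - φ b2 ≤ 0`, so `φ` is constant, contradiction. One may also import
`D/RCut.lean` and use `cut_off`. -/
theorem IsDip.nodal {S : SymForm} {b1 b2 : K} {q : C(K, ℝ)} (h : IsDip S b1 b2 q) {c : ℝ} {y : K}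
    (hy : c < q y) : Joined' {x | c < q x} y b1 := by
  set v : C(K, ℝ) := q - ContinuousMap.const K c with hv
  have hvx : ∀ x, v x = q x - c := fun x => rfl
  have hvm : v ∈ S.dom := S.dom.sub_mem h.1 (S.toRForm.const_mem c)
  have hpos : Pos (ev b1) := fun f hf => hf b1
  have h1 : (0 : ℝ) < ev b1 (1 : C(K, ℝ)) := by
    show (0 : ℝ) < 1
    exact one_pos
  obtain ⟨i, hi, hj⟩ := S.toRForm.nodal hpos h1 hvm
    (fun i : Bool => if i = true then 1 + v b1 else -1) (fun i : Bool => if i = true then b1 else b2)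
    (by
      intro f hf
      rw [Fintype.sum_bool]
      simp only [if_true, Bool.false_eq_true, if_false]
      show S.E v f + v b1 * f b1 = _
      rw [hv, map_sub, LinearMap.sub_apply, S.toRForm.E_const_left, h.2 f hf]
      ring) (y := y) (by rw [hvx]; linarith)
  have hset : {x | 0 < v x} = {x | c < q x} := by
    ext x
    show 0 < v x ↔ c < q x
    rw [hvx, sub_pos]
  rw [hset] at hj
  cases i with
  | true => exact hj
  | false =>
    exfalso
    simp only [Bool.false_eq_true, if_false] at hi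
    linarith

theorem IsDip.nodal' {S : SymForm} {b1 b2 : K} {q : C(K, ℝ)} (h : IsDip S b1 b2 q) {c : ℝ} {y : K}
    (hy : q y < c) : Joined' {x | q x < c} y b2 := by
  have h1 := h.neg.nodal (c := -c) (y := y) (by
    show -c < -(q y)
    linarith)
  have hset : {x | -c < (-q) x} = {x | q x < c} := by
    ext x
    show -c < -(q x) ↔ q x < c
    constructor <;> intro h <;> linarith
  rwa [hset] at h1

/-- a function of the domain vanishing at the poles is orthogonal to `q`; constants do not matter -/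
theorem IsDip.sub_const {S : SymForm} {b1 b2 : K} {q : C(K, ℝ)} (h : IsDip S b1 b2 q) (c : ℝ) :
    IsDip S b1 b2 (q - ContinuousMap.const K c) := by
  refine ⟨S.dom.sub_mem h.1 (S.toRForm.const_mem c), fun f hf => ?_⟩
  rw [map_sub, LinearMap.sub_apply, S.toRForm.E_const_left, sub_zero, h.2 f hf]

end CarpetLib
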