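import Pool.Agent.Lib.MP_f3090c_an.D.FDefs
import Pool.Agent.Lib.MP_f3090c_an.D.Bump

/-! Doubling F09: balls and cells. -/

open Set Filter Topology

namespace CarpetLib

theorem EBall_open (x : K) (r : ℝ) : IsOpen (EBall x r) := by
  refine isOpen_lt ?_ continuous_const
  fun_prop

private theorem fball_sq {a b r t : ℝ} (ht : 0 < t) (ha : |t * a| ≤ 1) (hb : |t * b| ≤ 1)
    (h : 2 < (t * r) ^ 2) : a ^ 2 + b ^ 2 < r ^ 2 := by
  have h1 : (t * a) ^ 2 ≤ 1 := (sq_le_one_iff_abs_le_one _).2 ha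
  have h2 : (t * b) ^ 2 ≤ 1 := (sq_le_one_iff_abs_le_one _).2 hb
  have h3 : t ^ 2 * (a ^ 2 + b ^ 2) < t ^ 2 * r ^ 2 := by nlinarith
  exact lt_of_mul_lt_mul_left h3 (by positivity)

private theorem fball_nat {i j : ℕ} {s t : ℝ} (hi : (i : ℝ) ≤ s ∧ s ≤ i + 1)
    (hj : (j : ℝ) ≤ t ∧ t ≤ j + 1) (h : |s - t| < 1) : i ≤ j + 1 ∧ j ≤ i + 1 := by
  have h1 := abs_lt.1 h
  have h2 : (i : ℝ) < ((j + 2 : ℕ) : ℝ) := by
    push_cast
    linarith
  have h3 : (j : ℝ) < ((i + 2 : ℕ) : ℝ) := by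
    push_cast
    linarith
  have h4 : i < j + 2 := by exact_mod_cast h2
  have h5 : j < i + 2 := by exact_mod_cast h3
  omega

private theorem fball_lt {a b r t : ℝ} (ht : 0 < t) (h : a ^ 2 + b ^ 2 < (2 * r) ^ 2)
    (hr : (3 * t * r) ^ 2 ≤ 2) : |t * a| < 1 := by
  have h1 : (t * a) ^ 2 < 1 := by
    have h2 : t ^ 2 * (a ^ 2 + b ^ 2) < t ^ 2 * (2 * r) ^ 2 :=
      mul_lt_mul_of_pos_left h (by positivity)
    have h3 : 0 ≤ (t * b) ^ 2 := sq_nonneg _
    nlinarith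
  exact (sq_lt_one_iff_abs_lt_one _).1 h1

/-- Proof: let `n` be minimal with `2 < (3 ^ n * r) ^ 2` (that is `√2 3 ^ (-n) < r`), `c ∈ Wd n` a word whose cell
contains `x` (`exists_mem_cellW`). Two points of this cell have coordinates differing by at most `3 ^ (-n)`
(`mem_cellW_iff`), so the cell lies in `EBall x r`. If `n ≤ 2` take `u = []`, `v = c` (`cellW [] = univ`,
`[] ∈ nbhd 1 0 {[]}`). If `2 < n`: `u = c.take (n - 2)`, `v = c.drop (n - 2)`. By minimality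
`(3 ^ (n - 1) * r) ^ 2 ≤ 2`, so `(3 ^ (n - 2) * 2 * r) ^ 2 ≤ 8 / 9 < 1`: for `y ∈ EBall x (2 * r)` the coordinates of
`y - x` are smaller than `3 ^ (-(n - 2))`. `x` is in the cell of `u` (`cellW_append_subset`), `y` in a cell of
some `w ∈ Wd (n - 2)`, and `Nb 1 u w` by `mem_cellW_iff`: the abscissae satisfy
`ix u ≤ 3 ^ k x ≤ ix u + 1`, `ix w ≤ 3 ^ k y ≤ ix w + 1`, `|3 ^ k x - 3 ^ k y| < 1`, so `|ix u - ix w| < 2`. -/
theorem ball_cells (x : K) {r : ℝ} (hr : 0 < r) : ∃ u v : List Dig, v.length ≤ 2 ∧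
    cellW (u ++ v) ⊆ EBall x r ∧
    EBall x (2 * r) ⊆ ⋃ w ∈ nbhd 1 u.length {u}, cellW w := by
  classical
  have hex : ∃ n : ℕ, 2 < (3 ^ n * r) ^ 2 := by
    obtain ⟨n, hn⟩ := pow_unbounded_of_one_lt (2 / r) (by norm_num : (1 : ℝ) < 3)
    refine ⟨n, ?_⟩
    have h1 : 2 < 3 ^ n * r := by
      rw [div_lt_iff₀ hr] at hn
      exact hn
    nlinarith
  obtain ⟨n, hn, hmin⟩ : ∃ n : ℕ, 2 < (3 ^ n * r) ^ 2 ∧ ∀ m < n, ¬ 2 < (3 ^ m * r) ^ 2 :=
    ⟨Nat.find hex, Nat.find_spec hex, fun m hm => Nat.find_min hex hm⟩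
  obtain ⟨c, hc, hxc⟩ := exists_mem_cellW n x
  have hcl : c.length = n := mem_Wd.1 hc
  have hsub : cellW c ⊆ EBall x r := by
    intro y hy
    have h1 := mem_cellW_iff.1 hxc
    have h2 := mem_cellW_iff.1 hy
    rw [hcl] at h1 h2
    have h3 : (0 : ℝ) < 3 ^ n := by positivity
    refine fball_sq h3 ?_ ?_ hn
    · rw [mul_sub, abs_le]
      constructor <;> linarith [h1.1.1, h1.1.2, h2.1.1, h2.1.2]
    · rw [mul_sub, abs_le]
      constructor <;> linarith [h1.2.1, h1.2.2, h2.2.1, h2.2.2]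
  rcases le_or_gt n 2 with h2 | h2
  · refine ⟨[], c, by omega, by simpa using hsub, fun y _ => ?_⟩
    refine mem_iUnion₂.2 ⟨[], mem_nbhd.2 ⟨mem_Wd.2 rfl, [], Finset.mem_singleton_self _,
      ⟨by omega, by omega⟩, by omega, by omega⟩, y, rfl⟩
  · have hul : (c.take (n - 2)).length = n - 2 := by
      rw [List.length_take, hcl]
      omega
    refine ⟨c.take (n - 2), c.drop (n - 2), ?_, ?_, fun y hy => ?_⟩
    · rw [List.length_drop, hcl]
      omega
    · rw [List.take_append_drop]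
      exact hsub
    · have hm := hmin (n - 1) (by omega)
      have h3 : (3 : ℝ) ^ (n - 1) = 3 * 3 ^ (n - 2) := by
        rw [← pow_succ']
        congr 1
        omega
      rw [h3, not_lt] at hm
      obtain ⟨w, hw, hyw⟩ := exists_mem_cellW (n - 2) y
      have hxu : x ∈ cellW (c.take (n - 2)) := by
        have h4 : x ∈ cellW (c.take (n - 2) ++ c.drop (n - 2)) := by
          rw [List.take_append_drop]
          exact hxc
        exact cellW_append_subset _ _ h4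
      have h5 := mem_cellW_iff.1 hxu
      have h6 := mem_cellW_iff.1 hyw
      rw [hul] at h5
      rw [mem_Wd.1 hw] at h6
      have ht : (0 : ℝ) < 3 ^ (n - 2) := by positivity
      have h7 : |(3 : ℝ) ^ (n - 2) * (y.1.1 - x.1.1)| < 1 := fball_lt ht hy hm
      have h8 : |(3 : ℝ) ^ (n - 2) * (y.1.2 - x.1.2)| < 1 := by
        refine fball_lt (b := y.1.1 - x.1.1) ht ?_ hm
        rw [add_comm]
        exact hy
      rw [mul_sub, abs_sub_comm] at h7 h8
      refine mem_iUnion₂.2 ⟨w, ?_, hyw⟩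
      rw [hul]
      exact mem_nbhd.2 ⟨hw, _, Finset.mem_singleton_self _, fball_nat h5.1 h6.1 h7,
        fball_nat h5.2 h6.2 h8⟩

end CarpetLib
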