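import Pool.Agent.Lib.MP_f3090c_an.D.Defs
import Pool.Agent.Lib.MP_f3090c_an.D.WBasic

/-! Doubling F01: words and square indices; the word `wZ`. -/

open Set Filter Topology

namespace CarpetLib

/-- the index of the square of a word -/
def ixy (w : List Dig) : Ix := ((ix w : ℤ), (iy w : ℤ))

private theorem FBridge_pres_iff {l a b : ℕ} : Pres l ((a : ℤ), (b : ℤ)) ↔ Cel l a b := by
  induction l generalizing a b with
  | zero =>
    change ((a : ℤ), (b : ℤ)) = (0, 0) ↔ a = 0 ∧ b = 0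
    rw [Prod.mk.injEq]
    omega
  | succ l ih =>
    change (Pres l ((a : ℤ) / 3, (b : ℤ) / 3) ∧ ¬ ((a : ℤ) % 3 = 1 ∧ (b : ℤ) % 3 = 1)) ↔
      (¬ (a % 3 = 1 ∧ b % 3 = 1) ∧ Cel l (a / 3) (b / 3))
    have e1 : (a : ℤ) / 3 = ((a / 3 : ℕ) : ℤ) := by omega
    have e2 : (b : ℤ) / 3 = ((b / 3 : ℕ) : ℤ) := by omega
    rw [e1, e2, ih]
    have e3 : (a : ℤ) % 3 = 1 ↔ a % 3 = 1 := by omega
    have e4 : (b : ℤ) % 3 = 1 ↔ b % 3 = 1 := by omega
    rw [e3, e4]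
    tauto

/-- Proof: induction on the length; the last letter of `w` (write `w = v ++ [d]`, `ix_append`) gives
the last digits `ix w % 3`, `iy w % 3`, the prefix gives `ix w / 3`, `iy w / 3`. Or `cel_iff` and induction. -/
theorem pres_ixy {l : ℕ} {w : List Dig} (hw : w ∈ Wd l) : Pres l (ixy w) :=
  FBridge_pres_iff.2 (cel_iff.2 ⟨w, hw, rfl, rfl⟩)

/-- Proof: `mem_cellW_iff`. -/
theorem cell_ixy {l : ℕ} {w : List Dig} (hw : w ∈ Wd l) : cell l (ixy w) = cellW w := by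
  ext z
  rw [mem_cellW_iff, mem_Wd.1 hw]
  change ((((ix w : ℤ) : ℝ) ≤ 3 ^ l * z.1.1 ∧ 3 ^ l * z.1.1 ≤ ((ix w : ℤ) : ℝ) + 1) ∧
    (((iy w : ℤ) : ℝ) ≤ 3 ^ l * z.1.2 ∧ 3 ^ l * z.1.2 ≤ ((iy w : ℤ) : ℝ) + 1)) ↔ _
  rw [Int.cast_natCast, Int.cast_natCast]

theorem near_ixy {w w' : List Dig} : Near 1 (ixy w) (ixy w') ↔ Nb 1 w w' := by
  change (|(ix w : ℤ) - ix w'| ≤ 1 ∧ |(iy w : ℤ) - iy w'| ≤ 1) ↔
    ((ix w ≤ ix w' + 1 ∧ ix w' ≤ ix w + 1) ∧ (iy w ≤ iy w' + 1 ∧ iy w' ≤ iy w + 1))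
  rw [abs_le, abs_le]
  omega

private theorem FBridge_bit {a b : ℕ} (h1 : a ≤ b + 1) (h2 : b ≤ a + 1) :
    ∃ s t : Bool, (if s then (1 : ℝ) else 0) + a = (if t then (1 : ℝ) else 0) + b := by
  rcases lt_trichotomy a b with h | h | h
  · have : b = a + 1 := by omega
    exact ⟨true, false, by rw [this]; push_cast; simp; ring⟩
  · exact ⟨false, false, by rw [h]⟩
  · have : a = b + 1 := by omega
    exact ⟨false, true, by rw [this]; push_cast; simp; ring⟩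

private theorem FBridge_corner (s t : Bool) : ∃ y : K, y.1.1 = (if s then (1 : ℝ) else 0) ∧
    y.1.2 = (if t then (1 : ℝ) else 0) := by
  cases s <;> cases t
  · exact ⟨c00, rfl, rfl⟩
  · exact ⟨c01, rfl, rfl⟩
  · exact ⟨c10, rfl, rfl⟩
  · exact ⟨c11, rfl, rfl⟩

/-- Touching cells have a common point. Proof: `p = (max (ix w) (ix w'), max (iy w) (iy w')) / 3 ^ n` is a
corner of both squares, so it is `psiW w` of a corner of the carpet (`c00`, `c10`, `c01`, `c11`), and the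
same for `w'`; see `sadj_inter`. -/
theorem nb_share {n : ℕ} {w w' : List Dig} (hw : w ∈ Wd n) (hw' : w' ∈ Wd n) (hn : Nb 1 w w') :
    (cellW w ∩ cellW w').Nonempty := by
  obtain ⟨s, s', h1⟩ := FBridge_bit hn.1.1 hn.1.2
  obtain ⟨t, t', h2⟩ := FBridge_bit hn.2.1 hn.2.2
  obtain ⟨y, hy1, hy2⟩ := FBridge_corner s t
  obtain ⟨y', hy1', hy2'⟩ := FBridge_corner s' t'
  refine ⟨psiW w y, ⟨y, rfl⟩, y', ?_⟩
  refine Subtype.ext (Prod.ext ?_ ?_)
  · rw [psiW_fst, psiW_fst, mem_Wd.1 hw, mem_Wd.1 hw', hy1, hy1', h1]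
  · rw [psiW_snd, psiW_snd, mem_Wd.1 hw, mem_Wd.1 hw', hy2, hy2', h2]

/-- the cell of `w` is far from the corners `(0,0)` and `(1,1)` -/
def Deep (r : ℕ) (w : List Dig) : Prop := r ≤ ix w ∧ iy w + r ≤ 3 ^ w.length

/-- The main input (`OscDoubling`) in terms of words. -/
theorem osc_word {S : SymForm} {Λ : ℝ} (hΛ : OscDoubling S Λ) {h : C(K, ℝ)} (hh : IsPole S h)
    {n : ℕ} {w w' : List Dig} (hw : w ∈ Wd n) (hw' : w' ∈ Wd n) (hn : Nb 1 w w') (hd : Deep 16 w)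
    {r : ℝ} (hr : 0 ≤ r) (ho : OscLe h (cellW w) r) : OscLe h (cellW w') (Λ * r) := by
  rw [← cell_ixy hw']
  rw [← cell_ixy hw] at ho
  refine hΛ h hh n (ixy w) (ixy w') (pres_ixy hw) (pres_ixy hw') (near_ixy.2 hn) ?_ r hr ho
  obtain ⟨h1, h2⟩ := hd
  rw [mem_Wd.1 hw] at h2
  constructor
  · left
    change (15 : ℤ) ≤ (ix w : ℤ)
    omega
  · right
    change (iy w : ℤ) + 16 ≤ 3 ^ n
    exact_mod_cast h2

/-- the word of the level 3 cell `(20, 0)` -/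
def wZ : List Dig := [⟨(2, 0), by decide⟩, ⟨(0, 0), by decide⟩, ⟨(2, 0), by decide⟩]

/-- `ix (wZ ++ u) = 20 * 3 ^ u.length + ix u`, `iy (wZ ++ u) = iy u`. -/
theorem deep_wZ (u : List Dig) : Deep 18 (wZ ++ u) := by
  have e1 : ix wZ = 20 := by decide
  have e2 : iy wZ = 0 := by decide
  have e3 : wZ.length = 3 := rfl
  have h1 : 1 ≤ 3 ^ u.length := Nat.one_le_pow _ _ (by norm_num)
  have h2 := iy_lt u
  constructor
  · rw [ix_append, e1]
    omega
  · rw [iy_append, e2, List.length_append, e3, pow_add]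
    omega

theorem nb_append (v : List Dig) {u u' : List Dig} (hl : u.length = u'.length) (h : Nb 1 u u') :
    Nb 1 (v ++ u) (v ++ u') := by
  unfold Nb at h ⊢
  rw [ix_append, ix_append, iy_append, iy_append, ← hl]
  omega

/-- the cells of the bottom row and of the right column -/
theorem cel_bot {n a : ℕ} (ha : a < 3 ^ n) : Cel n a 0 := by
  induction n generalizing a with
  | zero =>
    rw [pow_zero] at ha
    exact ⟨by omega, rfl⟩
  | succ n ih =>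
    rw [pow_succ] at ha
    refine ⟨fun h => absurd h.2 (by norm_num), ?_⟩
    have := ih (a := a / 3) (by omega)
    exact this

theorem cel_right {n b : ℕ} (hb : b < 3 ^ n) : Cel n (3 ^ n - 1) b := by
  have h1 : Cel n 0 b := cel_symm.1 (cel_bot hb)
  have h2 : 0 < 3 ^ n := by positivity
  have h3 := (cel_rx h2).1 h1
  rw [Nat.sub_zero] at h3
  exact h3

end CarpetLib
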