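import Pool.Agent.Lib.MP_f3090c_an.D.WBasic

/-! Doubling DB03: gluing functions over the cells of level `m`; iterated self-similarity. -/

open Set Filter Topology

namespace CarpetLib

/-- Gluing. Proof: choose for each `z` a word `w` of length `m` and a preimage; by compatibility
the value does not depend on the choice; continuity: the cells form a finite closed cover and on
the cell of `w` the function is `f w ∘ (psiW w)⁻¹`, where `psiW w` is a closed embedding. -/
theorem glue_words (m : ℕ) (f : List Dig → C(K, ℝ))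
    (h : ∀ w ∈ Wd m, ∀ w' ∈ Wd m, ∀ z z', psiW w z = psiW w' z' → f w z = f w' z') :
    ∃ F : C(K, ℝ), ∀ w ∈ Wd m, F.comp (psiW w) = f w := by
  have hex : ∀ z : K, ∃ w ∈ Wd m, ∃ z', psiW w z' = z := fun z => exists_mem_cellW m z
  choose wd hwd pz hpz using hex
  have hval : ∀ w ∈ Wd m, ∀ z', f (wd (psiW w z')) (pz (psiW w z')) = f w z' :=
    fun w hw z' => h _ (hwd _) w hw _ _ (hpz _)
  have hcont : Continuous fun z => f (wd z) (pz z) := by
    refine continuous_iff_isClosed.2 fun C hC => ?_
    have e : (fun z => f (wd z) (pz z)) ⁻¹' C = ⋃ w ∈ Wd m, psiW w '' (f w ⁻¹' C) := by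
      ext z
      simp only [mem_preimage, mem_iUnion, mem_image, exists_prop]
      constructor
      · intro hz
        exact ⟨wd z, hwd z, pz z, hz, hpz z⟩
      · rintro ⟨w, hw, z', hz', rfl⟩
        rw [hval w hw z']
        exact hz'
    rw [e]
    refine isClosed_biUnion_finset fun w _ => ?_
    exact ((hC.preimage (f w).continuous).isCompact.image (psiW w).continuous).isClosed
  refine ⟨⟨fun z => f (wd z) (pz z), hcont⟩, fun w hw => ?_⟩
  ext z
  exact hval w hw z

private theorem glueW_nil (F : C(K, ℝ)) : F.comp (psiW []) = F := by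
  ext z
  rfl

private theorem glueW_cons (F : C(K, ℝ)) (d : Dig) (w : List Dig) :
    F.comp (psiW (d :: w)) = (F.comp (psiK d)).comp (psiW w) := by
  ext z
  rfl

theorem mem_words (S : SymForm) (m : ℕ) (F : C(K, ℝ)) :
    F ∈ S.dom ↔ ∀ w ∈ Wd m, F.comp (psiW w) ∈ S.dom := by
  induction m generalizing F with
  | zero =>
    constructor
    · intro hF w hw
      have hw' : w = [] := by simpa [Wd] using hw
      rw [hw', glueW_nil]
      exact hF
    · intro h
      have := h [] (by simp [Wd])
      rwa [glueW_nil] at this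
  | succ m ih =>
    rw [S.mem_iff]
    constructor
    · intro hF w hw
      simp only [Wd, Finset.mem_image, Finset.mem_product, Finset.mem_univ, true_and,
        Prod.exists] at hw
      obtain ⟨d, v, hv, rfl⟩ := hw
      rw [glueW_cons]
      exact (ih _).1 (hF d) v hv
    · intro h d
      refine (ih _).2 fun v hv => ?_
      rw [← glueW_cons]
      refine h _ ?_
      simp only [Wd, Finset.mem_image, Finset.mem_product, Finset.mem_univ, true_and,
        Prod.exists]
      exact ⟨d, v, hv, rfl⟩

theorem comp_mem (S : SymForm) {F : C(K, ℝ)} (hF : F ∈ S.dom) (w : List Dig) :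
    F.comp (psiW w) ∈ S.dom := (mem_words S w.length F).1 hF w (mem_Wd.2 rfl)

private theorem glueW_sum (m : ℕ) (φ : List Dig → ℝ) :
    ∑ w ∈ Wd (m + 1), φ w = ∑ d : Dig, ∑ w ∈ Wd m, φ (d :: w) := by
  rw [Wd, Finset.sum_image, Finset.sum_product]
  rintro ⟨d, v⟩ _ ⟨d', v'⟩ _ h
  simp only [List.cons.injEq] at h
  exact Prod.ext h.1 h.2

theorem E_words (S : SymForm) (m : ℕ) {F G : C(K, ℝ)} (hF : F ∈ S.dom) (hG : G ∈ S.dom) :
    S.E F G = S.ρ ^ m * ∑ w ∈ Wd m, S.E (F.comp (psiW w)) (G.comp (psiW w)) := by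
  induction m generalizing F G with
  | zero =>
    simp only [Wd, Finset.sum_singleton, pow_zero, one_mul]
    rw [glueW_nil, glueW_nil]
  | succ m ih =>
    rw [S.selfSim F hF G hG, glueW_sum, pow_succ', mul_assoc]
    refine congrArg (S.ρ * ·) ?_
    rw [Finset.mul_sum]
    refine Finset.sum_congr rfl fun d _ => ?_
    exact ih ((S.mem_iff F).1 hF d) ((S.mem_iff G).1 hG d)

/-- self-similarity along the words of the form `v ++ w` -/
theorem E_word_le (S : SymForm) {F : C(K, ℝ)} (hF : F ∈ S.dom) {m : ℕ} (A : Finset (List Dig))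
    (hA : A ⊆ Wd m) :
    S.ρ ^ m * ∑ w ∈ A, S.E (F.comp (psiW w)) (F.comp (psiW w)) ≤ S.E F F := by
  rw [E_words S m hF hF]
  refine mul_le_mul_of_nonneg_left ?_ (pow_nonneg S.ρ_pos.le m)
  exact Finset.sum_le_sum_of_subset_of_nonneg hA fun w _ _ => S.nonneg _

end CarpetLib
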