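import Pool.Agent.Lib.MP_f3090c_an.D.FBridge
import Pool.Agent.Lib.MP_f3090c_an.D.GlueW
import Pool.Agent.Lib.MP_f3090c_an.D.Bump
import Pool.Agent.Lib.MP_f3090c_an.D.RMul

/-! Doubling F04: Caccioppoli inequality for the dipole potential on a cell. -/

open Set Filter Topology

namespace CarpetLib

private theorem fcac_far {n : ℕ} {w w' : List Dig} (hw : w ∈ Wd n) (hw' : w' ∈ Wd n)
    (hd : Deep 3 w) (hnb : Nb 1 w w') : c00 ∉ cellW w' ∧ c11 ∉ cellW w' := by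
  have hl := mem_Wd.1 hw
  have hl' := mem_Wd.1 hw'
  obtain ⟨hd1, hd2⟩ := hd
  rw [hl] at hd2
  obtain ⟨⟨h1, h2⟩, h3, h4⟩ := hnb
  constructor
  · intro hc
    rw [mem_cellW_iff, hl'] at hc
    have e : (c00.1.1 : ℝ) = 0 := rfl
    have h5 := hc.1.1
    rw [e, mul_zero] at h5
    have h6 : ix w' ≤ 0 := by exact_mod_cast h5
    omega
  · intro hc
    rw [mem_cellW_iff, hl'] at hc
    have e : (c11.1.2 : ℝ) = 1 := rfl
    have h5 := hc.2.2
    rw [e, mul_one] at h5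
    have h6 : 3 ^ n ≤ iy w' + 1 := by exact_mod_cast h5
    omega

/-- Proof: `χ` from `exists_cutoff` for `Z = {w}`, `p = h - h y`. `χ ≠ 0` only on the cells `w'` touching `w`
(`exists_mem_cellW`), so `|p| ≤ s` there. `caccioppoli`: `E(χ p, χ p) ≤ E(p, χ (χ p)) + s² E(χ, χ)`. Constants do not
matter: `E(p, f) = E(h, f) = f c00 - f c11`, and `(χ (χ p)) c00 = (χ (χ p)) c11 = 0`: a cell `w'` with
`Nb 1 w w'` has `1 ≤ ix w'` and `iy w' + 2 ≤ 3 ^ n`, so it does not contain `c00`, `c11` (`mem_cellW_iff`).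
`E(χ, χ) ≤ Cc ρ ^ n`. Left side: `≥ ρ ^ n E((χ p) ∘ ψ_w, (χ p) ∘ ψ_w) = ρ ^ n E(h ∘ ψ_w, h ∘ ψ_w)` by `E_words` or
`E_word_le`, as `χ = 1` on the cell of `w`. Divide by `ρ ^ n`. -/
theorem pole_cac (S : SymForm) : ∃ C : ℝ, 0 < C ∧ ∀ h, IsPole S h → ∀ n, ∀ w ∈ Wd n, Deep 3 w →
    ∀ y : K, ∀ s : ℝ, 0 ≤ s →
      (∀ w' ∈ Wd n, Nb 1 w w' → ∀ z ∈ cellW w', |h z - h y| ≤ s) →
      S.E (h.comp (psiW w)) (h.comp (psiW w)) ≤ C * s ^ 2 := by
  obtain ⟨Cc, hCc, hcut⟩ := exists_cutoff S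
  refine ⟨Cc, by linarith, ?_⟩
  intro h hh n w hw hdeep y s hs hosc
  obtain ⟨χ, hχ, hχ01, hχ1, hχ0, -, hχE⟩ := hcut n {w} (by simpa using hw)
  have hzero : ∀ x : K, χ x ≠ 0 → ∃ w' ∈ Wd n, Nb 1 w w' ∧ x ∈ cellW w' := by
    intro x hx
    obtain ⟨w', hw', hxw'⟩ := exists_mem_cellW n x
    refine ⟨w', hw', ?_, hxw'⟩
    by_contra hnb
    exact hx (hχ0 w' hw' (by
      intro u hu
      rw [Finset.mem_singleton] at hu
      rw [hu]
      exact hnb) x hxw')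
  set q : C(K, ℝ) := ContinuousMap.const K (h y) with hq
  have hqdom : q ∈ S.dom := by
    have : q = (h y) • (1 : C(K, ℝ)) := by
      ext x
      simp [hq]
    rw [this]
    exact S.dom.smul_mem _ S.one_mem
  set p : C(K, ℝ) := h - q with hp
  have hpdom : p ∈ S.dom := S.dom.sub_mem hh.1 hqdom
  have hpx : ∀ x, p x = h x - h y := fun x => rfl
  have hcac := S.toRForm.caccioppoli hpdom hχ hs (by
    intro x hx
    obtain ⟨w', hw', hnb, hxw'⟩ := hzero x hx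
    rw [hpx]
    exact hosc w' hw' hnb x hxw')
  have hcor : χ c00 = 0 ∧ χ c11 = 0 := by
    constructor
    · by_contra hne
      obtain ⟨w', hw', hnb, hxw'⟩ := hzero _ hne
      exact (fcac_far hw hw' hdeep hnb).1 hxw'
    · by_contra hne
      obtain ⟨w', hw', hnb, hxw'⟩ := hzero _ hne
      exact (fcac_far hw hw' hdeep hnb).2 hxw'
  have hχp : χ * p ∈ S.dom := S.toRForm.mul_mem hχ hpdom
  have hχχp : χ * (χ * p) ∈ S.dom := S.toRForm.mul_mem hχ hχp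
  have hz : S.E p (χ * (χ * p)) = 0 := by
    have e1 : S.E p (χ * (χ * p)) = S.E h (χ * (χ * p)) - S.E q (χ * (χ * p)) := by
      rw [hp, map_sub, LinearMap.sub_apply]
    have e2 : ∀ x, (χ * (χ * p)) x = χ x * (χ x * p x) := fun x => rfl
    rw [e1, hq, S.toRForm.E_const_left, hh.2 _ hχχp, e2, e2, hcor.1, hcor.2]
    ring
  rw [hz, zero_add] at hcac
  have hword := E_word_le S hχp (m := n) {w} (by simpa using hw)
  rw [Finset.sum_singleton] at hword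
  have hrestr : (χ * p).comp (psiW w) = h.comp (psiW w) - q := by
    ext x
    change χ (psiW w x) * (h (psiW w x) - h y) = h (psiW w x) - h y
    rw [hχ1 w (Finset.mem_singleton_self w) _ ⟨x, rfl⟩, one_mul]
  have hE : S.E ((χ * p).comp (psiW w)) ((χ * p).comp (psiW w)) =
      S.E (h.comp (psiW w)) (h.comp (psiW w)) := by
    have e1 : ∀ g : C(K, ℝ), S.E (h.comp (psiW w) - q) g = S.E (h.comp (psiW w)) g := by
      intro g
      rw [map_sub, LinearMap.sub_apply, hq, S.toRForm.E_const_left, sub_zero]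
    rw [hrestr, e1, map_sub, hq, S.toRForm.E_const_right, sub_zero]
  rw [hE] at hword
  rw [Finset.card_singleton, Nat.cast_one, mul_one] at hχE
  have hρ : 0 < S.ρ ^ n := pow_pos S.ρ_pos n
  have h1 : S.ρ ^ n * S.E (h.comp (psiW w)) (h.comp (psiW w)) ≤ S.ρ ^ n * (Cc * s ^ 2) := by
    refine hword.trans (hcac.trans ?_)
    calc s ^ 2 * S.E χ χ ≤ s ^ 2 * (Cc * S.ρ ^ n) := mul_le_mul_of_nonneg_left hχE (sq_nonneg s)
      _ = S.ρ ^ n * (Cc * s ^ 2) := by ring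
  exact le_of_mul_le_mul_left h1 hρ

end CarpetLib
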