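import Pool.Agent.Lib.MP_f3090c_an.D.FDoubling
import Pool.Agent.Lib.MP_f3090c_an.K.ToSym
import Pool.Agent.Lib.MP_f3090c_an.R.Energy

/-! Doubling F11: the theorem for forms in the elementary formulation, from the comparison of
oscillations (`OscDoubling`). -/

open Set Filter Topology MeasureTheory

namespace CarpetLib

theorem exists_doubling_of (hosc : ∀ S : SymForm, ∃ Λ : ℝ, 0 < Λ ∧ OscDoubling S Λ)
    (μ : Measure K) [IsFiniteMeasure μ] (hμ : FullSupport μ) (F : Set Fn)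
    (E : Fn → Fn → ℝ) (hE : IsCarpetForm μ F E) :
    ∃ h : Fn, IsHarmonic F E h ∧ NonConst h ∧ (∃ ν : Measure K, IsEnergyMeasure F E h ν) ∧
      ∀ ν : Measure K, IsEnergyMeasure F E h ν → IsDoubling ν := by
  obtain ⟨C, hdom, hCE⟩ := hE.exists_carpetForm
  obtain ⟨S, hSdom, hSE⟩ := exists_symForm hμ C
  obtain ⟨Λ, hΛ0, hΛ⟩ := hosc S
  obtain ⟨g, D, hg, hharm⟩ := exists_reg S hΛ0 hΛ
  have hmem : ∀ f, f ∈ S.dom ↔ f ∈ C.dom := fun f => by rw [hSdom]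
  have hmemF : ∀ f : C(K, ℝ), f ∈ S.dom ↔ (f : Fn) ∈ F := fun f => (hmem f).trans (hdom f)
  have hEF : ∀ f g : C(K, ℝ), f ∈ S.dom → g ∈ S.dom → S.E f g = E (f : Fn) (g : Fn) := by
    intro f g hf hg
    have h1 := hCE ⟨f, (hmem f).1 hf⟩ ⟨g, (hmem g).1 hg⟩
    have h2 := hSE ⟨f, (hmem f).1 hf⟩ ⟨g, (hmem g).1 hg⟩
    rw [← h1, ← h2]
  have hsq : ((fun x => g x ^ 2) : Fn) = ((g * g : C(K, ℝ)) : Fn) := by
    funext x; simp [sq]
  have hgg : g * g ∈ S.dom := S.toRForm.mul_mem hg.mem hg.mem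
  refine ⟨(g : Fn), ⟨(hmemF g).1 hg.mem, fun v hv hv0 => ?_⟩, ?_, ?_, ?_⟩
  · have hvd : (⟨v, hE.space.1 v hv⟩ : C(K, ℝ)) ∈ S.dom := (hmemF _).2 hv
    have := hharm _ hvd hv0
    rw [hEF _ _ hg.mem hvd] at this
    exact this
  · by_contra hcon
    unfold NonConst at hcon
    push Not at hcon
    have h1 : g = ContinuousMap.const K (g c00) := by
      ext x
      exact hcon x c00
    have h2 := hg.pos []
    have h3 : g.comp (psiW []) = g := by
      ext z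
      rfl
    rw [h3, h1, S.toRForm.E_const_left] at h2
    exact lt_irrefl _ h2
  · obtain ⟨ν, hν, hint⟩ := S.toRForm.exists_energyMeasure hg.mem
    refine ⟨ν, hν, ?_, fun f hf => ?_⟩
    · rw [hsq]
      exact (hmemF _).1 hgg
    · have hfd : (⟨f, hE.space.1 f hf⟩ : C(K, ℝ)) ∈ S.dom := (hmemF _).2 hf
      have hgf : g * (⟨f, hE.space.1 f hf⟩ : C(K, ℝ)) ∈ S.dom := S.toRForm.mul_mem hg.mem hfd
      refine ⟨(hmemF _).1 hgf, ?_⟩
      have hi := hint _ hfd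
      rw [hEF _ _ hgf hg.mem, hEF _ _ hgg hfd] at hi
      rw [hsq]
      exact hi
  · rintro ν ⟨hν, -, hint⟩
    haveI := hν
    refine hg.doubling ν fun f hf => ?_
    obtain ⟨k1, k2⟩ := hint _ ((hmemF f).1 hf)
    have hgf : g * f ∈ S.dom := S.toRForm.mul_mem hg.mem hf
    rw [hEF _ _ hgf hg.mem, hEF _ _ hgg hf]
    rw [hsq] at k2
    exact k2

end CarpetLib
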