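import Pool.Agent.Lib.MP_f3090c_an.D.WBasic
import Pool.Agent.Lib.MP_f3090c_an.R.Sep

/-! Doubling F02: the cells of a level are connected through touching cells. -/

open Set Filter Topology

namespace CarpetLib

/-- Proof: let `A` be the (finite) set of words of `Wd m` reachable from `v`, `B` the others. The unions
of the cells of `A` and of `B` are closed (`cellW_closed`), they cover `K` (`exists_mem_cellW`), and they
are disjoint (`nb_of_mem`: a common point gives `Nb 1 a b`, so `b` is reachable). `K` is connected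
(`S.toRForm.preconnected`), so one of them is empty. -/
theorem wd_conn (S : SymForm) (m : ℕ) {v v' : List Dig} (hv : v ∈ Wd m) (hv' : v' ∈ Wd m) :
    Relation.ReflTransGen (fun a b => b ∈ Wd m ∧ Nb 1 a b) v v' := by
  classical
  by_contra hno
  set A : Finset (List Dig) :=
    (Wd m).filter fun w => Relation.ReflTransGen (fun a b => b ∈ Wd m ∧ Nb 1 a b) v w with hA
  set B : Finset (List Dig) :=
    (Wd m).filter fun w => ¬ Relation.ReflTransGen (fun a b => b ∈ Wd m ∧ Nb 1 a b) v w with hB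
  have hcl : ∀ T : Finset (List Dig), IsClosed (⋃ w ∈ T, cellW w) := fun T =>
    T.finite_toSet.isClosed_biUnion fun w _ => cellW_closed w
  have hconn := isPreconnected_closed_iff.1 S.toRForm.preconnected (⋃ w ∈ A, cellW w)
    (⋃ w ∈ B, cellW w) (hcl A) (hcl B) ?_ ?_ ?_
  · obtain ⟨z, -, hz1, hz2⟩ := hconn
    simp only [mem_iUnion, exists_prop] at hz1 hz2
    obtain ⟨a, ha, hza⟩ := hz1
    obtain ⟨b, hb, hzb⟩ := hz2
    rw [hA, Finset.mem_filter] at ha
    rw [hB, Finset.mem_filter] at hb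
    exact hb.2 (ha.2.tail ⟨hb.1, nb_of_mem ha.1 hb.1 hza hzb⟩)
  · intro z _
    obtain ⟨w, hw, hz⟩ := exists_mem_cellW m z
    by_cases h : Relation.ReflTransGen (fun a b => b ∈ Wd m ∧ Nb 1 a b) v w
    · left
      simp only [mem_iUnion, exists_prop]
      exact ⟨w, Finset.mem_filter.2 ⟨hw, h⟩, hz⟩
    · right
      simp only [mem_iUnion, exists_prop]
      exact ⟨w, Finset.mem_filter.2 ⟨hw, h⟩, hz⟩
  · obtain ⟨z, hz⟩ := cellW_nonempty v
    refine ⟨z, mem_univ _, ?_⟩
    simp only [mem_iUnion, exists_prop]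
    exact ⟨v, Finset.mem_filter.2 ⟨hv, Relation.ReflTransGen.refl⟩, hz⟩
  · obtain ⟨z, hz⟩ := cellW_nonempty v'
    refine ⟨z, mem_univ _, ?_⟩
    simp only [mem_iUnion, exists_prop]
    exact ⟨v', Finset.mem_filter.2 ⟨hv', hno⟩, hz⟩

end CarpetLib
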