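import Pool.Agent.Lib.MP_f3090c_an.K.FormF

/-! Volume doubling with respect to the Euclidean metric. -/

open Set MeasureTheory

namespace CarpetLib

/-- the Euclidean ball with centre `x` and radius `r` in the carpet -/
def EBall (x : K) (r : ℝ) : Set K := {y | (y.1.1 - x.1.1) ^ 2 + (y.1.2 - x.1.2) ^ 2 < r ^ 2}

/-- volume doubling with respect to the Euclidean metric -/
def IsDoubling (ν : Measure K) : Prop := ∃ C : ℝ, ∀ x : K, ∀ r : ℝ, 0 < r →
  (0 < ν (EBall x r) ∧ ν (EBall x r) < ⊤) ∧ ν (EBall x (2 * r)) ≤ ENNReal.ofReal C * ν (EBall x r)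

/-- `h` is not constant -/
def NonConst (h : Fn) : Prop := ∃ x y, h x ≠ h y

end CarpetLib
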