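import Pool.Agent.Lib.MP_f3090c_an.D.Bump
import Pool.Agent.Lib.MP_f3090c_an.D.GlueW
import Pool.Agent.Lib.MP_f3090c_an.K.CarreCell
import Pool.Agent.Lib.MP_f3090c_an.K.Form
import Pool.Agent.Lib.MP_f3090c_an.R.Sep

/-! Doubling F08: bounds for the energy measure. -/

open Set Filter Topology MeasureTheory

namespace CarpetLib

/-- `ν` is the energy measure of `g` -/
def IsEM (S : SymForm) (g : C(K, ℝ)) (ν : Measure K) : Prop :=
  ∀ f ∈ S.dom, ∫ x, f x ∂ν = 2 * S.E (g * f) g - S.E (g * g) f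

private theorem FMeas_int (f : C(K, ℝ)) (ν : Measure K) [IsFiniteMeasure ν] :
    Integrable (fun x => f x) ν :=
  f.continuous.integrable_of_hasCompactSupport (HasCompactSupport.of_compactSpace _)

/-- Proof: `f` from `exists_sep` with `f = 1` on the cell, `f = 0` off `U`, `0 ≤ f ≤ 1`; `carre_cell`:
`2 ρ ^ n E(g ∘ ψ_u, g ∘ ψ_u) ≤ ∫ f dν ≤ ν(U)` (see `full_support` in `K/FullSupp.lean`). -/
theorem em_lower {S : SymForm} {g : C(K, ℝ)} (hg : g ∈ S.dom) {ν : Measure K} [IsFiniteMeasure ν]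
    (hν : IsEM S g ν) {U : Set K} (hU : IsOpen U) {u : List Dig} (hu : cellW u ⊆ U) :
    ENNReal.ofReal (2 * S.ρ ^ u.length * S.E (g.comp (psiW u)) (g.comp (psiW u))) ≤ ν U := by
  have hB : IsClosed (range (psiW u)) := (isCompact_range (psiW u).continuous).isClosed
  have hd : Disjoint Uᶜ (range (psiW u)) := by
    rw [Set.disjoint_left]
    rintro x hx ⟨z, rfl⟩
    exact hx (hu ⟨z, rfl⟩)
  obtain ⟨f, hf, hf01, hfA, hfB⟩ := S.toRForm.exists_sep hU.isClosed_compl hB hd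
  have hle := carre_cell S hg hf (fun z => (hf01 z).1) u (fun z => hfB _ ⟨z, rfl⟩)
  rw [← hν f hf] at hle
  have h1 : ∫ x, f x ∂ν ≤ ν.real U := by
    rw [← integral_indicator_one hU.measurableSet]
    refine integral_mono (FMeas_int f ν)
      ((integrable_indicator_iff hU.measurableSet).2 (integrable_const 1).integrableOn) ?_
    intro x
    by_cases hx : x ∈ U
    · rw [indicator_of_mem hx]
      exact (hf01 x).2
    · rw [indicator_of_notMem hx]
      exact (hfA x hx).le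
  calc ENNReal.ofReal (2 * S.ρ ^ u.length * S.E (g.comp (psiW u)) (g.comp (psiW u)))
      ≤ ENNReal.ofReal (ν.real U) := ENNReal.ofReal_le_ofReal (hle.trans h1)
    _ = ν U := ofReal_measureReal

/-- Proof: `χ` from `exists_cutoff` for `Z`: `ν(A) ≤ ∫ χ dν = 2 E(g χ, g) - E(g g, χ)`, `A` the union. By `E_words` this
is `ρ ^ m` times the sum over `w ∈ Wd m` of `2 E((gχ) ∘ ψ_w, g ∘ ψ_w) - E((g g) ∘ ψ_w, χ ∘ ψ_w)`. The term of `w` is `0`
if `χ ∘ ψ_w = 0`, in particular if `w ∉ nbhd 1 m Z` (`mem_nbhd`); in general it is at most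
`2 E(g ∘ ψ_w, g ∘ ψ_w)` by `carre_nonneg` for `1 - χ ∘ ψ_w` and `g ∘ ψ_w`. -/
theorem em_upper {S : SymForm} {g : C(K, ℝ)} (hg : g ∈ S.dom) {ν : Measure K} [IsFiniteMeasure ν]
    (hν : IsEM S g ν) {m : ℕ} {Z : Finset (List Dig)} (hZ : Z ⊆ Wd m) :
    ν (⋃ w ∈ Z, cellW w) ≤ ENNReal.ofReal (2 * S.ρ ^ m *
      ∑ w ∈ nbhd 1 m Z, S.E (g.comp (psiW w)) (g.comp (psiW w))) := by
  obtain ⟨Cc, -, hcut⟩ := exists_cutoff S
  obtain ⟨χ, hχ, h01, h1, h0, -, -⟩ := hcut m Z hZ
  set A : Set K := ⋃ w ∈ Z, cellW w with hA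
  have hAc : IsClosed A := by
    rw [hA]
    exact isClosed_biUnion_finset fun w _ => (isCompact_range (psiW w).continuous).isClosed
  have hAm : MeasurableSet A := hAc.measurableSet
  have h2 : ν.real A ≤ ∫ x, χ x ∂ν := by
    rw [← integral_indicator_one hAm]
    refine integral_mono ((integrable_indicator_iff hAm).2 (integrable_const 1).integrableOn)
      (FMeas_int χ ν) ?_
    intro x
    by_cases hx : x ∈ A
    · rw [indicator_of_mem hx]
      rw [hA] at hx
      simp only [mem_iUnion, exists_prop] at hx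
      obtain ⟨w, hw, hxw⟩ := hx
      exact (h1 w hw x hxw).ge
    · rw [indicator_of_notMem hx]
      exact (h01 x).1
  rw [hν χ hχ] at h2
  have hgχ : g * χ ∈ S.dom := S.toRForm.mul_mem hg hχ
  have hgg : g * g ∈ S.dom := S.toRForm.mul_mem hg hg
  have h3 : 2 * S.E (g * χ) g - S.E (g * g) χ = S.ρ ^ m * ∑ w ∈ Wd m,
      (2 * S.E (g.comp (psiW w) * χ.comp (psiW w)) (g.comp (psiW w)) -
        S.E (g.comp (psiW w) * g.comp (psiW w)) (χ.comp (psiW w))) := by
    rw [E_words S m hgχ hg, E_words S m hgg hχ, Finset.sum_sub_distrib, ← Finset.mul_sum]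
    have a1 : ∀ w, (g * χ).comp (psiW w) = g.comp (psiW w) * χ.comp (psiW w) := fun w => by
      ext z
      rfl
    have a2 : ∀ w, (g * g).comp (psiW w) = g.comp (psiW w) * g.comp (psiW w) := fun w => by
      ext z
      rfl
    simp only [a1, a2]
    ring
  have h4 : ∑ w ∈ Wd m,
      (2 * S.E (g.comp (psiW w) * χ.comp (psiW w)) (g.comp (psiW w)) -
        S.E (g.comp (psiW w) * g.comp (psiW w)) (χ.comp (psiW w))) =
      ∑ w ∈ nbhd 1 m Z,
      (2 * S.E (g.comp (psiW w) * χ.comp (psiW w)) (g.comp (psiW w)) -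
        S.E (g.comp (psiW w) * g.comp (psiW w)) (χ.comp (psiW w))) := by
    symm
    refine Finset.sum_subset (fun w hw => (mem_nbhd.1 hw).1) fun w hw hw' => ?_
    have hz : χ.comp (psiW w) = 0 := by
      ext z
      refine h0 w hw (fun v hv hnb => hw' (mem_nbhd.2 ⟨hw, v, hv, hnb⟩)) _ ⟨z, rfl⟩
    rw [hz, mul_zero, map_zero, map_zero, LinearMap.zero_apply, mul_zero, sub_zero]
  have h5 : ∀ w, 2 * S.E (g.comp (psiW w) * χ.comp (psiW w)) (g.comp (psiW w)) -
      S.E (g.comp (psiW w) * g.comp (psiW w)) (χ.comp (psiW w)) ≤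
      2 * S.E (g.comp (psiW w)) (g.comp (psiW w)) := by
    intro w
    have hgw := comp_mem S hg w
    have hχw := comp_mem S hχ w
    have h6 := S.toRForm.carre_nonneg (f := 1 - χ.comp (psiW w)) (S.dom.sub_mem S.one_mem hχw) hgw
      (fun z => by
        show (0 : ℝ) ≤ 1 - χ (psiW w z)
        linarith [(h01 (psiW w z)).2])
    rw [mul_sub, mul_one] at h6
    simp only [map_sub, LinearMap.sub_apply] at h6
    have h7 : S.E (g.comp (psiW w) * g.comp (psiW w)) 1 = 0 := S.toRForm.E_one_right _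
    rw [h7] at h6
    linarith
  have h8 : 2 * S.E (g * χ) g - S.E (g * g) χ ≤ 2 * S.ρ ^ m *
      ∑ w ∈ nbhd 1 m Z, S.E (g.comp (psiW w)) (g.comp (psiW w)) := by
    rw [h3, h4, mul_comm 2 (S.ρ ^ m), mul_assoc, Finset.mul_sum (a := (2 : ℝ))]
    exact mul_le_mul_of_nonneg_left (Finset.sum_le_sum fun w _ => h5 w)
      (pow_nonneg S.ρ_pos.le m)
  calc ν A = ENNReal.ofReal (ν.real A) := (ofReal_measureReal (measure_ne_top ν A)).symm
    _ ≤ _ := ENNReal.ofReal_le_ofReal (h2.trans h8)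

end CarpetLib
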