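import Pool.Agent.Lib.MP_f3090c_an.D.FReg
import Pool.Agent.Lib.MP_f3090c_an.D.FMeas
import Pool.Agent.Lib.MP_f3090c_an.D.FBall

/-! Doubling F10: the energy measure of a regular function is doubling. -/

open Set Filter Topology MeasureTheory

namespace CarpetLib

private theorem fdoubling_desc {S : SymForm} {g : C(K, ℝ)} {C : ℝ} (h : Reg S g C)
    (v : List Dig) : ∀ u : List Dig, S.E (g.comp (psiW u)) (g.comp (psiW u)) ≤
      (8 * S.ρ * C ^ 3) ^ v.length * S.E (g.comp (psiW (u ++ v))) (g.comp (psiW (u ++ v))) := by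
  induction v with
  | nil => intro u; simp
  | cons d v ih =>
    intro u
    have hC : 0 ≤ 8 * S.ρ * C ^ 3 := by
      have h1 := S.ρ_pos
      have h2 := h.one_le
      positivity
    have h1 := h.child u d
    have h2 := ih (u ++ [d])
    rw [List.append_assoc, List.singleton_append] at h2
    rw [List.length_cons, pow_succ]
    calc _ ≤ _ := h1
      _ ≤ 8 * S.ρ * C ^ 3 * ((8 * S.ρ * C ^ 3) ^ v.length *
          S.E (g.comp (psiW (u ++ d :: v))) (g.comp (psiW (u ++ d :: v)))) :=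
        mul_le_mul_of_nonneg_left h2 hC
      _ = _ := by ring

/-- Proof: `e w = E(g ∘ ψ_w, g ∘ ψ_w)`. `u, v` from `ball_cells`, `n = u.length`, `Z = nbhd 1 n {u}` (`Z.card ≤ 9`,
`(nbhd 1 n Z).card ≤ 81` by `card_nbhd_le`). Each `w ∈ nbhd 1 n Z` has `e w ≤ C ^ 2 e u` (two touching steps).
`em_upper`: `ν(EBall x (2 * r)) ≤ 2 ρ ^ n 81 C ^ 2 e u`. `Reg.child`, at most twice:
`e u ≤ (8 ρ C ^ 3) ^ v.length e (u ++ v)`. So
`ν(EBall x (2 * r)) ≤ 81 C ^ 2 (8 C ^ 3) ^ v.length * (2 ρ ^ (n + v.length) e (u ++ v))`, at most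
`81 C ^ 2 (8 C ^ 3) ^ 2 ν(EBall x r)` by `em_lower` and `EBall_open`. Positivity by `em_lower`, `Reg.pos`. -/
theorem Reg.doubling {S : SymForm} {g : C(K, ℝ)} {C : ℝ} (h : Reg S g C) (ν : Measure K)
    [IsFiniteMeasure ν] (hν : IsEM S g ν) : IsDoubling ν := by
  have hρ := S.ρ_pos
  have hC1 := h.one_le
  have hC0 : 0 < C := lt_of_lt_of_le one_pos hC1
  refine ⟨81 * C ^ 2 * (8 * C ^ 3) ^ 2, fun x r hr => ?_⟩
  obtain ⟨u, v, hv, hsub, hball⟩ := ball_cells x hr
  have hlow := em_lower h.mem hν (EBall_open x r) hsub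
  have hepos := h.pos (u ++ v)
  have hρn : 0 < S.ρ ^ (u ++ v).length := pow_pos hρ _
  refine ⟨⟨lt_of_lt_of_le (ENNReal.ofReal_pos.2 (by positivity)) hlow, measure_lt_top _ _⟩, ?_⟩
  set n := u.length with hn
  set Z := nbhd 1 n {u} with hZdef
  have huW : u ∈ Wd n := mem_Wd.2 rfl
  have hZW : Z ⊆ Wd n := fun w hw => (mem_nbhd.1 hw).1
  have hup := em_upper h.mem hν hZW
  have hcard1 : Z.card ≤ 9 := by
    have := card_nbhd_le (r := 1) (Z := {u}) (m := n) (Finset.singleton_subset_iff.2 huW)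
    simpa using this
  have hcard2 : (nbhd 1 n Z).card ≤ 81 := by
    have := card_nbhd_le (r := 1) (m := n) hZW
    norm_num at this
    omega
  have heu := h.pos u
  have hsum : ∑ w ∈ nbhd 1 n Z, S.E (g.comp (psiW w)) (g.comp (psiW w)) ≤
      81 * (C ^ 2 * S.E (g.comp (psiW u)) (g.comp (psiW u))) := by
    have h1 : ∀ w ∈ nbhd 1 n Z, S.E (g.comp (psiW w)) (g.comp (psiW w)) ≤
        C ^ 2 * S.E (g.comp (psiW u)) (g.comp (psiW u)) := by
      intro w hw
      obtain ⟨hw1, z, hz, hzw⟩ := mem_nbhd.1 hw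
      obtain ⟨hz1, u0, hu0, huz⟩ := mem_nbhd.1 hz
      rw [Finset.mem_singleton] at hu0
      subst hu0
      have k1 := h.touch n u0 huW z hz1 huz
      have k2 := h.touch n z hz1 w hw1 hzw
      calc _ ≤ _ := k2
        _ ≤ C * (C * S.E (g.comp (psiW u0)) (g.comp (psiW u0))) :=
          mul_le_mul_of_nonneg_left k1 hC0.le
        _ = _ := by ring
    refine (Finset.sum_le_card_nsmul _ _ _ h1).trans ?_
    rw [nsmul_eq_mul]
    refine mul_le_mul_of_nonneg_right ?_ (by positivity)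
    exact_mod_cast hcard2
  have hdesc := fdoubling_desc h v u
  have hlen : (u ++ v).length = n + v.length := by rw [List.length_append]
  have hmain : 2 * S.ρ ^ n * ∑ w ∈ nbhd 1 n Z, S.E (g.comp (psiW w)) (g.comp (psiW w)) ≤
      81 * C ^ 2 * (8 * C ^ 3) ^ 2 *
        (2 * S.ρ ^ (u ++ v).length * S.E (g.comp (psiW (u ++ v))) (g.comp (psiW (u ++ v)))) := by
    have h8 : 1 ≤ 8 * C ^ 3 := by
      have : 1 ≤ C ^ 3 := one_le_pow₀ hC1
      linarith
    have hpow : (8 * C ^ 3) ^ v.length ≤ (8 * C ^ 3) ^ 2 := pow_le_pow_right₀ h8 hv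
    calc 2 * S.ρ ^ n * ∑ w ∈ nbhd 1 n Z, S.E (g.comp (psiW w)) (g.comp (psiW w))
        ≤ 2 * S.ρ ^ n * (81 * (C ^ 2 * S.E (g.comp (psiW u)) (g.comp (psiW u)))) :=
          mul_le_mul_of_nonneg_left hsum (by positivity)
      _ ≤ 2 * S.ρ ^ n * (81 * (C ^ 2 * ((8 * S.ρ * C ^ 3) ^ v.length *
          S.E (g.comp (psiW (u ++ v))) (g.comp (psiW (u ++ v)))))) := by
          refine mul_le_mul_of_nonneg_left ?_ (by positivity)
          refine mul_le_mul_of_nonneg_left ?_ (by norm_num)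
          exact mul_le_mul_of_nonneg_left hdesc (by positivity)
      _ = 81 * C ^ 2 * (8 * C ^ 3) ^ v.length * (2 * S.ρ ^ (u ++ v).length *
          S.E (g.comp (psiW (u ++ v))) (g.comp (psiW (u ++ v)))) := by
          rw [hlen, pow_add, show 8 * S.ρ * C ^ 3 = (8 * C ^ 3) * S.ρ by ring, mul_pow]
          ring
      _ ≤ _ := by
          refine mul_le_mul_of_nonneg_right ?_ (by positivity)
          exact mul_le_mul_of_nonneg_left hpow (by positivity)
  calc ν (EBall x (2 * r)) ≤ ν (⋃ w ∈ Z, cellW w) := measure_mono hball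
    _ ≤ _ := hup
    _ ≤ ENNReal.ofReal (81 * C ^ 2 * (8 * C ^ 3) ^ 2 *
        (2 * S.ρ ^ (u ++ v).length * S.E (g.comp (psiW (u ++ v))) (g.comp (psiW (u ++ v))))) :=
      ENNReal.ofReal_le_ofReal hmain
    _ = ENNReal.ofReal (81 * C ^ 2 * (8 * C ^ 3) ^ 2) * ENNReal.ofReal
        (2 * S.ρ ^ (u ++ v).length * S.E (g.comp (psiW (u ++ v))) (g.comp (psiW (u ++ v)))) :=
      ENNReal.ofReal_mul (by positivity)
    _ ≤ _ := mul_le_mul_right hlow _

end CarpetLib
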