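import Pool.Agent.Lib.MP_f3090c_an.D.Defs
import Pool.Agent.Lib.MP_f3090c_an.D.GlueW
import Pool.Agent.Lib.MP_f3090c_an.D.Dip
import Pool.Agent.Lib.MP_f3090c_an.R.Sep
import Pool.Agent.Lib.MP_f3090c_an.R.Basic

/-! Doubling F03: the dipole potential with poles `c00`, `c11`; harmonicity of its restriction to a cell. -/

open Set Filter Topology

namespace CarpetLib

/-- `exists_dip S c00 c11` -/
theorem exists_pole (S : SymForm) : ∃ h, IsPole S h := by
  obtain ⟨q, hq⟩ := exists_dip S c00 c11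
  exact ⟨q, hq⟩

/-- Proof: otherwise `E(h, h) = h c00 - h c11 = 0`, so `h` is constant (`const_of_zero`), `E(h, v) = 0` for all
`v` in the domain, i.e. `v c00 = v c11` for all `v` in the domain: contradicts `exists_sep` for `{c00}`, `{c11}`. -/
theorem pole_ne {S : SymForm} {h : C(K, ℝ)} (hh : IsPole S h) : h c00 ≠ h c11 := by
  intro he
  have h0 : S.E h h = 0 := by
    rw [hh.2 h hh.1, he, sub_self]
  have hc := S.const_of_zero h hh.1 h0
  have hcc : h = ContinuousMap.const K (h c00) := by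
    ext x
    exact hc x c00
  have hne : c00 ≠ c11 := by
    intro h1
    have h2 : (c00.1.1 : ℝ) = c11.1.1 := by rw [h1]
    have h3 : (0 : ℝ) = 1 := h2
    norm_num at h3
  obtain ⟨f, hf, -, hf0, hf1⟩ := S.toRForm.exists_sep (isClosed_singleton (x := c00))
    (isClosed_singleton (x := c11)) (Set.disjoint_singleton.2 hne)
  have h4 := hh.2 f hf
  rw [hcc, S.toRForm.E_const_left, hf0 c00 rfl, hf1 c11 rfl] at h4
  norm_num at h4

private theorem FHarm_mul (w : List Dig) (z : K) :
    3 ^ w.length * (psiW w z).1.1 = z.1.1 + ix w ∧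
      3 ^ w.length * (psiW w z).1.2 = z.1.2 + iy w := by
  have h : (3 : ℝ) ^ w.length ≠ 0 := by positivity
  rw [psiW_fst, psiW_snd]
  constructor <;> field_simp

private theorem FHarm_inj (w : List Dig) {z z' : K} (h : psiW w z = psiW w z') : z = z' := by
  have h1 := FHarm_mul w z
  have h2 := FHarm_mul w z'
  rw [h] at h1
  refine Subtype.ext (Prod.ext ?_ ?_)
  · linarith [h1.1, h2.1]
  · linarith [h1.2, h2.2]

private theorem FHarm_unit (z : K) : (0 ≤ z.1.1 ∧ z.1.1 ≤ 1) ∧ (0 ≤ z.1.2 ∧ z.1.2 ≤ 1) :=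
  carpet_subset_unitSq z.2

private theorem FHarm_int {a b : ℕ} {s t : ℝ} (hab : a ≠ b) (hs : 0 ≤ s ∧ s ≤ 1)
    (ht : 0 ≤ t ∧ t ≤ 1) (h : s + a = t + b) : s = 0 ∨ s = 1 := by
  rcases lt_or_gt_of_ne hab with h1 | h1
  · right
    have h2 : (a : ℝ) + 1 ≤ b := by exact_mod_cast h1
    linarith [hs.2, ht.1]
  · left
    have h2 : (b : ℝ) + 1 ≤ a := by exact_mod_cast h1
    linarith [hs.1, ht.2]

private theorem FHarm_V0 {w w' : List Dig} (hl : w.length = w'.length) (hne : w ≠ w') {z z' : K}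
    (h : psiW w z = psiW w' z') : z ∈ V0 := by
  have h1 := FHarm_mul w z
  have h2 := FHarm_mul w' z'
  rw [h, hl] at h1
  have e1 : z.1.1 + ix w = z'.1.1 + ix w' := by rw [← h1.1, ← h2.1]
  have e2 : z.1.2 + iy w = z'.1.2 + iy w' := by rw [← h1.2, ← h2.2]
  have hz := FHarm_unit z
  have hz' := FHarm_unit z'
  by_cases hx : ix w = ix w'
  · have hy : iy w ≠ iy w' := fun hy => hne (word_ext hl hx hy)
    rcases FHarm_int hy hz.2 hz'.2 e2 with h3 | h3
    · exact Or.inr (Or.inr (Or.inl h3))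
    · exact Or.inr (Or.inr (Or.inr h3))
  · rcases FHarm_int hx hz.1 hz'.1 e1 with h3 | h3
    · exact Or.inl h3
    · exact Or.inr (Or.inl h3)

/-- Proof: extend `v` by zero: `glue_words w.length (fun w' => if w' = w then v else 0)` gives `F` with
`F ∘ ψ_w = v`, `F ∘ ψ_w' = 0` for the other words of this length; compatibility: a point lying in two different
cells of the same level is on the boundary of the square of `w` (`mem_cellW_iff`, `word_ext`), so
its preimage is in `V0`. `F ∈ dom` by `mem_words`. `E_words`: `E(h, F) = ρ ^ n E(h ∘ ψ_w, v)`, and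
`E(h, F) = F c00 - F c11 = 0` because `c00` and `c11` lie in other cells (`exists_mem_cellW`). -/
theorem harm_cell {S : SymForm} {h : C(K, ℝ)} (hh : IsPole S h) {w : List Dig} (h0 : c00 ∉ cellW w)
    (h1 : c11 ∉ cellW w) {v : C(K, ℝ)} (hv : v ∈ S.dom) (hv0 : ∀ z ∈ V0, v z = 0) :
    S.E (h.comp (psiW w)) v = 0 := by
  have hw : w ∈ Wd w.length := mem_Wd.2 rfl
  obtain ⟨F, hF⟩ := glue_words w.length (fun w' => if w' = w then v else 0) (by
    intro w1 hw1 w2 hw2 z z' hz
    by_cases h1 : w1 = w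
    · by_cases h2 : w2 = w
      · rw [if_pos h1, if_pos h2]
        rw [h1, h2] at hz
        rw [FHarm_inj w hz]
      · rw [if_pos h1, if_neg h2]
        rw [h1] at hz
        exact hv0 z (FHarm_V0 (mem_Wd.1 hw2).symm (fun e => h2 e.symm) hz)
    · by_cases h2 : w2 = w
      · rw [if_neg h1, if_pos h2]
        rw [h2] at hz
        exact (hv0 z' (FHarm_V0 (mem_Wd.1 hw1).symm (fun e => h1 e.symm) hz.symm)).symm
      · rw [if_neg h1, if_neg h2]
        rfl)
  have hFd : F ∈ S.dom := by
    rw [mem_words S w.length F]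
    intro w' hw'
    rw [hF w' hw']
    split_ifs
    · exact hv
    · exact S.dom.zero_mem
  have hval : ∀ x : K, x ∉ cellW w → F x = 0 := by
    intro x hx
    obtain ⟨w', hw', z, hz⟩ := exists_mem_cellW w.length x
    have hne : w' ≠ w := by
      rintro rfl
      exact hx ⟨z, hz⟩
    have h2 := hF w' hw'
    rw [if_neg hne] at h2
    have h3 : F.comp (psiW w') z = 0 := by
      rw [h2]
      rfl
    rw [ContinuousMap.comp_apply, hz] at h3
    exact h3
  have hE := E_words S w.length hh.1 hFd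
  rw [hh.2 F hFd, hval c00 h0, hval c11 h1, sub_self,
    Finset.sum_eq_single_of_mem w hw (fun w' hw' hne => by
      rw [hF w' hw', if_neg hne, map_zero]), hF w hw, if_pos rfl] at hE
  rcases mul_eq_zero.1 hE.symm with h2 | h2
  · exact absurd h2 (pow_pos S.ρ_pos _).ne'
  · exact h2

end CarpetLib
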