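import Pool.Agent.Lib.MP_f3090c_an.D.FBridge
import Pool.Agent.Lib.MP_f3090c_an.D.FConn
import Pool.Agent.Lib.MP_f3090c_an.D.FHarm

/-! Doubling F06: the dipole potential is not constant on any cell inside the cell of `wZ`. -/

open Set Filter Topology

namespace CarpetLib

/-- Proof: `osc_word` with `r = 0` and `nb_share`. -/
theorem const_step {S : SymForm} {Λ : ℝ} (hΛ : OscDoubling S Λ) {h : C(K, ℝ)} (hh : IsPole S h)
    {n : ℕ} {w w' : List Dig} (hw : w ∈ Wd n) (hw' : w' ∈ Wd n) (hn : Nb 1 w w') (hd : Deep 16 w)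
    {c : ℝ} (hc : ∀ z ∈ cellW w, h z = c) : ∀ z ∈ cellW w', h z = c := by
  have h0 : OscLe h (cellW w) 0 := by
    intro x hx y hy
    rw [hc x hx, hc y hy]
    simp
  have h1 := osc_word hΛ hh hw hw' hn hd le_rfl h0
  obtain ⟨z0, hz0, hz0'⟩ := nb_share hw hw' hn
  intro z hz
  have h2 := h1 z hz z0 hz0'
  rw [mul_zero] at h2
  have h3 := abs_nonpos_iff.1 h2
  rw [hc z0 hz0] at h3
  linarith

private theorem fp_deep {w : List Dig} (h : Deep 18 w) : Deep 16 w := by
  unfold Deep at h ⊢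
  omega

/-- Proof: `wd_conn`, `nb_append`, `deep_wZ`, `const_step`: `h = c` on the cells of all `wZ ++ u'`, `u' ∈ Wd m`;
`exists_cell_append`. -/
theorem const_wZ {S : SymForm} {Λ : ℝ} (hΛ : OscDoubling S Λ) {h : C(K, ℝ)} (hh : IsPole S h)
    {m : ℕ} {u : List Dig} (hu : u ∈ Wd m) {c : ℝ} (hc : ∀ z ∈ cellW (wZ ++ u), h z = c) :
    ∀ z ∈ cellW wZ, h z = c := by
  have hmem : ∀ v ∈ Wd m, wZ ++ v ∈ Wd (wZ.length + m) := by
    intro v hv
    rw [mem_Wd, List.length_append, mem_Wd.1 hv]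
  have key : ∀ u' ∈ Wd m, ∀ z ∈ cellW (wZ ++ u'), h z = c := by
    intro u' hu'
    have hr := wd_conn S m hu hu'
    have hboth : u' ∈ Wd m ∧ ∀ z ∈ cellW (wZ ++ u'), h z = c := by
      induction hr with
      | refl => exact ⟨hu, hc⟩
      | tail hab hbc ih =>
        rename_i b e
        have hb : b ∈ Wd m := by
          rcases Relation.ReflTransGen.cases_tail hab with rfl | ⟨x, -, hx⟩
          · exact hu
          · exact hx.1
        have hbc2 := (ih hb).2
        refine ⟨hbc.1, ?_⟩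
        refine const_step hΛ hh (hmem _ hb) (hmem _ hbc.1) ?_ (fp_deep (deep_wZ _)) hbc2
        exact nb_append wZ ((mem_Wd.1 hb).trans (mem_Wd.1 hbc.1).symm) hbc.2
    exact hboth.2
  intro z hz
  obtain ⟨v, hv, hvz⟩ := exists_cell_append m hz
  exact key v hv z hvz

private theorem fp_walk {Q : ℕ → Prop} {lo hi a0 : ℕ} (h0 : lo ≤ a0) (h1 : a0 < hi) (hQ : Q a0)
    (up : ∀ a, lo ≤ a → a + 1 < hi → Q a → Q (a + 1))
    (down : ∀ a, lo ≤ a → a + 1 < hi → Q (a + 1) → Q a) : ∀ a, lo ≤ a → a < hi → Q a := by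
  have hup : ∀ k, a0 + k < hi → Q (a0 + k) := by
    intro k
    induction k with
    | zero => intro _; exact hQ
    | succ k ih =>
      intro hk
      exact up (a0 + k) (by omega) (by omega) (ih (by omega))
  have hdown : ∀ k a, a + k = a0 → lo ≤ a → Q a := by
    intro k
    induction k with
    | zero =>
      intro a ha _
      have : a = a0 := by omega
      rw [this]
      exact hQ
    | succ k ih =>
      intro a ha hlo
      exact down a hlo (by omega) (ih (a + 1) (by omega) (by omega))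
  intro a ha1 ha2
  rcases le_total a0 a with h | h
  · have := hup (a - a0) (by omega)
    have e : a0 + (a - a0) = a := by omega
    rwa [e] at this
  · exact hdown (a0 - a) a (by omega) ha1

private theorem fp_wZ : ix wZ = 20 ∧ iy wZ = 0 ∧ wZ.length = 3 := by decide

/-- Proof: `n = m + 3`. Start: the cell of `wZ ++ 0...0` has index `(20 * 3 ^ m, 0)` and lies in the cell of `wZ`
(`cellW_append_subset`; the word with index `(20 * 3 ^ m, 0)` is unique by `word_ext`). By `const_step` along the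
bottom row (to the left down to `(16, 0)`, to the right up to `(3 ^ n - 1, 0)`; `cel_bot`, `cel_iff`) and then up
the right column (`cel_right`); all these words are `Deep 16`. The points `(16 / 3 ^ n, 0)` and
`(1, 1 - 16 / 3 ^ n)` are in the cells `(16, 0)` and `(3 ^ n - 1, 3 ^ n - 16)`. -/
theorem const_ends {S : SymForm} {Λ : ℝ} (hΛ : OscDoubling S Λ) {h : C(K, ℝ)} (hh : IsPole S h)
    {c : ℝ} (hc : ∀ z ∈ cellW wZ, h z = c) (m : ℕ) :
    (∃ z : K, z.1.1 = 16 / 3 ^ (m + 3) ∧ z.1.2 = 0 ∧ h z = c) ∧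
      ∃ z : K, z.1.1 = 1 ∧ z.1.2 = 1 - 16 / 3 ^ (m + 3) ∧ h z = c := by
  set n := m + 3 with hn
  have h3m : 1 ≤ 3 ^ m := Nat.one_le_pow _ _ (by norm_num)
  have h3n : 3 ^ n = 27 * 3 ^ m := by rw [hn, pow_add]; ring
  have hbot : ∀ a, 16 ≤ a → a < 3 ^ n →
      ∀ w ∈ Wd n, ix w = a → iy w = 0 → ∀ z ∈ cellW w, h z = c := by
    refine fp_walk (a0 := 20 * 3 ^ m) (by omega) (by omega) ?_ ?_ ?_
    · intro w hw hx hy z hz
      apply hc
      rw [mem_cellW_iff] at hz ⊢
      rw [mem_Wd.1 hw, hx, hy] at hz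
      obtain ⟨e1, e2, e3⟩ := fp_wZ
      rw [e1, e2, e3]
      obtain ⟨⟨a1, a2⟩, a3, a4⟩ := hz
      have h3r : (1 : ℝ) ≤ 3 ^ m := by exact_mod_cast h3m
      have h3nr : (3 : ℝ) ^ n = 27 * 3 ^ m := by exact_mod_cast h3n
      rw [h3nr] at a1 a2 a3 a4
      push_cast at a1 a2 a3 a4 ⊢
      have hz0 : 0 ≤ z.1.1 := (carpet_subset_unitSq z.2).1.1
      have hz2 : 0 ≤ z.1.2 := (carpet_subset_unitSq z.2).2.1
      refine ⟨⟨?_, ?_⟩, ?_, ?_⟩
      · norm_num
        by_contra hcon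
        push Not at hcon
        nlinarith
      · norm_num
        by_contra hcon
        push Not at hcon
        nlinarith
      · positivity
      · norm_num
        by_contra hcon
        push Not at hcon
        nlinarith
    · intro a ha ha1 hQ w' hw' hx' hy'
      obtain ⟨w, hw, hx, hy⟩ := cel_iff.1 (cel_bot (n := n) (a := a) (by omega))
      refine const_step hΛ hh hw hw' ?_ ?_ (hQ w hw hx hy)
      · unfold Nb
        omega
      · unfold Deep
        rw [mem_Wd.1 hw]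
        omega
    · intro a ha ha1 hQ w' hw' hx' hy'
      obtain ⟨w, hw, hx, hy⟩ := cel_iff.1 (cel_bot (n := n) (a := a + 1) (by omega))
      refine const_step hΛ hh hw hw' ?_ ?_ (hQ w hw hx hy)
      · unfold Nb
        omega
      · unfold Deep
        rw [mem_Wd.1 hw]
        omega
  have hright : ∀ b, 0 ≤ b → b < 3 ^ n - 15 →
      ∀ w ∈ Wd n, ix w = 3 ^ n - 1 → iy w = b → ∀ z ∈ cellW w, h z = c := by
    refine fp_walk (a0 := 0) (by omega) (by omega) ?_ ?_ ?_
    · intro w hw hx hy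
      exact hbot (3 ^ n - 1) (by omega) (by omega) w hw hx hy
    · intro b hb hb1 hQ w' hw' hx' hy'
      obtain ⟨w, hw, hx, hy⟩ := cel_iff.1 (cel_right (n := n) (b := b) (by omega))
      refine const_step hΛ hh hw hw' ?_ ?_ (hQ w hw hx hy)
      · unfold Nb
        omega
      · unfold Deep
        rw [mem_Wd.1 hw]
        omega
    · intro b hb hb1 hQ w' hw' hx' hy'
      obtain ⟨w, hw, hx, hy⟩ := cel_iff.1 (cel_right (n := n) (b := b + 1) (by omega))
      refine const_step hΛ hh hw hw' ?_ ?_ (hQ w hw hx hy)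
      · unfold Nb
        omega
      · unfold Deep
        rw [mem_Wd.1 hw]
        omega
  have hpos : (0 : ℝ) < 3 ^ n := by positivity
  have h27 : (27 : ℝ) ≤ 3 ^ n := by
    have : 27 ≤ 3 ^ n := by omega
    exact_mod_cast this
  have hd0 : 0 ≤ (16 : ℝ) / 3 ^ n := by positivity
  have hd1 : (16 : ℝ) / 3 ^ n ≤ 1 := by
    rw [div_le_one hpos]
    linarith
  constructor
  · refine ⟨⟨(16 / 3 ^ n, 0), bot_mem hd0 hd1⟩, rfl, rfl, ?_⟩
    obtain ⟨w, hw, hx, hy⟩ := cel_iff.1 (cel_bot (n := n) (a := 16) (by omega))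
    refine hbot 16 le_rfl (by omega) w hw hx hy _ ?_
    rw [mem_cellW_iff, mem_Wd.1 hw, hx, hy]
    have e : (3 : ℝ) ^ n * (16 / 3 ^ n) = 16 := by field_simp
    refine ⟨⟨?_, ?_⟩, ?_, ?_⟩
    · show ((16 : ℕ) : ℝ) ≤ 3 ^ n * (16 / 3 ^ n)
      rw [e]; norm_num
    · show (3 : ℝ) ^ n * (16 / 3 ^ n) ≤ ((16 : ℕ) : ℝ) + 1
      rw [e]; norm_num
    · show ((0 : ℕ) : ℝ) ≤ 3 ^ n * 0
      simp
    · show (3 : ℝ) ^ n * 0 ≤ ((0 : ℕ) : ℝ) + 1
      simp
  · refine ⟨⟨(1, 1 - 16 / 3 ^ n), right_mem (by linarith) (by linarith)⟩, rfl, rfl, ?_⟩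
    obtain ⟨w, hw, hx, hy⟩ := cel_iff.1 (cel_right (n := n) (b := 3 ^ n - 16) (by omega))
    refine hright (3 ^ n - 16) (by omega) (by omega) w hw hx hy _ ?_
    rw [mem_cellW_iff, mem_Wd.1 hw, hx, hy]
    have e : (3 : ℝ) ^ n * (1 - 16 / 3 ^ n) = 3 ^ n - 16 := by field_simp
    have e1 : ((3 ^ n - 1 : ℕ) : ℝ) = 3 ^ n - 1 := by
      rw [Nat.cast_sub (by omega)]
      push_cast
      ring
    have e2 : ((3 ^ n - 16 : ℕ) : ℝ) = 3 ^ n - 16 := by
      rw [Nat.cast_sub (by omega)]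
      push_cast
      ring
    refine ⟨⟨?_, ?_⟩, ?_, ?_⟩
    · show ((3 ^ n - 1 : ℕ) : ℝ) ≤ 3 ^ n * 1
      rw [e1]; linarith
    · show (3 : ℝ) ^ n * 1 ≤ ((3 ^ n - 1 : ℕ) : ℝ) + 1
      rw [e1]; linarith
    · show ((3 ^ n - 16 : ℕ) : ℝ) ≤ 3 ^ n * (1 - 16 / 3 ^ n)
      rw [e, e2]
    · show (3 : ℝ) ^ n * (1 - 16 / 3 ^ n) ≤ ((3 ^ n - 16 : ℕ) : ℝ) + 1
      rw [e, e2]; linarith

/-- Proof: otherwise `h ∘ ψ_w`, `w = wZ ++ u`, is constant (`const_of_zero`, `comp_mem`); `const_wZ`,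
`const_ends` for all `m` and the continuity of `h` give `h c00 = c = h c11`, contradiction to `pole_ne`. -/
theorem pole_pos {S : SymForm} {Λ : ℝ} (hΛ : OscDoubling S Λ) {h : C(K, ℝ)} (hh : IsPole S h)
    (u : List Dig) : 0 < S.E (h.comp (psiW (wZ ++ u))) (h.comp (psiW (wZ ++ u))) := by
  by_contra hcon
  have h0 : S.E (h.comp (psiW (wZ ++ u))) (h.comp (psiW (wZ ++ u))) = 0 :=
    le_antisymm (not_lt.1 hcon) (S.nonneg _)
  have hcst := S.const_of_zero _ (comp_mem S hh.1 (wZ ++ u)) h0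
  set c := h (psiW (wZ ++ u) c00) with hcdef
  have hcell : ∀ z ∈ cellW (wZ ++ u), h z = c := by
    rintro _ ⟨y, rfl⟩
    exact hcst y c00
  have hwZ := const_wZ hΛ hh (mem_Wd.2 (rfl : u.length = u.length)) hcell
  have hends := const_ends hΛ hh hwZ
  have hlim : Tendsto (fun m : ℕ => (16 : ℝ) / 3 ^ (m + 3)) atTop (𝓝 0) := by
    have h1 : Tendsto (fun m : ℕ => (3 : ℝ) ^ (m + 3)) atTop atTop :=
      (tendsto_pow_atTop_atTop_of_one_lt (by norm_num)).comp (tendsto_add_atTop_nat 3)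
    exact h1.const_div_atTop 16
  choose z hz1 hz2 hz3 using fun m => (hends m).1
  choose z' hz1' hz2' hz3' using fun m => (hends m).2
  have hz : Tendsto z atTop (𝓝 c00) := by
    rw [tendsto_subtype_rng]
    have : (fun m => (z m : ℝ × ℝ)) = fun m => ((16 : ℝ) / 3 ^ (m + 3), (0 : ℝ)) :=
      funext fun m => Prod.ext (hz1 m) (hz2 m)
    rw [this]
    exact hlim.prodMk_nhds tendsto_const_nhds
  have hz' : Tendsto z' atTop (𝓝 c11) := by
    rw [tendsto_subtype_rng]
    have : (fun m => (z' m : ℝ × ℝ)) = fun m => ((1 : ℝ), 1 - (16 : ℝ) / 3 ^ (m + 3)) :=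
      funext fun m => Prod.ext (hz1' m) (hz2' m)
    rw [this]
    have h2 : Tendsto (fun m : ℕ => 1 - (16 : ℝ) / 3 ^ (m + 3)) atTop (𝓝 1) := by
      have := hlim.const_sub 1
      simpa using this
    exact tendsto_const_nhds.prodMk_nhds h2
  have e1 : h c00 = c := by
    have h1 : Tendsto (fun m => h (z m)) atTop (𝓝 (h c00)) := (h.continuous.tendsto _).comp hz
    have h2 : Tendsto (fun m => h (z m)) atTop (𝓝 c) := by
      simp only [hz3]
      exact tendsto_const_nhds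
    exact tendsto_nhds_unique h1 h2
  have e2 : h c11 = c := by
    have h1 : Tendsto (fun m => h (z' m)) atTop (𝓝 (h c11)) := (h.continuous.tendsto _).comp hz'
    have h2 : Tendsto (fun m => h (z' m)) atTop (𝓝 c) := by
      simp only [hz3']
      exact tendsto_const_nhds
    exact tendsto_nhds_unique h1 h2
  exact pole_ne hh (e1.trans e2.symm)

end CarpetLib
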