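import Pool.Agent.Lib.MP_f3090c_an.D.FTouch
import Pool.Agent.Lib.MP_f3090c_an.D.FPos

/-! Doubling F07: regular functions: energies of touching cells are comparable. -/

open Set Filter Topology

namespace CarpetLib

/-- the energies of `g` on touching cells of the same level are comparable, and positive -/
structure Reg (S : SymForm) (g : C(K, ℝ)) (C : ℝ) : Prop where
  mem : g ∈ S.dom
  one_le : 1 ≤ C
  touch : ∀ n, ∀ u ∈ Wd n, ∀ u' ∈ Wd n, Nb 1 u u' →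
    S.E (g.comp (psiW u')) (g.comp (psiW u')) ≤ C * S.E (g.comp (psiW u)) (g.comp (psiW u))
  pos : ∀ u : List Dig, 0 < S.E (g.comp (psiW u)) (g.comp (psiW u))

private theorem freg_comp (h : C(K, ℝ)) (v u : List Dig) :
    (h.comp (psiW v)).comp (psiW u) = h.comp (psiW (v ++ u)) := by
  ext z
  simp only [ContinuousMap.comp_apply]
  rw [psiW_append]

private theorem freg_wd {m n : ℕ} {v u : List Dig} (hv : v ∈ Wd m) (hu : u ∈ Wd n) :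
    v ++ u ∈ Wd (m + n) := by
  rw [mem_Wd] at *
  rw [List.length_append, hv, hu]

private theorem freg_ixZ : ix wZ = 20 ∧ iy wZ = 0 ∧ wZ.length = 3 := by
  refine ⟨rfl, rfl, rfl⟩

private theorem freg_c00 : c00 ∉ cellW wZ := by
  intro h
  rw [mem_cellW_iff, freg_ixZ.1, freg_ixZ.2.1, freg_ixZ.2.2] at h
  have h1 := h.1.1
  have h2 : c00.1.1 = 0 := rfl
  rw [h2] at h1
  norm_num at h1

private theorem freg_c11 : c11 ∉ cellW wZ := by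
  intro h
  rw [mem_cellW_iff, freg_ixZ.1, freg_ixZ.2.1, freg_ixZ.2.2] at h
  have h1 := h.2.2
  have h2 : c11.1.2 = 1 := rfl
  rw [h2] at h1
  norm_num at h1

/-- Proof: `h` from `exists_pole`, `g = h ∘ ψ_wZ`, `g ∘ ψ_u = h ∘ ψ_(wZ ++ u)` (`psiW_append`); `comp_touch`,
`deep_wZ`, `nb_append`, `pole_pos`, `harm_cell`. -/
theorem exists_reg (S : SymForm) {Λ : ℝ} (hΛ0 : 0 < Λ) (hΛ : OscDoubling S Λ) :
    ∃ (g : C(K, ℝ)) (C : ℝ), Reg S g C ∧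
      ∀ v ∈ S.dom, (∀ z ∈ V0, v z = 0) → S.E g v = 0 := by
  obtain ⟨h, hh⟩ := exists_pole S
  obtain ⟨C, hC1, hC⟩ := comp_touch S hΛ0 hΛ
  refine ⟨h.comp (psiW wZ), C, ⟨comp_mem S hh.1 wZ, hC1, ?_, ?_⟩, ?_⟩
  · intro n u hu u' hu' hn
    rw [freg_comp, freg_comp]
    exact hC h hh (3 + n) (wZ ++ u) (freg_wd (mem_Wd.2 rfl) hu) (wZ ++ u')
      (freg_wd (mem_Wd.2 rfl) hu')
      (nb_append wZ ((mem_Wd.1 hu).trans (mem_Wd.1 hu').symm) hn) (deep_wZ u)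
  · intro u
    rw [freg_comp]
    exact pole_pos hΛ hh u
  · intro v hv hv0
    exact harm_cell hh freg_c00 freg_c11 hv hv0

private theorem freg_path : ∀ d d' : Dig, ∃ a b : Dig,
    (((d.1.1 : ℕ) ≤ a.1.1 + 1 ∧ (a.1.1 : ℕ) ≤ d.1.1 + 1) ∧
      ((d.1.2 : ℕ) ≤ a.1.2 + 1 ∧ (a.1.2 : ℕ) ≤ d.1.2 + 1)) ∧
    (((a.1.1 : ℕ) ≤ b.1.1 + 1 ∧ (b.1.1 : ℕ) ≤ a.1.1 + 1) ∧
      ((a.1.2 : ℕ) ≤ b.1.2 + 1 ∧ (b.1.2 : ℕ) ≤ a.1.2 + 1)) ∧
    (((b.1.1 : ℕ) ≤ d'.1.1 + 1 ∧ (d'.1.1 : ℕ) ≤ b.1.1 + 1) ∧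
      ((b.1.2 : ℕ) ≤ d'.1.2 + 1 ∧ (d'.1.2 : ℕ) ≤ b.1.2 + 1)) := by
  decide

private theorem freg_nb {d a : Dig} (h : ((d.1.1 : ℕ) ≤ a.1.1 + 1 ∧ (a.1.1 : ℕ) ≤ d.1.1 + 1) ∧
      ((d.1.2 : ℕ) ≤ a.1.2 + 1 ∧ (a.1.2 : ℕ) ≤ d.1.2 + 1)) : Nb 1 [d] [a] := by
  unfold Nb
  simp only [ix, iy, List.length_nil, pow_zero, mul_one, add_zero]
  exact h

/-- Proof: `selfSim` for `g ∘ ψ_u`: `E(g ∘ ψ_u) = ρ ∑_d' E(g ∘ ψ_(u ++ [d']))`. For all digits `d, d'` there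
are digits `a, b` such that `d, a` and `a, b` and `b, d'` differ by at most one in both coordinates (`decide`), so
`E(g ∘ ψ_(u ++ [d'])) ≤ C ^ 3 E(g ∘ ψ_(u ++ [d]))`. -/
theorem Reg.child {S : SymForm} {g : C(K, ℝ)} {C : ℝ} (h : Reg S g C) (u : List Dig) (d : Dig) :
    S.E (g.comp (psiW u)) (g.comp (psiW u)) ≤
      8 * S.ρ * C ^ 3 * S.E (g.comp (psiW (u ++ [d]))) (g.comp (psiW (u ++ [d]))) := by
  set e : Dig → ℝ := fun d' => S.E (g.comp (psiW (u ++ [d']))) (g.comp (psiW (u ++ [d'])))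
    with he
  have hC0 : 0 ≤ C := le_trans zero_le_one h.one_le
  have hstep : ∀ a b : Dig, Nb 1 [a] [b] → e b ≤ C * e a := by
    intro a b hab
    exact h.touch (u.length + 1) (u ++ [a]) (mem_Wd.2 (by simp)) (u ++ [b])
      (mem_Wd.2 (by simp)) (nb_append u rfl hab)
  have hall : ∀ d' : Dig, e d' ≤ C ^ 3 * e d := by
    intro d'
    obtain ⟨a, b, h1, h2, h3⟩ := freg_path d d'
    have k1 := hstep d a (freg_nb h1)
    have k2 := hstep a b (freg_nb h2)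
    have k3 := hstep b d' (freg_nb h3)
    calc e d' ≤ C * e b := k3
      _ ≤ C * (C * e a) := mul_le_mul_of_nonneg_left k2 hC0
      _ ≤ C * (C * (C * e d)) :=
        mul_le_mul_of_nonneg_left (mul_le_mul_of_nonneg_left k1 hC0) hC0
      _ = C ^ 3 * e d := by ring
  have hmem := comp_mem S h.mem u
  have hcomp : ∀ d' : Dig, (g.comp (psiW u)).comp (psiK d') = g.comp (psiW (u ++ [d'])) := by
    intro d'
    rw [← freg_comp]
    rfl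
  have hsum : ∑ d' : Dig, e d' ≤ 8 * (C ^ 3 * e d) := by
    have h8 : (Finset.univ : Finset Dig).card = 8 := by decide
    calc ∑ d' : Dig, e d' ≤ ∑ _d' : Dig, C ^ 3 * e d := Finset.sum_le_sum fun d' _ => hall d'
      _ = 8 * (C ^ 3 * e d) := by
        rw [Finset.sum_const, h8, nsmul_eq_mul]
        norm_num
  rw [S.selfSim _ hmem _ hmem]
  calc S.ρ * ∑ d', S.E ((g.comp (psiW u)).comp (psiK d')) ((g.comp (psiW u)).comp (psiK d'))
      = S.ρ * ∑ d', e d' := by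
        congr 1
        refine Finset.sum_congr rfl fun d' _ => ?_
        rw [hcomp]
    _ ≤ S.ρ * (8 * (C ^ 3 * e d)) := mul_le_mul_of_nonneg_left hsum S.ρ_pos.le
    _ = 8 * S.ρ * C ^ 3 * e d := by ring

end CarpetLib
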