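import Pool.Agent.Lib.MP_f3090c_an.D.FCac

/-! Doubling F05: comparison of the energies on touching cells. -/

open Set Filter Topology

namespace CarpetLib

/-- Proof: `κ` from `S.bound`; `r = √(κ E(h ∘ ψ_w, h ∘ ψ_w))`: `OscLe h (cellW w) r`. Let `y` be a point of the
cell of `w'`. For `w''` with `Nb 1 w' w''` and `z` in its cell: with a common point `x` of the cells of `w'` and
`w''` (`nb_share`) `|h z - h y| ≤ |h z - h x| + |h x - h y| ≤ Λ (Λ r) + Λ r` (`osc_word` for `w, w'` and for `w', w''`;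
`Deep 18 w` gives `Deep 17 w'`). `pole_cac` for `w'` with `s = (Λ ^ 2 + Λ) r`. -/
theorem comp_touch (S : SymForm) {Λ : ℝ} (hΛ0 : 0 < Λ) (hΛ : OscDoubling S Λ) :
    ∃ C : ℝ, 1 ≤ C ∧ ∀ h, IsPole S h → ∀ n, ∀ w ∈ Wd n, ∀ w' ∈ Wd n, Nb 1 w w' → Deep 18 w →
      S.E (h.comp (psiW w')) (h.comp (psiW w')) ≤ C * S.E (h.comp (psiW w)) (h.comp (psiW w)) := by
  obtain ⟨κ, hκ, hbd⟩ := S.bound
  obtain ⟨C1, hC1, hcac⟩ := pole_cac S
  refine ⟨C1 * (Λ ^ 2 + Λ) ^ 2 * κ + 1, by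
    have : 0 ≤ C1 * (Λ ^ 2 + Λ) ^ 2 * κ := by positivity
    linarith, ?_⟩
  intro h hh n w hw w' hw' hnb hd
  have hE0 : 0 ≤ S.E (h.comp (psiW w)) (h.comp (psiW w)) := S.nonneg _
  set E1 := S.E (h.comp (psiW w)) (h.comp (psiW w)) with hE1
  have hr0 : 0 ≤ Real.sqrt (κ * E1) := Real.sqrt_nonneg _
  have hrsq : Real.sqrt (κ * E1) ^ 2 = κ * E1 := Real.sq_sqrt (by positivity)
  have hosc : OscLe h (cellW w) (Real.sqrt (κ * E1)) := by
    rintro _ ⟨x, rfl⟩ _ ⟨y, rfl⟩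
    apply Real.abs_le_sqrt
    exact hbd _ (comp_mem S hh.1 w) x y
  have hlen : w'.length = w.length := (mem_Wd.1 hw').trans (mem_Wd.1 hw).symm
  have hd16 : Deep 16 w := by
    obtain ⟨h1, h2⟩ := hd
    exact ⟨by omega, by omega⟩
  have hd17 : Deep 17 w' := by
    obtain ⟨h1, h2⟩ := hd
    obtain ⟨⟨h3, h4⟩, h5, h6⟩ := hnb
    refine ⟨by omega, ?_⟩
    rw [hlen]
    omega
  have hd16' : Deep 16 w' := by
    obtain ⟨h1, h2⟩ := hd17
    exact ⟨by omega, by omega⟩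
  have hd3' : Deep 3 w' := by
    obtain ⟨h1, h2⟩ := hd17
    exact ⟨by omega, by omega⟩
  have hosc' : OscLe h (cellW w') (Λ * Real.sqrt (κ * E1)) :=
    osc_word hΛ hh hw hw' hnb hd16 hr0 hosc
  have hΛr : 0 ≤ Λ * Real.sqrt (κ * E1) := mul_nonneg hΛ0.le hr0
  have hs : 0 ≤ (Λ ^ 2 + Λ) * Real.sqrt (κ * E1) := by positivity
  have key := hcac h hh n w' hw' hd3' (psiW w' c00) ((Λ ^ 2 + Λ) * Real.sqrt (κ * E1)) hs (by
    intro w'' hw'' hnb' z hz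
    obtain ⟨x, hx, hx'⟩ := nb_share hw' hw'' hnb'
    have h1 := osc_word hΛ hh hw' hw'' hnb' hd16' hΛr hosc' z hz x hx'
    have h2 := hosc' x hx (psiW w' c00) ⟨c00, rfl⟩
    calc |h z - h (psiW w' c00)| = |(h z - h x) + (h x - h (psiW w' c00))| := by
          rw [sub_add_sub_cancel]
      _ ≤ |h z - h x| + |h x - h (psiW w' c00)| := abs_add_le _ _
      _ ≤ Λ * (Λ * Real.sqrt (κ * E1)) + Λ * Real.sqrt (κ * E1) := add_le_add h1 h2
      _ = _ := by ring)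
  refine key.trans ?_
  rw [mul_pow, hrsq]
  nlinarith

end CarpetLib
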