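import Pool.Agent.Lib.MP_f3090c_an.D.TipDefs

/-! Doubling DB14: the flux of `q` through the boundary of the removed cells is small. -/

open Set Filter Topology

namespace CarpetLib

private theorem flux_nbhd_trans {m : ℕ} {Z : Finset (List Dig)} {w w' : List Dig}
    (hw : w ∈ nbhd 1 m Z) (hw' : w' ∈ Wd m) (h : Nb 1 w w') : w' ∈ nbhd 2 m Z := by
  obtain ⟨_, v, hv, hvw⟩ := mem_nbhd.1 hw
  refine mem_nbhd.2 ⟨hw', v, hv, ?_⟩
  unfold Nb at h hvw ⊢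
  omega

private theorem flux_nbhd_mono {m : ℕ} {Z : Finset (List Dig)} {w : List Dig}
    (hw : w ∈ nbhd 1 m Z) : w ∈ nbhd 2 m Z := by
  obtain ⟨h1, v, hv, hvw⟩ := mem_nbhd.1 hw
  refine mem_nbhd.2 ⟨h1, v, hv, ?_⟩
  unfold Nb at hvw ⊢
  omega

private theorem flux_shift (S : SymForm) (f : C(K, ℝ)) (c : ℝ) :
    S.E (f - ContinuousMap.const K c) (f - ContinuousMap.const K c) = S.E f f := by
  simp only [map_sub, LinearMap.sub_apply, S.toRForm.E_const_right, S.toRForm.E_const_left,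
    sub_zero]

/-- Caccioppoli near `Z`. Proof: `χ₂` = cut-off (`exists_cutoff`) of `nbhd 1 m Z` (at most `9 N` words), it
vanishes on the cells outside `nbhd 2 m Z`, in particular at the poles. `caccioppoli` with `p = q - c0`:
`E(χ₂ p, χ₂ p) ≤ E(q, χ₂ χ₂ p) + s² E(χ₂, χ₂)` and `E(q, χ₂ χ₂ p) = 0` as `χ₂` vanishes at the poles. On the
cells of `nbhd 1 m Z` `χ₂ p = p` (`E_word_le`). -/
theorem energy_near (S : SymForm) (N : ℕ) : ∃ C1 : ℝ, 1 ≤ C1 ∧ ∀ (m : ℕ)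
    (Z : Finset (List Dig)), Z ⊆ Wd m → Z.card ≤ N → ∀ (q : C(K, ℝ)) (b1 b2 : K),
    IsDip S b1 b2 q → (∀ w ∈ nbhd 2 m Z, b1 ∉ cellW w ∧ b2 ∉ cellW w) → ∀ (c0 s : ℝ), 0 ≤ s →
    (∀ w ∈ nbhd 2 m Z, ∀ z ∈ cellW w, |q z - c0| ≤ s) →
    S.ρ ^ m * ∑ w ∈ nbhd 1 m Z, S.E (q.comp (psiW w)) (q.comp (psiW w)) ≤
      C1 * s ^ 2 * S.ρ ^ m := by
  obtain ⟨Cc, hCc, hcut⟩ := exists_cutoff S
  refine ⟨Cc * (9 * N) + 1, ?_, ?_⟩
  · have : 0 ≤ Cc * (9 * (N : ℝ)) := by positivity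
    linarith
  intro m Z hZ hN q b1 b2 hq hfar c0 s hs hgood
  have hsub : nbhd 1 m Z ⊆ Wd m := fun w hw => (mem_nbhd.1 hw).1
  obtain ⟨χ, hχ, hχ01, hχ1, hχ0, -, hχE⟩ := hcut m (nbhd 1 m Z) hsub
  have hcard : ((nbhd 1 m Z).card : ℝ) ≤ 9 * N := by
    have h1 := card_nbhd_le (r := 1) hZ
    have h2 : (nbhd 1 m Z).card ≤ 9 * N := by
      refine h1.trans ?_
      have : (2 * 1 + 1) ^ 2 = 9 := by norm_num
      rw [this]
      exact Nat.mul_le_mul_left 9 hN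
    exact_mod_cast h2
  have hρ : 0 < S.ρ ^ m := pow_pos S.ρ_pos m
  -- `χ` vanishes outside the cells of `nbhd 2 m Z`
  have hsupp : ∀ z, χ z ≠ 0 → ∃ w ∈ nbhd 2 m Z, z ∈ cellW w := by
    intro z hz
    obtain ⟨w', hw', hzw⟩ := exists_mem_cellW m z
    by_contra hcon
    push Not at hcon
    apply hz
    refine hχ0 w' hw' (fun w hw hnb => ?_) z hzw
    exact hcon w' (flux_nbhd_trans hw hw' hnb) hzw
  have hb1 : χ b1 = 0 := by
    by_contra h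
    obtain ⟨w, hw, hbw⟩ := hsupp b1 h
    exact (hfar w hw).1 hbw
  have hb2 : χ b2 = 0 := by
    by_contra h
    obtain ⟨w, hw, hbw⟩ := hsupp b2 h
    exact (hfar w hw).2 hbw
  set p : C(K, ℝ) := q - ContinuousMap.const K c0 with hp
  have hpd : p ∈ S.dom := S.dom.sub_mem hq.1 (S.toRForm.const_mem _)
  have hcp : χ * p ∈ S.dom := S.toRForm.mul_mem hχ hpd
  have hccp : χ * (χ * p) ∈ S.dom := S.toRForm.mul_mem hχ hcp
  have h1 := S.toRForm.caccioppoli hpd hχ hs (fun x hx => by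
    obtain ⟨w, hw, hxw⟩ := hsupp x hx
    exact hgood w hw x hxw)
  have h2 : S.E p (χ * (χ * p)) = 0 := by
    rw [hp, map_sub, LinearMap.sub_apply, S.toRForm.E_const_left, sub_zero, hq.2 _ hccp]
    simp only [ContinuousMap.mul_apply, hb1, hb2, zero_mul, sub_zero]
  have h3 : S.E (χ * p) (χ * p) ≤ s ^ 2 * (Cc * (9 * N) * S.ρ ^ m) := by
    rw [h2, zero_add] at h1
    refine h1.trans (mul_le_mul_of_nonneg_left (hχE.trans ?_) (sq_nonneg s))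
    refine mul_le_mul_of_nonneg_right ?_ hρ.le
    exact mul_le_mul_of_nonneg_left hcard (by linarith)
  have h4 := E_word_le S hcp (nbhd 1 m Z) hsub
  have h5 : ∀ w ∈ nbhd 1 m Z, S.E ((χ * p).comp (psiW w)) ((χ * p).comp (psiW w)) =
      S.E (q.comp (psiW w)) (q.comp (psiW w)) := by
    intro w hw
    have h6 : (χ * p).comp (psiW w) = q.comp (psiW w) - ContinuousMap.const K c0 := by
      ext z
      have : χ (psiW w z) = 1 := hχ1 w hw _ ⟨z, rfl⟩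
      simp [hp, this]
    rw [h6, flux_shift]
  rw [Finset.sum_congr rfl h5] at h4
  have h7 : s ^ 2 * (Cc * (9 * N) * S.ρ ^ m) ≤ (Cc * (9 * N) + 1) * s ^ 2 * S.ρ ^ m := by
    have : 0 ≤ s ^ 2 * S.ρ ^ m := by positivity
    nlinarith
  exact h4.trans (h3.trans h7)

/-- The flux error. Proof: `χ₁` = cut-off of `Z`. `(1 - χ₁) φ` vanishes where cells of `C` meet cells outside
`C` (those are in `Z` by `closed`), so `sub_extend` and `sub_E_eq`: `E(p, (1 - χ₁) φ) = φ b1 - φ b2`. And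
`χ₁ φ = χ₁ (φ ⊓ M)` vanishes on the cells outside `nbhd 1 m Z`; Cauchy-Schwarz over the cells of
`C ∩ nbhd 1 m Z`, `energy_near` for `p`, `E_mul_le` and `exists_cutoff` for `χ₁ (φ ⊓ M)`:
`E(χ₁ (φ ⊓ M)) ≤ 2 (E(φ, φ) + M² E(χ₁, χ₁))`. -/
theorem flux_err (S : SymForm) (N : ℕ) : ∃ C2 : ℝ, 1 ≤ C2 ∧ ∀ (m : ℕ)
    (Z C : Finset (List Dig)) (R : RForm (sub C)) (q : C(K, ℝ)) (b1 b2 : K) (c0 s : ℝ)
    (h : TipCtx S m Z C R q b1 b2 c0 s), Z.card ≤ N → ∀ φ ∈ R.dom, (∀ x, 0 ≤ φ x) → ∀ M : ℝ, 0 ≤ M →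
    (∀ x : sub C, (∃ w ∈ nbhd 1 m Z, x.1 ∈ cellW w) → φ x ≤ M) →
    (R.E (pS C q c0) φ - (φ ⟨b1, h.b1mem⟩ - φ ⟨b2, h.b2mem⟩)) ^ 2 ≤
      C2 * s ^ 2 * S.ρ ^ m * (R.E φ φ + M ^ 2 * (C2 * S.ρ ^ m)) := by
  obtain ⟨C1, hC1, hnear⟩ := energy_near S N
  obtain ⟨Cc, hCc, hcut⟩ := exists_cutoff S
  have hCcN : 0 ≤ Cc * (N : ℝ) := by positivity
  refine ⟨2 * C1 + Cc * N, by linarith, ?_⟩
  intro m Z C R q b1 b2 c0 s h hN φ hφ hφ0 M hM hφM
  have hρ : 0 < S.ρ ^ m := pow_pos S.ρ_pos m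
  obtain ⟨χ, hχ, hχ01, hχ1, hχ0, -, hχE⟩ := hcut m Z h.hZ
  have hχE' : S.E χ χ ≤ Cc * N * S.ρ ^ m := by
    refine hχE.trans (mul_le_mul_of_nonneg_right ?_ hρ.le)
    exact mul_le_mul_of_nonneg_left (by exact_mod_cast hN) (by linarith)
  -- `χ` vanishes outside the cells of `nbhd 1 m Z`
  have hout : ∀ w' ∈ Wd m, w' ∉ nbhd 1 m Z → ∀ z ∈ cellW w', χ z = 0 := by
    intro w' hw' hnot
    refine hχ0 w' hw' fun w hw hnb => ?_
    exact hnot (mem_nbhd.2 ⟨hw', w, hw, hnb⟩)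
  have hsupp : ∀ z, χ z ≠ 0 → ∃ w ∈ nbhd 1 m Z, z ∈ cellW w := by
    intro z hz
    obtain ⟨w', hw', hzw⟩ := exists_mem_cellW m z
    by_contra hcon
    push Not at hcon
    exact hz (hout w' hw' (fun hmem => hcon w' hmem hzw) z hzw)
  have hb1 : χ b1 = 0 := by
    by_contra hne
    obtain ⟨w, hw, hbw⟩ := hsupp b1 hne
    exact (h.far w (flux_nbhd_mono hw)).1 hbw
  have hb2 : χ b2 = 0 := by
    by_contra hne
    obtain ⟨w, hw, hbw⟩ := hsupp b2 hne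
    exact (h.far w (flux_nbhd_mono hw)).2 hbw
  obtain ⟨hRdom, hRE⟩ := h.isSub
  -- the restriction of `χ`
  obtain ⟨hχC, hχCE⟩ := sub_restrict S h.hC h.isSub hχ
  set χC : C(sub C, ℝ) := χ.comp (incS C) with hχCdef
  have hqC := (sub_restrict S h.hC h.isSub h.dip.1).1
  -- the far part
  have hg1 : φ - χC * φ ∈ R.dom := R.dom.sub_mem hφ (R.mul_mem hχC hφ)
  have hg0 : ∀ x : sub C, (∃ w ∈ Wd m, w ∉ C ∧ x.1 ∈ cellW w) → (φ - χC * φ) x = 0 := by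
    rintro x ⟨w, hw, hwC, hxw⟩
    obtain ⟨w'', hw'', hxw''⟩ := mem_sub.1 x.2
    have hwZ : w ∈ Z := by
      by_contra hwZ
      exact hwC (h.closed w'' hw'' w hw hwZ ⟨x.1, hxw'', hxw⟩)
    have h1 : χ x.1 = 1 := hχ1 w hwZ _ hxw
    have h2 : χC x = 1 := h1
    simp [h2]
  obtain ⟨G, hG, hGg, hGout⟩ := sub_extend S h.hC h.isSub hg1 hg0
  have hEG := sub_E_eq S h.hC h.isSub h.dip.1 hG hGout
  have hGC : G.comp (incS C) = φ - χC * φ := by
    ext x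
    exact hGg x
  rw [hGC, h.dip.2 G hG] at hEG
  have hGb1 : G b1 = φ ⟨b1, h.b1mem⟩ := by
    have h1 := hGg ⟨b1, h.b1mem⟩
    have h2 : χC ⟨b1, h.b1mem⟩ = 0 := hb1
    rw [ContinuousMap.sub_apply, ContinuousMap.mul_apply, h2, zero_mul, sub_zero] at h1
    exact h1
  have hGb2 : G b2 = φ ⟨b2, h.b2mem⟩ := by
    have h1 := hGg ⟨b2, h.b2mem⟩
    have h2 : χC ⟨b2, h.b2mem⟩ = 0 := hb2
    rw [ContinuousMap.sub_apply, ContinuousMap.mul_apply, h2, zero_mul, sub_zero] at h1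
    exact h1
  have hpS : ∀ f, R.E (pS C q c0) f = R.E (q.comp (incS C)) f := by
    intro f
    have h1 : pS C q c0 = q.comp (incS C) - ContinuousMap.const (sub C) c0 := rfl
    rw [h1, map_sub, LinearMap.sub_apply, R.E_const_left, sub_zero]
  have hdiff : R.E (pS C q c0) φ - (φ ⟨b1, h.b1mem⟩ - φ ⟨b2, h.b2mem⟩) =
      R.E (pS C q c0) (χC * φ) := by
    rw [hpS, hpS, ← hGb1, ← hGb2, hEG, map_sub]
    ring
  rw [hdiff]
  -- the near part
  set φM : C(sub C, ℝ) := φ ⊓ ContinuousMap.const (sub C) M with hφMdef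
  have hφMd : φM ∈ R.dom := R.inf_mem hφ (R.const_mem M)
  have hφME : R.E φM φM ≤ R.E φ φ := by
    have := R.E_inf_le hφ (R.const_mem M)
    rwa [R.E_const_left, add_zero] at this
  have hφMb : ∀ x, |φM x| ≤ M := by
    intro x
    have h1 : φM x = min (φ x) M := rfl
    rw [h1, abs_le]
    exact ⟨le_min (by linarith [hφ0 x]) (by linarith), min_le_right _ _⟩
  have hχφ : χC * φ = χC * φM := by
    ext x
    rw [ContinuousMap.mul_apply, ContinuousMap.mul_apply]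
    by_cases hx : χC x = 0
    · rw [hx, zero_mul, zero_mul]
    · have h1 : φM x = min (φ x) M := rfl
      obtain ⟨w, hw, hxw⟩ := hsupp x.1 hx
      rw [h1, min_eq_left (hφM x ⟨w, hw, hxw⟩)]
  have hχC1 : ∀ x, |χC x| ≤ 1 := by
    intro x
    have h1 := hχ01 x.1
    have h2 : χC x = χ x.1 := rfl
    rw [h2, abs_of_nonneg h1.1]
    exact h1.2
  have hEχφ : R.E (χC * φ) (χC * φ) ≤ 2 * (R.E φ φ + M ^ 2 * (Cc * N * S.ρ ^ m)) := by
    rw [hχφ]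
    refine (R.E_mul_le hχC hφMd hχC1 hφMb).trans ?_
    have h1 : M ^ 2 * R.E χC χC ≤ M ^ 2 * (Cc * N * S.ρ ^ m) :=
      mul_le_mul_of_nonneg_left (hχCE.trans hχE') (sq_nonneg M)
    linarith
  -- Cauchy-Schwarz over the cells
  have hcs : (∑ w : C, S.E ((pS C q c0).comp (psiS C w)) ((χC * φ).comp (psiS C w))) ^ 2 ≤
      (∑ w : C, if w.1 ∈ nbhd 1 m Z then S.E (q.comp (psiW w.1)) (q.comp (psiW w.1)) else 0) *
        ∑ w : C, S.E ((χC * φ).comp (psiS C w)) ((χC * φ).comp (psiS C w)) := by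
    refine Finset.sum_sq_le_sum_mul_sum_of_sq_le_mul _ ?_ ?_ ?_
    · intro w _
      split_ifs
      · exact S.nonneg _
      · exact le_rfl
    · intro w _
      exact S.nonneg _
    · intro w _
      split_ifs with hw
      · have h1 := S.toRForm.cs ((pS C q c0).comp (psiS C w)) ((χC * φ).comp (psiS C w))
        have h2 : (pS C q c0).comp (psiS C w) = q.comp (psiW w.1) - ContinuousMap.const K c0 :=
          rfl
        rw [h2] at h1 ⊢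
        rwa [flux_shift] at h1
      · have h3 : (χC * φ).comp (psiS C w) = 0 := by
          ext z
          have h4 : χC (psiS C w z) = 0 := hout w.1 (h.hC w.2) hw _ ⟨z, rfl⟩
          simp [h4]
        rw [h3]
        simp
  have hA : S.ρ ^ m * (∑ w : C, if w.1 ∈ nbhd 1 m Z then
      S.E (q.comp (psiW w.1)) (q.comp (psiW w.1)) else 0) ≤ C1 * s ^ 2 * S.ρ ^ m := by
    refine le_trans (mul_le_mul_of_nonneg_left ?_ hρ.le)
      (hnear m Z h.hZ hN q b1 b2 h.dip h.far c0 s h.spos.le h.good)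
    rw [Finset.sum_coe_sort C (fun w => if w ∈ nbhd 1 m Z then
      S.E (q.comp (psiW w)) (q.comp (psiW w)) else 0), ← Finset.sum_filter]
    refine Finset.sum_le_sum_of_subset_of_nonneg ?_ fun w _ _ => S.nonneg _
    intro w hw
    exact (Finset.mem_filter.1 hw).2
  have hA0 : 0 ≤ S.ρ ^ m * (∑ w : C, if w.1 ∈ nbhd 1 m Z then
      S.E (q.comp (psiW w.1)) (q.comp (psiW w.1)) else 0) := by
    refine mul_nonneg hρ.le (Finset.sum_nonneg fun w _ => ?_)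
    split_ifs
    · exact S.nonneg _
    · exact le_rfl
  have hB := hRE (χC * φ) (χC * φ)
  have hB0 : 0 ≤ R.E (χC * φ) (χC * φ) := R.nonneg _
  have hfin : (R.E (pS C q c0) (χC * φ)) ^ 2 ≤
      (C1 * s ^ 2 * S.ρ ^ m) * (2 * (R.E φ φ + M ^ 2 * (Cc * N * S.ρ ^ m))) := by
    calc (R.E (pS C q c0) (χC * φ)) ^ 2
        = (S.ρ ^ m) ^ 2 * (∑ w : C, S.E ((pS C q c0).comp (psiS C w))
          ((χC * φ).comp (psiS C w))) ^ 2 := by rw [hRE]; ring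
      _ ≤ (S.ρ ^ m) ^ 2 * ((∑ w : C, if w.1 ∈ nbhd 1 m Z then
          S.E (q.comp (psiW w.1)) (q.comp (psiW w.1)) else 0) *
          ∑ w : C, S.E ((χC * φ).comp (psiS C w)) ((χC * φ).comp (psiS C w))) :=
          mul_le_mul_of_nonneg_left hcs (sq_nonneg _)
      _ = (S.ρ ^ m * (∑ w : C, if w.1 ∈ nbhd 1 m Z then
          S.E (q.comp (psiW w.1)) (q.comp (psiW w.1)) else 0)) *
          R.E (χC * φ) (χC * φ) := by rw [hB]; ring
      _ ≤ _ := mul_le_mul hA hEχφ hB0 (hA0.trans hA)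
  refine hfin.trans ?_
  have hE0 : 0 ≤ R.E φ φ := R.nonneg _
  have hs2 : 0 ≤ s ^ 2 * S.ρ ^ m := by positivity
  have hM2 : 0 ≤ M ^ 2 * S.ρ ^ m := by positivity
  have e1 : (C1 * s ^ 2 * S.ρ ^ m) * (2 * (R.E φ φ + M ^ 2 * (Cc * N * S.ρ ^ m))) =
      (2 * C1) * (s ^ 2 * S.ρ ^ m) * (R.E φ φ + (Cc * N) * (M ^ 2 * S.ρ ^ m)) := by ring
  have e2 : (2 * C1 + Cc * N) * s ^ 2 * S.ρ ^ m *
      (R.E φ φ + M ^ 2 * ((2 * C1 + Cc * N) * S.ρ ^ m)) =
      (2 * C1 + Cc * N) * (s ^ 2 * S.ρ ^ m) *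
        (R.E φ φ + (2 * C1 + Cc * N) * (M ^ 2 * S.ρ ^ m)) := by ring
  rw [e1, e2]
  refine mul_le_mul ?_ ?_ ?_ ?_
  · exact mul_le_mul_of_nonneg_right (by linarith) hs2
  · have := mul_le_mul_of_nonneg_right (show Cc * N ≤ 2 * C1 + Cc * N by linarith) hM2
    linarith
  · positivity
  · have : 0 ≤ 2 * C1 + Cc * N := by linarith
    positivity

end CarpetLib
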