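import Pool.Agent.Lib.MP_f3090c_an.D.Basic2
import Pool.Agent.Lib.MP_f3090c_an.D.GlueW

/-! D07: folding a star of cells onto the carpet (section 2 of the paper proof). -/

open Set Filter Topology

namespace CarpetLib

/-- `(min(|X - a|, 1), min(|Y - b|, 1))`, `X = 3^l z.1`, `Y = 3^l z.2` -/
noncomputable def foldP (l : ℕ) (v : Ix) (z : ℝ × ℝ) : ℝ × ℝ :=
  (min |3 ^ l * z.1 - v.1| 1, min |3 ^ l * z.2 - v.2| 1)

private theorem Fold_unit (z : K) : (0 ≤ z.1.1 ∧ z.1.1 ≤ 1) ∧ (0 ≤ z.1.2 ∧ z.1.2 ≤ 1) :=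
  carpet_subset_unitSq z.2

private theorem Fold_mul (w : List Dig) (z : K) :
    3 ^ w.length * (psiW w z).1.1 = z.1.1 + ix w ∧
      3 ^ w.length * (psiW w z).1.2 = z.1.2 + iy w := by
  have h : (3 : ℝ) ^ w.length ≠ 0 := by positivity
  rw [psiW_fst, psiW_snd]
  constructor <;> field_simp

private theorem Fold_c0 {n : ℕ} {a : ℤ} {t : ℝ} (ht : 0 ≤ t ∧ t ≤ 1) (h : (n : ℤ) = a) :
    min |t + n - a| 1 = t := by
  have h1 : (n : ℝ) = (a : ℝ) := by exact_mod_cast h
  rw [h1, add_sub_cancel_right, abs_of_nonneg ht.1, min_eq_left ht.2]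

private theorem Fold_c1 {n : ℕ} {a : ℤ} {t : ℝ} (ht : 0 ≤ t ∧ t ≤ 1) (h : (n : ℤ) = a - 1) :
    min |t + n - a| 1 = 1 - t := by
  have h1 : (n : ℝ) = (a : ℝ) - 1 := by exact_mod_cast h
  have h2 : t + n - a = -(1 - t) := by
    rw [h1]
    ring
  rw [h2, abs_neg, abs_of_nonneg (by linarith [ht.2]), min_eq_left (by linarith [ht.1])]

private theorem Fold_c2 {n : ℕ} {a : ℤ} {t : ℝ} (ht : 0 ≤ t ∧ t ≤ 1)
    (h : ¬ ((n : ℤ) = a ∨ (n : ℤ) = a - 1)) : min |t + n - a| 1 = 1 := by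
  refine min_eq_right ?_
  rw [le_abs]
  have h1 : a + 1 ≤ (n : ℤ) ∨ (n : ℤ) ≤ a - 2 := by omega
  rcases h1 with h1 | h1
  · left
    have h2 : (a : ℝ) + 1 ≤ (n : ℝ) := by exact_mod_cast h1
    linarith [ht.1]
  · right
    have h2 : (n : ℝ) ≤ (a : ℝ) - 2 := by exact_mod_cast h1
    linarith [ht.2]

private theorem Fold_bd (t : ℝ) : 0 ≤ min |t| 1 ∧ min |t| 1 ≤ 1 :=
  ⟨le_min (abs_nonneg _) zero_le_one, min_le_right _ _⟩

private theorem Fold_P (w : List Dig) (v : Ix) (z : K) :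
    foldP w.length v (psiW w z).1 =
      (min |z.1.1 + ix w - v.1| 1, min |z.1.2 + iy w - v.2| 1) := by
  unfold foldP
  rw [(Fold_mul w z).1, (Fold_mul w z).2]

/-- Proof: `z` is in a present cell `q`. If `q` does not contain the vertex `v` (that is not
`(q.1 = v.1 ∨ q.1 = v.1 - 1) ∧ (q.2 = v.2 ∨ q.2 = v.2 - 1)`), one coordinate of `foldP l v z` is `1` and the other in `[0,1]`:
`right_mem`, `top_mem`. Otherwise `3^l z - q` is in the carpet and `foldP l v z` is obtained from it by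
reflections (`rxP_carpet`, `swP_carpet`). -/
theorem foldP_mem (l : ℕ) (v : Ix) (z : K) : foldP l v z.1 ∈ carpet := by
  obtain ⟨w, hw, y, rfl⟩ := exists_mem_cellW l z
  rw [← mem_Wd.1 hw, Fold_P]
  obtain ⟨hy1, hy2⟩ := Fold_unit y
  by_cases hx : (ix w : ℤ) = v.1 ∨ (ix w : ℤ) = v.1 - 1
  · by_cases hy : (iy w : ℤ) = v.2 ∨ (iy w : ℤ) = v.2 - 1
    · rcases hx with hx | hx
      · rcases hy with hy | hy
        · rw [Fold_c0 hy1 hx, Fold_c0 hy2 hy]
          exact y.2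
        · rw [Fold_c0 hy1 hx, Fold_c1 hy2 hy]
          exact (ryK y).2
      · rcases hy with hy | hy
        · rw [Fold_c1 hy1 hx, Fold_c0 hy2 hy]
          exact (rxK y).2
        · rw [Fold_c1 hy1 hx, Fold_c1 hy2 hy]
          exact (rxK (ryK y)).2
    · rw [Fold_c2 hy2 hy]
      exact top_mem (Fold_bd _).1 (Fold_bd _).2
  · rw [Fold_c2 hy1 hx]
    exact right_mem (Fold_bd _).1 (Fold_bd _).2

/-- the folding map -/
noncomputable def fold (l : ℕ) (v : Ix) : C(K, K) :=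
  ⟨fun z => ⟨foldP l v z.1, foldP_mem l v z⟩, by
    apply Continuous.subtype_mk
    unfold foldP
    fun_prop⟩

/-- the top and the right side of the unit square -/
def TR : Set K := {z | z.1.1 = 1 ∨ z.1.2 = 1}

theorem TR_closed : IsClosed TR := by
  have h1 : IsClosed {z : K | z.1.1 = 1} :=
    isClosed_eq (continuous_fst.comp continuous_subtype_val) continuous_const
  have h2 : IsClosed {z : K | z.1.2 = 1} :=
    isClosed_eq (continuous_snd.comp continuous_subtype_val) continuous_const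
  exact h1.union h2

/-- the word `w` (of length `l`) has the vertex `v` -/
def HasV (v : Ix) (w : List Dig) : Prop :=
  ((ix w : ℤ) = v.1 ∨ (ix w : ℤ) = v.1 - 1) ∧ ((iy w : ℤ) = v.2 ∨ (iy w : ℤ) = v.2 - 1)

instance (v : Ix) (w : List Dig) : Decidable (HasV v w) := by
  unfold HasV; infer_instance

/-- the reflection of the cell `w` with vertex `v` -/
noncomputable def sgW (v : Ix) (w : List Dig) : C(K, K) :=
  (if (ix w : ℤ) = v.1 then ContinuousMap.id K else rxK).comp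
    (if (iy w : ℤ) = v.2 then ContinuousMap.id K else ryK)

theorem sgW_invol (v : Ix) (w : List Dig) (z : K) : sgW v w (sgW v w z) = z := by
  unfold sgW
  refine Subtype.ext (Prod.ext ?_ ?_)
  · split_ifs <;> simp
  · split_ifs <;> simp

theorem sgW_inv (S : SymForm) (v : Ix) (w : List Dig) : S.toRForm.Inv (sgW v w) := by
  have hid : S.toRForm.Inv (ContinuousMap.id K) := ⟨fun f hf => hf, fun f _ g _ => rfl⟩
  have hcomp : ∀ σ τ : C(K, K), S.toRForm.Inv σ → S.toRForm.Inv τ →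
      S.toRForm.Inv (σ.comp τ) := by
    intro σ τ hσ hτ
    refine ⟨fun f hf => hτ.1 _ (hσ.1 f hf), fun f hf g hg => ?_⟩
    exact (hτ.2 _ (hσ.1 f hf) _ (hσ.1 g hg)).trans (hσ.2 f hf g hg)
  unfold sgW
  refine hcomp _ _ ?_ ?_
  · split_ifs
    · exact hid
    · exact S.rx_inv
  · split_ifs
    · exact hid
    · exact S.ry_inv

private theorem Fold_sg_fst (v : Ix) (w : List Dig) (z : K) :
    (sgW v w z).1.1 = if (ix w : ℤ) = v.1 then z.1.1 else 1 - z.1.1 := by
  unfold sgW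
  split_ifs <;> simp

private theorem Fold_sg_snd (v : Ix) (w : List Dig) (z : K) :
    (sgW v w z).1.2 = if (iy w : ℤ) = v.2 then z.1.2 else 1 - z.1.2 := by
  unfold sgW
  split_ifs <;> simp

theorem fold_word {w : List Dig} {v : Ix} (h : HasV v w) :
    (fold w.length v).comp (psiW w) = sgW v w := by
  ext1 z
  refine Subtype.ext ?_
  have h1 : ((fold w.length v).comp (psiW w) z).1 = foldP w.length v (psiW w z).1 := rfl
  obtain ⟨hz1, hz2⟩ := Fold_unit z
  rw [h1, Fold_P]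
  refine Prod.ext ?_ ?_
  · rw [Fold_sg_fst]
    split_ifs with h2
    · exact Fold_c0 hz1 h2
    · exact Fold_c1 hz1 (h.1.resolve_left h2)
  · rw [Fold_sg_snd]
    split_ifs with h2
    · exact Fold_c0 hz2 h2
    · exact Fold_c1 hz2 (h.2.resolve_left h2)

theorem fold_word_not {w : List Dig} {v : Ix} (h : ¬ HasV v w) (z : K) :
    fold w.length v (psiW w z) ∈ TR := by
  have h1 : (fold w.length v (psiW w z)).1 = foldP w.length v (psiW w z).1 := rfl
  obtain ⟨hz1, hz2⟩ := Fold_unit z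
  rw [Fold_P] at h1
  by_cases hx : (ix w : ℤ) = v.1 ∨ (ix w : ℤ) = v.1 - 1
  · have hy : ¬ ((iy w : ℤ) = v.2 ∨ (iy w : ℤ) = v.2 - 1) := fun hy => h ⟨hx, hy⟩
    right
    rw [h1]
    exact Fold_c2 hz2 hy
  · left
    rw [h1]
    exact Fold_c2 hz1 hx

/-- vertex: `ψ_w(σ(0,0)) = v / 3^l` -/
theorem psiW_sgW_c00 {w : List Dig} {v : Ix} (h : HasV v w) :
    (psiW w (sgW v w c00)).1 = ((v.1 : ℝ) / 3 ^ w.length, (v.2 : ℝ) / 3 ^ w.length) := by
  have c1 : (c00.1.1 : ℝ) = 0 := rfl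
  have c2 : (c00.1.2 : ℝ) = 0 := rfl
  refine Prod.ext ?_ ?_
  · rw [psiW_fst, Fold_sg_fst, c1]
    congr 1
    split_ifs with h2
    · rw [zero_add]
      exact_mod_cast h2
    · have h3 : (ix w : ℝ) = (v.1 : ℝ) - 1 := by exact_mod_cast h.1.resolve_left h2
      rw [h3]
      ring
  · rw [psiW_snd, Fold_sg_snd, c2]
    congr 1
    split_ifs with h2
    · rw [zero_add]
      exact_mod_cast h2
    · have h3 : (iy w : ℝ) = (v.2 : ℝ) - 1 := by exact_mod_cast h.2.resolve_left h2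
      rw [h3]
      ring

end CarpetLib
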