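import Pool.Agent.Lib.MP_f3090c_an.D.Fold

/-! D07b: energy of folded functions. -/

open Set Filter Topology

namespace CarpetLib

private theorem foldE_pos {f : C(K, ℝ)} {l : ℕ} {v : Ix} {w : List Dig} (hw : w ∈ Wd l)
    (h : HasV v w) : (f.comp (fold l v)).comp (psiW w) = f.comp (sgW v w) := by
  have hl := mem_Wd.1 hw
  subst hl
  rw [ContinuousMap.comp_assoc, fold_word h]

private theorem foldE_neg {f : C(K, ℝ)} (hf : ∀ z ∈ TR, f z = 0) {l : ℕ} {v : Ix} {w : List Dig}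
    (hw : w ∈ Wd l) (h : ¬ HasV v w) : (f.comp (fold l v)).comp (psiW w) = 0 := by
  have hl := mem_Wd.1 hw
  subst hl
  ext z
  exact hf _ (fold_word_not h z)

theorem fold_mem_dom (S : SymForm) {f : C(K, ℝ)} (hf : f ∈ S.domZ TR) (l : ℕ) (v : Ix) :
    f.comp (fold l v) ∈ S.dom := by
  obtain ⟨hfd, hf0⟩ := hf
  rw [mem_words S l]
  intro w hw
  by_cases h : HasV v w
  · rw [foldE_pos hw h]
    exact (sgW_inv S v w).1 f hfd
  · rw [foldE_neg hf0 hw h]
    exact S.dom.zero_mem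

/-- (2.1). Proof: `E_words`, `fold_word` (then `E (w ∘ ψ) (f ∘ σ) = E (w ∘ ψ ∘ σ) f` by `sgW_inv`, `sgW_invol`),
`fold_word_not` (`f ∘ fold ∘ ψ_w = 0`). -/
theorem fold_energy (S : SymForm) {g f : C(K, ℝ)} (hg : g ∈ S.dom) (hf : f ∈ S.domZ TR) (l : ℕ)
    (v : Ix) :
    S.E g (f.comp (fold l v)) = S.ρ ^ l *
      ∑ w ∈ (Wd l).filter (HasV v), S.E ((g.comp (psiW w)).comp (sgW v w)) f := by
  rw [E_words S l hg (fold_mem_dom S hf l v), Finset.sum_filter]
  refine congrArg (S.ρ ^ l * ·) (Finset.sum_congr rfl fun w hw => ?_)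
  by_cases h : HasV v w
  · rw [if_pos h, foldE_pos hw h]
    have hinv := sgW_inv S v w
    have hd := comp_mem S hg w
    have h1 := hinv.2 _ (hinv.1 _ hd) f hf.1
    rw [← h1]
    congr 2
    ext z
    change g (psiW w z) = g (psiW w (sgW v w (sgW v w z)))
    rw [sgW_invol]
  · rw [if_neg h, foldE_neg hf.2 hw h, map_zero]

end CarpetLib
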