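import Pool.Agent.Lib.MP_f3090c_an.D.TipJoin
import Pool.Agent.Lib.MP_f3090c_an.D.Cross0

/-! Doubling DB16: the four tips lemma. -/

open Set Filter Topology

namespace CarpetLib

/-- a point of the domain where `|q - c0| > a` is joined to a pole -/
private theorem fourTips_mem {S : SymForm} {m : ℕ} {Z C : Finset (List Dig)} {q : C(K, ℝ)}
    {b1 b2 : K} (hZ : Z ⊆ Wd m) (hq : IsDip S b1 b2 q) (hb1 : b1 ∈ sub C) (hb2 : b2 ∈ sub C)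
    (hcomp : ∀ D : Set K, IsPreconnected D → Disjoint D (sub Z) → (D ∩ sub C).Nonempty → D ⊆ sub C)
    {c0 s a : ℝ} (hsa : s ≤ a)
    (hgood : ∀ w ∈ nbhd 2 m Z, ∀ z ∈ cellW w, |q z - c0| ≤ s) {y : K} (hy : a < |q y - c0|) :
    y ∈ sub C := by
  have hZn : ∀ z ∈ sub Z, |q z - c0| ≤ s := by
    intro z hz
    obtain ⟨w, hw, hzw⟩ := mem_sub.1 hz
    exact hgood w (mem_nbhd.2 ⟨hZ hw, w, hw, ⟨by omega, by omega⟩, by omega, by omega⟩) z hzw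
  rcases lt_abs.1 hy with h | h
  · obtain ⟨D, -, hDp, hDs, hyD, hbD⟩ := hq.nodal (c := c0 + a) (y := y) (by linarith)
    refine hcomp D hDp ?_ ⟨b1, hbD, hb1⟩ hyD
    rw [Set.disjoint_left]
    intro z hzD hzZ
    have h1 : c0 + a < q z := hDs hzD
    have h2 := (abs_le.1 (hZn z hzZ)).2
    linarith
  · obtain ⟨D, -, hDp, hDs, hyD, hbD⟩ := hq.nodal' (c := c0 - a) (y := y) (by linarith)
    refine hcomp D hDp ?_ ⟨b2, hbD, hb2⟩ hyD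
    rw [Set.disjoint_left]
    intro z hzD hzZ
    have h1 : q z < c0 - a := hDs hzD
    have h2 := (abs_le.1 (hZn z hzZ)).1
    linarith

private theorem fourTips_E2 (S : SymForm) (f g : C(K, ℝ)) :
    S.E (f + g) (f + g) ≤ 2 * (S.E f f + S.E g g) := by
  have h := S.nonneg (f - g)
  simp only [map_sub, map_add, LinearMap.sub_apply, LinearMap.add_apply] at h ⊢
  have h2 := S.symm f g
  linarith

private theorem fourTips_Eneg (S : SymForm) (f : C(K, ℝ)) : S.E (-f) (-f) = S.E f f := by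
  simp only [map_neg, LinearMap.neg_apply, neg_neg]

/-- the function with values `-1, 1, -1, 1` at four points in distant cells -/
private theorem fourTips_beta (S : SymForm) {Cc : ℝ}
    (hCc : ∀ m, ∀ Z : Finset (List Dig), Z ⊆ Wd m →
    ∃ χ ∈ S.dom, (∀ z, 0 ≤ χ z ∧ χ z ≤ 1) ∧ (∀ w ∈ Z, ∀ z ∈ cellW w, χ z = 1) ∧
      (∀ w' ∈ Wd m, (∀ w ∈ Z, ¬ Nb 1 w w') → ∀ z ∈ cellW w', χ z = 0) ∧
      (∀ w' ∈ Wd m, S.E (χ.comp (psiW w')) (χ.comp (psiW w')) ≤ Cc) ∧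
      S.E χ χ ≤ Cc * Z.card * S.ρ ^ m) {k : ℕ} {y : Fin 4 → K} {u : Fin 4 → List Dig}
    (hu : ∀ i, u i ∈ Wd k ∧ y i ∈ cellW (u i)) (hn : ∀ i j, i ≠ j → ¬ Nb 1 (u i) (u j)) :
    ∃ β ∈ S.dom, β (y 0) = -1 ∧ β (y 1) = 1 ∧ β (y 2) = -1 ∧ β (y 3) = 1 ∧
      S.E β β ≤ 16 * Cc * S.ρ ^ k := by
  have h1 : ∀ i, ∃ χ ∈ S.dom, χ (y i) = 1 ∧ (∀ j, i ≠ j → χ (y j) = 0) ∧
      S.E χ χ ≤ Cc * S.ρ ^ k := by
    intro i
    obtain ⟨χ, hχ, -, h2, h3, -, h4⟩ := hCc k {u i} (by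
      intro w hw
      rw [Finset.mem_singleton] at hw
      rw [hw]
      exact (hu i).1)
    refine ⟨χ, hχ, h2 _ (Finset.mem_singleton_self _) _ (hu i).2, fun j hj => ?_, ?_⟩
    · refine h3 (u j) (hu j).1 (fun w hw => ?_) _ (hu j).2
      rw [Finset.mem_singleton] at hw
      rw [hw]
      exact hn i j hj
    · simpa using h4
  choose χ hχ hχ1 hχ0 hχE using h1
  refine ⟨(-χ 0 + χ 1) + (-χ 2 + χ 3), S.dom.add_mem (S.dom.add_mem (S.dom.neg_mem (hχ 0)) (hχ 1))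
    (S.dom.add_mem (S.dom.neg_mem (hχ 2)) (hχ 3)), ?_, ?_, ?_, ?_, ?_⟩
  · simp only [ContinuousMap.add_apply, ContinuousMap.neg_apply, hχ1,
      hχ0 1 0 (by decide), hχ0 2 0 (by decide), hχ0 3 0 (by decide)]
    norm_num
  · simp only [ContinuousMap.add_apply, ContinuousMap.neg_apply, hχ1,
      hχ0 0 1 (by decide), hχ0 2 1 (by decide), hχ0 3 1 (by decide)]
    norm_num
  · simp only [ContinuousMap.add_apply, ContinuousMap.neg_apply, hχ1,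
      hχ0 0 2 (by decide), hχ0 1 2 (by decide), hχ0 3 2 (by decide)]
    norm_num
  · simp only [ContinuousMap.add_apply, ContinuousMap.neg_apply, hχ1,
      hχ0 0 3 (by decide), hχ0 1 3 (by decide), hχ0 2 3 (by decide)]
    norm_num
  · have e1 := fourTips_E2 S (-χ 0 + χ 1) (-χ 2 + χ 3)
    have e2 := fourTips_E2 S (-χ 0) (χ 1)
    have e3 := fourTips_E2 S (-χ 2) (χ 3)
    rw [fourTips_Eneg] at e2 e3
    have := hχE 0
    have := hχE 1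
    have := hχE 2
    have := hχE 3
    linarith

private theorem fourTips_half {a e x : ℝ} (he : (a - e) ^ 2 ≤ 1 / 4) (hx : e = x) :
    |a - x| ≤ 1 / 2 := by
  rw [← hx]
  refine abs_le_of_sq_le_sq ?_ (by norm_num)
  linarith

/-- Proof: `Rc` from `S.bound`, `Cc` from `exists_cutoff`; `J0` with `64 (l + 1)² Rc Cc ≤ ρ ^ J0`
(`rho_ge`). Given `N` take `K1` from `tip_joined`, `Λ := K1 + 1`. `C` := chain component of `b1`
(`exists_component`), `R` its form (`exists_subForm`). It contains `b2` (the set `D`), the `y i`: each is joined to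
`b1` or `b2` by a continuum in `{|q - c0| > s}` (`IsDip.nodal`, `nodal'`), and the chains (`TipCtx.chain`). `β := Σ ε_i χ_i`,
`χ_i` the cut-off of `{u i}`, `ε_i = - 1` for `i = 0, 2` and `1` for `i = 1, 3`: `β (y i) = ε_i`, `E(β, β) ≤ 16 Cc ρ^k`.
`exists_psi`: `ψ`; `(ψ (t i) - ε_i)² ≤ (l+1)² Rc 16 Cc ρ^k / ρ^m ≤ 1/4` by `sub_chain`. `tip_joined` for `t 0`, `t 2`, and
for `t 1`, `t 3` with `- q`, `- ψ` (`TipCtx.neg`). `Cp`, `Cm`: unions of the two continua, mapped to `K`; they are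
disjoint since `q - c0 - K1 s ψ` has opposite signs on them. -/
theorem four_tips (S : SymForm) (l : ℕ) : ∃ J0 : ℕ, ∀ N : ℕ, ∃ Λ : ℝ, 1 ≤ Λ ∧ ∀ (k m : ℕ),
    k + J0 ≤ m → ∀ Z : Finset (List Dig), Z ⊆ Wd m → Z.card ≤ N → ∀ (q : C(K, ℝ)) (b1 b2 : K),
    IsDip S b1 b2 q → (∀ w ∈ nbhd 2 m Z, b1 ∉ cellW w ∧ b2 ∉ cellW w) →
    (∃ D : Set K, IsPreconnected D ∧ b1 ∈ D ∧ b2 ∈ D ∧ Disjoint D (sub Z)) →
    ∀ (c0 s : ℝ), 0 < s → (∀ w ∈ nbhd 2 m Z, ∀ z ∈ cellW w, |q z - c0| ≤ s) →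
    ∀ (t y : Fin 4 → K) (u : Fin 4 → List Dig), (∀ i, t i ∈ sub Z) →
    (∀ i, ChainPts (Wd m \ Z) l (t i) (y i)) → (∀ i, Λ * s < |q (y i) - c0|) →
    (∀ i, u i ∈ Wd k ∧ y i ∈ cellW (u i)) → (∀ i j, i ≠ j → ¬ Nb 1 (u i) (u j)) →
    ∃ Cp Cm : Set K, IsCompact Cp ∧ IsPreconnected Cp ∧ IsCompact Cm ∧ IsPreconnected Cm ∧
      Disjoint Cp Cm ∧ t 0 ∈ Cp ∧ t 2 ∈ Cp ∧ t 1 ∈ Cm ∧ t 3 ∈ Cm ∧
      Cp ⊆ sub (Wd m \ Z) ∧ Cm ⊆ sub (Wd m \ Z) := by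
  obtain ⟨Rc, hRc, hR⟩ := S.bound
  obtain ⟨Cc, hCc1, hCc⟩ := exists_cutoff S
  have hρ := rho_ge S
  have hρ1 : 1 < S.ρ := by linarith
  obtain ⟨J0, hJ0⟩ := pow_unbounded_of_one_lt (64 * ((l : ℝ) + 1) ^ 2 * Rc * Cc) hρ1
  refine ⟨J0, fun N => ?_⟩
  obtain ⟨K1, hK1, hT⟩ := tip_joined S l N
  refine ⟨K1 + 1, by linarith, ?_⟩
  intro k m hkm Z hZ hZN q b1 b2 hq hfar hD c0 s hs hgood t y u ht hch hΛ hu hn
  obtain ⟨D, hDp, hb1D, hb2D, hDZ⟩ := hD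
  have hb1Z : b1 ∉ sub Z := fun h => Set.disjoint_left.1 hDZ hb1D h
  obtain ⟨C, hC, hCne, hCZ, hCc', hb1C, hcl, hcomp⟩ := exists_component hZ hb1Z
  obtain ⟨R, hRs⟩ := exists_subForm S m hCne hCc'
  have hb2C : b2 ∈ sub C := hcomp D hDp hDZ ⟨b1, hb1D, hb1C⟩ hb2D
  have ctx : TipCtx S m Z C R q b1 b2 c0 s :=
    ⟨hZ, hC, hCZ, hcl, hcomp, hRs, hq, hb1C, hb2C, hfar, hs, hgood⟩
  have hyC : ∀ i, y i ∈ sub C := fun i =>
    fourTips_mem hZ hq hb1C hb2C hcomp (a := (K1 + 1) * s) (by nlinarith) hgood (hΛ i)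
  have hchC : ∀ i, ChainPts C l (t i) (y i) := fun i => ctx.chain (hch i) (hyC i)
  have htC : ∀ i, t i ∈ sub C := by
    intro i
    obtain ⟨L, hL, hx, -, -⟩ := hchC i
    exact mem_sub.2 ⟨L 0, hL 0 (Nat.zero_le _), hx⟩
  set t' : Fin 4 → sub C := fun i => ⟨t i, htC i⟩ with ht'
  set y' : Fin 4 → sub C := fun i => ⟨y i, hyC i⟩ with hy'
  obtain ⟨β, hβ, hβ0, hβ1, hβ2, hβ3, hβE⟩ := fourTips_beta S hCc hu hn
  obtain ⟨hβR, hβRE⟩ := sub_restrict S hC hRs hβ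
  obtain ⟨ψ, hψ, hψ1, hψy, hψE, hψo⟩ := R.exists_psi y' ![-1, 1, -1, 1]
    (by
      intro i
      fin_cases i <;> simp) hβR
    (by
      intro i
      fin_cases i
      · exact hβ0
      · exact hβ1
      · exact hβ2
      · exact hβ3)
  have hρm : 0 < S.ρ ^ m := pow_pos S.ρ_pos m
  have hEψ : ((l : ℝ) + 1) ^ 2 * (Rc * (R.E ψ ψ / S.ρ ^ m)) ≤ 1 / 4 := by
    have h1 : R.E ψ ψ ≤ 16 * Cc * S.ρ ^ k := hψE.trans (hβRE.trans hβE)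
    have h2 : 64 * ((l : ℝ) + 1) ^ 2 * Rc * Cc * S.ρ ^ k ≤ S.ρ ^ m := by
      have h3 : S.ρ ^ (J0 + k) ≤ S.ρ ^ m := pow_le_pow_right₀ hρ1.le (by omega)
      have h4 : 0 < S.ρ ^ k := pow_pos S.ρ_pos k
      rw [pow_add] at h3
      exact (mul_le_mul_of_nonneg_right hJ0.le h4.le).trans h3
    have h5 : ((l : ℝ) + 1) ^ 2 * (Rc * (R.E ψ ψ / S.ρ ^ m)) =
        (((l : ℝ) + 1) ^ 2 * Rc * R.E ψ ψ) / S.ρ ^ m := by ring
    rw [h5, div_le_iff₀ hρm]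
    have h6 : ((l : ℝ) + 1) ^ 2 * Rc * R.E ψ ψ ≤ ((l : ℝ) + 1) ^ 2 * Rc * (16 * Cc * S.ρ ^ k) :=
      mul_le_mul_of_nonneg_left h1 (by positivity)
    linarith
  have hψt : ∀ i, (ψ (t' i) - ψ (y' i)) ^ 2 ≤ 1 / 4 := fun i =>
    (sub_chain S hRc hR hRs (hchC i) hψ).trans hEψ
  have htq : ∀ i, |q (t i) - c0| ≤ s := by
    intro i
    obtain ⟨w, hw, hzw⟩ := mem_sub.1 (ht i)
    exact hgood w (mem_nbhd.2 ⟨hZ hw, w, hw, ⟨by omega, by omega⟩, by omega, by omega⟩) _ hzw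
  have hΛ' : ∀ i, K1 * s < |q (y' i).1 - c0| := by
    intro i
    have h1 := hΛ i
    have h2 : K1 * s ≤ (K1 + 1) * s := by nlinarith
    exact lt_of_le_of_lt h2 h1
  have hb0 := abs_le.1 (fourTips_half (hψt 0) (hψy 0))
  have hb1' := abs_le.1 (fourTips_half (hψt 1) (hψy 1))
  have hb2' := abs_le.1 (fourTips_half (hψt 2) (hψy 2))
  have hb3 := abs_le.1 (fourTips_half (hψt 3) (hψy 3))
  have m0 : ψ (t' 0) ≤ -(1 / 2) := by
    have := hb0.2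
    simp only [Matrix.cons_val_zero] at this
    linarith
  have m2 : ψ (t' 2) ≤ -(1 / 2) := by
    have := hb2'.2
    simp at this
    linarith
  have m1 : (-ψ) (t' 1) ≤ -(1 / 2) := by
    have := hb1'.1
    simp at this
    rw [ContinuousMap.neg_apply]
    linarith
  have m3 : (-ψ) (t' 3) ≤ -(1 / 2) := by
    have := hb3.1
    simp at this
    rw [ContinuousMap.neg_apply]
    linarith
  have J0' := hT m Z C R q b1 b2 c0 s ctx hZN ψ hψ hψ1 y' hψo hΛ' (t' 0) (htq 0) m0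
    ⟨0, hchC 0⟩
  have J2' := hT m Z C R q b1 b2 c0 s ctx hZN ψ hψ hψ1 y' hψo hΛ' (t' 2) (htq 2) m2
    ⟨2, hchC 2⟩
  have hneg : ∀ z : K, (-q) z - (-c0) = -(q z - c0) := by
    intro z
    rw [ContinuousMap.neg_apply]
    ring
  have hψn : ∀ x, |(-ψ) x| ≤ 1 := by
    intro x
    rw [ContinuousMap.neg_apply, abs_neg]
    exact hψ1 x
  have hψon : ∀ f ∈ R.dom, (∀ i, f (y' i) = 0) → R.E (-ψ) f = 0 := by
    intro f hf h0
    rw [map_neg, LinearMap.neg_apply, hψo f hf h0, neg_zero]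
  have J1' := hT m Z C R (-q) b2 b1 (-c0) s ctx.neg hZN (-ψ) (R.dom.neg_mem hψ) hψn y' hψon
    (fun i => by rw [hneg, abs_neg]; exact hΛ' i) (t' 1) (by rw [hneg, abs_neg]; exact htq 1) m1
    ⟨1, hchC 1⟩
  have J3' := hT m Z C R (-q) b2 b1 (-c0) s ctx.neg hZN (-ψ) (R.dom.neg_mem hψ) hψn y' hψon
    (fun i => by rw [hneg, abs_neg]; exact hΛ' i) (t' 3) (by rw [hneg, abs_neg]; exact htq 3) m3
    ⟨3, hchC 3⟩
  obtain ⟨A0, hA0c, hA0p, hA0s, ht0, hbA0⟩ := J0'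
  obtain ⟨A2, hA2c, hA2p, hA2s, ht2, hbA2⟩ := J2'
  obtain ⟨A1, hA1c, hA1p, hA1s, ht1, hbA1⟩ := J1'
  obtain ⟨A3, hA3c, hA3p, hA3s, ht3, hbA3⟩ := J3'
  have hsub : ∀ A : Set (sub C), Subtype.val '' A ⊆ sub (Wd m \ Z) := by
    rintro A z ⟨x, -, rfl⟩
    obtain ⟨w, hw, hxw⟩ := mem_sub.1 x.2
    exact mem_sub.2 ⟨w, Finset.mem_sdiff.2 ⟨hC hw, hCZ w hw⟩, hxw⟩
  refine ⟨Subtype.val '' (A0 ∪ A2), Subtype.val '' (A1 ∪ A3),
    (hA0c.union hA2c).image continuous_subtype_val,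
    (hA0p.union _ hbA0 hbA2 hA2p).image _ continuous_subtype_val.continuousOn,
    (hA1c.union hA3c).image continuous_subtype_val,
    (hA1p.union _ hbA1 hbA3 hA3p).image _ continuous_subtype_val.continuousOn, ?_,
    ⟨t' 0, Or.inl ht0, rfl⟩, ⟨t' 2, Or.inr ht2, rfl⟩, ⟨t' 1, Or.inl ht1, rfl⟩,
    ⟨t' 3, Or.inr ht3, rfl⟩, hsub _, hsub _⟩
  rw [Set.disjoint_left]
  rintro _ ⟨x, hx, rfl⟩ ⟨x', hx', he⟩
  have hxx : x' = x := Subtype.ext he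
  rw [hxx] at hx'
  have p1 : 0 < (q x.1 - c0) - K1 * s * ψ x := by
    rcases hx with h | h
    · exact hA0s h
    · exact hA2s h
  have p2 : 0 < ((-q) x.1 - (-c0)) - K1 * s * (-ψ) x := by
    rcases hx' with h | h
    · exact hA1s h
    · exact hA3s h
  rw [hneg, ContinuousMap.neg_apply] at p2
  linarith

end CarpetLib
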