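import Pool.Agent.Lib.MP_f3090c_an.D.SitDefs
import Pool.Agent.Lib.MP_f3090c_an.D.Basic3

/-! D18: local geometry at a tip (section 5.3 of the paper proof). -/

open Set Filter Topology

namespace CarpetLib

/-- a common vertex -/
theorem exists_vertex {x x' : Ix} (h : Near 1 x x') : ∃ v : Ix, (v.1 = 0 ∨ v.1 = 1) ∧
    (v.2 = 0 ∨ v.2 = 1) ∧ (x'.1 ≤ x.1 + v.1 ∧ x.1 + v.1 ≤ x'.1 + 1) ∧
    (x'.2 ≤ x.2 + v.2 ∧ x.2 + v.2 ≤ x'.2 + 1) := by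
  obtain ⟨h1, h2⟩ := h
  rw [abs_le] at h1 h2
  refine ⟨(if x.1 < x'.1 then 1 else 0, if x.2 < x'.2 then 1 else 0), ?_, ?_, ?_, ?_⟩
  · simp only; split_ifs <;> simp
  · simp only; split_ifs <;> simp
  · simp only; split_ifs <;> constructor <;> omega
  · simp only; split_ifs <;> constructor <;> omega

/-- `v` is on the side opposite to `a`: if `a.1 = x.1 - 1` then `v.1 = 1`, etc.; one of four cases. -/
theorem TipD.cases {p : ℕ} {a x x' v : Ix} (T : TipD p a x x' v) :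
    (a.1 = x.1 - 1 ∧ a.2 = x.2 ∧ v.1 = 1 ∧ x'.1 = x.1 + 1) ∨
    (a.1 = x.1 + 1 ∧ a.2 = x.2 ∧ v.1 = 0 ∧ x'.1 = x.1 - 1) ∨
    (a.2 = x.2 - 1 ∧ a.1 = x.1 ∧ v.2 = 1 ∧ x'.2 = x.2 + 1) ∨
    (a.2 = x.2 + 1 ∧ a.1 = x.1 ∧ v.2 = 0 ∧ x'.2 = x.2 - 1) := by
  have hr := T.rook
  have hne := T.ne
  have hn := T.near
  have hf := T.far
  have v1 := T.v1
  have v2 := T.v2
  have w1 := T.vx1
  have w2 := T.vx2
  obtain ⟨a1, a2⟩ := a
  obtain ⟨x1, x2⟩ := x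
  obtain ⟨y1, y2⟩ := x'
  obtain ⟨u1, u2⟩ := v
  simp only [ne_eq, Prod.mk.injEq, Near, Rook, abs_le] at *
  omega

private theorem g0_cA {p : ℕ} {a x x' v : Ix} (T : TipD p a x x' v) :
    ((cA a x).1 / 3 = x.1 ∧ (cA a x).2 / 3 = x.2) ∧
      ¬ ((cA a x).1 % 3 = 1 ∧ (cA a x).2 % 3 = 1) := by
  have h := T.cases
  simp only [cA]
  omega

private theorem g0_cC {p : ℕ} {a x x' v : Ix} (T : TipD p a x x' v) :
    ((cC x v).1 / 3 = x.1 ∧ (cC x v).2 / 3 = x.2) ∧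
      ¬ ((cC x v).1 % 3 = 1 ∧ (cC x v).2 % 3 = 1) := by
  have h1 := T.v1
  have h2 := T.v2
  simp only [cC]
  omega

private theorem g0_par {p : ℕ} {q x : Ix} (h : q.1 / 3 = x.1 ∧ q.2 / 3 = x.2) : par 1 q = x := by
  unfold par
  rw [pow_one, h.1, h.2]

private theorem g0_sub {p : ℕ} {q x : Ix} (h : q.1 / 3 = x.1 ∧ q.2 / 3 = x.2) :
    cell (p + 1) q ⊆ cell p x := by
  have h1 := cell_par p 1 q
  rwa [g0_par (p := p) h] at h1

/-- Proof: definition of `Pres (p + 1)`; the parent of `cA a x`, `cC x v` is `x`, the residues are not `(1,1)`. -/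
theorem TipD.pres_cA {p : ℕ} {a x x' v : Ix} (T : TipD p a x x' v) : Pres (p + 1) (cA a x) := by
  obtain ⟨⟨h1, h2⟩, h3⟩ := g0_cA T
  refine ⟨?_, h3⟩
  rw [h1, h2]
  exact T.px

theorem TipD.pres_cC {p : ℕ} {a x x' v : Ix} (T : TipD p a x x' v) : Pres (p + 1) (cC x v) := by
  obtain ⟨⟨h1, h2⟩, h3⟩ := g0_cC T
  refine ⟨?_, h3⟩
  rw [h1, h2]
  exact T.px

theorem TipD.par_cA {p : ℕ} {a x x' v : Ix} (T : TipD p a x x' v) : par 1 (cA a x) = x :=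
  g0_par (p := p) (g0_cA T).1

theorem TipD.cA_subset {p : ℕ} {a x x' v : Ix} (T : TipD p a x x' v) :
    cell (p + 1) (cA a x) ⊆ cell p x :=
  g0_sub (g0_cA T).1

/-- the point `y` -/
theorem TipD.y_mem {p : ℕ} {a x x' v : Ix} (T : TipD p a x x' v) :
    ∃ y : K, y.1 = yP p x v ∧ y ∈ cell (p + 1) (cC x v) ∧ y ∈ cell p x := by
  have h1 := T.v1
  have h2 := T.v2
  obtain ⟨y, hy, hyc⟩ := vert_mem (v := (3 * x.1 + 1 + v.1, 3 * x.2 + 1 + v.2)) T.pres_cC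
    (by simp only [cC]; omega) (by simp only [cC]; omega)
  refine ⟨y, ?_, hyc, g0_sub (g0_cC T).1 hyc⟩
  rw [hy, yP]
  push_cast
  rfl

/-- the point `p'` -/
theorem TipD.v_mem {p : ℕ} {a x x' v : Ix} (T : TipD p a x x' v) :
    ∃ y : K, y.1 = vP p x v ∧ y ∈ cell (p + 1) (cC x v) ∧ y ∈ cell p x ∧ y ∈ cell p x' := by
  have h1 := T.v1
  have h2 := T.v2
  obtain ⟨y, hy, hyc⟩ := vert_mem (v := (3 * x.1 + 3 * v.1, 3 * x.2 + 3 * v.2)) T.pres_cC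
    (by simp only [cC]; omega) (by simp only [cC]; omega)
  have e : y.1 = vP p x v := by
    rw [hy, vP]
    push_cast
    refine Prod.ext ?_ ?_
    · simp only
      rw [pow_succ]
      field_simp
    · simp only
      rw [pow_succ]
      field_simp
  refine ⟨y, e, hyc, g0_sub (g0_cC T).1 hyc, ?_⟩
  have hp : (3 : ℝ) ^ p ≠ 0 := by positivity
  have e1 : (3 : ℝ) ^ p * y.1.1 = x.1 + v.1 := by
    rw [e, vP]
    simp only
    field_simp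
  have e2 : (3 : ℝ) ^ p * y.1.2 = x.2 + v.2 := by
    rw [e, vP]
    simp only
    field_simp
  have w1 := T.vx1
  have w2 := T.vx2
  refine ⟨⟨?_, ?_⟩, ?_, ?_⟩
  · rw [e1]; exact_mod_cast w1.1
  · rw [e1]; exact_mod_cast w1.2
  · rw [e2]; exact_mod_cast w2.1
  · rw [e2]; exact_mod_cast w2.2

end CarpetLib
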