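import Pool.Agent.Lib.MP_f3090c_an.D.Geo0

/-! D18b: disjointness (section 5.4 of the paper proof). -/

open Set Filter Topology

namespace CarpetLib

private theorem Geo1_near {r : ℤ} {p q : ℤ × ℤ} :
    Near r p q ↔ (p.1 - q.1 ≤ r ∧ q.1 - p.1 ≤ r) ∧ (p.2 - q.2 ≤ r ∧ q.2 - p.2 ≤ r) := by
  unfold Near
  rw [abs_le, abs_le]
  constructor
  · rintro ⟨⟨h1, h2⟩, h3, h4⟩
    exact ⟨⟨h2, by omega⟩, h4, by omega⟩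
  · rintro ⟨⟨h1, h2⟩, h3, h4⟩
    exact ⟨⟨by omega, h1⟩, by omega, h3⟩

/-- a small neighbourhood meeting a big cell -/
private theorem Geo1_h1 {a q : ℤ} {u : ℝ} {p : ℕ}
    (h1 : (a : ℝ) - 1 / 3 ≤ 3 ^ (p + 1) * u) (h2 : 3 ^ (p + 1) * u ≤ (a : ℝ) + 4 / 3)
    (h3 : (q : ℝ) ≤ 3 ^ p * u) (h4 : 3 ^ p * u ≤ (q : ℝ) + 1) :
    3 * q ≤ a + 1 ∧ a ≤ 3 * q + 3 := by
  rw [pow_succ, mul_right_comm] at h1 h2
  constructor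
  · have : ((3 * q : ℤ) : ℝ) < ((a + 2 : ℤ) : ℝ) := by push_cast; linarith
    have := Int.cast_lt.1 this
    omega
  · have : ((a : ℤ) : ℝ) < ((3 * q + 4 : ℤ) : ℝ) := by push_cast; linarith
    have := Int.cast_lt.1 this
    omega

/-- same level -/
private theorem Geo1_h2 {a q : ℤ} {u : ℝ} {p : ℕ}
    (h1 : (a : ℝ) - 1 / 3 ≤ 3 ^ p * u) (h2 : 3 ^ p * u ≤ (a : ℝ) + 4 / 3)
    (h3 : (q : ℝ) ≤ 3 ^ p * u) (h4 : 3 ^ p * u ≤ (q : ℝ) + 1) :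
    q ≤ a + 1 ∧ a ≤ q + 1 := by
  constructor
  · have : ((q : ℤ) : ℝ) < ((a + 2 : ℤ) : ℝ) := by push_cast; linarith
    have := Int.cast_lt.1 this
    omega
  · have : ((a : ℤ) : ℝ) < ((q + 2 : ℤ) : ℝ) := by push_cast; linarith
    have := Int.cast_lt.1 this
    omega

/-- a big neighbourhood meeting a small cell -/
private theorem Geo1_h3 {a q : ℤ} {u : ℝ} {p : ℕ}
    (h1 : (a : ℝ) - 1 / 3 ≤ 3 ^ p * u) (h2 : 3 ^ p * u ≤ (a : ℝ) + 4 / 3)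
    (h3 : (q : ℝ) ≤ 3 ^ (p + 1) * u) (h4 : 3 ^ (p + 1) * u ≤ (q : ℝ) + 1) :
    3 * a ≤ q + 2 ∧ q ≤ 3 * a + 4 := by
  rw [pow_succ, mul_right_comm] at h3 h4
  constructor
  · have : ((3 * a : ℤ) : ℝ) < ((q + 3 : ℤ) : ℝ) := by push_cast; linarith
    have := Int.cast_lt.1 this
    omega
  · have : ((q : ℤ) : ℝ) < ((3 * a + 5 : ℤ) : ℝ) := by push_cast; linarith
    have := Int.cast_lt.1 this
    omega

private theorem Geo1_rook {p q : Ix} (h : Rook p q) :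
    (p.1 - q.1 ≤ 1 ∧ q.1 - p.1 ≤ 1) ∧ (p.2 - q.2 ≤ 1 ∧ q.2 - p.2 ≤ 1) := by
  rcases h with ⟨h1, h2⟩ | ⟨h1, h2⟩
  · rw [abs_le] at h2
    omega
  · rw [abs_le] at h2
    omega


/-- (D1) a cell of level `p` meeting `nb (p+1) (cC x v)` contains the vertex `x + v`, so it touches `x'`. -/
theorem TipD.disj1 {p : ℕ} {a x x' v : Ix} (T : TipD p a x x' v) {q : Ix} (hq : ¬ Near 1 q x') :
    Disjoint (nb (p + 1) (cC x v)) (cell p q) := by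
  rw [Set.disjoint_left]
  rintro z ⟨⟨k1, k2⟩, k3, k4⟩ ⟨⟨b1, b2⟩, b3, b4⟩
  apply hq
  obtain ⟨c1, c2⟩ := Geo1_h1 k1 k2 b1 b2
  obtain ⟨c3, c4⟩ := Geo1_h1 k3 k4 b3 b4
  have e1 : (cC x v).1 = 3 * x.1 + 2 * v.1 := rfl
  have e2 : (cC x v).2 = 3 * x.2 + 2 * v.2 := rfl
  rw [e1] at c1 c2
  rw [e2] at c3 c4
  have d1 := T.v1
  have d2 := T.v2
  have d3 := T.vx1
  have d4 := T.vx2
  rw [Geo1_near]
  omega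

/-- (D2) -/
theorem TipD.disj2 {p : ℕ} {a x x' v : Ix} (T : TipD p a x x' v) :
    Disjoint (nb (p + 1) (cC x v)) (cell (p + 1) (cA a x)) := by
  rw [Set.disjoint_left]
  rintro z ⟨⟨k1, k2⟩, k3, k4⟩ ⟨⟨b1, b2⟩, b3, b4⟩
  obtain ⟨c1, c2⟩ := Geo1_h2 k1 k2 b1 b2
  obtain ⟨c3, c4⟩ := Geo1_h2 k3 k4 b3 b4
  have e1 : (cC x v).1 = 3 * x.1 + 2 * v.1 := rfl
  have e2 : (cC x v).2 = 3 * x.2 + 2 * v.2 := rfl
  have e3 : (cA a x).1 = 2 * x.1 + a.1 + 1 := rfl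
  have e4 : (cA a x).2 = 2 * x.2 + a.2 + 1 := rfl
  rw [e1, e3] at c1 c2
  rw [e2, e4] at c3 c4
  have d0 := T.cases
  omega

/-- (D3) -/
theorem disj3 {p : ℕ} {q q' : Ix} (h : ¬ Near 1 q q') : Disjoint (nb p q') (cell p q) := by
  rw [Set.disjoint_left]
  rintro z ⟨⟨k1, k2⟩, k3, k4⟩ ⟨⟨b1, b2⟩, b3, b4⟩
  apply h
  obtain ⟨c1, c2⟩ := Geo1_h2 k1 k2 b1 b2
  obtain ⟨c3, c4⟩ := Geo1_h2 k3 k4 b3 b4
  rw [Geo1_near]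
  omega

/-- (D5) -/
theorem TipD.disj5 {p : ℕ} {a x x' v : Ix} (T : TipD p a x x' v) {x'' : Ix} (h : Near 1 x' x'')
    (h' : ¬ Near 1 a x'') : Disjoint (nb p x'') (cell (p + 1) (cA a x)) := by
  rw [Set.disjoint_left]
  rintro z ⟨⟨k1, k2⟩, k3, k4⟩ ⟨⟨b1, b2⟩, b3, b4⟩
  apply h'
  obtain ⟨c1, c2⟩ := Geo1_h3 k1 k2 b1 b2
  obtain ⟨c3, c4⟩ := Geo1_h3 k3 k4 b3 b4
  have e3 : (cA a x).1 = 2 * x.1 + a.1 + 1 := rfl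
  have e4 : (cA a x).2 = 2 * x.2 + a.2 + 1 := rfl
  rw [e3] at c1 c2
  rw [e4] at c3 c4
  have d0 := T.cases
  rw [Geo1_near] at h ⊢
  omega

/-- (D6) -/
theorem TipD.disj6 {p : ℕ} {a x x' v : Ix} (T : TipD p a x x' v) {a2 x2 x2' v2 : Ix}
    (T2 : TipD p a2 x2 x2' v2) (h : ¬ Near 5 x x2) :
    Disjoint (nb (p + 1) (cC x v)) (cell (p + 1) (cA a2 x2)) := by
  rw [Set.disjoint_left]
  rintro z ⟨⟨k1, k2⟩, k3, k4⟩ ⟨⟨b1, b2⟩, b3, b4⟩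
  apply h
  obtain ⟨c1, c2⟩ := Geo1_h2 k1 k2 b1 b2
  obtain ⟨c3, c4⟩ := Geo1_h2 k3 k4 b3 b4
  have e1 : (cC x v).1 = 3 * x.1 + 2 * v.1 := rfl
  have e2 : (cC x v).2 = 3 * x.2 + 2 * v.2 := rfl
  have e3 : (cA a2 x2).1 = 2 * x2.1 + a2.1 + 1 := rfl
  have e4 : (cA a2 x2).2 = 2 * x2.2 + a2.2 + 1 := rfl
  rw [e1, e3] at c1 c2
  rw [e2, e4] at c3 c4
  have d1 := T.v1
  have d2 := T.v2
  have d0 := Geo1_rook T2.rook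
  rw [Geo1_near]
  omega

/-- (D7) -/
theorem disj7 {p : ℕ} {q x a2 x2 x2' v2 : Ix} (T2 : TipD p a2 x2 x2' v2) (hq : Near 2 x q)
    (h : ¬ Near 5 x x2) : Disjoint (nb p q) (cell (p + 1) (cA a2 x2)) := by
  rw [Set.disjoint_left]
  rintro z ⟨⟨k1, k2⟩, k3, k4⟩ ⟨⟨b1, b2⟩, b3, b4⟩
  apply h
  obtain ⟨c1, c2⟩ := Geo1_h3 k1 k2 b1 b2
  obtain ⟨c3, c4⟩ := Geo1_h3 k3 k4 b3 b4
  have e3 : (cA a2 x2).1 = 2 * x2.1 + a2.1 + 1 := rfl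
  have e4 : (cA a2 x2).2 = 2 * x2.2 + a2.2 + 1 := rfl
  rw [e3] at c1 c2
  rw [e4] at c3 c4
  have d0 := Geo1_rook T2.rook
  rw [Geo1_near] at hq ⊢
  omega

end CarpetLib
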