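import Pool.Agent.Lib.MP_f3090c_an.D.GeoH

/-! D19: the plane sets `LP` (section 5.3 of the paper proof). -/

open Set Filter Topology

namespace CarpetLib

private theorem Geo2_mem {SS : Set Ix} {o q : Ix} (h : Reach (fun z => z ∈ SS) o q) :
    q = o ∨ q ∈ SS := by
  rcases Relation.ReflTransGen.cases_tail h with h1 | ⟨b, -, h2⟩
  · exact Or.inl h1
  · exact Or.inr h2.2

private theorem Geo2_seg_compact (x y : ℝ × ℝ) : IsCompact (segment ℝ x y) := by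
  rw [segment_eq_image]
  exact isCompact_Icc.image (by fun_prop)

/-- Proof: finite union (`SS ⊆ {q | Pres p q}` finite, reachable indices are in `SS ∪ {o}`). -/
theorem LP_compact {p : ℕ} {SS : Set Ix} (hSS : ∀ q ∈ SS, Pres p q) (o a x v : Ix) :
    IsCompact (LP p SS o a x v) := by
  have hfin : {q | Reach (fun z => z ∈ SS) o q}.Finite := by
    refine ((Set.finite_singleton o).union ((pres_finite p).subset hSS)).subset ?_
    intro q hq
    exact Geo2_mem hq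
  exact (hfin.isCompact_biUnion fun q _ => sqr_compact p q).union
    ((sqr_compact _ _).union (Geo2_seg_compact _ _))

private theorem Geo2_max {b c : ℤ} (h : |b - c| ≤ 1) :
    ((b : ℝ) ≤ max (b : ℝ) c ∧ max (b : ℝ) c ≤ b + 1) ∧
      ((c : ℝ) ≤ max (b : ℝ) c ∧ max (b : ℝ) c ≤ c + 1) := by
  rw [abs_le] at h
  have h1 : (c : ℝ) ≤ b + 1 := by
    have : c ≤ b + 1 := by omega
    exact_mod_cast this
  have h2 : (b : ℝ) ≤ c + 1 := by
    have : b ≤ c + 1 := by omega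
    exact_mod_cast this
  exact ⟨⟨le_max_left _ _, max_le (by linarith) h1⟩, ⟨le_max_right _ _, max_le h2 (by linarith)⟩⟩

private theorem Geo2_rook {b c : Ix} (h : Rook b c) : |b.1 - c.1| ≤ 1 ∧ |b.2 - c.2| ≤ 1 := by
  rcases h with ⟨h1, h2⟩ | ⟨h1, h2⟩
  · exact ⟨by rw [h1, sub_self, abs_zero]; exact zero_le_one, h2⟩
  · exact ⟨h2, by rw [h1, sub_self, abs_zero]; exact zero_le_one⟩

private theorem Geo2_inter (p : ℕ) {b c : Ix} (h : Rook b c) : (sqr p b ∩ sqr p c).Nonempty := by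
  obtain ⟨h1, h2⟩ := Geo2_rook h
  obtain ⟨a1, a2⟩ := Geo2_max h1
  obtain ⟨a3, a4⟩ := Geo2_max h2
  have h3 : (3 : ℝ) ^ p ≠ 0 := by positivity
  have e : ∀ t : ℝ, 3 ^ p * (t / 3 ^ p) = t := fun t => by field_simp
  refine ⟨(max (b.1 : ℝ) c.1 / 3 ^ p, max (b.2 : ℝ) c.2 / 3 ^ p), ?_, ?_⟩
  · change _ ∧ _
    simp only [e]
    exact ⟨a1, a3⟩
  · change _ ∧ _
    simp only [e]
    exact ⟨a2, a4⟩

private theorem Geo2_conn1 (p : ℕ) (SS : Set Ix) (o : Ix) :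
    IsPreconnected (⋃ q ∈ {q | Reach (fun z => z ∈ SS) o q}, sqr p q) := by
  have key : ∀ q, Reach (fun z => z ∈ SS) o q →
      Relation.ReflTransGen (fun i j => (sqr p i ∩ sqr p j).Nonempty ∧
        i ∈ {q | Reach (fun z => z ∈ SS) o q}) o q ∧
      Relation.ReflTransGen (fun i j => (sqr p i ∩ sqr p j).Nonempty ∧
        i ∈ {q | Reach (fun z => z ∈ SS) o q}) q o := by
    intro q hq
    induction hq with
    | refl => exact ⟨Relation.ReflTransGen.refl, Relation.ReflTransGen.refl⟩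
    | @tail b c hb hbc ih =>
      refine ⟨ih.1.tail ⟨Geo2_inter p hbc.1, hb⟩,
        Relation.ReflTransGen.head ⟨?_, hb.tail hbc⟩ ih.2⟩
      rw [inter_comm]
      exact Geo2_inter p hbc.1
  refine IsPreconnected.biUnion_of_reflTransGen (fun q _ => sqr_conn p q) fun i hi j hj => ?_
  exact (key i hi).2.trans (key j hj).1

private theorem Geo2_a1 {a x : ℤ} (h : |a - x| ≤ 1) :
    (((2 * x + a + 1 : ℤ) : ℝ) ≤ 3 * x + 3 / 2 + (a - x) / 2 ∧
      3 * (x : ℝ) + 3 / 2 + (a - x) / 2 ≤ ((2 * x + a + 1 : ℤ) : ℝ) + 1) := by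
  rw [abs_le] at h
  have h1 : (a : ℝ) ≤ x + 1 := by
    have : a ≤ x + 1 := by omega
    exact_mod_cast this
  have h2 : (x : ℝ) ≤ a + 1 := by
    have : x ≤ a + 1 := by omega
    exact_mod_cast this
  push_cast
  constructor <;> linarith

private theorem Geo2_a2 {a x : ℤ} (h : |a - x| ≤ 1) :
    (((2 * x + a + 1 : ℤ) : ℝ) ≤ 3 * a + 3 / 2 - 3 * (a - x) / 2 ∧
      3 * (a : ℝ) + 3 / 2 - 3 * (a - x) / 2 ≤ ((2 * x + a + 1 : ℤ) : ℝ) + 1) ∧
    (3 * (a : ℝ) ≤ 3 * (a : ℝ) + 3 / 2 - 3 * (a - x) / 2 ∧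
      3 * (a : ℝ) + 3 / 2 - 3 * (a - x) / 2 ≤ 3 * (a + 1)) := by
  rw [abs_le] at h
  have h1 : (a : ℝ) ≤ x + 1 := by
    have : a ≤ x + 1 := by omega
    exact_mod_cast this
  have h2 : (x : ℝ) ≤ a + 1 := by
    have : x ≤ a + 1 := by omega
    exact_mod_cast this
  push_cast
  refine ⟨⟨?_, ?_⟩, ?_, ?_⟩ <;> linarith

/-- Proof: the first part is preconnected (`IsPreconnected.biUnion_of_reflTransGen`; rook neighbours have intersecting squares), contains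
`sqr p a`, which meets `sqr (p+1) (cA a x)` (`TipD.cases`), which contains `mP p a x`. -/
theorem TipD.LP_conn {p : ℕ} {a x x' v : Ix} (T : TipD p a x x' v) {SS : Set Ix} {o : Ix}
    (ho : Reach (fun z => z ∈ SS) o a) : IsPreconnected (LP p SS o a x v) := by
  obtain ⟨h1, h2⟩ := Geo2_rook T.rook
  have h3 : (3 : ℝ) ^ (p + 1) ≠ 0 := by positivity
  have e : ∀ t : ℝ, 3 ^ (p + 1) * (t / 3 ^ (p + 1)) = t := fun t => by field_simp
  have e' : ∀ t : ℝ, 3 ^ p * (t / 3 ^ (p + 1)) = t / 3 := fun t => by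
    rw [pow_succ]
    field_simp
  have hm : mP p a x ∈ sqr (p + 1) (cA a x) := by
    change _ ∧ _
    simp only [mP, e]
    exact ⟨Geo2_a1 h1, Geo2_a1 h2⟩
  have hseg : IsPreconnected (segment ℝ (mP p a x) (yP p x v)) :=
    (convex_segment _ _).isPreconnected
  have h23 : IsPreconnected (sqr (p + 1) (cA a x) ∪ segment ℝ (mP p a x) (yP p x v)) :=
    (sqr_conn _ _).union (mP p a x) hm (left_mem_segment ℝ _ _) hseg
  obtain ⟨b1, b2⟩ := Geo2_a2 h1
  obtain ⟨b3, b4⟩ := Geo2_a2 h2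
  have hP1 : ((3 * (a.1 : ℝ) + 3 / 2 - 3 * (a.1 - x.1) / 2) / 3 ^ (p + 1),
      (3 * (a.2 : ℝ) + 3 / 2 - 3 * (a.2 - x.2) / 2) / 3 ^ (p + 1)) ∈ sqr (p + 1) (cA a x) := by
    change _ ∧ _
    simp only [e]
    exact ⟨b1, b3⟩
  have hP2 : ((3 * (a.1 : ℝ) + 3 / 2 - 3 * (a.1 - x.1) / 2) / 3 ^ (p + 1),
      (3 * (a.2 : ℝ) + 3 / 2 - 3 * (a.2 - x.2) / 2) / 3 ^ (p + 1)) ∈ sqr p a := by
    change _ ∧ _
    simp only [e']
    exact ⟨⟨by linarith [b2.1], by linarith [b2.2]⟩, ⟨by linarith [b4.1], by linarith [b4.2]⟩⟩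
  exact IsPreconnected.union _ (mem_biUnion (show a ∈ {q | Reach (fun z => z ∈ SS) o q} from ho)
    hP2) (Or.inl hP1) (Geo2_conn1 p SS o) h23

/-- (5.1) -/
theorem TipD.LP_carpet {p : ℕ} {a x x' v : Ix} (T : TipD p a x x' v) {SS : Set Ix} {o : Ix}
    (ho : o ∈ SS) {z : K} (hz : z.1 ∈ LP p SS o a x v) :
    (∃ q ∈ SS, z ∈ cell p q) ∨ z ∈ cell (p + 1) (cA a x) ∨ z.1 = yP p x v := by
  rcases hz with hz | hz | hz
  · rw [mem_iUnion₂] at hz
    obtain ⟨q, hq, hzq⟩ := hz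
    left
    rcases Geo2_mem hq with rfl | h1
    · exact ⟨q, ho, hzq⟩
    · exact ⟨q, h1, hzq⟩
  · exact Or.inr (Or.inl hz)
  · rcases T.segment_carpet hz z.2 with h1 | h1
    · exact Or.inr (Or.inl h1)
    · exact Or.inr (Or.inr h1)

end CarpetLib
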