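import Pool.Agent.Lib.MP_f3090c_an.D.Geo0

/-! D19a: holes, segments, squares. -/

open Set Filter Topology

namespace CarpetLib

/-- the open central hole of a present square does not meet the carpet.
Proof: `z` is in a present square `q` of level `p + 1` (`exists_cell_mem`); the inequalities force `q = 3 x + (1,1)`, not present. -/
theorem hole_disj {p : ℕ} {x : Ix} {z : ℝ × ℝ} (hz : z ∈ carpet)
    (h1 : 3 * (x.1 : ℝ) + 1 < 3 ^ (p + 1) * z.1 ∧ 3 ^ (p + 1) * z.1 < 3 * x.1 + 2)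
    (h2 : 3 * (x.2 : ℝ) + 1 < 3 ^ (p + 1) * z.2 ∧ 3 ^ (p + 1) * z.2 < 3 * x.2 + 2) : False := by
  obtain ⟨q, hq, hm⟩ := exists_cell_mem (p + 1) ⟨z, hz⟩
  obtain ⟨⟨a1, a2⟩, ⟨b1, b2⟩⟩ := hm
  simp only at a1 a2 b1 b2
  have e1 : (q.1 : ℝ) < ((3 * x.1 + 2 : ℤ) : ℝ) := by
    push_cast
    linarith [h1.2]
  have e2 : ((3 * x.1 + 1 : ℤ) : ℝ) < ((q.1 + 1 : ℤ) : ℝ) := by
    push_cast
    linarith [h1.1]
  have e3 : (q.2 : ℝ) < ((3 * x.2 + 2 : ℤ) : ℝ) := by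
    push_cast
    linarith [h2.2]
  have e4 : ((3 * x.2 + 1 : ℤ) : ℝ) < ((q.2 + 1 : ℤ) : ℝ) := by
    push_cast
    linarith [h2.1]
  rw [Int.cast_lt] at e1 e2 e3 e4
  apply hq.2
  constructor <;> omega

private theorem GeoH_seg {a b z : ℝ × ℝ} (h : z ∈ segment ℝ a b) :
    ∃ t : ℝ, 0 ≤ t ∧ t ≤ 1 ∧ z.1 = a.1 + t * (b.1 - a.1) ∧ z.2 = a.2 + t * (b.2 - a.2) := by
  rw [segment_eq_image'] at h
  obtain ⟨t, ⟨h0, h1⟩, rfl⟩ := h
  exact ⟨t, h0, h1, by simp, by simp⟩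

/-- Proof: `TipD.cases`; a point of the open segment is in the open hole. -/
theorem TipD.segment_carpet {p : ℕ} {a x x' v : Ix} (T : TipD p a x x' v) {z : ℝ × ℝ}
    (hz : z ∈ segment ℝ (mP p a x) (yP p x v)) (hzK : z ∈ carpet) :
    z ∈ sqr (p + 1) (cA a x) ∨ z = yP p x v := by
  obtain ⟨t, h0, h1, hz1, hz2⟩ := GeoH_seg hz
  have hM : (0 : ℝ) < 3 ^ (p + 1) := by positivity
  have k1 : 3 ^ (p + 1) * z.1 = 3 * x.1 + 3 / 2 + ((a.1 : ℝ) - x.1) / 2 +
      t * ((3 * x.1 + 1 + v.1) - (3 * x.1 + 3 / 2 + ((a.1 : ℝ) - x.1) / 2)) := by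
    rw [hz1]
    unfold mP yP
    field_simp
  have k2 : 3 ^ (p + 1) * z.2 = 3 * x.2 + 3 / 2 + ((a.2 : ℝ) - x.2) / 2 +
      t * ((3 * x.2 + 1 + v.2) - (3 * x.2 + 3 / 2 + ((a.2 : ℝ) - x.2) / 2)) := by
    rw [hz2]
    unfold mP yP
    field_simp
  have hv1 : (v.1 : ℝ) = 0 ∨ (v.1 : ℝ) = 1 := by
    rcases T.v1 with h | h
    · left; rw [h]; norm_num
    · right; rw [h]; norm_num
  have hv2 : (v.2 : ℝ) = 0 ∨ (v.2 : ℝ) = 1 := by
    rcases T.v2 with h | h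
    · left; rw [h]; norm_num
    · right; rw [h]; norm_num
  rcases h1.eq_or_lt with h1 | h1
  · right
    subst h1
    refine Prod.ext ?_ ?_
    · rw [hz1]
      ring
    · rw [hz2]
      ring
  rcases h0.eq_or_lt with h0 | h0
  · left
    subst h0
    rw [zero_mul, add_zero] at k1 k2
    unfold sqr cA
    simp only [mem_ofPred_eq]
    rw [k1, k2]
    push_cast
    rcases T.cases with ⟨c1, c2, -, -⟩ | ⟨c1, c2, -, -⟩ | ⟨c1, c2, -, -⟩ | ⟨c1, c2, -, -⟩ <;>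
    · rw [c1, c2]
      push_cast
      refine ⟨⟨?_, ?_⟩, ?_, ?_⟩ <;> linarith
  · exfalso
    rcases T.cases with ⟨c1, c2, c3, -⟩ | ⟨c1, c2, c3, -⟩ | ⟨c1, c2, c3, -⟩ | ⟨c1, c2, c3, -⟩
    · have r1 : (a.1 : ℝ) = x.1 - 1 := by rw [c1]; push_cast; ring
      have r2 : (a.2 : ℝ) = x.2 := by rw [c2]
      have r3 : (v.1 : ℝ) = 1 := by rw [c3]; norm_num
      rw [r1, r3] at k1
      rw [r2] at k2
      apply hole_disj (p := p) (x := x) hzK
      · rw [k1]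
        constructor <;> nlinarith
      · rw [k2]
        rcases hv2 with h | h <;> rw [h] <;> constructor <;> nlinarith
    · have r1 : (a.1 : ℝ) = x.1 + 1 := by rw [c1]; push_cast; ring
      have r2 : (a.2 : ℝ) = x.2 := by rw [c2]
      have r3 : (v.1 : ℝ) = 0 := by rw [c3]; norm_num
      rw [r1, r3] at k1
      rw [r2] at k2
      apply hole_disj (p := p) (x := x) hzK
      · rw [k1]
        constructor <;> nlinarith
      · rw [k2]
        rcases hv2 with h | h <;> rw [h] <;> constructor <;> nlinarith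
    · have r1 : (a.2 : ℝ) = x.2 - 1 := by rw [c1]; push_cast; ring
      have r2 : (a.1 : ℝ) = x.1 := by rw [c2]
      have r3 : (v.2 : ℝ) = 1 := by rw [c3]; norm_num
      rw [r2] at k1
      rw [r1, r3] at k2
      apply hole_disj (p := p) (x := x) hzK
      · rw [k1]
        rcases hv1 with h | h <;> rw [h] <;> constructor <;> nlinarith
      · rw [k2]
        constructor <;> nlinarith
    · have r1 : (a.2 : ℝ) = x.2 + 1 := by rw [c1]; push_cast; ring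
      have r2 : (a.1 : ℝ) = x.1 := by rw [c2]
      have r3 : (v.2 : ℝ) = 0 := by rw [c3]; norm_num
      rw [r2] at k1
      rw [r1, r3] at k2
      apply hole_disj (p := p) (x := x) hzK
      · rw [k1]
        rcases hv1 with h | h <;> rw [h] <;> constructor <;> nlinarith
      · rw [k2]
        constructor <;> nlinarith

private theorem GeoH_sqr (l : ℕ) (q : Ix) : sqr l q =
    Icc ((q.1 : ℝ) / 3 ^ l) ((q.1 + 1) / 3 ^ l) ×ˢ Icc ((q.2 : ℝ) / 3 ^ l) ((q.2 + 1) / 3 ^ l) := by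
  have hM : (0 : ℝ) < 3 ^ l := by positivity
  ext z
  unfold sqr
  simp only [mem_ofPred_eq, mem_prod, mem_Icc, div_le_iff₀ hM, le_div_iff₀ hM, mul_comm (3 ^ l : ℝ)]

theorem sqr_compact (l : ℕ) (q : Ix) : IsCompact (sqr l q) := by
  rw [GeoH_sqr]
  exact isCompact_Icc.prod isCompact_Icc

theorem sqr_conn (l : ℕ) (q : Ix) : IsPreconnected (sqr l q) := by
  rw [GeoH_sqr]
  exact isPreconnected_Icc.prod isPreconnected_Icc

end CarpetLib
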