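import Pool.Agent.Lib.MP_f3090c_an.D.StarDefs

/-! D09b: (V1) of section 2 of the paper proof. -/

open Set Filter Topology

namespace CarpetLib

private theorem v1_star_closed (l : ℕ) (v : Ix) : IsClosed (star l v) := by
  have h : star l v = {z : K | |3 ^ l * z.1.1 - v.1| ≤ 1} ∩ {z : K | |3 ^ l * z.1.2 - v.2| ≤ 1} := by
    ext z; rfl
  rw [h]
  apply IsClosed.inter
  · exact isClosed_le (by fun_prop) continuous_const
  · exact isClosed_le (by fun_prop) continuous_const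

private theorem v1_ostar_sub (l : ℕ) (v : Ix) : ostar l v ⊆ star l v :=
  fun _ hz => ⟨hz.1.le, hz.2.le⟩

private theorem v1_fold_TR {l : ℕ} {v : Ix} {z : K} (h : fold l v z ∈ TR) : z ∉ ostar l v := by
  intro hz
  have h1 : (min |3 ^ l * z.1.1 - (v.1 : ℝ)| 1 = 1) ∨ (min |3 ^ l * z.1.2 - (v.2 : ℝ)| 1 = 1) := h
  rcases h1 with h1 | h1
  · have h2 := min_le_left |3 ^ l * z.1.1 - (v.1 : ℝ)| 1
    rw [h1] at h2
    exact absurd hz.1 (not_lt.2 h2)
  · have h2 := min_le_left |3 ^ l * z.1.2 - (v.2 : ℝ)| 1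
    rw [h1] at h2
    exact absurd hz.2 (not_lt.2 h2)

private theorem v1_inner_ostar {l : ℕ} {v : Ix} {z : K} (hz : fold l v z ∈ inner) :
    z ∈ ostar l v := by
  have h1 : (min |3 ^ l * z.1.1 - (v.1 : ℝ)| 1 ≤ 2 / 3 ∧ min |3 ^ l * z.1.2 - (v.2 : ℝ)| 1 ≤ 1 / 3) ∨
      (min |3 ^ l * z.1.1 - (v.1 : ℝ)| 1 ≤ 1 / 3 ∧ min |3 ^ l * z.1.2 - (v.2 : ℝ)| 1 ≤ 2 / 3) := hz
  have key : ∀ a : ℝ, min a 1 ≤ 2 / 3 → a < 1 := by
    intro a ha
    by_contra hcon
    rw [min_eq_right (not_lt.1 hcon)] at ha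
    norm_num at ha
  rcases h1 with h1 | h1
  · exact ⟨key _ h1.1, key _ (h1.2.trans (by norm_num))⟩
  · exact ⟨key _ (h1.1.trans (by norm_num)), key _ h1.2⟩

/-- (V1). Proof: `e`, `k` from `exists_one` with `a = c00`. `compare` for `O = ostar l v \ {y}`, `u = w - w y • e ∘ fold`:
frontier of `O` is contained in `{y} ∪ (star \ ostar)`, there `u ≥ 0` (`fold l v y = c00`, `e c00 = 1`; `fold_off`).
For test functions `φ ≥ 0` vanishing off `O`: `E (e ∘ fold) φ = E φ (e ∘ fold) = ρ^l Σ E(φ ∘ ψ_w ∘ σ, e)` (`fold_energy`) and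
`E(φ ∘ ψ_w ∘ σ, e) = k φ(ψ_w σ c00) = k φ(y) = 0` (`psiW_sgW_c00`; `φ ∘ ψ_w ∘ σ` vanishes on `TR`). So `E u φ = E w φ ≥ 0`. -/
theorem V1 (S : SymForm) {c₀ : ℝ} (hc : 0 < c₀) {e : C(K, ℝ)} (he : e ∈ S.domZ TR) {k : ℝ}
    (hk : 0 < k) (he1 : ∀ x, 0 ≤ e x ∧ e x ≤ 1) (he0 : e c00 = 1)
    (hE : ∀ f ∈ S.domZ TR, S.E e f = k * f c00) (hin : ∀ x ∈ inner, c₀ ≤ e x)
    {l : ℕ} {v : Ix} {w : C(K, ℝ)} (hw : SupOn S (star l v) w) {y : K}
    (hy : y.1 = ((v.1 : ℝ) / 3 ^ l, (v.2 : ℝ) / 3 ^ l)) {z : K} (hz : fold l v z ∈ inner) :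
    c₀ * w y ≤ w z := by
  obtain ⟨hwd, hwnn, hwsup⟩ := hw
  have h3 : (3 : ℝ) ^ l ≠ 0 := by positivity
  have hy1 : 3 ^ l * y.1.1 - (v.1 : ℝ) = 0 := by
    rw [hy]; field_simp; ring
  have hy2 : 3 ^ l * y.1.2 - (v.2 : ℝ) = 0 := by
    rw [hy]; field_simp; ring
  have hyfold : fold l v y = c00 := by
    apply Subtype.ext
    change foldP l v y.1 = (0, 0)
    unfold foldP
    rw [hy1, hy2]
    simp
  have hystar : y ∈ star l v := by
    refine ⟨?_, ?_⟩
    · rw [hy1]; simp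
    · rw [hy2]; simp
  have hwy : 0 ≤ w y := hwnn y hystar
  have hzo : z ∈ ostar l v := v1_inner_ostar hz
  have hc1 : c₀ ≤ 1 := (hin c00 c00_inner).trans (he1 c00).2
  by_cases hzy : z = y
  · rw [hzy]
    nlinarith
  have hfd : e.comp (fold l v) ∈ S.dom := fold_mem_dom S he l v
  have hud : w - w y • e.comp (fold l v) ∈ S.dom := S.dom.sub_mem hwd (S.dom.smul_mem _ hfd)
  have huval : ∀ x, (w - w y • e.comp (fold l v) : C(K, ℝ)) x = w x - w y * e (fold l v x) :=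
    fun x => rfl
  have hOopen : IsOpen (ostar l v \ {y}) := (ostar_open l v).sdiff isClosed_singleton
  have hOne : ∃ x, x ∉ ostar l v \ {y} := ⟨y, fun h => h.2 rfl⟩
  have hOsub : ostar l v \ {y} ⊆ star l v := fun x hx => v1_ostar_sub l v hx.1
  have hcmp := S.toRForm.compare hOopen hOne hud (by
    intro x hx
    rw [hOopen.frontier_eq] at hx
    have hxs : x ∈ star l v := by
      have := closure_mono hOsub hx.1
      rwa [(v1_star_closed l v).closure_eq] at this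
    rw [huval]
    by_cases hxy : x = y
    · rw [hxy, hyfold, he0]
      linarith
    · have hxo : x ∉ ostar l v := fun h => hx.2 ⟨h, hxy⟩
      rw [fold_off he hxo]
      have := hwnn x hxs
      linarith) (by
    intro φ hφ hφ0 hφO
    have e1 : S.E (w - w y • e.comp (fold l v)) φ =
        S.E w φ - w y * S.E (e.comp (fold l v)) φ := by
      rw [map_sub, LinearMap.sub_apply, map_smul, LinearMap.smul_apply, smul_eq_mul]
    have e2 : S.E (e.comp (fold l v)) φ = 0 := by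
      rw [S.symm, fold_energy S hφ he l v]
      rw [Finset.sum_eq_zero, mul_zero]
      intro wd hwd'
      rw [Finset.mem_filter] at hwd'
      obtain ⟨hwl, hwv⟩ := hwd'
      have hlen : wd.length = l := mem_Wd.1 hwl
      have hmem : (φ.comp (psiW wd)).comp (sgW v wd) ∈ S.domZ TR := by
        refine ⟨(sgW_inv S v wd).1 _ (comp_mem S hφ wd), ?_⟩
        intro x hx
        change φ (psiW wd (sgW v wd x)) = 0
        apply hφO
        intro hcon
        refine v1_fold_TR (l := l) (v := v) ?_ hcon.1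
        have h5 : (fold wd.length v).comp (psiW wd) (sgW v wd x) = sgW v wd (sgW v wd x) := by
          rw [fold_word hwv]
        rw [sgW_invol, hlen] at h5
        change fold l v (psiW wd (sgW v wd x)) ∈ TR
        have h6 : fold l v (psiW wd (sgW v wd x)) = x := h5
        rw [h6]
        exact hx
      rw [S.symm, hE _ hmem]
      have h7 : psiW wd (sgW v wd c00) = y := by
        apply Subtype.ext
        rw [psiW_sgW_c00 hwv, hlen, hy]
      change k * φ (psiW wd (sgW v wd c00)) = 0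
      rw [h7, hφO y (fun h => h.2 rfl), mul_zero]
    rw [e1, e2, mul_zero, sub_zero]
    refine hwsup φ hφ hφ0 (fun x hx => hφO x (fun h => hx (hOsub h))))
  have hfin := hcmp z ⟨hzo, hzy⟩
  rw [huval] at hfin
  have h8 := hin _ hz
  nlinarith

end CarpetLib
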