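import Pool.Agent.Lib.MP_f3090c_an.D.StarDefs

/-! D09c: (V2) of section 2 of the paper proof. -/

open Set Filter Topology

namespace CarpetLib

private theorem V2_unit (z : K) : (0 ≤ z.1.1 ∧ z.1.1 ≤ 1) ∧ (0 ≤ z.1.2 ∧ z.1.2 ≤ 1) :=
  carpet_subset_unitSq z.2

private theorem V2_abs {a b : ℤ} {t : ℝ} (ht : 0 ≤ t ∧ t ≤ 1) (h : a = b ∨ a = b - 1) :
    |t + (a : ℝ) - b| ≤ 1 := by
  rcases h with h | h
  · rw [h, abs_le]
    constructor <;> linarith [ht.1, ht.2]
  · rw [h]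
    push_cast
    rw [abs_le]
    constructor <;> linarith [ht.1, ht.2]

/-- points of a cell with vertex `v` are in the star -/
private theorem V2_star {v : Ix} {u : List Dig} (hu : HasV v u) (x : K) :
    psiW u x ∈ star u.length v := by
  have hp : (3 : ℝ) ^ u.length ≠ 0 := by positivity
  have h1 : (3 : ℝ) ^ u.length * (psiW u x).1.1 = x.1.1 + ((ix u : ℤ) : ℝ) := by
    rw [psiW_fst]
    push_cast
    field_simp
  have h2 : (3 : ℝ) ^ u.length * (psiW u x).1.2 = x.1.2 + ((iy u : ℤ) : ℝ) := by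
    rw [psiW_snd]
    push_cast
    field_simp
  show |3 ^ u.length * (psiW u x).1.1 - (v.1 : ℝ)| ≤ 1 ∧ |3 ^ u.length * (psiW u x).1.2 - (v.2 : ℝ)| ≤ 1
  rw [h1, h2]
  exact ⟨V2_abs (V2_unit x).1 hu.1, V2_abs (V2_unit x).2 hu.2⟩

private theorem V2_ostar_sub (l : ℕ) (v : Ix) : ostar l v ⊆ star l v := fun _ hx =>
  ⟨hx.1.le, hx.2.le⟩

private theorem V2_card (l : ℕ) (v : Ix) : ((Wd l).filter (HasV v)).card ≤ 4 := by
  classical
  have h : ((Wd l).filter (HasV v)).card ≤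
      ((({v.1, v.1 - 1} : Finset ℤ) ×ˢ ({v.2, v.2 - 1} : Finset ℤ))).card := by
    refine Finset.card_le_card_of_injOn (fun u => ((ix u : ℤ), (iy u : ℤ))) ?_ ?_
    · intro u hu
      obtain ⟨-, h1, h2⟩ := Finset.mem_filter.1 (Finset.mem_coe.1 hu)
      rw [Finset.mem_coe, Finset.mem_product]
      simp only [Finset.mem_insert, Finset.mem_singleton]
      exact ⟨h1, h2⟩
    · intro u hu u' hu' h
      obtain ⟨h1, -⟩ := Finset.mem_filter.1 (Finset.mem_coe.1 hu)
      obtain ⟨h2, -⟩ := Finset.mem_filter.1 (Finset.mem_coe.1 hu')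
      have h3 : (ix u : ℤ) = ix u' := congrArg Prod.fst h
      have h4 : (iy u : ℤ) = iy u' := congrArg Prod.snd h
      exact word_ext ((mem_Wd.1 h1).trans (mem_Wd.1 h2).symm) (by exact_mod_cast h3)
        (by exact_mod_cast h4)
  refine h.trans ?_
  rw [Finset.card_product]
  have h1 : ({v.1, v.1 - 1} : Finset ℤ).card ≤ 2 := Finset.card_le_two
  have h2 : ({v.2, v.2 - 1} : Finset ℤ).card ≤ 2 := Finset.card_le_two
  calc _ ≤ 2 * 2 := Nat.mul_le_mul h1 h2
    _ = 4 := rfl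

/-- (V2). Proof: `W := Σ_{w' ∈ Wd l, HasV v w'} (w ∘ ψ_w') ∘ σ`, in `dom`, `W ≥ 0`. For `f ∈ domZ TR`, `f ≥ 0`:
`E W f = ρ^{-l} E w (f ∘ fold) ≥ 0` (`fold_energy`, `fold_off`). `a := fold l v z`, `g`, `k` for `a` given.
`compare` for `O = (TR ∪ {a})ᶜ`, `u = W - W a • g`. So `W c00 ≥ W a * g c00 ≥ c₀ W a`. `W c00 = (number of w') * w y ≤ 4 * w y`
(`psiW_sgW_c00`; at most four words, `word_ext`), `W a ≥ w z`: `z` is in a cell `w'` (`exists_mem_cellW`), `HasV v w'` because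
`fold l v z ∈ inner` has both coordinates `< 1`; `z = ψ_w' z'`, `fold z = σ z' = a`, `ψ_w' (σ a) = z`. -/
theorem V2 (S : SymForm) {c₀ : ℝ} (hc : 0 < c₀)
    {l : ℕ} {v : Ix} {w : C(K, ℝ)} (hw : SupOn S (star l v) w) {y : K}
    (hy : y.1 = ((v.1 : ℝ) / 3 ^ l, (v.2 : ℝ) / 3 ^ l)) {z : K} (hz : fold l v z ∈ inner)
    {g : C(K, ℝ)} (hg : g ∈ S.domZ TR) {k : ℝ} (hk : 0 < k) (hg1 : ∀ x, 0 ≤ g x ∧ g x ≤ 1)
    (hga : g (fold l v z) = 1) (hE : ∀ f ∈ S.domZ TR, S.E g f = k * f (fold l v z))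
    (hg0 : c₀ ≤ g c00) : c₀ / 4 * w z ≤ w y := by
  obtain ⟨hwd, hw0, hws⟩ := hw
  set a : K := fold l v z with ha
  set A : Finset (List Dig) := (Wd l).filter (HasV v) with hA
  have hAl : ∀ u ∈ A, u.length = l ∧ HasV v u := fun u hu => by
    obtain ⟨h1, h2⟩ := Finset.mem_filter.1 hu
    exact ⟨mem_Wd.1 h1, h2⟩
  set W : C(K, ℝ) := ∑ u ∈ A, (w.comp (psiW u)).comp (sgW v u) with hW
  have hWx : ∀ x, W x = ∑ u ∈ A, w (psiW u (sgW v u x)) := by
    intro x
    rw [hW, ContinuousMap.sum_apply]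
    rfl
  have hterm : ∀ u ∈ A, ∀ x, 0 ≤ w (psiW u (sgW v u x)) := by
    intro u hu x
    obtain ⟨h1, h2⟩ := hAl u hu
    have h3 := V2_star h2 (sgW v u x)
    rw [h1] at h3
    exact hw0 _ h3
  have hWnn : ∀ x, 0 ≤ W x := by
    intro x
    rw [hWx]
    exact Finset.sum_nonneg fun u hu => hterm u hu x
  have hWd : W ∈ S.dom := by
    rw [hW]
    exact S.dom.sum_mem fun u _ => (sgW_inv S v u).1 _ (comp_mem S hwd u)
  have hWE : ∀ f ∈ S.domZ TR, (∀ x, 0 ≤ f x) → 0 ≤ S.E W f := by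
    intro f hf hf0
    have h1 := fold_energy S hwd hf l v
    have h2 : 0 ≤ S.E w (f.comp (fold l v)) := by
      refine hws _ (fold_mem_dom S hf l v) (fun x => hf0 _) fun x hx => ?_
      exact fold_off hf (fun h => hx (V2_ostar_sub l v h))
    rw [h1] at h2
    have h3 : S.E W f = ∑ u ∈ A, S.E ((w.comp (psiW u)).comp (sgW v u)) f := by
      rw [hW, map_sum, LinearMap.sum_apply]
    rw [h3]
    exact nonneg_of_mul_nonneg_right h2 (pow_pos S.ρ_pos l)
  -- comparison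
  have hcl : IsClosed (TR ∪ {a}) := TR_closed.union isClosed_singleton
  have hgd : g ∈ S.dom := hg.1
  have hud : W - W a • g ∈ S.dom := S.dom.sub_mem hWd (S.dom.smul_mem _ hgd)
  have hux : ∀ x, (W - W a • g) x = W x - W a * g x := fun x => rfl
  have hon : ∀ x ∈ TR ∪ {a}, 0 ≤ (W - W a • g) x := by
    intro x hx
    rw [hux]
    rcases hx with hx | hx
    · rw [hg.2 x hx, mul_zero, sub_zero]
      exact hWnn x
    · have hx' : x = a := hx
      rw [hx', hga, mul_one, sub_self]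
  have hcmp := S.toRForm.compare (O := (TR ∪ {a})ᶜ) hcl.isOpen_compl
    ⟨a, fun h => h (Or.inr rfl)⟩ hud
    (fun x hx => hon x (by
      rw [frontier_compl] at hx
      exact hcl.frontier_subset hx))
    (fun v' hv' hv0 hvz => by
      have hv1 : v' ∈ S.domZ TR := ⟨hv', fun x hx => hvz x (fun h => h (Or.inl hx))⟩
      have hva : v' a = 0 := hvz a (fun h => h (Or.inr rfl))
      have h1 : S.E (W - W a • g) v' = S.E W v' - W a * S.E g v' := by
        rw [map_sub, map_smul, LinearMap.sub_apply, LinearMap.smul_apply, smul_eq_mul]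
      rw [h1, hE v' hv1, hva, mul_zero, mul_zero, sub_zero]
      exact hWE v' hv1 hv0)
  have h00 : 0 ≤ (W - W a • g) c00 := by
    by_cases h : c00 ∈ TR ∪ {a}
    · exact hon _ h
    · exact hcmp _ h
  rw [hux] at h00
  have h1 : c₀ * W a ≤ W c00 := by
    have := mul_le_mul_of_nonneg_right hg0 (hWnn a)
    nlinarith
  -- the value at the corner
  have hyst : 0 ≤ w y := by
    apply hw0
    have hp : (3 : ℝ) ^ l ≠ 0 := by positivity
    show |3 ^ l * y.1.1 - (v.1 : ℝ)| ≤ 1 ∧ |3 ^ l * y.1.2 - (v.2 : ℝ)| ≤ 1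
    rw [hy]
    simp only
    rw [mul_div_cancel₀ _ hp, mul_div_cancel₀ _ hp, sub_self, sub_self, abs_zero]
    exact ⟨zero_le_one, zero_le_one⟩
  have h2 : W c00 ≤ 4 * w y := by
    rw [hWx]
    have h3 : ∀ u ∈ A, w (psiW u (sgW v u c00)) = w y := by
      intro u hu
      obtain ⟨e1, e2⟩ := hAl u hu
      congr 1
      apply Subtype.ext
      rw [psiW_sgW_c00 e2, e1, hy]
    rw [Finset.sum_congr rfl h3, Finset.sum_const, nsmul_eq_mul]
    have h4 : (A.card : ℝ) ≤ 4 := by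
      exact_mod_cast V2_card l v
    exact mul_le_mul_of_nonneg_right h4 hyst
  -- the value at `a`
  have h3 : w z ≤ W a := by
    obtain ⟨u, hu, z', hz'⟩ := exists_mem_cellW l z
    have hul := mem_Wd.1 hu
    have hHas : HasV v u := by
      by_contra hno
      have h4 := fold_word_not hno z'
      rw [hul, hz'] at h4
      rcases hz with ⟨h5, h6⟩ | ⟨h5, h6⟩ <;> rcases h4 with h4 | h4
      · rw [h4] at h5; norm_num at h5
      · rw [h4] at h6; norm_num at h6
      · rw [h4] at h5; norm_num at h5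
      · rw [h4] at h6; norm_num at h6
    have h4 : a = sgW v u z' := by
      have h5 := fold_word hHas
      rw [hul] at h5
      rw [ha, ← hz', ← h5]
      rfl
    have h5 : psiW u (sgW v u a) = z := by
      rw [h4, sgW_invol, hz']
    rw [hWx]
    have h6 := Finset.single_le_sum (f := fun u => w (psiW u (sgW v u a)))
      (fun u hu => hterm u hu a) (Finset.mem_filter.2 ⟨hu, hHas⟩ : u ∈ A)
    have h7 : w (psiW u (sgW v u a)) = w z := by rw [h5]
    rw [← h7]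
    exact h6
  have h4 : c₀ * w z ≤ c₀ * W a := mul_le_mul_of_nonneg_left h3 hc.le
  linarith

end CarpetLib
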