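import Pool.Agent.Lib.MP_f3090c_an.K.Lines
import Pool.Agent.Lib.MP_f3090c_an.D.V1
import Pool.Agent.Lib.MP_f3090c_an.D.V2

/-! D10: Harnack inequality. -/

open Set Filter Topology

namespace CarpetLib

private theorem HI_star_sub {l : ℕ} {q v : Ix} (h1 : 3 * q.1 ≤ v.1 ∧ v.1 ≤ 3 * q.1 + 3)
    (h2 : 3 * q.2 ≤ v.2 ∧ v.2 ≤ 3 * q.2 + 3) : star (l + 1) v ⊆ nb l q := by
  rintro z ⟨hz1, hz2⟩
  rw [abs_le] at hz1 hz2
  have e : (3:ℝ) ^ (l + 1) = 3 * 3 ^ l := by ring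
  rw [e] at hz1 hz2
  have a1 : 3 * (q.1 : ℝ) ≤ v.1 := by exact_mod_cast h1.1
  have a2 : (v.1 : ℝ) ≤ 3 * q.1 + 3 := by exact_mod_cast h1.2
  have a3 : 3 * (q.2 : ℝ) ≤ v.2 := by exact_mod_cast h2.1
  have a4 : (v.2 : ℝ) ≤ 3 * q.2 + 3 := by exact_mod_cast h2.2
  obtain ⟨b1, b2⟩ := hz1
  obtain ⟨b3, b4⟩ := hz2
  refine ⟨⟨?_, ?_⟩, ?_, ?_⟩ <;> linarith

private theorem HI_supOn_mono {S : SymForm} {N N' : Set K} {w : C(K, ℝ)} (h : SupOn S N w)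
    (hN : N' ⊆ N) : SupOn S N' w :=
  ⟨h.1, fun x hx => h.2.1 x (hN hx),
    fun v hv h0 h1 => h.2.2 v hv h0 (fun x hx => h1 x (fun hx' => hx (hN hx')))⟩

private theorem HI_chain {κ : ℝ} (hκ0 : 0 ≤ κ) (hκ1 : κ ≤ 1) (G : ℕ → ℝ)
    (hG : ∀ i, i ≤ 3 → 0 ≤ G i)
    (h : ∀ i, i < 3 → κ * G i ≤ G (i + 1) ∧ κ * G (i + 1) ≤ G i) {i j : ℕ} (hi : i ≤ 3)
    (hj : j ≤ 3) : κ ^ 3 * G i ≤ G j := by
  have up : ∀ n i : ℕ, i + n ≤ 3 → κ ^ n * G i ≤ G (i + n) := by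
    intro n
    induction n with
    | zero => intro i _; simp
    | succ n ih =>
      intro i hin
      have h1 := ih i (by omega)
      have h2 := (h (i + n) (by omega)).1
      calc κ ^ (n + 1) * G i = κ * (κ ^ n * G i) := by ring
        _ ≤ κ * G (i + n) := mul_le_mul_of_nonneg_left h1 hκ0
        _ ≤ G (i + (n + 1)) := h2
  have down : ∀ n i : ℕ, i + n ≤ 3 → κ ^ n * G (i + n) ≤ G i := by
    intro n
    induction n with
    | zero => intro i _; simp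
    | succ n ih =>
      intro i hin
      have h1 := ih i (by omega)
      have h2 := (h (i + n) (by omega)).2
      calc κ ^ (n + 1) * G (i + (n + 1)) = κ ^ n * (κ * G (i + n + 1)) := by
            rw [pow_succ, mul_assoc]; rfl
        _ ≤ κ ^ n * G (i + n) := mul_le_mul_of_nonneg_left h2 (pow_nonneg hκ0 n)
        _ ≤ G i := h1
  rcases le_total i j with hij | hij
  · have h1 := up (j - i) i (by omega)
    have e : i + (j - i) = j := by omega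
    rw [e] at h1
    have h2 : κ ^ 3 ≤ κ ^ (j - i) := pow_le_pow_of_le_one hκ0 hκ1 (by omega)
    exact (mul_le_mul_of_nonneg_right h2 (hG i hi)).trans h1
  · have h1 := down (i - j) j (by omega)
    have e : j + (i - j) = i := by omega
    rw [e] at h1
    have h2 : κ ^ 3 ≤ κ ^ (i - j) := pow_le_pow_of_le_one hκ0 hκ1 (by omega)
    exact (mul_le_mul_of_nonneg_right h2 (hG i hi)).trans h1

private theorem HI_sub {l : ℕ} {q : Ix} (hq : Pres l q) {i j : ℤ} (hi : 0 ≤ i ∧ i ≤ 2)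
    (hj : 0 ≤ j ∧ j ≤ 2) (hij : ¬ (i = 1 ∧ j = 1)) :
    Pres (l + 1) (3 * q.1 + i, 3 * q.2 + j) := by
  have e1 : (3 * q.1 + i) / 3 = q.1 := by omega
  have e2 : (3 * q.2 + j) / 3 = q.2 := by omega
  refine ⟨?_, ?_⟩
  · show Pres l ((3 * q.1 + i) / 3, (3 * q.2 + j) / 3)
    rw [e1, e2]
    exact hq
  · show ¬ ((3 * q.1 + i) % 3 = 1 ∧ (3 * q.2 + j) % 3 = 1)
    omega

/-- points on the sides of the subcells -/
private theorem HI_edge {l : ℕ} {q : Ix} (hq : Pres l q) {s t : ℤ} (hs : 0 ≤ s ∧ s ≤ 2)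
    (ht : 0 ≤ t ∧ t ≤ 3) {r : ℝ} (hr : 0 ≤ r ∧ r ≤ 1) :
    (∃ y : K, y.1 = (((3 * q.1 + s : ℤ) + r) / 3 ^ (l + 1), ((3 * q.2 + t : ℤ) : ℝ) / 3 ^ (l + 1))) ∧
    (∃ y : K, y.1 = (((3 * q.1 + t : ℤ) : ℝ) / 3 ^ (l + 1),
      ((3 * q.2 + s : ℤ) + r) / 3 ^ (l + 1))) := by
  obtain ⟨j, a, hj, hja, ha⟩ : ∃ j a : ℤ, (j = 0 ∨ j = 2) ∧ t = j + a ∧ (a = 0 ∨ a = 1) := by
    rcases (by omega : t = 0 ∨ t = 1 ∨ t = 2 ∨ t = 3) with h | h | h | h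
    · exact ⟨0, 0, by omega, by omega, by omega⟩
    · exact ⟨0, 1, by omega, by omega, by omega⟩
    · exact ⟨2, 0, by omega, by omega, by omega⟩
    · exact ⟨2, 1, by omega, by omega, by omega⟩
  constructor
  · have hP := HI_sub hq hs (j := j) (by omega) (by omega)
    have hz : (r, (a : ℝ)) ∈ carpet := by
      rcases ha with rfl | rfl
      · have := bot_mem hr.1 hr.2
        simpa using this
      · have := top_mem hr.1 hr.2
        simpa using this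
    obtain ⟨y, hy, -⟩ := emb_mem hP ⟨(r, (a : ℝ)), hz⟩
    refine ⟨y, hy.trans ?_⟩
    subst hja
    refine Prod.ext ?_ ?_
    · show (r + ((3 * q.1 + s : ℤ) : ℝ)) / 3 ^ (l + 1) = (((3 * q.1 + s : ℤ) : ℝ) + r) / 3 ^ (l + 1)
      rw [add_comm]
    · show ((a : ℝ) + ((3 * q.2 + j : ℤ) : ℝ)) / 3 ^ (l + 1)
        = (((3 * q.2 + (j + a) : ℤ) : ℝ)) / 3 ^ (l + 1)
      congr 1
      push_cast
      ring
  · have hP := HI_sub hq (i := j) (by omega) hs (by omega)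
    have hz : ((a : ℝ), r) ∈ carpet := by
      rcases ha with rfl | rfl
      · have := left_mem hr.1 hr.2
        simpa using this
      · have := right_mem hr.1 hr.2
        simpa using this
    obtain ⟨y, hy, -⟩ := emb_mem hP ⟨((a : ℝ), r), hz⟩
    refine ⟨y, hy.trans ?_⟩
    subst hja
    refine Prod.ext ?_ ?_
    · show ((a : ℝ) + ((3 * q.1 + j : ℤ) : ℝ)) / 3 ^ (l + 1)
        = (((3 * q.1 + (j + a) : ℤ) : ℝ)) / 3 ^ (l + 1)
      congr 1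
      push_cast
      ring
    · show (r + ((3 * q.2 + s : ℤ) : ℝ)) / 3 ^ (l + 1) = (((3 * q.2 + s : ℤ) : ℝ) + r) / 3 ^ (l + 1)
      rw [add_comm]

private theorem HI_fold (L : ℕ) (v : Ix) (z : K)
    (h : (|3 ^ L * z.1.1 - v.1| ≤ 2 / 3 ∧ |3 ^ L * z.1.2 - v.2| ≤ 1 / 3) ∨
      (|3 ^ L * z.1.1 - v.1| ≤ 1 / 3 ∧ |3 ^ L * z.1.2 - v.2| ≤ 2 / 3)) : fold L v z ∈ inner := by
  rcases h with ⟨h1, h2⟩ | ⟨h1, h2⟩
  · left
    exact ⟨(min_le_left _ _).trans h1, (min_le_left _ _).trans h2⟩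
  · right
    exact ⟨(min_le_left _ _).trans h1, (min_le_left _ _).trans h2⟩

/-- each point of a cell is near a vertex of its subcells -/
private theorem HI_near {l : ℕ} {q : Ix} {z : K} (hz : z ∈ cell l q) :
    ∃ s t : ℕ, s ≤ 3 ∧ t ≤ 3 ∧ fold (l + 1) (3 * q.1 + s, 3 * q.2 + t) z ∈ inner := by
  obtain ⟨⟨a1, a2⟩, a3, a4⟩ := hz
  have e : (3:ℝ) ^ (l + 1) = 3 * 3 ^ l := by ring
  set X : ℝ := 3 ^ (l + 1) * z.1.1 with hX
  set Y : ℝ := 3 ^ (l + 1) * z.1.2 with hY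
  have b1 : 3 * (q.1 : ℝ) ≤ X := by rw [hX, e]; linarith
  have b2 : X ≤ 3 * (q.1 : ℝ) + 3 := by rw [hX, e]; linarith
  have b3 : 3 * (q.2 : ℝ) ≤ Y := by rw [hY, e]; linarith
  have b4 : Y ≤ 3 * (q.2 : ℝ) + 3 := by rw [hY, e]; linarith
  have f1 := Int.floor_le (X + 1 / 2)
  have f2 := Int.lt_floor_add_one (X + 1 / 2)
  have f3 := Int.floor_le (Y + 1 / 2)
  have f4 := Int.lt_floor_add_one (Y + 1 / 2)
  have g1 : 3 * q.1 ≤ ⌊X + 1 / 2⌋ := by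
    rw [Int.le_floor]; push_cast; linarith
  have g2 : ⌊X + 1 / 2⌋ ≤ 3 * q.1 + 3 := by
    have : ⌊X + 1 / 2⌋ < 3 * q.1 + 3 + 1 := by
      rw [Int.floor_lt]; push_cast; linarith
    omega
  have g3 : 3 * q.2 ≤ ⌊Y + 1 / 2⌋ := by
    rw [Int.le_floor]; push_cast; linarith
  have g4 : ⌊Y + 1 / 2⌋ ≤ 3 * q.2 + 3 := by
    have : ⌊Y + 1 / 2⌋ < 3 * q.2 + 3 + 1 := by
      rw [Int.floor_lt]; push_cast; linarith
    omega
  refine ⟨(⌊X + 1 / 2⌋ - 3 * q.1).toNat, (⌊Y + 1 / 2⌋ - 3 * q.2).toNat, by omega, by omega, ?_⟩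
  have h1 : 3 * q.1 + (((⌊X + 1 / 2⌋ - 3 * q.1).toNat : ℕ) : ℤ) = ⌊X + 1 / 2⌋ := by omega
  have h2 : 3 * q.2 + (((⌊Y + 1 / 2⌋ - 3 * q.2).toNat : ℕ) : ℤ) = ⌊Y + 1 / 2⌋ := by omega
  rw [h1, h2]
  have c1 : |X - (⌊X + 1 / 2⌋ : ℝ)| ≤ 1 / 2 := by rw [abs_le]; constructor <;> linarith
  have c2 : |Y - (⌊Y + 1 / 2⌋ : ℝ)| ≤ 1 / 2 := by rw [abs_le]; constructor <;> linarith
  have hm := hole (fold (l + 1) (⌊X + 1 / 2⌋, ⌊Y + 1 / 2⌋) z).2
  have d1 : (fold (l + 1) (⌊X + 1 / 2⌋, ⌊Y + 1 / 2⌋) z).1.1 = |X - (⌊X + 1 / 2⌋ : ℝ)| :=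
    min_eq_left (c1.trans (by norm_num))
  have d2 : (fold (l + 1) (⌊X + 1 / 2⌋, ⌊Y + 1 / 2⌋) z).1.2 = |Y - (⌊Y + 1 / 2⌋ : ℝ)| :=
    min_eq_left (c2.trans (by norm_num))
  rw [d1, d2] at hm
  apply HI_fold
  show (|X - (⌊X + 1 / 2⌋ : ℝ)| ≤ 2 / 3 ∧ |Y - (⌊Y + 1 / 2⌋ : ℝ)| ≤ 1 / 3) ∨
      (|X - (⌊X + 1 / 2⌋ : ℝ)| ≤ 1 / 3 ∧ |Y - (⌊Y + 1 / 2⌋ : ℝ)| ≤ 2 / 3)
  rcases le_or_gt |X - (⌊X + 1 / 2⌋ : ℝ)| (1 / 3) with h | h
  · right
    exact ⟨h, c2.trans (by norm_num)⟩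
  · left
    refine ⟨c1.trans (by norm_num), ?_⟩
    by_contra hcon
    push Not at hcon
    exact hm ⟨h, lt_of_le_of_lt c1 (by norm_num), hcon, lt_of_le_of_lt c2 (by norm_num)⟩

/-- Harnack inequality.
Proof (end of section 2 of the paper proof): for `q` present of level `l` the vertices `(3 q.1 + s, 3 q.2 + t)`, `0 ≤ s, t ≤ 3`,
of level `l + 1` are points of `K` (`vert_mem`), with `star (l+1) v ⊆ nb l q`, so `SupOn` holds on these stars. Neighbouring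
vertices `v, v'` (one coordinate differs by one): the mid point `m` is a point of `K` and `fold (l+1) v m`, `fold (l+1) v' m` have
coordinates `1/2, 0` or `0, 1/2`, in `inner`: `w y' ≥ c₀/4 w m ≥ c₀²/4 w y` (V1, V2). Each `z ∈ cell l q` satisfies `fold (l+1) v z ∈ inner` for
one of these vertices (nearest vertex of a subcell containing `z`: both coordinates `≤ 1/2` and `K` misses `(1/3,2/3)²`).
`c = (c₀²/4)^7`. -/
theorem exists_harnack (S : SymForm) : ∃ c : ℝ, 0 < c ∧ c < 1 ∧ Harnack S c := by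
  obtain ⟨c₀, hc0, hc1, hone⟩ := exists_one S
  obtain ⟨e, he, ke, hke, he01, hec, hEe, -, hein⟩ := hone c00 c00_inner
  have hein' : ∀ x ∈ inner, c₀ ≤ e x := hein rfl
  set κ : ℝ := c₀ ^ 2 / 4 with hκ
  have hκ0 : 0 < κ := by positivity
  have hκ1 : κ < 1 := by
    have : c₀ ^ 2 < 1 := by nlinarith
    rw [hκ]; linarith
  refine ⟨κ ^ 7, pow_pos hκ0 7, pow_lt_one₀ hκ0.le hκ1 (by norm_num), ?_⟩
  intro l q hq w hw x hx z hz
  -- the two basic inequalities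
  have A1 : ∀ (s t : ℕ), s ≤ 3 → t ≤ 3 → ∀ y m : K,
      y.1 = (((3 * q.1 + s : ℤ) : ℝ) / 3 ^ (l + 1), ((3 * q.2 + t : ℤ) : ℝ) / 3 ^ (l + 1)) →
      fold (l + 1) (3 * q.1 + s, 3 * q.2 + t) m ∈ inner → c₀ * w y ≤ w m := by
    intro s t hs ht y m hy hm
    exact V1 S hc0 he hke he01 hec hEe hein'
      (HI_supOn_mono hw (HI_star_sub (v := (3 * q.1 + s, 3 * q.2 + t))
        ⟨by show 3 * q.1 ≤ 3 * q.1 + s; omega, by show 3 * q.1 + s ≤ 3 * q.1 + 3; omega⟩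
        ⟨by show 3 * q.2 ≤ 3 * q.2 + t; omega, by show 3 * q.2 + t ≤ 3 * q.2 + 3; omega⟩)) hy hm
  have A2 : ∀ (s t : ℕ), s ≤ 3 → t ≤ 3 → ∀ y m : K,
      y.1 = (((3 * q.1 + s : ℤ) : ℝ) / 3 ^ (l + 1), ((3 * q.2 + t : ℤ) : ℝ) / 3 ^ (l + 1)) →
      fold (l + 1) (3 * q.1 + s, 3 * q.2 + t) m ∈ inner → c₀ / 4 * w m ≤ w y := by
    intro s t hs ht y m hy hm
    obtain ⟨g, hg, k, hk, hg1, hga, hE, hg0, -⟩ := hone _ hm
    exact V2 S hc0
      (HI_supOn_mono hw (HI_star_sub (v := (3 * q.1 + s, 3 * q.2 + t))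
        ⟨by show 3 * q.1 ≤ 3 * q.1 + s; omega, by show 3 * q.1 + s ≤ 3 * q.1 + 3; omega⟩
        ⟨by show 3 * q.2 ≤ 3 * q.2 + t; omega, by show 3 * q.2 + t ≤ 3 * q.2 + 3; omega⟩)) hy hm
        hg hk hg1 hga hE hg0
  -- the vertices
  have hV : ∀ s t : ℕ, ∃ y : K, s ≤ 3 → t ≤ 3 →
      y.1 = (((3 * q.1 + s : ℤ) : ℝ) / 3 ^ (l + 1), ((3 * q.2 + t : ℤ) : ℝ) / 3 ^ (l + 1)) := by
    intro s t
    by_cases hst : s ≤ 3 ∧ t ≤ 3
    · obtain ⟨hs, ht⟩ := hst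
      rcases (by omega : s ≤ 2 ∨ s = 3) with h | h
      · obtain ⟨y, hy⟩ := (HI_edge hq (s := s) (t := t) (by omega) (by omega) (r := 0)
          (by norm_num)).1
        refine ⟨y, fun _ _ => hy.trans ?_⟩
        rw [add_zero]
      · obtain ⟨y, hy⟩ := (HI_edge hq (s := 2) (t := t) (by omega) (by omega) (r := 1)
          (by norm_num)).1
        refine ⟨y, fun _ _ => hy.trans ?_⟩
        subst h
        refine Prod.ext ?_ rfl
        show (((3 * q.1 + 2 : ℤ) : ℝ) + 1) / 3 ^ (l + 1)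
          = ((3 * q.1 + ((3 : ℕ) : ℤ) : ℤ) : ℝ) / 3 ^ (l + 1)
        congr 1
        push_cast
        ring
    · exact ⟨c00, fun h1 h2 => absurd ⟨h1, h2⟩ hst⟩
  choose Y hY using hV
  have hYstar : ∀ s t : ℕ, s ≤ 3 → t ≤ 3 → 0 ≤ w (Y s t) := by
    intro s t hs ht
    apply hw.2.1
    refine HI_star_sub (l := l) (q := q) (v := (3 * q.1 + s, 3 * q.2 + t))
        ⟨by show 3 * q.1 ≤ 3 * q.1 + s; omega, by show 3 * q.1 + s ≤ 3 * q.1 + 3; omega⟩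
        ⟨by show 3 * q.2 ≤ 3 * q.2 + t; omega, by show 3 * q.2 + t ≤ 3 * q.2 + 3; omega⟩ ?_
    have p : (0 : ℝ) < 3 ^ (l + 1) := by positivity
    constructor
    · rw [hY s t hs ht]
      show |3 ^ (l + 1) * (((3 * q.1 + s : ℤ) : ℝ) / 3 ^ (l + 1)) - ((3 * q.1 + s : ℤ) : ℝ)| ≤ 1
      rw [mul_div_cancel₀ _ p.ne', sub_self, abs_zero]
      norm_num
    · rw [hY s t hs ht]
      show |3 ^ (l + 1) * (((3 * q.2 + t : ℤ) : ℝ) / 3 ^ (l + 1)) - ((3 * q.2 + t : ℤ) : ℝ)| ≤ 1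
      rw [mul_div_cancel₀ _ p.ne', sub_self, abs_zero]
      norm_num
  have step : ∀ (s t s' t' : ℕ), s ≤ 3 → t ≤ 3 → s' ≤ 3 → t' ≤ 3 → ∀ m : K,
      fold (l + 1) (3 * q.1 + s, 3 * q.2 + t) m ∈ inner →
      fold (l + 1) (3 * q.1 + s', 3 * q.2 + t') m ∈ inner →
      κ * w (Y s t) ≤ w (Y s' t') := by
    intro s t s' t' hs ht hs' ht' m hm hm'
    have h1 := A1 s t hs ht _ m (hY s t hs ht) hm
    have h2 := A2 s' t' hs' ht' _ m (hY s' t' hs' ht') hm'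
    calc κ * w (Y s t) = c₀ / 4 * (c₀ * w (Y s t)) := by rw [hκ]; ring
      _ ≤ c₀ / 4 * w m := mul_le_mul_of_nonneg_left h1 (by positivity)
      _ ≤ w (Y s' t') := h2
  have stepH : ∀ (s t : ℕ), s < 3 → t ≤ 3 →
      κ * w (Y s t) ≤ w (Y (s + 1) t) ∧ κ * w (Y (s + 1) t) ≤ w (Y s t) := by
    intro s t hs ht
    obtain ⟨m, hm⟩ := (HI_edge hq (s := s) (t := t) (by omega) (by omega) (r := 1 / 2)
          (by norm_num)).1
    have p : (0 : ℝ) < 3 ^ (l + 1) := by positivity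
    have m1 : fold (l + 1) (3 * q.1 + s, 3 * q.2 + t) m ∈ inner := by
      apply HI_fold
      left
      rw [hm]
      constructor
      · show |3 ^ (l + 1) * ((((3 * q.1 + s : ℤ) : ℝ) + 1 / 2) / 3 ^ (l + 1))
          - ((3 * q.1 + s : ℤ) : ℝ)| ≤ 2 / 3
        rw [mul_div_cancel₀ _ p.ne', add_sub_cancel_left, abs_of_pos (by norm_num)]
        norm_num
      · show |3 ^ (l + 1) * (((3 * q.2 + t : ℤ) : ℝ) / 3 ^ (l + 1))
          - ((3 * q.2 + t : ℤ) : ℝ)| ≤ 1 / 3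
        rw [mul_div_cancel₀ _ p.ne', sub_self, abs_zero]
        norm_num
    have m2 : fold (l + 1) (3 * q.1 + (s + 1 : ℕ), 3 * q.2 + t) m ∈ inner := by
      apply HI_fold
      left
      rw [hm]
      constructor
      · show |3 ^ (l + 1) * ((((3 * q.1 + s : ℤ) : ℝ) + 1 / 2) / 3 ^ (l + 1))
          - ((3 * q.1 + (s + 1 : ℕ) : ℤ) : ℝ)| ≤ 2 / 3
        rw [mul_div_cancel₀ _ p.ne']
        have : (((3 * q.1 + s : ℤ) : ℝ) + 1 / 2) - ((3 * q.1 + (s + 1 : ℕ) : ℤ) : ℝ) = - (1 / 2) := by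
          push_cast
          ring
        rw [this, abs_neg, abs_of_pos (by norm_num)]
        norm_num
      · show |3 ^ (l + 1) * (((3 * q.2 + t : ℤ) : ℝ) / 3 ^ (l + 1))
          - ((3 * q.2 + t : ℤ) : ℝ)| ≤ 1 / 3
        rw [mul_div_cancel₀ _ p.ne', sub_self, abs_zero]
        norm_num
    exact ⟨step s t (s + 1) t (by omega) ht (by omega) ht m m1 m2,
      step (s + 1) t s t (by omega) ht (by omega) ht m m2 m1⟩
  have stepV : ∀ (s t : ℕ), s ≤ 3 → t < 3 →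
      κ * w (Y s t) ≤ w (Y s (t + 1)) ∧ κ * w (Y s (t + 1)) ≤ w (Y s t) := by
    intro s t hs ht
    obtain ⟨m, hm⟩ := (HI_edge hq (s := t) (t := s) (by omega) (by omega) (r := 1 / 2)
          (by norm_num)).2
    have p : (0 : ℝ) < 3 ^ (l + 1) := by positivity
    have m1 : fold (l + 1) (3 * q.1 + s, 3 * q.2 + t) m ∈ inner := by
      apply HI_fold
      right
      rw [hm]
      constructor
      · show |3 ^ (l + 1) * (((3 * q.1 + s : ℤ) : ℝ) / 3 ^ (l + 1))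
          - ((3 * q.1 + s : ℤ) : ℝ)| ≤ 1 / 3
        rw [mul_div_cancel₀ _ p.ne', sub_self, abs_zero]
        norm_num
      · show |3 ^ (l + 1) * ((((3 * q.2 + t : ℤ) : ℝ) + 1 / 2) / 3 ^ (l + 1))
          - ((3 * q.2 + t : ℤ) : ℝ)| ≤ 2 / 3
        rw [mul_div_cancel₀ _ p.ne', add_sub_cancel_left, abs_of_pos (by norm_num)]
        norm_num
    have m2 : fold (l + 1) (3 * q.1 + s, 3 * q.2 + (t + 1 : ℕ)) m ∈ inner := by
      apply HI_fold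
      right
      rw [hm]
      constructor
      · show |3 ^ (l + 1) * (((3 * q.1 + s : ℤ) : ℝ) / 3 ^ (l + 1))
          - ((3 * q.1 + s : ℤ) : ℝ)| ≤ 1 / 3
        rw [mul_div_cancel₀ _ p.ne', sub_self, abs_zero]
        norm_num
      · show |3 ^ (l + 1) * ((((3 * q.2 + t : ℤ) : ℝ) + 1 / 2) / 3 ^ (l + 1))
          - ((3 * q.2 + (t + 1 : ℕ) : ℤ) : ℝ)| ≤ 2 / 3
        rw [mul_div_cancel₀ _ p.ne']
        have : (((3 * q.2 + t : ℤ) : ℝ) + 1 / 2) - ((3 * q.2 + (t + 1 : ℕ) : ℤ) : ℝ) = - (1 / 2) := by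
          push_cast
          ring
        rw [this, abs_neg, abs_of_pos (by norm_num)]
        norm_num
    exact ⟨step s t s (t + 1) hs (by omega) hs (by omega) m m1 m2,
      step s (t + 1) s t hs (by omega) hs (by omega) m m2 m1⟩
  -- conclusion
  obtain ⟨s, t, hs, ht, hz'⟩ := HI_near hz
  obtain ⟨s', t', hs', ht', hx'⟩ := HI_near hx
  have e1 := A2 s t hs ht _ z (hY s t hs ht) hz'
  have e2 := HI_chain hκ0.le hκ1.le (fun i => w (Y i t)) (fun i hi => hYstar i t hi ht)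
    (fun i hi => stepH i t hi ht) hs hs'
  have e3 := HI_chain hκ0.le hκ1.le (fun i => w (Y s' i)) (fun i hi => hYstar s' i hs' hi)
    (fun i hi => stepV s' i hs' hi) ht ht'
  have e4 := A1 s' t' hs' ht' _ x (hY s' t' hs' ht') hx'
  have p3 : 0 ≤ κ ^ 3 := pow_nonneg hκ0.le 3
  calc κ ^ 7 * w z = c₀ * (κ ^ 3 * (κ ^ 3 * (c₀ / 4 * w z))) := by rw [hκ]; ring
    _ ≤ c₀ * (κ ^ 3 * (κ ^ 3 * w (Y s t))) :=
        mul_le_mul_of_nonneg_left (mul_le_mul_of_nonneg_left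
          (mul_le_mul_of_nonneg_left e1 p3) p3) hc0.le
    _ ≤ c₀ * (κ ^ 3 * w (Y s' t)) :=
        mul_le_mul_of_nonneg_left (mul_le_mul_of_nonneg_left e2 p3) hc0.le
    _ ≤ c₀ * w (Y s' t') := mul_le_mul_of_nonneg_left e3 hc0.le
    _ ≤ w x := e4

end CarpetLib
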