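import Pool.Agent.Lib.MP_f3090c_an.R.Nodal
import Pool.Agent.Lib.MP_f3090c_an.R.Glue

/-! D02: nodal lemma with one source. -/

open Set Filter Topology

namespace CarpetLib

variable {X : Type*} [MetricSpace X] [CompactSpace X]

/-- separation of a point from a component -/
private theorem nodalB_sep {Y : Type*} [TopologicalSpace Y] [CompactSpace Y] [T2Space Y]
    (P : Prop) (s y : Y) (h : P → s ∉ connectedComponent y) :
    ∃ A : Set Y, IsClopen A ∧ y ∈ A ∧ (P → s ∉ A) := by
  by_cases hi : P
  · have h2 := h hi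
    rw [connectedComponent_eq_iInter_isClopen, mem_iInter] at h2
    push Not at h2
    obtain ⟨⟨A, hA, hyA⟩, hs⟩ := h2
    exact ⟨A, hA, hyA, fun _ => hs⟩
  · exact ⟨univ, isClopen_univ, mem_univ y, fun h => absurd h hi⟩

/-- cutting a function along a closed set -/
private theorem nodalB_cut {A B : Set X} (hA : IsClosed A) (hB : IsClosed B) (hAB : Disjoint A B)
    (p : C(X, ℝ)) (hp : ∀ x, x ∉ A → x ∉ B → p x = 0)
    (hD : IsClosed {x | p x = 0}) :
    ∃ f : C(X, ℝ), (∀ x ∈ A, f x = p x) ∧ (∀ x, x ∉ A → f x = 0) := by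
  classical
  have hcont : Continuous (A.indicator p) := by
    have h1 : ContinuousOn (A.indicator p) A :=
      p.continuous.continuousOn.congr fun x hx => indicator_of_mem hx p
    have h2 : ContinuousOn (A.indicator p) (B ∪ {x | p x = 0}) := by
      refine (continuousOn_const (c := (0 : ℝ))).congr fun x hx => ?_
      rcases hx with hx | hx
      · exact indicator_of_notMem (fun h => disjoint_left.mp hAB h hx) p
      · by_cases hxA : x ∈ A
        · rw [indicator_of_mem hxA]
          exact hx
        · exact indicator_of_notMem hxA p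
    have h3 := h1.union_of_isClosed h2 hA (hB.union hD)
    have h4 : A ∪ (B ∪ {x | p x = 0}) = univ := by
      rw [eq_univ_iff_forall]
      intro x
      by_cases hxA : x ∈ A
      · exact Or.inl hxA
      · by_cases hxB : x ∈ B
        · exact Or.inr (Or.inl hxB)
        · exact Or.inr (Or.inr (hp x hxA hxB))
    rw [h4] at h3
    exact continuousOn_univ.mp h3
  exact ⟨⟨A.indicator p, hcont⟩, fun x hx => indicator_of_mem hx p,
    fun x hx => indicator_of_notMem hx p⟩

namespace RForm
variable (R : RForm X)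

/-- Nodal lemma with one source `b`.
Proof: copy the proof of `R/Nodal.lean` (`nodal`), see also NL' in /team-store/MP_f3090c_doubling.md section 1:
let `ε = v y / 2`, `S = {ε ≤ v}` compact. If `b` is not in the connected component of `y` in `S` (as a subspace),
there is a clopen part `A` of `S` with `y ∈ A`, `b ∉ A`. `f := (v - ε)⁺` on `A` and `0` elsewhere is continuous, lies in `dom`
(as in `nodal`), `f ≥ 0`, `f = 0` where `v ≤ 0`, `f b = 0`, and `E v f ≥ E f f` (as in `nodal`). So `E f f ≤ f b = 0`, `f` is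
constant, `f y > 0 = f b`, contradiction. Hence the component of `y` in `S` (its image in `X`) is the compact
preconnected set wanted. -/
theorem nodalB {v : C(X, ℝ)} (hv : v ∈ R.dom) {b : X}
    (h : ∀ f ∈ R.dom, (∀ x, 0 ≤ f x) → (∀ x, v x ≤ 0 → f x = 0) → R.E v f ≤ f b)
    {y : X} (hy : 0 < v y) : Joined' {x | 0 < v x} y b := by
  by_contra hcon
  set ε : ℝ := v y / 2 with hε
  have hε0 : 0 < ε := by positivity
  set S : Set X := {x | ε ≤ v x} with hS
  have hSc : IsClosed S := isClosed_le continuous_const v.continuous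
  have hyS : y ∈ S := by
    show ε ≤ v y
    rw [hε]
    linarith
  have : CompactSpace S := isCompact_iff_compactSpace.mp hSc.isCompact
  -- the source in `S`, as a point of the subtype (with a dummy value elsewhere)
  classical
  let b' : S := if h : b ∈ S then ⟨b, h⟩ else ⟨y, hyS⟩
  have hb' : b ∈ S → ((b' : S) : X) = b := fun hi => by
    simp only [b', dif_pos hi]
  obtain ⟨A', hA', hyA', hsA'⟩ := nodalB_sep (Y := S) (b ∈ S) b' ⟨y, hyS⟩ (by
    intro hiS hmem
    refine hcon ⟨Subtype.val '' connectedComponent (⟨y, hyS⟩ : S), ?_, ?_, ?_, ?_, ?_⟩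
    · exact isClosed_connectedComponent.isCompact.image continuous_subtype_val
    · exact isPreconnected_connectedComponent.image _ continuous_subtype_val.continuousOn
    · rintro _ ⟨z, -, rfl⟩
      exact hε0.trans_le z.2
    · exact ⟨_, mem_connectedComponent, rfl⟩
    · exact ⟨b', hmem, hb' hiS⟩)
  set A : Set X := Subtype.val '' A' with hAdef
  set B : Set X := Subtype.val '' A'ᶜ with hBdef
  have hemb : IsClosedEmbedding (Subtype.val : S → X) := hSc.isClosedEmbedding_subtypeVal
  have hA : IsClosed A := hemb.isClosedMap _ hA'.1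
  have hB : IsClosed B := hemb.isClosedMap _ hA'.compl.1
  have hAB : Disjoint A B := by
    rw [disjoint_left]
    rintro _ ⟨z, hz, rfl⟩ ⟨z', hz', h⟩
    rw [Subtype.val_injective h] at hz'
    exact hz' hz
  have hAS : A ⊆ S := by
    rintro _ ⟨z, -, rfl⟩
    exact z.2
  have hBS : B ⊆ S := by
    rintro _ ⟨z, -, rfl⟩
    exact z.2
  have hcov : ∀ x ∈ S, x ∈ A ∨ x ∈ B := by
    intro x hx
    by_cases h : (⟨x, hx⟩ : S) ∈ A'
    · exact Or.inl ⟨_, h, rfl⟩
    · exact Or.inr ⟨_, h, rfl⟩
  have hyA : y ∈ A := ⟨_, hyA', rfl⟩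
  have hbA : b ∉ A := by
    rintro ⟨z, hz, hzs⟩
    have hiS : b ∈ S := by
      rw [← hzs]
      exact z.2
    refine hsA' hiS ?_
    have : b' = z := Subtype.ext ((hb' hiS).trans hzs.symm)
    rw [this]
    exact hz
  -- the functions
  set c : C(X, ℝ) := ContinuousMap.const X ε with hc
  have hcm : c ∈ R.dom := R.const_mem ε
  set p : C(X, ℝ) := (v - c) ⊔ 0 with hp
  set n : C(X, ℝ) := (c - v) ⊔ 0 with hn
  have hpm : p ∈ R.dom := R.sup_mem (R.dom.sub_mem hv hcm) R.dom.zero_mem
  have hnm : n ∈ R.dom := R.sup_mem (R.dom.sub_mem hcm hv) R.dom.zero_mem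
  have hpx : ∀ x, p x = max (v x - ε) 0 := fun x => rfl
  have hnx : ∀ x, n x = max (ε - v x) 0 := fun x => rfl
  have hp0 : ∀ x, x ∉ S → p x = 0 := by
    intro x hx
    have : v x < ε := not_le.mp hx
    rw [hpx, max_eq_right (by linarith)]
  have hpz : ∀ x, x ∉ A → x ∉ B → p x = 0 := by
    intro x hxA hxB
    refine hp0 x fun hx => ?_
    rcases hcov x hx with h | h
    · exact hxA h
    · exact hxB h
  have hDc : IsClosed {x | p x = 0} := isClosed_eq p.continuous continuous_const
  obtain ⟨f₁, hf1, hf1'⟩ := nodalB_cut hA hB hAB p hpz hDc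
  obtain ⟨f₂, hf2, hf2'⟩ := nodalB_cut hB hA hAB.symm p (fun x h h' => hpz x h' h) hDc
  have hsum : f₁ + f₂ = p := by
    ext x
    show f₁ x + f₂ x = p x
    by_cases hxA : x ∈ A
    · rw [hf1 x hxA, hf2' x (fun h => disjoint_left.mp hAB hxA h), add_zero]
    · by_cases hxB : x ∈ B
      · rw [hf1' x hxA, hf2 x hxB, zero_add]
      · rw [hf1' x hxA, hf2' x hxB, hpz x hxA hxB, add_zero]
  have hts : ∀ (f : C(X, ℝ)) (T : Set X), IsClosed T → (∀ x, x ∉ T → f x = 0) → tsupport f ⊆ T := by
    intro f T hT h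
    refine closure_minimal (fun x hx => ?_) hT
    by_contra hxT
    exact hx (h x hxT)
  obtain ⟨h1m, h2m, h12⟩ := R.loc f₁ f₂ (by rw [hsum]; exact hpm)
    (hAB.mono (hts f₁ A hA hf1') (hts f₂ B hB hf2'))
  have hf1nn : ∀ x, 0 ≤ f₁ x := by
    intro x
    by_cases hxA : x ∈ A
    · rw [hf1 x hxA, hpx]
      exact le_max_right _ _
    · rw [hf1' x hxA]
  have hf1le : (0 : C(X, ℝ)) ≤ f₁ := fun x => hf1nn x
  -- the energy
  have hE : R.E f₁ f₁ ≤ R.E v f₁ := by
    have e1 : v = c + (p - n) := by
      ext x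
      show v x = ε + (p x - n x)
      rw [hpx, hnx]
      rcases le_total ε (v x) with h | h
      · rw [max_eq_left (by linarith), max_eq_right (by linarith)]
        ring
      · rw [max_eq_right (by linarith), max_eq_left (by linarith)]
        ring
    have e2 : R.E v f₁ = R.E c f₁ + (R.E f₁ f₁ + R.E f₂ f₁ - R.E n f₁) := by
      conv_lhs => rw [e1, ← hsum]
      simp only [map_add, map_sub, LinearMap.add_apply, LinearMap.sub_apply]
    have e3 : R.E n f₁ ≤ 0 := by
      refine R.E_disj_nonpos hnm h1m (fun x => ?_) hf1le (fun x => ?_)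
      · show (0 : ℝ) ≤ n x
        rw [hnx]
        exact le_max_right _ _
      · by_cases hx : x ∈ S
        · left
          have : ε ≤ v x := hx
          rw [hnx, max_eq_right (by linarith)]
        · right
          exact hf1' x fun h => hx (hAS h)
    rw [e2, R.E_const_left, R.symm f₂ f₁, h12]
    linarith
  have hE0 := R.nonneg f₁
  have hb0 : f₁ b = 0 := hf1' b hbA
  have hle : R.E v f₁ ≤ f₁ b := h f₁ h1m hf1nn fun x hx => by
    refine hf1' x fun hxA => ?_
    have : ε ≤ v x := hAS hxA
    linarith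
  have hEz : R.E f₁ f₁ = 0 := by linarith
  have hconst := R.const_of_zero f₁ h1m hEz
  have hfy : f₁ y = ε := by
    rw [hf1 y hyA, hpx, hε, max_eq_left (by linarith)]
    ring
  have hyb : f₁ y = f₁ b := hconst y b
  linarith

end RForm

end CarpetLib
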