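import Pool.Agent.Lib.MP_f3090c_an.D.SitDefs
import Pool.Agent.Lib.MP_f3090c_an.D.NodalB

/-! D23: 5.6 of the paper proof. -/

open Set Filter Topology

namespace CarpetLib

private theorem join_aux {S : SymForm} {δ : ℝ} {H' : C(K, ℝ)} (hH : H' ∈ S.dom) {b : K}
    (h : ∀ f ∈ S.dom, (∀ x, 0 ≤ f x) → (∀ x, H' x ≤ δ → f x = 0) → S.E H' f ≤ f b)
    {y₁ y₂ : K} (h1 : δ < H' y₁) (h2 : δ < H' y₂) :
    ∃ A : Set K, IsCompact A ∧ IsPreconnected A ∧ y₁ ∈ A ∧ y₂ ∈ A ∧ ∀ x ∈ A, δ < H' x := by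
  set v : C(K, ℝ) := H' - ContinuousMap.const K δ with hv
  have hvx : ∀ x, v x = H' x - δ := fun x => rfl
  have hvd : v ∈ S.toRForm.dom := S.dom.sub_mem hH (S.toRForm.const_mem δ)
  have key : ∀ f ∈ S.toRForm.dom, (∀ x, 0 ≤ f x) → (∀ x, v x ≤ 0 → f x = 0) →
      S.toRForm.E v f ≤ f b := by
    intro f hf hf0 hfz
    have e : S.toRForm.E v f = S.toRForm.E H' f := by
      rw [hv, map_sub, LinearMap.sub_apply, S.toRForm.E_const_left, sub_zero]
    rw [e]
    exact h f hf hf0 fun x hx => hfz x (by rw [hvx]; linarith)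
  obtain ⟨A1, a1, a2, a3, a4, a5⟩ := S.toRForm.nodalB hvd key (y := y₁) (by rw [hvx]; linarith)
  obtain ⟨A2, b1, b2, b3, b4, b5⟩ := S.toRForm.nodalB hvd key (y := y₂) (by rw [hvx]; linarith)
  refine ⟨A1 ∪ A2, a1.union b1, a2.union b a5 b5 b2, Or.inl a4, Or.inr b4, ?_⟩
  rintro x (hx | hx)
  · have := a3 hx
    have h3 : 0 < v x := this
    rw [hvx] at h3
    linarith
  · have := b3 hx
    have h3 : 0 < v x := this
    rw [hvx] at h3
    linarith

/-- 5.6. `g i true`, `z i true` belong to the sign `+`, `g i false`, `z i false` to the sign `-`.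
Proof: section 5.6 with `s i = s j = -`, `s k = s l = +`: `ψ = - g i false - g j false + g k true + g l true`, `τ = 5 δ / c³`, `H' = H - τ ψ`.
On `Z`: `|H'| = |H| < δ`. `H' (y i) ≥ - δ + τ (c³ - 3 η) > δ`, same for `j`; `H' (y k), H' (y l) < - δ`. `H' (z i false) ≤ - K3 c δ + 4 τ = 0` ..., `H' (z k true) ≥ 0`.
`E H' f = f c00 - f c11 - τ Σ (sign) κ f(z)` for `f ∈ domZ Z`. `nodalB` with `v = H' - δ`, `b = c00` gives continua from `y i`, `y j` to `c00` in `{H' > δ}`; with `v = - H' - δ`,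
`b = c11` from `y k`, `y l` to `c11` in `{H' < - δ}`. `A`, `B` = the unions. -/
theorem join {S : SymForm} {c δ : ℝ} (hc : 0 < c) (hδ : 0 < δ) {H : C(K, ℝ)} (pole : IsPole S H)
    {Z : Set K} (hZ : ∀ t ∈ Z, |H t| < δ) {y : Fin 4 → K} (hy : ∀ i, |H (y i)| < δ)
    {z : Fin 4 → Bool → K} (hzt : ∀ i, K3 c * δ ≤ H (z i true))
    (hzf : ∀ i, K3 c * δ ≤ - H (z i false)) {g : Fin 4 → Bool → C(K, ℝ)}
    (hg : ∀ i s, g i s ∈ S.domZ Z) (g01 : ∀ i s t, 0 ≤ g i s t ∧ g i s t ≤ 1)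
    {κ : Fin 4 → Bool → ℝ} (hκ : ∀ i s, 0 < κ i s)
    (hE : ∀ i s, ∀ f ∈ S.domZ Z, S.E (g i s) f = κ i s * f (z i s))
    (low : ∀ i s, c ^ 3 ≤ g i s (y i)) {η : ℝ} (hη : 3 * η ≤ c ^ 3 / 2)
    (dec : ∀ i j s, i ≠ j → g j s (y i) ≤ η)
    {i j k l : Fin 4} (hij : i ≠ j) (hik : i ≠ k) (hil : i ≠ l) (hjk : j ≠ k) (hjl : j ≠ l)
    (hkl : k ≠ l) :
    ∃ A B : Set K, IsCompact A ∧ IsPreconnected A ∧ IsCompact B ∧ IsPreconnected B ∧
      y i ∈ A ∧ y j ∈ A ∧ y k ∈ B ∧ y l ∈ B ∧ Disjoint A B ∧ Disjoint A Z ∧ Disjoint B Z := by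
  have hc3 : 0 < c ^ 3 := by positivity
  set τ : ℝ := 5 * δ / c ^ 3 with hτ
  have hτ0 : 0 < τ := by positivity
  have hτc : τ * c ^ 3 = 5 * δ := by rw [hτ]; field_simp
  have hK : K3 c * δ = 4 * τ := by rw [K3, hτ]; ring
  set ψ : C(K, ℝ) := - g i false - g j false + g k true + g l true with hψ
  have hψx : ∀ x, ψ x = - g i false x - g j false x + g k true x + g l true x := fun x => rfl
  set H' : C(K, ℝ) := H - τ • ψ with hH'
  have hHx : ∀ x, H' x = H x - τ * ψ x := fun x => rfl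
  have hψd : ψ ∈ S.dom := S.dom.add_mem (S.dom.add_mem (S.dom.sub_mem (S.dom.neg_mem
    (hg i false).1) (hg j false).1) (hg k true).1) (hg l true).1
  have hHd : H' ∈ S.dom := S.dom.sub_mem pole.1 (S.dom.smul_mem τ hψd)
  have hη0 : 0 ≤ η := (g01 j false (y i)).1.trans (dec i j false hij)
  -- on `Z`
  have onZ : ∀ t ∈ Z, |H' t| < δ := by
    intro t ht
    have : ψ t = 0 := by
      rw [hψx, (hg i false).2 t ht, (hg j false).2 t ht, (hg k true).2 t ht, (hg l true).2 t ht]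
      simp
    rw [hHx, this, mul_zero, sub_zero]
    exact hZ t ht
  -- values at the points `y`
  have vm : ∀ a, ψ (y a) ≤ -(c ^ 3 / 2) → δ < H' (y a) := by
    intro a ha
    have h1 := abs_lt.1 (hy a)
    have h2 : τ * ψ (y a) ≤ τ * -(c ^ 3 / 2) := mul_le_mul_of_nonneg_left ha hτ0.le
    rw [hHx]
    nlinarith
  have vp : ∀ a, c ^ 3 / 2 ≤ ψ (y a) → H' (y a) < -δ := by
    intro a ha
    have h1 := abs_lt.1 (hy a)
    have h2 : τ * (c ^ 3 / 2) ≤ τ * ψ (y a) := mul_le_mul_of_nonneg_left ha hτ0.le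
    rw [hHx]
    nlinarith
  have yi : δ < H' (y i) := vm i (by
    rw [hψx]
    linarith [low i false, (g01 j false (y i)).1, dec i k true hik, dec i l true hil])
  have yj : δ < H' (y j) := vm j (by
    rw [hψx]
    linarith [low j false, (g01 i false (y j)).1, dec j k true hjk, dec j l true hjl])
  have yk : H' (y k) < -δ := vp k (by
    rw [hψx]
    linarith [low k true, (g01 l true (y k)).1, dec k i false hik.symm, dec k j false hjk.symm])
  have yl : H' (y l) < -δ := vp l (by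
    rw [hψx]
    linarith [low l true, (g01 k true (y l)).1, dec l i false hil.symm, dec l j false hjl.symm])
  -- values at the points `z`
  have psi_lo : ∀ x, -2 ≤ ψ x := fun x => by
    rw [hψx]
    linarith [(g01 i false x).2, (g01 j false x).2, (g01 k true x).1, (g01 l true x).1]
  have psi_hi : ∀ x, ψ x ≤ 2 := fun x => by
    rw [hψx]
    linarith [(g01 i false x).1, (g01 j false x).1, (g01 k true x).2, (g01 l true x).2]
  have zf : ∀ a, H' (z a false) ≤ 0 := by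
    intro a
    have h1 := hzf a
    have h2 : τ * (-2) ≤ τ * ψ (z a false) := mul_le_mul_of_nonneg_left (psi_lo _) hτ0.le
    rw [hHx]
    linarith
  have zt : ∀ a, 0 ≤ H' (z a true) := by
    intro a
    have h1 := hzt a
    have h2 : τ * ψ (z a true) ≤ τ * 2 := mul_le_mul_of_nonneg_left (psi_hi _) hτ0.le
    rw [hHx]
    linarith
  -- energies
  have hEf : ∀ f ∈ S.domZ Z, S.E H' f = f c00 - f c11 - τ * (- (κ i false * f (z i false)) -
      κ j false * f (z j false) + κ k true * f (z k true) + κ l true * f (z l true)) := by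
    intro f hf
    rw [hH', map_sub, LinearMap.sub_apply, map_smul, LinearMap.smul_apply, pole.2 f hf.1, hψ,
      map_add, map_add, map_sub, map_neg, LinearMap.add_apply, LinearMap.add_apply,
      LinearMap.sub_apply, LinearMap.neg_apply, hE i false f hf, hE j false f hf, hE k true f hf,
      hE l true f hf, smul_eq_mul]
  obtain ⟨A, A1, A2, A3, A4, A5⟩ := join_aux (S := S) (δ := δ) hHd (b := c00) (by
    intro f hf hf0 hfz
    have hfZ : f ∈ S.domZ Z := ⟨hf, fun t ht => hfz t (abs_lt.1 (onZ t ht)).2.le⟩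
    rw [hEf f hfZ, hfz _ ((zf i).trans hδ.le), hfz _ ((zf j).trans hδ.le)]
    have h1 : 0 ≤ τ * (κ k true * f (z k true) + κ l true * f (z l true)) :=
      mul_nonneg hτ0.le (add_nonneg (mul_nonneg (hκ k true).le (hf0 _))
        (mul_nonneg (hκ l true).le (hf0 _)))
    have h2 := hf0 c11
    nlinarith) yi yj
  obtain ⟨B, B1, B2, B3, B4, B5⟩ := join_aux (S := S) (δ := δ) (H' := -H')
    (S.dom.neg_mem hHd) (b := c11) (by
    intro f hf hf0 hfz
    have hfz' : ∀ x, -δ ≤ H' x → f x = 0 := fun x hx => hfz x (by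
      rw [ContinuousMap.neg_apply]; linarith)
    have hfZ : f ∈ S.domZ Z := ⟨hf, fun t ht => hfz' t (abs_lt.1 (onZ t ht)).1.le⟩
    rw [map_neg, LinearMap.neg_apply, hEf f hfZ, hfz' (z k true) (by linarith [zt k]),
      hfz' (z l true) (by linarith [zt l])]
    have h1 : 0 ≤ τ * (κ i false * f (z i false) + κ j false * f (z j false)) :=
      mul_nonneg hτ0.le (add_nonneg (mul_nonneg (hκ i false).le (hf0 _))
        (mul_nonneg (hκ j false).le (hf0 _)))
    have h2 := hf0 c00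
    nlinarith) (y₁ := y k) (y₂ := y l) (by rw [ContinuousMap.neg_apply]; linarith)
      (by rw [ContinuousMap.neg_apply]; linarith)
  have B5' : ∀ x ∈ B, H' x < -δ := fun x hx => by
    have := B5 x hx
    rw [ContinuousMap.neg_apply] at this
    linarith
  refine ⟨A, B, A1, A2, B1, B2, A3, A4, B3, B4, ?_, ?_, ?_⟩
  · rw [Set.disjoint_left]
    intro x hx hx'
    linarith [A5 x hx, B5' x hx']
  · rw [Set.disjoint_left]
    intro x hx hx'
    linarith [A5 x hx, (abs_lt.1 (onZ x hx')).2]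
  · rw [Set.disjoint_left]
    intro x hx hx'
    linarith [B5' x hx, (abs_lt.1 (onZ x hx')).1]

end CarpetLib
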