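import Pool.Agent.Lib.MP_f3090c_an.D.Defs

/-! D25a: pigeonhole for scales. -/

open Set Filter Topology

namespace CarpetLib

/-- pigeonhole for scales -/
theorem pigeon_scale {ι : Type*} (s : Finset ι) (σ : ι → ℝ) {Γ ε : ℝ} (hΓ : 1 < Γ) (hε : 0 < ε) :
    ∃ t ≤ s.card, ∀ i ∈ s, σ i < Γ ^ t * ε ∨ Γ ^ (t + 1) * ε ≤ σ i := by
  by_contra hcon
  have h : ∀ t : ℕ, ∃ i, t ≤ s.card → i ∈ s ∧ Γ ^ t * ε ≤ σ i ∧ σ i < Γ ^ (t + 1) * ε := by
    intro t
    by_cases ht : t ≤ s.card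
    · have h1 : ¬ ∀ i ∈ s, σ i < Γ ^ t * ε ∨ Γ ^ (t + 1) * ε ≤ σ i :=
        fun h' => hcon ⟨t, ht, h'⟩
      push Not at h1
      obtain ⟨i, hi, h2, h3⟩ := h1
      exact ⟨i, fun _ => ⟨hi, h2, h3⟩⟩
    · have h1 : ¬ ∀ i ∈ s, σ i < Γ ^ 0 * ε ∨ Γ ^ (0 + 1) * ε ≤ σ i :=
        fun h' => hcon ⟨0, Nat.zero_le _, h'⟩
      push Not at h1
      obtain ⟨i, _⟩ := h1
      exact ⟨i, fun h => absurd h ht⟩
  choose f hf using h
  have hlt : ∀ a b : ℕ, a ≤ s.card → b ≤ s.card → a < b → f a ≠ f b := by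
    intro a b ha hb hab he
    have h1 := (hf a ha).2.2
    have h2 := (hf b hb).2.1
    rw [he] at h1
    have h3 : Γ ^ (a + 1) ≤ Γ ^ b := pow_le_pow_right₀ hΓ.le hab
    have h4 := mul_le_mul_of_nonneg_right h3 hε.le
    linarith
  obtain ⟨a, ha, b, hb, hab, he⟩ := Finset.exists_ne_map_eq_of_card_lt_of_maps_to
    (s := Finset.range (s.card + 1)) (t := s) (f := f) (by simp)
    (fun a ha => (hf a (by
      have := Finset.mem_range.1 (Finset.mem_coe.1 ha)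
      omega)).1)
  have ha' : a ≤ s.card := by have := Finset.mem_range.1 ha; omega
  have hb' : b ≤ s.card := by have := Finset.mem_range.1 hb; omega
  rcases lt_or_gt_of_ne hab with h | h
  · exact hlt a b ha' hb' h he
  · exact hlt b a hb' ha' h he.symm

end CarpetLib
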