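import Pool.Agent.Lib.MP_f3090c_an.D.SitFalse
import Pool.Agent.Lib.MP_f3090c_an.D.HI
import Pool.Agent.Lib.MP_f3090c_an.D.Pigeon

/-! D25: the main claim (OD). -/

open Set Filter Topology

namespace CarpetLib

/-- the window as a box of indices -/
private noncomputable def win (m : ℕ) (Q : Ix) : Finset Ix :=
  (Finset.Icc ((Q.1 - 12) * 3 ^ m) ((Q.1 + 13) * 3 ^ m - 1)) ×ˢ
    (Finset.Icc ((Q.2 - 12) * 3 ^ m) ((Q.2 + 13) * 3 ^ m - 1))

private theorem win_card (m : ℕ) (Q : Ix) : (win m Q).card = (25 * 3 ^ m) ^ 2 := by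
  have h : ∀ a : ℤ, (Finset.Icc ((a - 12) * 3 ^ m) ((a + 13) * 3 ^ m - 1)).card = 25 * 3 ^ m := by
    intro a
    rw [Int.card_Icc]
    have e : (a + 13) * 3 ^ m - 1 + 1 - (a - 12) * 3 ^ m = ((25 * 3 ^ m : ℕ) : ℤ) := by
      push_cast
      ring
    rw [e, Int.toNat_natCast]
  rw [win, Finset.card_product, h, h, sq]

private theorem mem_coord {m : ℕ} {a x : ℤ} (h : |a - x / 3 ^ m| ≤ 12) :
    (a - 12) * 3 ^ m ≤ x ∧ x ≤ (a + 13) * 3 ^ m - 1 := by
  have hM : (0 : ℤ) < 3 ^ m := by positivity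
  obtain ⟨h1, h2⟩ := abs_le.1 h
  have k1 := Int.mul_ediv_self_le (x := x) hM.ne'
  have k2 := Int.lt_mul_ediv_self_add (x := x) hM
  constructor
  · have : (a - 12) * 3 ^ m ≤ (x / 3 ^ m) * 3 ^ m :=
      mul_le_mul_of_nonneg_right (by linarith) hM.le
    linarith [mul_comm (3 ^ m : ℤ) (x / 3 ^ m)]
  · have : (x / 3 ^ m) * 3 ^ m ≤ (a + 12) * 3 ^ m :=
      mul_le_mul_of_nonneg_right (by linarith) hM.le
    have e : (a + 13) * 3 ^ m = (a + 12) * 3 ^ m + 3 ^ m := by ring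
    rw [e]
    have := mul_comm (3 ^ m : ℤ) (x / 3 ^ m)
    omega

private theorem mem_win {m : ℕ} {Q x : Ix} (h : Near 12 Q (par m x)) : x ∈ win m Q := by
  obtain ⟨h1, h2⟩ := h
  have k1 := mem_coord (m := m) h1
  have k2 := mem_coord (m := m) h2
  simp only [win, Finset.mem_product, Finset.mem_Icc]
  exact ⟨k1, k2⟩

/-- a sup attained on present cells -/
private theorem exists_sup (H : C(K, ℝ)) (l : ℕ) (x : Ix) :
    ∃ s : ℝ, (∀ z ∈ cell l x, |H z| ≤ s) ∧ (Pres l x → ∃ z ∈ cell l x, |H z| = s) := by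
  by_cases hx : (cell l x).Nonempty
  · have hc : IsCompact (cell l x) := (cell_closed l x).isCompact
    have hcont : ContinuousOn (fun z => |H z|) (cell l x) :=
      (continuous_abs.comp H.continuous).continuousOn
    obtain ⟨z, hz, hmax⟩ := hc.exists_isMaxOn hx hcont
    exact ⟨|H z|, fun y hy => hmax hy, fun _ => ⟨z, hz, rfl⟩⟩
  · exact ⟨0, fun z hz => absurd ⟨z, hz⟩ hx, fun hP => absurd (cell_nonempty hP) hx⟩

/-- (OD). Proof: `c` from `exists_harnack`; `m ≥ 5` with `3 (1-c²)^(m-4) ≤ c³/2`; `Γ = Gam c > 1`; the window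
`{x | Pres (n+m) x, Near 12 Q (par m x)}` has at most `M = (25 * 3^m)^2` elements (independent of `n`); `Λ = 2 Γ^(M+1)`.
If `OscLe h (cell n p) r` but not `OscLe h (cell n q) (Λ r)`: points `z, z' ∈ cell n q` with `|h z - h z'| > Λ r`; choose `ε > r` with
`|h z - h z'| > Λ ε`; `c* = h x₁`, `x₁ ∈ cell n p`, `H = h - c*`; one of `|H z|, |H z'|` is `> Λ ε / 2 = Γ^(M+1) ε`. `pigeon_scale` with `σ x = max of |H| on cell x`
gives `δ = Γ^t ε`; `Sit.false`. -/
theorem exists_od (S : SymForm) : ∃ Λ : ℝ, 0 < Λ ∧ OscDoubling S Λ := by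
  obtain ⟨c, hc0, hc1, har⟩ := exists_harnack S
  have hc2 : c ^ 2 < 1 := by nlinarith
  have hq0 : 0 < 1 - c ^ 2 := by linarith
  have hq1 : 1 - c ^ 2 < 1 := by
    have : 0 < c ^ 2 := by positivity
    linarith
  obtain ⟨k, hk⟩ := exists_pow_lt_of_lt_one (show (0 : ℝ) < c ^ 3 / 6 by positivity) hq1
  obtain ⟨m, hm5, hmdec⟩ : ∃ m : ℕ, 5 ≤ m ∧ 3 * (1 - c ^ 2) ^ (m - 4) ≤ c ^ 3 / 2 := by
    refine ⟨k + 5, by omega, ?_⟩
    have e : k + 5 - 4 = k + 1 := by omega
    rw [e, pow_succ]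
    have h0 : 0 < (1 - c ^ 2) ^ k := pow_pos hq0 k
    have h1 : (1 - c ^ 2) ^ k * (1 - c ^ 2) ≤ (1 - c ^ 2) ^ k * 1 :=
      mul_le_mul_of_nonneg_left hq1.le h0.le
    linarith
  have hK3 : 0 < K3 c := by
    rw [K3]
    positivity
  have hG1 : 1 < Gam c := by
    rw [Gam, lt_div_iff₀ hc0]
    linarith
  have hG0 : 0 < Gam c := by linarith
  set M : ℕ := (25 * 3 ^ m) ^ 2 with hM
  have hΛ0 : 0 < 2 * Gam c ^ (M + 1) := by positivity
  refine ⟨2 * Gam c ^ (M + 1), hΛ0, ?_⟩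
  intro h hh n p q hp hq hpq hfar r hr hosc z hz z' hz'
  by_contra hcon
  rw [not_le] at hcon
  -- the number `ε`
  obtain ⟨ε, hε1, hε2⟩ : ∃ ε, r < ε ∧ ε < |h z - h z'| / (2 * Gam c ^ (M + 1)) := by
    refine exists_between ?_
    rw [lt_div_iff₀ hΛ0]
    linarith [mul_comm r (2 * Gam c ^ (M + 1))]
  have hε0 : 0 < ε := lt_of_le_of_lt hr hε1
  rw [lt_div_iff₀ hΛ0] at hε2
  obtain ⟨x₁, hx₁⟩ := cell_nonempty hp
  set H : C(K, ℝ) := h - ContinuousMap.const K (h x₁) with hH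
  have hHz : ∀ y, H y = h y - h x₁ := fun y => rfl
  have hpole : IsPole S H := by
    refine ⟨S.dom.sub_mem hh.1 (S.toRForm.const_mem _), fun v hv => ?_⟩
    rw [hH, map_sub, LinearMap.sub_apply, S.toRForm.E_const_left, sub_zero, hh.2 v hv]
  choose σ hσ1 hσ2 using exists_sup H (n + m)
  obtain ⟨t, ht, hpig⟩ := pigeon_scale (win m p) σ hG1 hε0
  rw [win_card, ← hM] at ht
  have hGt : 1 ≤ Gam c ^ t := one_le_pow₀ hG1.le
  have hδ : 0 < Gam c ^ t * ε := by positivity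
  have hsmallp : ∀ y ∈ cell n p, |H y| < Gam c ^ t * ε := by
    intro y hy
    have h1 : |H y| ≤ r := by
      rw [hHz]
      exact hosc y hy x₁ hx₁
    have h2 : ε ≤ Gam c ^ t * ε := le_mul_of_one_le_left hε0.le hGt
    linarith
  have hGe : Gam c * (Gam c ^ t * ε) ≤ Gam c ^ (M + 1) * ε := by
    have h1 : Gam c ^ (t + 1) ≤ Gam c ^ (M + 1) := pow_le_pow_right₀ hG1.le (by omega)
    have h2 : Gam c * (Gam c ^ t * ε) = Gam c ^ (t + 1) * ε := by
      rw [pow_succ]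
      ring
    rw [h2]
    exact mul_le_mul_of_nonneg_right h1 hε0.le
  have hbig : ∃ y ∈ cell n q, Gam c * (Gam c ^ t * ε) < |H y| := by
    by_contra hno
    push Not at hno
    have k1 := hno z hz
    have k2 := hno z' hz'
    have k3 : |h z - h z'| ≤ |H z| + |H z'| := by
      have : h z - h z' = H z - H z' := by
        rw [hHz, hHz]
        ring
      rw [this]
      exact abs_sub _ _
    linarith
  refine Sit.false (S := S) (c := c) (n := n) (m := m) (Q := p) (Q2 := q) (H := H)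
    (δ := Gam c ^ t * ε)
    { hc0 := hc0
      hc1 := hc1
      har := har
      hm := hm5
      dec := hmdec
      pole := hpole
      hQ := hp
      hQ2 := hq
      near := hpq
      far := hfar
      hδ := hδ
      dich := ?_
      small := ?_
      big := hbig }
  · intro x hx hnx
    rcases hpig x (mem_win hnx) with hs | hs
    · left
      intro y hy
      exact lt_of_le_of_lt (hσ1 x y hy) hs
    · right
      obtain ⟨y, hy, hye⟩ := hσ2 x hx
      refine ⟨y, hy, ?_⟩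
      rw [hye]
      have h2 : Gam c * (Gam c ^ t * ε) = Gam c ^ (t + 1) * ε := by
        rw [pow_succ]
        ring
      rw [h2]
      exact hs
  · intro x hx hpx y hy
    have h1 := cell_par n m x hy
    rw [hpx] at h1
    exact hsmallp y h1

end CarpetLib
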