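import Pool.Agent.Lib.MP_f3090c_an.R.Green
import Pool.Agent.Lib.MP_f3090c_an.R.HarmMeas

/-! D03: normalised Green potentials, the pole function. -/

open Set Filter Topology

namespace CarpetLib

variable {X : Type*} [MetricSpace X] [CompactSpace X]

namespace RForm
variable (R : RForm X)

omit [CompactSpace X] in
private theorem pot_good {Z : Set X} (hZ : IsClosed Z) (hne : Z.Nonempty) :
    Good (0 : C(X, ℝ) →ₗ[ℝ] ℝ) Z := ⟨fun _ _ => by simp, hZ, Or.inr hne⟩

private theorem pot_Q (a b : C(X, ℝ)) : R.Q 0 a b = R.E a b := by simp [Q]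

/-- normalised Dirichlet Green function with pole `z`.
Proof: `exists_green` with `κ = 0`: `γ = g z`, `green_diag_pos`, `g := γ / γ(z)`, `k = 1 / γ(z)`; `green_nonneg`, `green_le_diag`;
the last statement is `harmonic_measure_le` with `f = -v`, `c = 0`. -/
theorem exists_pot {Z : Set X} (hZ : IsClosed Z) (hne : Z.Nonempty) {z : X} (hz : z ∉ Z) :
    ∃ g ∈ R.domZ Z, ∃ k : ℝ, 0 < k ∧ (∀ x, 0 ≤ g x ∧ g x ≤ 1) ∧ g z = 1 ∧
      (∀ f ∈ R.domZ Z, R.E g f = k * f z) ∧
      ∀ v ∈ R.dom, (∀ x, 0 ≤ v x) → R.E g v ≤ k * v z := by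
  have hgood := pot_good hZ hne
  obtain ⟨γ, hγ⟩ := R.exists_green hgood
  have hpos : 0 < γ z z := R.green_diag_pos hgood hγ hz
  have hE : ∀ f ∈ R.domZ Z, R.E (γ z) f = f z := by
    intro f hf
    rw [← R.pot_Q]
    exact (hγ z).2 f hf
  refine ⟨(γ z z)⁻¹ • γ z, (R.domZ Z).smul_mem _ (hγ z).1, (γ z z)⁻¹, inv_pos.2 hpos,
    fun x => ⟨?_, ?_⟩, ?_, fun f hf => ?_, fun v hv hv0 => ?_⟩
  · rw [ContinuousMap.smul_apply, smul_eq_mul]
    exact mul_nonneg (inv_pos.2 hpos).le (R.green_nonneg hgood hγ x z)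
  · rw [ContinuousMap.smul_apply, smul_eq_mul, inv_mul_le_iff₀ hpos, mul_one]
    exact R.green_le_diag hgood hγ x z
  · rw [ContinuousMap.smul_apply, smul_eq_mul, inv_mul_cancel₀ hpos.ne']
  · rw [map_smul, LinearMap.smul_apply, smul_eq_mul, hE f hf]
  · rw [map_smul, LinearMap.smul_apply, smul_eq_mul]
    refine mul_le_mul_of_nonneg_left ?_ (inv_pos.2 hpos).le
    have h1 := R.harmonic_measure_le hZ hne (hγ z).1 hE (R.dom.neg_mem hv) (c := 0)
      (fun x _ => by
        rw [ContinuousMap.neg_apply]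
        linarith [hv0 x])
    rw [map_neg, ContinuousMap.neg_apply] at h1
    linarith

/-- the function with unit source at `x` and unit sink at `y`.
Proof: if `x = y` take `0`. Otherwise take the Green function `g` of `Z = {y}` with pole `x`: for `v ∈ dom`, `v - v y ∈ domZ {y}`
(constants have zero energy: `E_const_right`), so `E g v = v x - v y`. -/
theorem exists_pole (x y : X) : ∃ h ∈ R.dom, ∀ v ∈ R.dom, R.E h v = v x - v y := by
  by_cases hxy : x = y
  · subst hxy
    refine ⟨0, R.dom.zero_mem, fun v _ => ?_⟩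
    rw [map_zero, LinearMap.zero_apply, sub_self]
  · obtain ⟨γ, hγ⟩ := R.exists_green (pot_good (isClosed_singleton (x := y)) ⟨y, rfl⟩)
    refine ⟨γ x, (hγ x).1.1, fun v hv => ?_⟩
    have h1 : v - ContinuousMap.const X (v y) ∈ R.domZ {y} := by
      refine ⟨R.dom.sub_mem hv (R.const_mem _), fun z hz => ?_⟩
      rw [Set.mem_singleton_iff] at hz
      rw [hz, ContinuousMap.sub_apply, ContinuousMap.const_apply, sub_self]
    have h2 := (hγ x).2 _ h1
    rw [R.pot_Q, map_sub, R.E_const_right, sub_zero, ContinuousMap.sub_apply,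
      ContinuousMap.const_apply] at h2
    exact h2

/-- Proof: `h x - h y = E h h`; if it were `0`, `h` would be constant, `E h v = 0` for all `v ∈ dom` (`cs`), so `v x = v y`
for all `v ∈ dom`, contradicting `exists_sep`. -/
theorem pole_ne {x y : X} (hxy : x ≠ y) {h : C(X, ℝ)} (hh : h ∈ R.dom)
    (hE : ∀ v ∈ R.dom, R.E h v = v x - v y) : h x ≠ h y := by
  intro heq
  have h1 : R.E h h = 0 := by rw [hE h hh, heq, sub_self]
  obtain ⟨v, hv, -, hvy, hvx⟩ := R.exists_sep (isClosed_singleton (x := y))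
    (isClosed_singleton (x := x)) (Set.disjoint_singleton.2 (Ne.symm hxy))
  have h2 := R.cs h v
  rw [h1, zero_mul, hE v hv, hvx x rfl, hvy y rfl] at h2
  norm_num at h2

end RForm

end CarpetLib
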