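import Pool.Agent.Lib.MP_f3090c_an.D.FoldE
import Pool.Agent.Lib.MP_f3090c_an.D.Pot

/-! D08: constants of the single cell (section 2 of the paper proof). -/

open Set Filter Topology

namespace CarpetLib

/-- the union of the first level cells `(0,0)`, `(1,0)`, `(0,1)` -/
def inner : Set K := {z | (z.1.1 ≤ 2 / 3 ∧ z.1.2 ≤ 1 / 3) ∨ (z.1.1 ≤ 1 / 3 ∧ z.1.2 ≤ 2 / 3)}

theorem c00_inner : c00 ∈ inner := by
  left
  simp only [c00]
  norm_num

private theorem One_psi_mem (d : Dig) (z : K) (p : ℝ × ℝ) (hp : p ∈ carpet)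
    (h1 : z.1.1 = (p.1 + (d.1.1 : ℕ)) / 3) (h2 : z.1.2 = (p.2 + (d.1.2 : ℕ)) / 3) :
    z ∈ psiK d '' univ := by
  refine ⟨⟨p, hp⟩, mem_univ _, ?_⟩
  apply Subtype.ext
  exact Prod.ext h1.symm h2.symm

private def oneA : Dig := ⟨(0, 0), by simp⟩
private def oneB : Dig := ⟨(1, 0), by simp⟩
private def oneC : Dig := ⟨(0, 1), by simp⟩

private theorem One_sub (z : K) (hz : z ∈ inner) :
    z ∈ psiK oneA '' univ ∪ psiK oneB '' univ ∪ psiK oneC '' univ := by
  have hz' := carpet_subset_iUnion z.2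
  rw [mem_iUnion] at hz'
  obtain ⟨d, q, hq, hqz⟩ := hz'
  have hsq := carpet_subset_unitSq hq
  obtain ⟨⟨q1, q2⟩, q3, q4⟩ := hsq
  have e1 : z.1.1 = (q.1 + (d.1.1 : ℕ)) / 3 := by rw [← hqz]; rfl
  have e2 : z.1.2 = (q.2 + (d.1.2 : ℕ)) / 3 := by rw [← hqz]; rfl
  obtain ⟨⟨d1, d2⟩, hd⟩ := d
  have hor : (z.1.1 ≤ 2 / 3 ∧ z.1.2 ≤ 1 / 3) ∨ (z.1.1 ≤ 1 / 3 ∧ z.1.2 ≤ 2 / 3) := hz
  fin_cases d1 <;> fin_cases d2 <;> norm_num at e1 e2
  · -- (0,0)
    left; left
    exact One_psi_mem oneA z q hq (by simpa [oneA] using e1) (by simpa [oneA] using e2)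
  · right
    exact One_psi_mem oneC z q hq (by simpa [oneC] using e1) (by simpa [oneC] using e2)
  · -- (0,2)
    right
    have hq0 : q.2 = 0 := by rcases hor with ⟨h1, h2⟩ | ⟨h1, h2⟩ <;> linarith
    refine One_psi_mem oneC z (q.1, 1) (top_mem q1 q2) (by simpa [oneC] using e1) ?_
    rw [e2, hq0]; norm_num [oneC]
  · left; right
    exact One_psi_mem oneB z q hq (by simpa [oneB] using e1) (by simpa [oneB] using e2)
  · exact absurd rfl hd
  · -- (1,2)
    right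
    have hq0 : q.2 = 0 := by rcases hor with ⟨h1, h2⟩ | ⟨h1, h2⟩ <;> linarith
    have hq1 : q.1 = 0 := by rcases hor with ⟨h1, h2⟩ | ⟨h1, h2⟩ <;> linarith
    refine One_psi_mem oneC z (1, 1) (right_mem zero_le_one le_rfl) ?_ ?_
    · rw [e1, hq1]; norm_num [oneC]
    · rw [e2, hq0]; norm_num [oneC]
  · -- (2,0)
    left; right
    have hq0 : q.1 = 0 := by rcases hor with ⟨h1, h2⟩ | ⟨h1, h2⟩ <;> linarith
    refine One_psi_mem oneB z (1, q.2) (right_mem q3 q4) ?_ (by simpa [oneB] using e2)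
    rw [e1, hq0]; norm_num [oneB]
  · -- (2,1)
    left; right
    have hq0 : q.1 = 0 := by rcases hor with ⟨h1, h2⟩ | ⟨h1, h2⟩ <;> linarith
    have hq1 : q.2 = 0 := by rcases hor with ⟨h1, h2⟩ | ⟨h1, h2⟩ <;> linarith
    refine One_psi_mem oneB z (1, 1) (right_mem zero_le_one le_rfl) ?_ ?_
    · rw [e1, hq0]; norm_num [oneB]
    · rw [e2, hq1]; norm_num [oneB]
  · -- (2,2)
    exfalso
    rcases hor with ⟨h1, h2⟩ | ⟨h1, h2⟩ <;> linarith

private theorem One_sup (z : K)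
    (hz : z ∈ psiK oneA '' univ ∪ psiK oneB '' univ ∪ psiK oneC '' univ) : z ∈ inner := by
  rcases hz with (⟨q, -, rfl⟩ | ⟨q, -, rfl⟩) | ⟨q, -, rfl⟩
  · obtain ⟨⟨q1, q2⟩, q3, q4⟩ := carpet_subset_unitSq q.2
    left
    constructor
    · show (q.1.1 + ((0 : ℕ) : ℝ)) / 3 ≤ 2 / 3
      push_cast; linarith
    · show (q.1.2 + ((0 : ℕ) : ℝ)) / 3 ≤ 1 / 3
      push_cast; linarith
  · obtain ⟨⟨q1, q2⟩, q3, q4⟩ := carpet_subset_unitSq q.2
    left
    constructor
    · show (q.1.1 + ((1 : ℕ) : ℝ)) / 3 ≤ 2 / 3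
      push_cast; linarith
    · show (q.1.2 + ((0 : ℕ) : ℝ)) / 3 ≤ 1 / 3
      push_cast; linarith
  · obtain ⟨⟨q1, q2⟩, q3, q4⟩ := carpet_subset_unitSq q.2
    right
    constructor
    · show (q.1.1 + ((0 : ℕ) : ℝ)) / 3 ≤ 1 / 3
      push_cast; linarith
    · show (q.1.2 + ((1 : ℕ) : ℝ)) / 3 ≤ 2 / 3
      push_cast; linarith

/-- Proof: `inner` is the union of the three images `psiK d '' univ` (`d = (0,0), (1,0), (0,1)`), each preconnected
(`S.toRForm.preconnected`), each containing a point of the first one. Needs: a point of `K` with `z.1 ≤ 1/3`, `z.2 ≤ 1/3` is in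
the cell `(0,0)` etc. (`cell_word` with words of length one). -/
theorem inner_conn (S : SymForm) : IsPreconnected inner := by
  have h : inner = psiK oneA '' univ ∪ psiK oneB '' univ ∪ psiK oneC '' univ :=
    Subset.antisymm (fun z hz => One_sub z hz) (fun z hz => One_sup z hz)
  rw [h]
  have hp : ∀ d : Dig, IsPreconnected (psiK d '' univ) := fun d =>
    S.toRForm.preconnected.image _ (psiK d).continuous.continuousOn
  have e1 : psiK oneA c10 = psiK oneB c00 := by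
    apply Subtype.ext
    refine Prod.ext ?_ ?_
    · show ((1 : ℝ) + ((0 : ℕ) : ℝ)) / 3 = ((0 : ℝ) + ((1 : ℕ) : ℝ)) / 3
      norm_num
    · show ((0 : ℝ) + ((0 : ℕ) : ℝ)) / 3 = ((0 : ℝ) + ((0 : ℕ) : ℝ)) / 3
      rfl
  have e2 : psiK oneA c01 = psiK oneC c00 := by
    apply Subtype.ext
    refine Prod.ext ?_ ?_
    · show ((0 : ℝ) + ((0 : ℕ) : ℝ)) / 3 = ((0 : ℝ) + ((0 : ℕ) : ℝ)) / 3
      rfl
    · show ((1 : ℝ) + ((0 : ℕ) : ℝ)) / 3 = ((0 : ℝ) + ((1 : ℕ) : ℝ)) / 3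
      norm_num
  have h1 : IsPreconnected (psiK oneA '' univ ∪ psiK oneB '' univ) :=
    IsPreconnected.union (psiK oneA c10) ⟨c10, mem_univ _, rfl⟩ ⟨c00, mem_univ _, e1.symm⟩
      (hp _) (hp _)
  exact IsPreconnected.union (psiK oneA c01) (Or.inl ⟨c01, mem_univ _, rfl⟩)
    ⟨c00, mem_univ _, e2.symm⟩ h1 (hp _)

private theorem One_disj : Disjoint inner TR := by
  rw [Set.disjoint_left]
  rintro z hz hz'
  have h1 : (z.1.1 ≤ 2 / 3 ∧ z.1.2 ≤ 1 / 3) ∨ (z.1.1 ≤ 1 / 3 ∧ z.1.2 ≤ 2 / 3) := hz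
  have h2 : z.1.1 = 1 ∨ z.1.2 = 1 := hz'
  rcases h1 with ⟨h3, h4⟩ | ⟨h3, h4⟩ <;> rcases h2 with h5 | h5 <;> linarith

private theorem One_closed : IsClosed inner := by
  have hc1 : Continuous fun z : K => z.1.1 := continuous_fst.comp continuous_subtype_val
  have hc2 : Continuous fun z : K => z.1.2 := continuous_snd.comp continuous_subtype_val
  exact ((isClosed_le hc1 continuous_const).inter (isClosed_le hc2 continuous_const)).union
    ((isClosed_le hc1 continuous_const).inter (isClosed_le hc2 continuous_const))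

/-- constants of the single cell: `e = G(0,·)/G(0,0)`, and for `a ∈ inner` the normalised Green function with pole `a`.
Proof: Green family of `Z = TR`, `κ = 0` (`exists_green`). `G a a ≤ R` for all `a` (`R` from `bound`:
`G(a,a)² = (G(a,a) - G(a,t))² ≤ R E(G a, G a) = R G(a,a)`, `t ∈ TR`). `G 0 > 0` on `inner` (`green_pos`, `inner_conn`, `inner` is
disjoint from `TR`), `inner` is compact, so `G 0 ≥ m₀ > 0` there; `c₀ = m₀ / R`, `green_symm`. -/
theorem exists_one (S : SymForm) : ∃ c₀ : ℝ, 0 < c₀ ∧ c₀ < 1 ∧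
    ∀ a ∈ inner, ∃ g ∈ S.domZ TR, ∃ k : ℝ, 0 < k ∧ (∀ x, 0 ≤ g x ∧ g x ≤ 1) ∧ g a = 1 ∧
      (∀ f ∈ S.domZ TR, S.E g f = k * f a) ∧ c₀ ≤ g c00 ∧ (a = c00 → ∀ x ∈ inner, c₀ ≤ g x) := by
  have ht : c10 ∈ TR := Or.inl rfl
  have hgood : Good (0 : C(K, ℝ) →ₗ[ℝ] ℝ) TR :=
    ⟨fun f _ => le_rfl, TR_closed, Or.inr ⟨c10, ht⟩⟩
  obtain ⟨G, hG⟩ := S.toRForm.exists_green hgood
  have hE : ∀ a : K, ∀ f ∈ S.domZ TR, S.E (G a) f = f a := by
    intro a f hf
    have := (hG a).2 f hf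
    simpa [RForm.Q] using this
  obtain ⟨B, hB, hBd⟩ := S.toRForm.bound
  have hnot : ∀ a ∈ inner, a ∉ TR := fun a ha ha' => Set.disjoint_left.1 One_disj ha ha'
  have hpos : ∀ a ∈ inner, 0 < G a a := fun a ha =>
    S.toRForm.green_diag_pos hgood hG (hnot a ha)
  have hle : ∀ a ∈ inner, G a a ≤ B := by
    intro a ha
    have h1 := hBd (G a) (hG a).1.1 a c10
    rw [hE a (G a) (hG a).1, (hG a).1.2 c10 ht, sub_zero] at h1
    have h2 := hpos a ha
    nlinarith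
  have hcomp : IsCompact inner := One_closed.isCompact
  obtain ⟨x0, hx0, hmin⟩ := hcomp.exists_isMinOn ⟨c00, c00_inner⟩ (G c00).continuous.continuousOn
  have hm : 0 < G c00 x0 :=
    S.toRForm.green_pos hgood hG (inner_conn S) One_disj hx0 c00_inner
  have hmB : G c00 x0 ≤ B := by
    have h1 : G c00 x0 ≤ G c00 c00 := hmin c00_inner
    exact h1.trans (hle c00 c00_inner)
  have hc : ∀ a ∈ inner, ∀ t : ℝ, G c00 x0 ≤ t → G c00 x0 / (2 * B) ≤ (1 / G a a) * t := by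
    intro a ha t htt
    have h2 := hpos a ha
    have h3 := hle a ha
    rw [div_mul_eq_mul_div, one_mul, div_le_div_iff₀ (by linarith) h2]
    have h4 : G c00 x0 * G a a ≤ t * B := mul_le_mul htt h3 h2.le (hm.le.trans htt)
    have h5 : 0 ≤ t * B := mul_nonneg (hm.le.trans htt) hB.le
    linarith
  refine ⟨G c00 x0 / (2 * B), by positivity, ?_, fun a ha => ?_⟩
  · rw [div_lt_one (by linarith)]
    linarith
  · have h2 := hpos a ha
    refine ⟨(1 / G a a) • G a, (S.domZ TR).smul_mem _ (hG a).1, 1 / G a a, by positivity,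
      fun x => ⟨?_, ?_⟩, ?_, ?_, ?_, ?_⟩
    · rw [ContinuousMap.smul_apply, smul_eq_mul]
      exact mul_nonneg (by positivity) (S.toRForm.green_nonneg hgood hG x a)
    · rw [ContinuousMap.smul_apply, smul_eq_mul, div_mul_eq_mul_div, one_mul, div_le_one h2]
      exact S.toRForm.green_le_diag hgood hG x a
    · rw [ContinuousMap.smul_apply, smul_eq_mul]
      field_simp
    · intro f hf
      rw [map_smul, LinearMap.smul_apply, smul_eq_mul, hE a f hf]
    · rw [ContinuousMap.smul_apply, smul_eq_mul]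
      apply hc a ha
      rw [S.toRForm.green_symm hG a c00]
      exact hmin ha
    · rintro rfl x hx
      rw [ContinuousMap.smul_apply, smul_eq_mul]
      exact hc _ ha _ (hmin hx)

end CarpetLib
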