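import Mathlib

/-! Pairing lemma PL1: lattice steps, crossing numbers mod 2, the three identities for single steps. -/

namespace CarpetLib

/-- a lattice step -/
abbrev Stp : Type := (ℤ × ℤ) × (ℤ × ℤ)

/-- a step to a nearest neighbour -/
def IsStep (s : Stp) : Prop :=
  (s.1.2 = s.2.2 ∧ (s.2.1 = s.1.1 + 1 ∨ s.1.1 = s.2.1 + 1)) ∨
    (s.1.1 = s.2.1 ∧ (s.2.2 = s.1.2 + 1 ∨ s.1.2 = s.2.2 + 1))

/-- lower left and upper right endpoint of a step -/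
def slo (s : Stp) : ℤ × ℤ := (min s.1.1 s.2.1, min s.1.2 s.2.2)
def shi (s : Stp) : ℤ × ℤ := (max s.1.1 s.2.1, max s.1.2 s.2.2)

/-- `s` crosses `t` shifted by `(1/2, 1/2)` -/
def Cr (s t : Stp) : ZMod 2 :=
  if slo s = shi t ∧ ((s.1.2 = s.2.2 ∧ t.1.1 = t.2.1) ∨ (s.1.1 = s.2.1 ∧ t.1.2 = t.2.2)) then 1 else 0

/-- indicator of the horizontal steps with right end at abscissa `z.1` and below `z` -/
def chiS (t : Stp) (z : ℤ × ℤ) : ZMod 2 :=
  if t.1.2 = t.2.2 ∧ (shi t).1 = z.1 ∧ t.1.2 < z.2 then 1 else 0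

/-- for a horizontal step `s`: indicator of the column below its left end -/
def psiS2 (s : Stp) (z : ℤ × ℤ) : ZMod 2 :=
  if s.1.2 = s.2.2 ∧ z.1 = (slo s).1 ∧ z.2 < s.1.2 then 1 else 0

/-- indicator: `s` is the edge leaving `z` to the east or to the south -/
def thS (s : Stp) (z : ℤ × ℤ) : ZMod 2 :=
  if (s.1.2 = s.2.2 ∧ slo s = z) ∨ (s.1.1 = s.2.1 ∧ shi s = z) then 1 else 0

/-- right end of a horizontal step, lower end of a vertical step -/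
def wwS (t : Stp) : ℤ × ℤ := if t.1.2 = t.2.2 then shi t else slo t

/-- indicator of equality -/
def eqS (x y : ℤ × ℤ) : ZMod 2 := if x = y then 1 else 0

/-- Checked by brute force. Proof of the three identities: case distinction over the four directions of `s`
and of `t` (substitute), then all conditions are linear: `split_ifs`, `omega`, `decide`. -/
theorem cr_chi {s t : Stp} (hs : IsStep s) (ht : IsStep t) :
    Cr s t + (chiS t s.1 + chiS t s.2) = psiS2 s t.1 + psiS2 s t.2 := by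
  obtain ⟨⟨a, b⟩, ⟨c, d⟩⟩ := s
  obtain ⟨⟨e, f⟩, ⟨g, h⟩⟩ := t
  simp only [IsStep] at hs ht
  rcases hs with ⟨rfl, rfl | rfl⟩ | ⟨rfl, rfl | rfl⟩ <;>
  rcases ht with ⟨rfl, rfl | rfl⟩ | ⟨rfl, rfl | rfl⟩ <;>
  (simp [Cr, chiS, psiS2, slo, shi, Prod.mk.injEq]
   try split_ifs <;> first | rfl | (exfalso; omega))

theorem cr_swap {s t : Stp} (hs : IsStep s) (ht : IsStep t) :
    Cr s t + Cr t s = (thS s t.1 + thS s t.2) + (eqS (wwS t) s.1 + eqS (wwS t) s.2) := by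
  obtain ⟨⟨a, b⟩, ⟨c, d⟩⟩ := s
  obtain ⟨⟨e, f⟩, ⟨g, h⟩⟩ := t
  simp only [IsStep] at hs ht
  rcases hs with ⟨rfl, rfl | rfl⟩ | ⟨rfl, rfl | rfl⟩ <;>
  rcases ht with ⟨rfl, rfl | rfl⟩ | ⟨rfl, rfl | rfl⟩ <;>
  (simp [Cr, thS, eqS, wwS, slo, shi, Prod.mk.injEq]
   split_ifs <;> first | rfl | (exfalso; omega))

theorem th_ww {t : Stp} (ht : IsStep t) (o : ℤ × ℤ) :
    eqS (wwS t) o + thS t o = eqS o t.1 + eqS o t.2 := by
  obtain ⟨⟨e, f⟩, ⟨g, h⟩⟩ := t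
  obtain ⟨a, b⟩ := o
  simp only [IsStep] at ht
  rcases ht with ⟨rfl, rfl | rfl⟩ | ⟨rfl, rfl | rfl⟩ <;>
  (simp [thS, eqS, wwS, slo, shi, Prod.mk.injEq]
   split_ifs <;> first | rfl | (exfalso; omega))

/-- a crossing happens at a common vertex -/
theorem cr_vertex {s t : Stp} (hs : IsStep s) (ht : IsStep t) (h : Cr s t ≠ 0) :
    ∃ z, (s.1 = z ∨ s.2 = z) ∧ (t.1 = z ∨ t.2 = z) := by
  obtain ⟨⟨a, b⟩, ⟨c, d⟩⟩ := s
  obtain ⟨⟨e, f⟩, ⟨g, k⟩⟩ := t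
  simp only [IsStep] at hs ht
  have h1 := h
  simp only [Cr, slo, shi, Prod.mk.injEq, ne_eq, ite_eq_right_iff, one_ne_zero, imp_false,
    not_not] at h1
  refine ⟨slo ((a, b), (c, d)), ?_⟩
  simp only [slo, Prod.mk.injEq]
  omega

theorem ww_vertex {t : Stp} (ht : IsStep t) : t.1 = wwS t ∨ t.2 = wwS t := by
  obtain ⟨⟨e, f⟩, ⟨g, h⟩⟩ := t
  simp only [IsStep] at ht
  simp only [wwS, slo, shi]
  split_ifs <;> simp only [Prod.mk.injEq] <;> omega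

end CarpetLib
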