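import Pool.Agent.Lib.MP_f3090c_an.D.PL1

/-! Pairing lemma PL2: chains mod 2 and their crossing numbers. -/

namespace CarpetLib

/-- chain of lattice steps with boundary `x + y` (mod 2) -/
def IsChn (L : List Stp) (x y : ℤ × ℤ) : Prop :=
  (∀ s ∈ L, IsStep s) ∧ ∀ f : ℤ × ℤ → ZMod 2, (L.map fun s => f s.1 + f s.2).sum = f x + f y

/-- `z` is a vertex of `L` -/
def OnC (L : List Stp) (z : ℤ × ℤ) : Prop := ∃ s ∈ L, s.1 = z ∨ s.2 = z

/-- crossing number mod 2 of `L` with `M` shifted by `(1/2, 1/2)` -/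
def II (L M : List Stp) : ZMod 2 := (L.map fun s => (M.map fun t => Cr s t).sum).sum

/-- the number mod 2 of edges leaving `o` to the east or to the south -/
def mmS (L : List Stp) (o : ℤ × ℤ) : ZMod 2 := (L.map fun s => thS s o).sum

private theorem pl2_sum_add {α : Type} (L : List α) (f g : α → ZMod 2) :
    (L.map fun a => f a + g a).sum = (L.map f).sum + (L.map g).sum := by
  induction L with
  | nil => simp
  | cons a L ih => simp only [List.map_cons, List.sum_cons, ih]; ring

private theorem pl2_sum_congr {α : Type} (L : List α) (f g : α → ZMod 2)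
    (h : ∀ a ∈ L, f a = g a) : (L.map f).sum = (L.map g).sum := by
  congr 1
  exact List.map_congr_left h

private theorem pl2_sum_zero {α : Type} (L : List α) (f : α → ZMod 2)
    (h : ∀ a ∈ L, f a = 0) : (L.map f).sum = 0 := by
  apply List.sum_eq_zero
  intro x hx
  obtain ⟨a, ha, rfl⟩ := List.mem_map.1 hx
  exact h a ha

private theorem pl2_sum_swap {α β : Type} (L : List α) (M : List β) (f : α → β → ZMod 2) :
    (L.map fun a => (M.map fun b => f a b).sum).sum
      = (M.map fun b => (L.map fun a => f a b).sum).sum := by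
  induction L with
  | nil => simp
  | cons a L ih =>
    simp only [List.map_cons, List.sum_cons, ih]
    rw [pl2_sum_add]

private theorem pl2_self (a : ZMod 2) : a + a = 0 := CharTwo.add_self_eq_zero a

theorem II_append_left (L L' M : List Stp) : II (L ++ L') M = II L M + II L' M := by
  simp [II]

theorem II_append_right (L M M' : List Stp) : II L (M ++ M') = II L M + II L M' := by
  unfold II
  rw [← pl2_sum_add]
  simp

theorem IsChn.append {L M : List Stp} {x y z : ℤ × ℤ} (hL : IsChn L x y) (hM : IsChn M y z) :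
    IsChn (L ++ M) x z := by
  refine ⟨fun s hs => ?_, fun f => ?_⟩
  · rcases List.mem_append.1 hs with h | h
    · exact hL.1 s h
    · exact hM.1 s h
  · rw [List.map_append, List.sum_append, hL.2 f, hM.2 f]
    have := pl2_self (f y)
    linear_combination this

theorem IsChn.symm {L : List Stp} {x y : ℤ × ℤ} (h : IsChn L x y) : IsChn L y x :=
  ⟨h.1, fun f => by rw [h.2 f, add_comm]⟩

/-- (F1) vertex disjoint chains. Proof: every `Cr s t` is zero by `cr_vertex`. -/
theorem II_disj {L M : List Stp} (hL : ∀ s ∈ L, IsStep s) (hM : ∀ s ∈ M, IsStep s)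
    (h : ∀ z, ¬ (OnC L z ∧ OnC M z)) : II L M = 0 := by
  refine pl2_sum_zero L _ (fun s hs => pl2_sum_zero M _ (fun t ht => ?_))
  by_contra hne
  obtain ⟨z, hz1, hz2⟩ := cr_vertex (hL s hs) (hM t ht) hne
  exact h z ⟨⟨s, hs, hz1⟩, ⟨t, ht, hz2⟩⟩

/-- (F2) closed chains. Proof: for `s ∈ L`: sum `cr_chi` over `t ∈ M`: the sum of `psiS2 s t.1 + psiS2 s t.2` is
zero as `M` is closed (`f = psiS2 s`), so the sum of `Cr s t` is `c s.1 + c s.2` with `c z` the sum of `chiS t z` over
`t ∈ M`; the sum over `s ∈ L` is zero as `L` is closed (`f = c`). (In `ZMod 2`: `a + a = 0`.) -/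
theorem II_closed {L M : List Stp} {x y : ℤ × ℤ} (hL : IsChn L x x) (hM : IsChn M y y) :
    II L M = 0 := by
  have h1 : ∀ s ∈ L, (M.map fun t => Cr s t).sum
      = (M.map fun t => chiS t s.1).sum + (M.map fun t => chiS t s.2).sum := by
    intro s hs
    have h2 : (M.map fun t => Cr s t + (chiS t s.1 + chiS t s.2)).sum
        = (M.map fun t => psiS2 s t.1 + psiS2 s t.2).sum :=
      pl2_sum_congr M _ _ (fun t ht => cr_chi (hL.1 s hs) (hM.1 t ht))
    rw [hM.2 (psiS2 s), pl2_self, pl2_sum_add, pl2_sum_add] at h2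
    have h3 := pl2_self ((M.map fun t => chiS t s.1).sum + (M.map fun t => chiS t s.2).sum)
    linear_combination h2 - h3
  have h2 : II L M = (L.map fun s => (fun z => (M.map fun t => chiS t z).sum) s.1
      + (fun z => (M.map fun t => chiS t z).sum) s.2).sum :=
    pl2_sum_congr L _ _ h1
  rw [h2, hL.2 (fun z => (M.map fun t => chiS t z).sum), pl2_self]

/-- (F3). Proof: `II L M + II M L` is the sum over `t ∈ M` of the sum over `s ∈ L` of `Cr s t + Cr t s`; by `cr_swap`
and the boundary condition of `L` (`f = eqS (wwS t)`) the inner sum is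
`mmS L t.1 + mmS L t.2 + eqS (wwS t) o + eqS (wwS t) x`. `eqS (wwS t) x = 0` as `x` is not a vertex of `M`
(`ww_vertex`). Sum over `t`: `mmS L o + mmS L y` plus the sum of the `eqS (wwS t) o`; `mmS L y = 0` as `y` is not a
vertex of `L` (`slo`, `shi` of a step are vertices), and the sum of the `eqS (wwS t) o` is
`mmS M o + (eqS o o + eqS o y) = mmS M o + 1` by `th_ww` and the boundary condition of `M` (`f = eqS o`), `o ≠ y`. -/
theorem II_swap {L M : List Stp} {o x y : ℤ × ℤ} (hL : IsChn L o x) (hM : IsChn M o y)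
    (hx : ¬ OnC M x) (hy : ¬ OnC L y) (hoy : o ≠ y) :
    II L M + II M L = mmS L o + mmS M o + 1 := by
  have e1 : II L M + II M L = (M.map fun t => (L.map fun s => Cr s t + Cr t s).sum).sum := by
    have a : II L M = (M.map fun t => (L.map fun s => Cr s t).sum).sum :=
      pl2_sum_swap L M (fun s t => Cr s t)
    rw [a]
    unfold II
    rw [← pl2_sum_add]
    exact pl2_sum_congr M _ _ (fun t _ => (pl2_sum_add L _ _).symm)
  have e2 : ∀ t ∈ M, (L.map fun s => Cr s t + Cr t s).sum
      = (mmS L t.1 + mmS L t.2) + eqS (wwS t) o := by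
    intro t ht
    have b : (L.map fun s => Cr s t + Cr t s).sum
        = (L.map fun s => (thS s t.1 + thS s t.2)
            + (eqS (wwS t) s.1 + eqS (wwS t) s.2)).sum :=
      pl2_sum_congr L _ _ (fun s hs => cr_swap (hL.1 s hs) (hM.1 t ht))
    have c : eqS (wwS t) x = 0 := by
      unfold eqS
      rw [if_neg]
      intro he
      exact hx ⟨t, ht, he ▸ ww_vertex (hM.1 t ht)⟩
    rw [b, pl2_sum_add, pl2_sum_add, hL.2 (eqS (wwS t)), c, add_zero]
    rfl
  have e3 : mmS L y = 0 := by
    refine pl2_sum_zero L _ (fun s hs => ?_)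
    unfold thS
    rw [if_neg]
    rintro (⟨h1, h2⟩ | ⟨h1, h2⟩)
    · apply hy
      refine ⟨s, hs, ?_⟩
      rcases le_total s.1.1 s.2.1 with h | h
      · left
        rw [← h2]
        ext <;> simp [slo, h, h1]
      · right
        rw [← h2]
        ext <;> simp [slo, h, h1]
    · apply hy
      refine ⟨s, hs, ?_⟩
      rcases le_total s.1.2 s.2.2 with h | h
      · right
        rw [← h2]
        ext <;> simp [shi, h, h1]
      · left
        rw [← h2]
        ext <;> simp [shi, h, h1]
  have e4 : (M.map fun t => eqS (wwS t) o).sum = mmS M o + 1 := by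
    have f1 : (M.map fun t => eqS (wwS t) o + thS t o).sum
        = (M.map fun t => eqS o t.1 + eqS o t.2).sum :=
      pl2_sum_congr M _ _ (fun t ht => th_ww (hM.1 t ht) o)
    have f2 : eqS o o = 1 := by simp [eqS]
    have f3 : eqS o y = 0 := by simp [eqS, hoy]
    rw [hM.2 (eqS o), pl2_sum_add, f2, f3] at f1
    have f4 := pl2_self (mmS M o)
    have f5 : (M.map fun t => thS t o).sum = mmS M o := rfl
    rw [f5] at f1
    linear_combination f1 - f4
  rw [e1, pl2_sum_congr M _ _ e2, pl2_sum_add, hM.2 (mmS L), e3, e4]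
  ring

/-- Proof: for `i j k l` the chains `lam i ++ A ++ lam j` (from `o` to `o`) and `lam k ++ B ++ lam l` are closed,
`II_closed` and `II_disj` give `II (lam i) (lam k) + II (lam i) (lam l) + II (lam j) (lam k) + II (lam j) (lam l) = 0`. Add
this for `(0,1,2,3)`, `(0,2,1,3)`, `(0,3,1,2)`: the sum of `II_swap` for the pairs `12, 13, 23` is
`2 (..) + 3 = 1`, but the sum of the three relations is zero: contradiction. -/
theorem pairing_lattice (o : ℤ × ℤ) (y : Fin 4 → ℤ × ℤ) (lam : Fin 4 → List Stp)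
    (hl : ∀ i, IsChn (lam i) o (y i)) (hoy : ∀ i, o ≠ y i)
    (hy : ∀ i j, i ≠ j → ¬ OnC (lam i) (y j))
    (h : ∀ i j k l : Fin 4, [i, j, k, l].Nodup → ∃ A B : List Stp, IsChn A (y i) (y j) ∧
      IsChn B (y k) (y l) ∧ (∀ z, ¬ (OnC A z ∧ OnC B z)) ∧
      (∀ z, ¬ (OnC A z ∧ OnC (lam k) z)) ∧ (∀ z, ¬ (OnC A z ∧ OnC (lam l) z)) ∧
      (∀ z, ¬ (OnC B z ∧ OnC (lam i) z)) ∧ ∀ z, ¬ (OnC B z ∧ OnC (lam j) z)) : False := by
  have key : ∀ i j k l : Fin 4, [i, j, k, l].Nodup →
      II (lam i) (lam k) + II (lam i) (lam l) + II (lam j) (lam k) + II (lam j) (lam l) = 0 := by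
    intro i j k l hn
    obtain ⟨A, B, hA, hB, hAB, hAk, hAl, hBi, hBj⟩ := h i j k l hn
    have c1 : IsChn (lam i ++ A ++ lam j) o o := ((hl i).append hA).append (hl j).symm
    have c2 : IsChn (lam k ++ B ++ lam l) o o := ((hl k).append hB).append (hl l).symm
    have h0 := II_closed c1 c2
    have d1 : II A B = 0 := II_disj hA.1 hB.1 hAB
    have d2 : II A (lam k) = 0 := II_disj hA.1 (hl k).1 hAk
    have d3 : II A (lam l) = 0 := II_disj hA.1 (hl l).1 hAl
    have d4 : II (lam i) B = 0 := II_disj (hl i).1 hB.1 (fun z hz => hBi z ⟨hz.2, hz.1⟩)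
    have d5 : II (lam j) B = 0 := II_disj (hl j).1 hB.1 (fun z hz => hBj z ⟨hz.2, hz.1⟩)
    simp only [II_append_left, II_append_right, d1, d2, d3, d4, d5] at h0
    linear_combination h0
  have k1 := key 0 1 2 3 (by decide)
  have k2 := key 0 2 1 3 (by decide)
  have k3 := key 0 3 1 2 (by decide)
  have s12 := II_swap (hl 1) (hl 2) (hy 2 1 (by decide)) (hy 1 2 (by decide)) (hoy 2)
  have s13 := II_swap (hl 1) (hl 3) (hy 3 1 (by decide)) (hy 1 3 (by decide)) (hoy 3)
  have s23 := II_swap (hl 2) (hl 3) (hy 3 2 (by decide)) (hy 2 3 (by decide)) (hoy 3)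
  have t1 := pl2_self (II (lam 0) (lam 1))
  have t2 := pl2_self (II (lam 0) (lam 2))
  have t3 := pl2_self (II (lam 0) (lam 3))
  have t4 := pl2_self (mmS (lam 1) o)
  have t5 := pl2_self (mmS (lam 2) o)
  have t6 := pl2_self (mmS (lam 3) o)
  have t7 : (1 : ZMod 2) + 1 = 0 := by decide
  have : (1 : ZMod 2) = 0 := by
    linear_combination k1 + k2 + k3 - s12 - s13 - s23 - t1 - t2 - t3 - t4 - t5 - t6 - t7
  exact absurd this (by decide)

end CarpetLib
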