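import Pool.Agent.Lib.MP_f3090c_an.D.PL2
import Pool.Agent.Lib.MP_f3090c_an.P.Chain

/-! Pairing lemma PL3: discretization. -/

open Set Filter Topology

namespace CarpetLib

/-- the lattice point below `x` at scale `ε` -/
noncomputable def flS (ε : ℝ) (x : ℝ × ℝ) : ℤ × ℤ := (⌊x.1 / ε⌋, ⌊x.2 / ε⌋)

private theorem pl3_floor {ε : ℝ} (hε : 0 < ε) (t : ℝ) : |ε * (⌊t / ε⌋ : ℝ) - t| ≤ ε := by
  have h1 := Int.floor_le (t / ε)
  have h2 := Int.lt_floor_add_one (t / ε)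
  have h3 : ε * (t / ε) = t := mul_div_cancel₀ t hε.ne'
  rw [abs_le]
  constructor <;> nlinarith

theorem flS_dist {ε : ℝ} (hε : 0 < ε) (x : ℝ × ℝ) :
    dist ((ε * ((flS ε x).1 : ℝ), ε * ((flS ε x).2 : ℝ)) : ℝ × ℝ) x ≤ ε := by
  rw [Prod.dist_eq, Real.dist_eq, Real.dist_eq]
  exact max_le (pl3_floor hε x.1) (pl3_floor hε x.2)

private theorem pl3_floor_le {ε : ℝ} (hε : 0 < ε) {s t : ℝ} (h : |s - t| < ε) :
    ⌊s / ε⌋ ≤ ⌊t / ε⌋ + 1 := by
  rw [← Int.floor_add_one]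
  apply Int.floor_le_floor
  rw [abs_lt] at h
  rw [div_le_iff₀ hε, add_mul, div_mul_cancel₀ _ hε.ne', one_mul]
  linarith [h.2]

private theorem pl3_near {ε : ℝ} (hε : 0 < ε) {x y : ℝ × ℝ} (h : dist x y < ε) :
    (|(flS ε y).1 - (flS ε x).1| ≤ 1) ∧ |(flS ε y).2 - (flS ε x).2| ≤ 1 := by
  rw [Prod.dist_eq, max_lt_iff, Real.dist_eq, Real.dist_eq] at h
  have h1 := pl3_floor_le hε h.1
  have h2 := pl3_floor_le hε h.2
  have h3 : |y.1 - x.1| < ε := by rw [abs_sub_comm]; exact h.1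
  have h4 : |y.2 - x.2| < ε := by rw [abs_sub_comm]; exact h.2
  have h5 := pl3_floor_le hε h3
  have h6 := pl3_floor_le hε h4
  unfold flS
  rw [abs_le, abs_le]
  dsimp only
  constructor <;> constructor <;> omega

private theorem pl3_nil (x : ℤ × ℤ) : IsChn [] x x := by
  refine ⟨fun s hs => absurd hs List.not_mem_nil, fun f => ?_⟩
  rw [List.map_nil, List.sum_nil, CharTwo.add_self_eq_zero]

private theorem pl3_one {x y : ℤ × ℤ} (h : IsStep (x, y)) : IsChn [(x, y)] x y := by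
  refine ⟨fun s hs => ?_, fun f => ?_⟩
  · rw [List.mem_singleton] at hs
    rw [hs]
    exact h
  · simp

private theorem pl3_join (a b : ℤ × ℤ) (h1 : |b.1 - a.1| ≤ 1) (h2 : |b.2 - a.2| ≤ 1) :
    ∃ L : List Stp, IsChn L a b ∧ ∀ z, OnC L z → |z.1 - a.1| ≤ 1 ∧ |z.2 - a.2| ≤ 1 := by
  have hh : ∃ L : List Stp, IsChn L a (b.1, a.2) ∧
      ∀ z, OnC L z → |z.1 - a.1| ≤ 1 ∧ |z.2 - a.2| ≤ 1 := by
    by_cases h : b.1 = a.1
    · refine ⟨[], ?_, ?_⟩
      · rw [h]
        exact pl3_nil a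
      · rintro z ⟨s, hs, -⟩
        exact absurd hs List.not_mem_nil
    · refine ⟨[(a, (b.1, a.2))], pl3_one ?_, ?_⟩
      · left
        refine ⟨rfl, ?_⟩
        rw [abs_le] at h1
        dsimp only
        omega
      · rintro z ⟨s, hs, hz⟩
        rw [List.mem_singleton] at hs
        subst hs
        rcases hz with rfl | rfl
        · simp
        · simpa using h1
  have hv : ∃ L : List Stp, IsChn L (b.1, a.2) b ∧
      ∀ z, OnC L z → |z.1 - a.1| ≤ 1 ∧ |z.2 - a.2| ≤ 1 := by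
    by_cases h : b.2 = a.2
    · refine ⟨[], ?_, ?_⟩
      · rw [← h]
        exact pl3_nil b
      · rintro z ⟨s, hs, -⟩
        exact absurd hs List.not_mem_nil
    · refine ⟨[((b.1, a.2), b)], pl3_one ?_, ?_⟩
      · right
        refine ⟨rfl, ?_⟩
        rw [abs_le] at h2
        dsimp only
        omega
      · rintro z ⟨s, hs, hz⟩
        rw [List.mem_singleton] at hs
        subst hs
        rcases hz with rfl | rfl
        · simpa using h1
        · exact ⟨h1, h2⟩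
  obtain ⟨L, hL, hLz⟩ := hh
  obtain ⟨M, hM, hMz⟩ := hv
  refine ⟨L ++ M, hL.append hM, ?_⟩
  rintro z ⟨s, hs, hz⟩
  rcases List.mem_append.1 hs with h | h
  · exact hLz z ⟨s, h, hz⟩
  · exact hMz z ⟨s, h, hz⟩

/-- Proof: `exists_chain` (P/Chain) with mesh `ε`: points `p 0 = x, ..., p N = y` of `C`, consecutive ones at
sup-distance less than `ε`, so the coordinates of `flS ε (p i)` and `flS ε (p (i+1))` differ by at most one; join
them by at most two steps (first horizontal, then vertical), the intermediate vertex is at distance at most one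
from `flS ε (p i)`; each vertex `z` has `ε z` within `2 ε` of `p i` or `p (i + 1)`. Concatenate (`IsChn.append`, induction on `N`). -/
theorem discretize {C : Set (ℝ × ℝ)} (hC : IsPreconnected C) {x y : ℝ × ℝ} (hx : x ∈ C) (hy : y ∈ C)
    {ε : ℝ} (hε : 0 < ε) : ∃ L : List Stp, IsChn L (flS ε x) (flS ε y) ∧
      ∀ z, OnC L z → ∃ c ∈ C, dist ((ε * (z.1 : ℝ), ε * (z.2 : ℝ)) : ℝ × ℝ) c ≤ 3 * ε := by
  obtain ⟨N, p, hp0, hpN, hpC, hpd⟩ := exists_chain hC hx hy hε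
  have key : ∀ k ≤ N, ∃ L : List Stp, IsChn L (flS ε (p 0)) (flS ε (p k)) ∧
      ∀ z, OnC L z → ∃ c ∈ C, dist ((ε * (z.1 : ℝ), ε * (z.2 : ℝ)) : ℝ × ℝ) c ≤ 3 * ε := by
    intro k
    induction k with
    | zero =>
      intro _
      refine ⟨[], pl3_nil _, ?_⟩
      rintro z ⟨s, hs, -⟩
      exact absurd hs List.not_mem_nil
    | succ k ih =>
      intro hk
      obtain ⟨L, hL, hLz⟩ := ih (by omega)
      have hnear := pl3_near hε (hpd k (by omega))
      obtain ⟨M, hM, hMz⟩ := pl3_join (flS ε (p k)) (flS ε (p (k + 1))) hnear.1 hnear.2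
      refine ⟨L ++ M, hL.append hM, ?_⟩
      rintro z ⟨s, hs, hz⟩
      rcases List.mem_append.1 hs with h | h
      · exact hLz z ⟨s, h, hz⟩
      · obtain ⟨h1, h2⟩ := hMz z ⟨s, h, hz⟩
        refine ⟨p k, hpC k (by omega), ?_⟩
        have h3 := flS_dist hε (p k)
        have h4 : dist ((ε * (z.1 : ℝ), ε * (z.2 : ℝ)) : ℝ × ℝ)
            ((ε * ((flS ε (p k)).1 : ℝ), ε * ((flS ε (p k)).2 : ℝ)) : ℝ × ℝ) ≤ ε := by
          rw [Prod.dist_eq, Real.dist_eq, Real.dist_eq]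
          dsimp only
          have h5 : |((z.1 : ℝ) - ((flS ε (p k)).1 : ℝ))| ≤ 1 := by exact_mod_cast h1
          have h6 : |((z.2 : ℝ) - ((flS ε (p k)).2 : ℝ))| ≤ 1 := by exact_mod_cast h2
          refine max_le ?_ ?_
          · rw [← mul_sub, abs_mul, abs_of_pos hε]
            nlinarith
          · rw [← mul_sub, abs_mul, abs_of_pos hε]
            nlinarith
        have h7 := dist_triangle ((ε * (z.1 : ℝ), ε * (z.2 : ℝ)) : ℝ × ℝ)
          ((ε * ((flS ε (p k)).1 : ℝ), ε * ((flS ε (p k)).2 : ℝ)) : ℝ × ℝ) (p k)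
        linarith
  obtain ⟨L, hL, hLz⟩ := key N le_rfl
  rw [hp0, hpN] at hL
  exact ⟨L, hL, hLz⟩

end CarpetLib
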