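import Pool.Agent.Lib.MP_f3090c_an.D.PL3

/-! Pairing lemma PL4: the planar pairing lemma. -/

open Set Filter Topology

namespace CarpetLib

/-- disjoint compact sets have positive distance -/
private theorem PL4_sep {X Y : Set (ℝ × ℝ)} (hX : IsCompact X) (hY : IsCompact Y)
    (hd : Disjoint X Y) : ∀ᶠ ε in 𝓝[>] (0:ℝ), ∀ x ∈ X, ∀ y ∈ Y, 7 * ε ≤ dist x y := by
  obtain ⟨δ, hδ, h⟩ := hd.exists_thickenings hX hY.isClosed
  have h1 : ∀ᶠ ε in 𝓝[>] (0:ℝ), ε < δ / 7 :=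
    mem_nhdsWithin_of_mem_nhds (Iio_mem_nhds (by positivity))
  filter_upwards [h1] with ε hε x hx y hy
  by_contra hlt
  push Not at hlt
  have h2 : y ∈ Metric.thickening δ X := Metric.mem_thickening_iff.2 ⟨x, hx, by
    rw [dist_comm]; linarith⟩
  have h3 : y ∈ Metric.thickening δ Y := Metric.mem_thickening_iff.2 ⟨y, hy, by
    rw [dist_self]; exact hδ⟩
  exact Set.disjoint_left.1 h h2 h3

/-- vertex disjoint discretizations -/
private theorem PL4_disj {X Y : Set (ℝ × ℝ)} {L M : List Stp} {ε : ℝ} (hε : 0 < ε)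
    (h : ∀ x ∈ X, ∀ y ∈ Y, 7 * ε ≤ dist x y)
    (hL : ∀ z, OnC L z → ∃ c ∈ X, dist ((ε * (z.1 : ℝ), ε * (z.2 : ℝ)) : ℝ × ℝ) c ≤ 3 * ε)
    (hM : ∀ z, OnC M z → ∃ c ∈ Y, dist ((ε * (z.1 : ℝ), ε * (z.2 : ℝ)) : ℝ × ℝ) c ≤ 3 * ε) :
    ∀ z, ¬ (OnC L z ∧ OnC M z) := by
  rintro z ⟨hz1, hz2⟩
  obtain ⟨a, ha, ha'⟩ := hL z hz1
  obtain ⟨b, hb, hb'⟩ := hM z hz2
  have h1 := h a ha b hb
  have h2 := dist_triangle_left a b ((ε * (z.1 : ℝ), ε * (z.2 : ℝ)) : ℝ × ℝ)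
  linarith

/-- Proof: choose for each of the finitely many quadruples `A`, `B` (`choose`). Finitely many pairs of disjoint
compact sets (`A, B`; `A, L k`; ...; `{y j}, L i`; `{o}, {y j}`: `o ∈ L i`, `y j ∉ L i`) have a common positive lower bound
`10 ε` of their distances (e.g. `IsCompact.exists_infEDist..` or `Metric.infDist`, or `Disjoint.exists_thickenings`;
minimum over the finite type of quadruples). Discretize all sets at scale `ε` (`discretize`): a common vertex `z` of the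
chains of two sets gives points of the sets at distance at most `6 ε`; `flS ε (y j)` a vertex of the chain of `L i` gives
a point of `L i` at distance at most `4 ε` from `y j` (`flS_dist`). `flS ε o ≠ flS ε (y i)` by `flS_dist`. `pairing_lattice`. -/
theorem pairing4 {o : ℝ × ℝ} {y : Fin 4 → ℝ × ℝ} {L : Fin 4 → Set (ℝ × ℝ)}
    (hLc : ∀ i, IsCompact (L i)) (hLp : ∀ i, IsPreconnected (L i)) (ho : ∀ i, o ∈ L i)
    (hy : ∀ i, y i ∈ L i) (hne : ∀ i j, i ≠ j → y j ∉ L i)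
    (h : ∀ i j k l : Fin 4, [i, j, k, l].Nodup → ∃ A B : Set (ℝ × ℝ), IsCompact A ∧
      IsPreconnected A ∧ IsCompact B ∧ IsPreconnected B ∧ y i ∈ A ∧ y j ∈ A ∧ y k ∈ B ∧ y l ∈ B ∧
      Disjoint A B ∧ Disjoint A (L k) ∧ Disjoint A (L l) ∧ Disjoint B (L i) ∧ Disjoint B (L j)) :
    False := by
  choose A B hAc hAp hBc hBp hyi hyj hyk hyl hAB hAk hAl hBi hBj using h
  have hpos : ∀ᶠ ε in 𝓝[>] (0:ℝ), 0 < ε := self_mem_nhdsWithin
  have e1 : ∀ᶠ ε in 𝓝[>] (0:ℝ), ∀ i j k l : Fin 4, ∀ hn : [i, j, k, l].Nodup,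
      (∀ a ∈ A i j k l hn, ∀ b ∈ B i j k l hn, 7 * ε ≤ dist a b) ∧
      (∀ a ∈ A i j k l hn, ∀ b ∈ L k, 7 * ε ≤ dist a b) ∧
      (∀ a ∈ A i j k l hn, ∀ b ∈ L l, 7 * ε ≤ dist a b) ∧
      (∀ a ∈ B i j k l hn, ∀ b ∈ L i, 7 * ε ≤ dist a b) ∧
      (∀ a ∈ B i j k l hn, ∀ b ∈ L j, 7 * ε ≤ dist a b) := by
    rw [eventually_all]; intro i
    rw [eventually_all]; intro j
    rw [eventually_all]; intro k
    rw [eventually_all]; intro l
    rw [eventually_all]; intro hn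
    exact (PL4_sep (hAc i j k l hn) (hBc i j k l hn) (hAB i j k l hn)).and
      ((PL4_sep (hAc i j k l hn) (hLc k) (hAk i j k l hn)).and
      ((PL4_sep (hAc i j k l hn) (hLc l) (hAl i j k l hn)).and
      ((PL4_sep (hBc i j k l hn) (hLc i) (hBi i j k l hn)).and
      (PL4_sep (hBc i j k l hn) (hLc j) (hBj i j k l hn)))))
  have e2 : ∀ᶠ ε in 𝓝[>] (0:ℝ), ∀ i j : Fin 4, i ≠ j → ∀ a ∈ ({y j} : Set (ℝ × ℝ)), ∀ b ∈ L i,
      7 * ε ≤ dist a b := by
    rw [eventually_all]; intro i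
    rw [eventually_all]; intro j
    rw [eventually_all]; intro hij
    exact PL4_sep isCompact_singleton (hLc i) (Set.disjoint_singleton_left.2 (hne i j hij))
  obtain ⟨ε, hε, h1, h2⟩ := (hpos.and (e1.and e2)).exists
  choose lam hlam hlam' using fun i => discretize (hLp i) (ho i) (hy i) hε
  refine pairing_lattice (flS ε o) (fun i => flS ε (y i)) lam hlam ?_ ?_ ?_
  · intro i heq
    obtain ⟨j, hj⟩ := exists_ne i
    have h3 := h2 j i hj (y i) rfl o (ho j)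
    have h4 := flS_dist hε o
    have h5 := flS_dist hε (y i)
    rw [heq] at h4
    have h6 := dist_triangle_left (y i) o
      ((ε * ((flS ε (y i)).1 : ℝ), ε * ((flS ε (y i)).2 : ℝ)) : ℝ × ℝ)
    linarith
  · intro i j hij hon
    obtain ⟨c, hc, hc'⟩ := hlam' i _ hon
    have h3 := h2 i j hij (y j) rfl c hc
    have h5 := flS_dist hε (y j)
    have h6 := dist_triangle_left (y j) c
      ((ε * ((flS ε (y j)).1 : ℝ), ε * ((flS ε (y j)).2 : ℝ)) : ℝ × ℝ)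
    linarith
  · intro i j k l hn
    obtain ⟨g1, g2, g3, g4, g5⟩ := h1 i j k l hn
    obtain ⟨a, ha, ha'⟩ := discretize (hAp i j k l hn) (hyi i j k l hn) (hyj i j k l hn) hε
    obtain ⟨b, hb, hb'⟩ := discretize (hBp i j k l hn) (hyk i j k l hn) (hyl i j k l hn) hε
    exact ⟨a, b, ha, hb, PL4_disj hε g1 ha' hb', PL4_disj hε g2 ha' (hlam' k),
      PL4_disj hε g3 ha' (hlam' l), PL4_disj hε g4 hb' (hlam' i), PL4_disj hε g5 hb' (hlam' j)⟩

end CarpetLib
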