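import Pool.Agent.Lib.MP_f3090c_an.D.PL4

/-! D13: pairing lemma for continua. -/

open Set Filter Topology

namespace CarpetLib

/-- Pairing lemma (from `pairing4`, D/PL1 - D/PL4). -/
theorem pairing (L : Fin 4 → Set (ℝ × ℝ)) (o : ℝ × ℝ) (y : Fin 4 → ℝ × ℝ)
    (hLc : ∀ i, IsCompact (L i)) (hLp : ∀ i, IsPreconnected (L i)) (ho : ∀ i, o ∈ L i)
    (hyL : ∀ i, y i ∈ L i) (hy : ∀ i j, i ≠ j → y j ∉ L i)
    (hpair : ∀ i j k l : Fin 4, i ≠ j → i ≠ k → i ≠ l → j ≠ k → j ≠ l → k ≠ l →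
      ∃ A B : Set (ℝ × ℝ), IsCompact A ∧ IsPreconnected A ∧ IsCompact B ∧ IsPreconnected B ∧
        y i ∈ A ∧ y j ∈ A ∧ y k ∈ B ∧ y l ∈ B ∧ Disjoint A B ∧
        Disjoint A (L k) ∧ Disjoint A (L l) ∧ Disjoint B (L i) ∧ Disjoint B (L j)) :
    False := by
  refine pairing4 hLc hLp ho hyL hy fun i j k l hnd => ?_
  simp only [List.nodup_cons, List.mem_cons, List.not_mem_nil, or_false, not_or, not_false_eq_true,
    List.nodup_nil, and_true] at hnd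
  obtain ⟨⟨h1, h2, h3⟩, ⟨h4, h5⟩, h6⟩ := hnd
  exact hpair i j k l h1 h2 h3 h4 h5 h6

end CarpetLib
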