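import Pool.Agent.Lib.MP_f3090c_an.D.Geo0

/-! D22: 5.5 (a) of the paper proof. -/

open Set Filter Topology

namespace CarpetLib

private theorem potL_sup {S : SymForm} {Z : Set K}
    {g : C(K, ℝ)} (hg : g ∈ S.dom) (g0 : ∀ t, 0 ≤ g t)
    (hE : ∀ f ∈ S.domZ Z, (∀ t, 0 ≤ f t) → 0 ≤ S.E g f) {N : Set K} (h : Disjoint N Z) :
    SupOn S N g := by
  refine ⟨hg, fun x _ => g0 x, fun v hv hv0 hvN => hE v ?_ hv0⟩
  refine ⟨hv, fun z hz => hvN z fun hzN => ?_⟩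
  exact Set.disjoint_left.1 h hzN hz

/-- 5.5 (a). Proof: `SupOn S N g` for `N` disjoint from `Z` (test functions vanishing off `N` vanish on `Z`). Harnack in
`cC x v` (level `p + 1`), `x'`, `x''` (level `p`) with the points `y`, `p'` (`T.v_mem`), a common point of `x'`, `x''` (`near_share`), `z`. -/
theorem pot_lower {S : SymForm} {c : ℝ} (hc : 0 < c) (har : Harnack S c) {Z : Set K}
    {g : C(K, ℝ)} (hg : g ∈ S.dom) (g0 : ∀ t, 0 ≤ g t)
    (hE : ∀ f ∈ S.domZ Z, (∀ t, 0 ≤ f t) → 0 ≤ S.E g f) {p : ℕ} {a x x' v x'' : Ix}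
    (T : TipD p a x x' v) (hx'' : Pres p x'') (hn : Near 1 x' x'')
    (h1 : Disjoint (nb (p + 1) (cC x v)) Z) (h2 : Disjoint (nb p x') Z) (h3 : Disjoint (nb p x'') Z)
    {z y : K} (hz : z ∈ cell p x'') (hy : y ∈ cell (p + 1) (cC x v)) : c ^ 3 * g z ≤ g y := by
  obtain ⟨p', -, hp1, -, hp2⟩ := T.v_mem
  obtain ⟨w, hw1, hw2⟩ := near_share T.px' hn
  have e1 := har (p + 1) _ T.pres_cC g (potL_sup hg g0 hE h1) y hy p' hp1
  have e2 := har p _ T.px' g (potL_sup hg g0 hE h2) p' hp2 w hw1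
  have e3 := har p _ hx'' g (potL_sup hg g0 hE h3) w hw2 z hz
  calc c ^ 3 * g z = c * (c * (c * g z)) := by ring
    _ ≤ c * (c * g w) := by gcongr
    _ ≤ c * g p' := by gcongr
    _ ≤ g y := e1

end CarpetLib
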