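import Pool.Agent.Lib.MP_f3090c_an.R.Riesz
import Pool.Agent.Lib.MP_f3090c_an.R.Nodal
import Pool.Agent.Lib.MP_f3090c_an.R.Glue

/-! Doubling DB09: cutting off a nodal piece; harmonic functions with prescribed values at
finitely many points. -/

open Set Filter Topology

namespace CarpetLib

variable {X : Type*} [TopologicalSpace X] [CompactSpace X] [T2Space X]

/-- separation of finitely many points from a component -/
private theorem RCut_sep {Y : Type*} [TopologicalSpace Y] [CompactSpace Y] [T2Space Y]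
    {ι : Type*} [Finite ι] (P : ι → Prop) (s : ι → Y) (y : Y)
    (h : ∀ i, P i → s i ∉ connectedComponent y) :
    ∃ A : Set Y, IsClopen A ∧ y ∈ A ∧ ∀ i, P i → s i ∉ A := by
  have h1 : ∀ i, ∃ A : Set Y, IsClopen A ∧ y ∈ A ∧ (P i → s i ∉ A) := by
    intro i
    by_cases hi : P i
    · have h2 := h i hi
      rw [connectedComponent_eq_iInter_isClopen, mem_iInter] at h2
      push Not at h2
      obtain ⟨⟨A, hA, hyA⟩, hs⟩ := h2
      exact ⟨A, hA, hyA, fun _ => hs⟩
    · exact ⟨univ, isClopen_univ, mem_univ y, fun h => absurd h hi⟩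
  choose A hA hy hs using h1
  exact ⟨⋂ i, A i, isClopen_iInter_of_finite hA, mem_iInter.mpr hy,
    fun i hi hcon => hs i hi (mem_iInter.mp hcon i)⟩

omit [CompactSpace X] [T2Space X] in
/-- cutting a function along a closed set -/
private theorem RCut_cut {A B : Set X} (hA : IsClosed A) (hB : IsClosed B) (hAB : Disjoint A B)
    (p : C(X, ℝ)) (hp : ∀ x, x ∉ A → x ∉ B → p x = 0)
    (hD : IsClosed {x | p x = 0}) :
    ∃ f : C(X, ℝ), (∀ x ∈ A, f x = p x) ∧ (∀ x, x ∉ A → f x = 0) := by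
  classical
  have hcont : Continuous (A.indicator p) := by
    have h1 : ContinuousOn (A.indicator p) A :=
      p.continuous.continuousOn.congr fun x hx => indicator_of_mem hx p
    have h2 : ContinuousOn (A.indicator p) (B ∪ {x | p x = 0}) := by
      refine (continuousOn_const (c := (0 : ℝ))).congr fun x hx => ?_
      rcases hx with hx | hx
      · exact indicator_of_notMem (fun h => disjoint_left.mp hAB h hx) p
      · by_cases hxA : x ∈ A
        · rw [indicator_of_mem hxA]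
          exact hx
        · exact indicator_of_notMem hxA p
    have h3 := h1.union_of_isClosed h2 hA (hB.union hD)
    have h4 : A ∪ (B ∪ {x | p x = 0}) = univ := by
      rw [eq_univ_iff_forall]
      intro x
      by_cases hxA : x ∈ A
      · exact Or.inl hxA
      · by_cases hxB : x ∈ B
        · exact Or.inr (Or.inl hxB)
        · exact Or.inr (Or.inr (hp x hxA hxB))
    rw [h4] at h3
    exact continuousOn_univ.mp h3
  exact ⟨⟨A.indicator p, hcont⟩, fun x hx => indicator_of_mem hx p,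
    fun x hx => indicator_of_notMem hx p⟩

namespace RForm
variable (R : RForm X)

/-- If `y` is not joined inside `{v > 0}` to any point of the finite set `T`, the part of
`(v - ε)⁺` around `y` may be cut off. Proof: as in `R/Nodal.lean`: `S' = {v ≥ ε}` is compact, the component of
`y` in `S'` contains no point of `T`, so there is a relatively clopen `A ⊆ S'` with `y ∈ A` missing
`T`; `φ = (v - ε)⁺` on `A`, `0` elsewhere. `E(v, φ) = E(v - ε, φ) = E((v - ε)⁺, φ) - E((v - ε)⁻, φ) ≥ E(φ, φ)`. -/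
theorem cut_off {v : C(X, ℝ)} (hv : v ∈ R.dom) {y : X} (T : Finset X)
    (hT : ∀ t ∈ T, ¬ Joined' {x | 0 < v x} y t) {ε : ℝ} (hε : 0 < ε) (hy : ε < v y) :
    ∃ φ ∈ R.dom, (∀ x, 0 ≤ φ x) ∧ (∀ x, φ x ≤ max (v x) 0) ∧ φ y = v y - ε ∧
      (∀ t ∈ T, φ t = 0) ∧ R.E φ φ ≤ R.E v φ := by
  set S : Set X := {x | ε ≤ v x} with hS
  have hSc : IsClosed S := isClosed_le continuous_const v.continuous
  have hyS : y ∈ S := hy.le
  have : CompactSpace S := isCompact_iff_compactSpace.mp hSc.isCompact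
  classical
  let s' : {t // t ∈ T} → S := fun t => if h : t.1 ∈ S then ⟨t.1, h⟩ else ⟨y, hyS⟩
  have hs' : ∀ t : {t // t ∈ T}, t.1 ∈ S → ((s' t : S) : X) = t.1 := fun t ht => by
    simp only [s', dif_pos ht]
  obtain ⟨A', hA', hyA', hsA'⟩ := RCut_sep (Y := S) (fun t : {t // t ∈ T} => t.1 ∈ S) s' ⟨y, hyS⟩ (by
    rintro t hiS hmem
    refine hT t.1 t.2 ⟨Subtype.val '' connectedComponent (⟨y, hyS⟩ : S), ?_, ?_, ?_, ?_, ?_⟩
    · exact isClosed_connectedComponent.isCompact.image continuous_subtype_val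
    · exact isPreconnected_connectedComponent.image _ continuous_subtype_val.continuousOn
    · rintro _ ⟨z, -, rfl⟩
      exact hε.trans_le z.2
    · exact ⟨_, mem_connectedComponent, rfl⟩
    · exact ⟨s' t, hmem, hs' t hiS⟩)
  set A : Set X := Subtype.val '' A' with hAdef
  set B : Set X := Subtype.val '' A'ᶜ with hBdef
  have hemb : IsClosedEmbedding (Subtype.val : S → X) := hSc.isClosedEmbedding_subtypeVal
  have hA : IsClosed A := hemb.isClosedMap _ hA'.1
  have hB : IsClosed B := hemb.isClosedMap _ hA'.compl.1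
  have hAB : Disjoint A B := by
    rw [disjoint_left]
    rintro _ ⟨z, hz, rfl⟩ ⟨z', hz', h⟩
    rw [Subtype.val_injective h] at hz'
    exact hz' hz
  have hAS : A ⊆ S := by
    rintro _ ⟨z, -, rfl⟩
    exact z.2
  have hcov : ∀ x ∈ S, x ∈ A ∨ x ∈ B := by
    intro x hx
    by_cases h : (⟨x, hx⟩ : S) ∈ A'
    · exact Or.inl ⟨_, h, rfl⟩
    · exact Or.inr ⟨_, h, rfl⟩
  have hyA : y ∈ A := ⟨_, hyA', rfl⟩
  have hsA : ∀ t ∈ T, t ∉ A := by
    rintro t ht ⟨z, hz, hzs⟩
    have hiS : t ∈ S := by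
      rw [← hzs]
      exact z.2
    refine hsA' ⟨t, ht⟩ hiS ?_
    have : s' ⟨t, ht⟩ = z := Subtype.ext ((hs' ⟨t, ht⟩ hiS).trans hzs.symm)
    rw [this]
    exact hz
  -- the functions
  set c : C(X, ℝ) := ContinuousMap.const X ε with hc
  have hcm : c ∈ R.dom := R.const_mem ε
  set p : C(X, ℝ) := (v - c) ⊔ 0 with hp
  set n : C(X, ℝ) := (c - v) ⊔ 0 with hn
  have hpm : p ∈ R.dom := R.sup_mem (R.dom.sub_mem hv hcm) R.dom.zero_mem
  have hnm : n ∈ R.dom := R.sup_mem (R.dom.sub_mem hcm hv) R.dom.zero_mem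
  have hpx : ∀ x, p x = max (v x - ε) 0 := fun x => rfl
  have hnx : ∀ x, n x = max (ε - v x) 0 := fun x => rfl
  have hp0 : ∀ x, x ∉ S → p x = 0 := by
    intro x hx
    have : v x < ε := not_le.mp hx
    rw [hpx, max_eq_right (by linarith)]
  have hpz : ∀ x, x ∉ A → x ∉ B → p x = 0 := by
    intro x hxA hxB
    refine hp0 x fun hx => ?_
    rcases hcov x hx with h | h
    · exact hxA h
    · exact hxB h
  have hDc : IsClosed {x | p x = 0} := isClosed_eq p.continuous continuous_const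
  obtain ⟨f₁, hf1, hf1'⟩ := RCut_cut hA hB hAB p hpz hDc
  obtain ⟨f₂, hf2, hf2'⟩ := RCut_cut hB hA hAB.symm p (fun x h h' => hpz x h' h) hDc
  have hsum : f₁ + f₂ = p := by
    ext x
    show f₁ x + f₂ x = p x
    by_cases hxA : x ∈ A
    · rw [hf1 x hxA, hf2' x (fun h => disjoint_left.mp hAB hxA h), add_zero]
    · by_cases hxB : x ∈ B
      · rw [hf1' x hxA, hf2 x hxB, zero_add]
      · rw [hf1' x hxA, hf2' x hxB, hpz x hxA hxB, add_zero]
  have hts : ∀ (f : C(X, ℝ)) (T : Set X), IsClosed T → (∀ x, x ∉ T → f x = 0) → tsupport f ⊆ T := by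
    intro f T hT h
    refine closure_minimal (fun x hx => ?_) hT
    by_contra hxT
    exact hx (h x hxT)
  obtain ⟨h1m, h2m, h12⟩ := R.loc f₁ f₂ (by rw [hsum]; exact hpm)
    (hAB.mono (hts f₁ A hA hf1') (hts f₂ B hB hf2'))
  have hf1nn : ∀ x, 0 ≤ f₁ x := by
    intro x
    by_cases hxA : x ∈ A
    · rw [hf1 x hxA, hpx]
      exact le_max_right _ _
    · rw [hf1' x hxA]
  have hf1le : (0 : C(X, ℝ)) ≤ f₁ := fun x => hf1nn x
  -- the energy
  have hE : R.E f₁ f₁ ≤ R.E v f₁ := by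
    have e1 : v = c + (p - n) := by
      ext x
      show v x = ε + (p x - n x)
      rw [hpx, hnx]
      rcases le_total ε (v x) with h | h
      · rw [max_eq_left (by linarith), max_eq_right (by linarith)]
        ring
      · rw [max_eq_right (by linarith), max_eq_left (by linarith)]
        ring
    have e2 : R.E v f₁ = R.E c f₁ + (R.E f₁ f₁ + R.E f₂ f₁ - R.E n f₁) := by
      conv_lhs => rw [e1, ← hsum]
      simp only [map_add, map_sub, LinearMap.add_apply, LinearMap.sub_apply]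
    have e3 : R.E n f₁ ≤ 0 := by
      refine R.E_disj_nonpos hnm h1m (fun x => ?_) hf1le (fun x => ?_)
      · show (0 : ℝ) ≤ n x
        rw [hnx]
        exact le_max_right _ _
      · by_cases hx : x ∈ S
        · left
          have : ε ≤ v x := hx
          rw [hnx, max_eq_right (by linarith)]
        · right
          exact hf1' x fun h => hx (hAS h)
    rw [e2, R.E_const_left, R.symm f₂ f₁, h12]
    linarith
  refine ⟨f₁, h1m, hf1nn, fun x => ?_, ?_, fun t ht => hf1' t (hsA t ht), hE⟩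
  · by_cases hxA : x ∈ A
    · rw [hf1 x hxA, hpx]
      exact max_le_max (by linarith) le_rfl
    · rw [hf1' x hxA]
      exact le_max_right _ _
  · rw [hf1 y hyA, hpx, max_eq_left (by linarith)]

omit [T2Space X] in
private theorem RCut_le_one {Z : Set X} (hZ : Z.Nonempty) {ψ : C(X, ℝ)} (hψ : ψ ∈ R.dom)
    (h0 : ∀ f ∈ R.domZ Z, R.E ψ f = 0) (h1 : ∀ z ∈ Z, ψ z ≤ 1) (x : X) : ψ x ≤ 1 := by
  set c : C(X, ℝ) := ContinuousMap.const X 1 with hc
  have hcm : c ∈ R.dom := R.const_mem 1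
  set p : C(X, ℝ) := (ψ - c) ⊔ 0 with hp
  set n : C(X, ℝ) := (c - ψ) ⊔ 0 with hn
  have hpm : p ∈ R.dom := R.sup_mem (R.dom.sub_mem hψ hcm) R.dom.zero_mem
  have hnm : n ∈ R.dom := R.sup_mem (R.dom.sub_mem hcm hψ) R.dom.zero_mem
  have hpx : ∀ x, p x = max (ψ x - 1) 0 := fun x => rfl
  have hnx : ∀ x, n x = max (1 - ψ x) 0 := fun x => rfl
  have hpZ : p ∈ R.domZ Z := by
    refine ⟨hpm, fun z hz => ?_⟩
    rw [hpx, max_eq_right (by linarith [h1 z hz])]
  have e1 : ψ = c + (p - n) := by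
    ext x
    show ψ x = 1 + (p x - n x)
    rw [hpx, hnx]
    rcases le_total 1 (ψ x) with h | h
    · rw [max_eq_left (by linarith), max_eq_right (by linarith)]
      ring
    · rw [max_eq_right (by linarith), max_eq_left (by linarith)]
      ring
  have e2 : R.E ψ p = R.E c p + (R.E p p - R.E n p) := by
    conv_lhs => rw [e1]
    simp only [map_add, map_sub, LinearMap.add_apply, LinearMap.sub_apply]
  have e3 : R.E n p ≤ 0 := by
    refine R.E_disj_nonpos hnm hpm (fun x => ?_) (fun x => ?_) (fun x => ?_)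
    · show (0 : ℝ) ≤ n x
      rw [hnx]
      exact le_max_right _ _
    · show (0 : ℝ) ≤ p x
      rw [hpx]
      exact le_max_right _ _
    · rcases le_total 1 (ψ x) with h | h
      · left
        rw [hnx, max_eq_right (by linarith)]
      · right
        rw [hpx, max_eq_right (by linarith)]
  have e4 : R.E p p = 0 := by
    have e5 := R.nonneg p
    rw [h0 p hpZ, R.E_const_left] at e2
    linarith
  obtain ⟨z, hz⟩ := hZ
  have e6 := R.const_of_zero p hpm e4 x z
  rw [hpZ.2 z hz, hpx] at e6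
  have e7 := le_max_left (ψ x - 1) 0
  linarith

/-- Energy minimiser with prescribed values `ε i`, `|ε i| ≤ 1`, at the points `y i`. Proof: `Z = range y`
is closed and nonempty, `ψ = β - w` with `w ∈ domZ Z` representing `f ↦ E(β, f)` (`riesz` with
`κ = 0`). `E(ψ, f) = 0` on `domZ Z`, so `E(ψ, ψ) = E(ψ, β) ≤ E(β, β)`. With `k = (ψ - 1)⁺ ∈ domZ Z`:
`0 = E(ψ, k) ≥ E(k, k)`, so `k` is constant and zero on `Z`; the same for `-ψ`. -/
theorem exists_psi {ι : Type} [Fintype ι] [Nonempty ι] (y : ι → X) (ε : ι → ℝ)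
    (hε : ∀ i, |ε i| ≤ 1) {β : C(X, ℝ)} (hβ : β ∈ R.dom) (hβy : ∀ i, β (y i) = ε i) :
    ∃ ψ ∈ R.dom, (∀ x, |ψ x| ≤ 1) ∧ (∀ i, ψ (y i) = ε i) ∧ R.E ψ ψ ≤ R.E β β ∧
      ∀ f ∈ R.dom, (∀ i, f (y i) = 0) → R.E ψ f = 0 := by
  obtain ⟨Z, hZ⟩ : ∃ Z : Set X, Z = range y := ⟨_, rfl⟩
  have hZc : IsClosed Z := by rw [hZ]; exact (finite_range y).isClosed
  have hZn : Z.Nonempty := by rw [hZ]; exact range_nonempty y
  have hQ : ∀ f g : C(X, ℝ), R.Q (0 : C(X, ℝ) →ₗ[ℝ] ℝ) f g = R.E f g := fun f g => by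
    unfold Q
    rw [LinearMap.zero_apply, add_zero]
  obtain ⟨w, hw, hwE⟩ := R.riesz (κ := 0) (Z := Z) ⟨fun f _ => le_rfl, hZc, Or.inr hZn⟩ (R.E β)
    ⟨R.E β β, fun f _ => by rw [hQ]; exact R.cs β f⟩
  have hmemZ : ∀ f : C(X, ℝ), f ∈ R.dom → (∀ i, f (y i) = 0) → f ∈ R.domZ Z := by
    intro f hf h
    refine ⟨hf, fun z hz => ?_⟩
    rw [hZ] at hz
    obtain ⟨i, rfl⟩ := hz
    exact h i
  have hψ0 : ∀ f ∈ R.domZ Z, R.E (β - w) f = 0 := by
    intro f hf
    have h1 := hwE f hf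
    rw [hQ] at h1
    rw [map_sub, LinearMap.sub_apply, h1, sub_self]
  have hψd : β - w ∈ R.dom := R.dom.sub_mem hβ hw.1
  have hψy : ∀ i, (β - w) (y i) = ε i := by
    intro i
    have h1 : w (y i) = 0 := hw.2 _ (by rw [hZ]; exact ⟨i, rfl⟩)
    show β (y i) - w (y i) = ε i
    rw [h1, hβy, sub_zero]
  refine ⟨β - w, hψd, fun x => ?_, hψy, ?_, fun f hf hf0 => hψ0 f (hmemZ f hf hf0)⟩
  · rw [abs_le]
    constructor
    · have h1 := R.RCut_le_one hZn (ψ := -(β - w)) (R.dom.neg_mem hψd) (fun f hf => by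
        rw [map_neg, LinearMap.neg_apply, hψ0 f hf, neg_zero]) (fun z hz => by
        rw [hZ] at hz
        obtain ⟨i, rfl⟩ := hz
        show -((β - w) (y i)) ≤ 1
        rw [hψy]
        linarith [(abs_le.1 (hε i)).1]) x
      have h2 : (-(β - w)) x = -((β - w) x) := rfl
      rw [h2] at h1
      linarith
    · refine R.RCut_le_one hZn hψd hψ0 (fun z hz => ?_) x
      rw [hZ] at hz
      obtain ⟨i, rfl⟩ := hz
      rw [hψy]
      exact (abs_le.1 (hε i)).2
  · have h1 := hψ0 w hw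
    have h2 : R.E w w = R.E β w := by
      rw [← hwE w hw, hQ]
    have h3 := R.nonneg w
    have h4 : R.E (β - w) (β - w) = R.E (β - w) β - R.E (β - w) w := by rw [map_sub]
    have h5 : R.E (β - w) β = R.E β β - R.E w β := by rw [map_sub, LinearMap.sub_apply]
    rw [h4, h1, h5, R.symm w β, ← h2]
    linarith

end RForm

end CarpetLib
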