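import Pool.Agent.Lib.MP_f3090c_an.D.Third
import Pool.Agent.Lib.MP_f3090c_an.D.Basic3
import Pool.Agent.Lib.MP_f3090c_an.P.Chain

/-! D15: rook chains along connected sets, (C2), (C3) of section 4 of the paper proof. -/

open Set Filter Topology

namespace CarpetLib

/-- a touching step between present cells is made of two rook steps through present cells (`third`) -/
theorem reach_near {l : ℕ} {A : Ix → Prop} (hA : ∀ a b, A a → A b → A (a.1, b.2)) {p q : Ix}
    (hp : Pres l p) (hq : Pres l q) (hAp : A p) (hAq : A q) (h : Near 1 p q) :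
    Reach (fun b => Pres l b ∧ A b) p q := by
  rcases third hp hq h with h3 | h3
  · have s1 : Rook p (p.1, q.2) := Or.inl ⟨rfl, h.2⟩
    have s2 : Rook (p.1, q.2) q := Or.inr ⟨rfl, h.1⟩
    exact (Relation.ReflTransGen.single ⟨s1, h3, hA _ _ hAp hAq⟩).tail ⟨s2, hq, hAq⟩
  · have s1 : Rook p (q.1, p.2) := Or.inr ⟨rfl, h.1⟩
    have s2 : Rook (q.1, p.2) q := Or.inl ⟨rfl, h.2⟩
    exact (Relation.ReflTransGen.single ⟨s1, h3, hA _ _ hAq hAp⟩).tail ⟨s2, hq, hAq⟩

private theorem RookC_int {a b : ℤ} {s t : ℝ} (h1 : (a : ℝ) ≤ s) (h2 : s ≤ (a : ℝ) + 1)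
    (h3 : (b : ℝ) ≤ t) (h4 : t ≤ (b : ℝ) + 1) (h5 : |s - t| < 1) : |a - b| ≤ 1 := by
  rw [abs_lt] at h5
  have e1 : (a : ℝ) < (b : ℝ) + 2 := by linarith
  have e2 : (b : ℝ) < (a : ℝ) + 2 := by linarith
  have e1' : a < b + 2 := by exact_mod_cast e1
  have e2' : b < a + 2 := by exact_mod_cast e2
  rw [abs_le]
  omega

private theorem RookC_near {l : ℕ} {p q : Ix} {x z : K} (hx : x ∈ cell l p) (hz : z ∈ cell l q)
    (hd : dist x z < 1 / 3 ^ l) : Near 1 p q := by
  have hpos : (0 : ℝ) < 3 ^ l := by positivity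
  obtain ⟨⟨a1, a2⟩, a3, a4⟩ := hx
  obtain ⟨⟨b1, b2⟩, b3, b4⟩ := hz
  have hd1 : |x.1.1 - z.1.1| < 1 / 3 ^ l := by
    refine lt_of_le_of_lt ?_ hd
    rw [Subtype.dist_eq, Prod.dist_eq, ← Real.dist_eq]
    exact le_max_left _ _
  have hd2 : |x.1.2 - z.1.2| < 1 / 3 ^ l := by
    refine lt_of_le_of_lt ?_ hd
    rw [Subtype.dist_eq, Prod.dist_eq, ← Real.dist_eq]
    exact le_max_right _ _
  have key : ∀ u v : ℝ, |u - v| < 1 / 3 ^ l → |3 ^ l * u - 3 ^ l * v| < 1 := by
    intro u v huv
    rw [← mul_sub, abs_mul, abs_of_pos hpos]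
    calc (3 : ℝ) ^ l * |u - v| < 3 ^ l * (1 / 3 ^ l) := mul_lt_mul_of_pos_left huv hpos
      _ = 1 := by field_simp
  exact ⟨RookC_int a1 a2 b1 b2 (key _ _ hd1), RookC_int a3 a4 b3 b4 (key _ _ hd2)⟩

/-- (C2), (C3). Proof: `exists_chain` with `ε = 3^{-l}` (sup metric) from `x` to `z` in `S`; for each chain point choose a present
cell with property `A` containing it (`p`, `q` for the end points); consecutive ones are `Near 1`; use `reach_near`. -/
theorem reach_conn {l : ℕ} {S : Set K} (hS : IsPreconnected S) {A : Ix → Prop}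
    (hA : ∀ a b, A a → A b → A (a.1, b.2))
    (hcov : ∀ z ∈ S, ∃ q, Pres l q ∧ A q ∧ z ∈ cell l q) {p q : Ix} (hp : Pres l p)
    (hq : Pres l q) (hAp : A p) (hAq : A q) {x z : K} (hx : x ∈ S) (hz : z ∈ S)
    (hxp : x ∈ cell l p) (hzq : z ∈ cell l q) : Reach (fun b => Pres l b ∧ A b) p q := by
  have hε : (0 : ℝ) < 1 / 3 ^ l := by positivity
  obtain ⟨N, c, hc0, hcN, hcS, hcd⟩ := exists_chain hS hx hz hε
  have key : ∀ i ≤ N, ∀ r, Pres l r → A r → c i ∈ cell l r →
      Reach (fun b => Pres l b ∧ A b) p r := by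
    intro i
    induction i with
    | zero =>
      intro _ r hr hAr hcr
      rw [hc0] at hcr
      exact reach_near hA hp hr hAp hAr (RookC_near hxp hcr (by rw [dist_self]; exact hε))
    | succ i ih =>
      intro hi r hr hAr hcr
      obtain ⟨r', hr', hAr', hcr'⟩ := hcov (c i) (hcS i (by omega))
      have h1 := ih (by omega) r' hr' hAr' hcr'
      have h2 := reach_near hA hr' hr hAr' hAr (RookC_near hcr' hcr (hcd i (by omega)))
      exact Relation.ReflTransGen.trans h1 h2
  exact key N le_rfl q hq hAq (by rw [hcN]; exact hzq)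

/-- all present cells of level `n + m` in the present cell `U` of level `n` are joined by rook chains inside `U`.
Proof: `reach_conn` with `S = cell n U` (`cell_conn`), `A b = (par m b = U)`, `cell_sub`, `cell_par`. -/
theorem reach_inside (S : SymForm) {n m : ℕ} {U : Ix} (hU : Pres n U) {p q : Ix}
    (hp : Pres (n + m) p) (hq : Pres (n + m) q) (hpU : par m p = U) (hqU : par m q = U) :
    Reach (fun b => Pres (n + m) b ∧ par m b = U) p q := by
  obtain ⟨x, hx⟩ := cell_nonempty hp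
  obtain ⟨z, hz⟩ := cell_nonempty hq
  have hxU : x ∈ cell n U := by
    have := cell_par n m p hx
    rwa [hpU] at this
  have hzU : z ∈ cell n U := by
    have := cell_par n m q hz
    rwa [hqU] at this
  refine reach_conn (A := fun b => par m b = U) (cell_conn S hU) ?_ ?_ hp hq hpU hqU hxU hzU hx hz
  · intro a b ha hb
    have h1 := congrArg Prod.fst ha
    have h2 := congrArg Prod.snd hb
    exact Prod.ext h1 h2
  · intro y hy
    exact cell_sub hU hy

end CarpetLib
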