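import Pool.Agent.Lib.MP_f3090c_an.D.RookC

/-! D15b: rings. -/

open Set Filter Topology

namespace CarpetLib

/-- points of the carpet closer than the side lie in touching squares -/
private theorem ring_near {n : ℕ} {p q : Ix} {x y : K} (hx : x ∈ cell n p) (hy : y ∈ cell n q)
    (h : dist x y < (3 ^ n : ℝ)⁻¹) : Near 1 p q := by
  have hpos : (0 : ℝ) < 3 ^ n := by positivity
  have h1 : dist x.1 y.1 < (3 ^ n : ℝ)⁻¹ := h
  rw [Prod.dist_eq, max_lt_iff, Real.dist_eq, Real.dist_eq, abs_lt, abs_lt] at h1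
  obtain ⟨⟨h2, h3⟩, h4, h5⟩ := h1
  have hinv : (3 ^ n : ℝ) * (3 ^ n : ℝ)⁻¹ = 1 := mul_inv_cancel₀ hpos.ne'
  have k2 : (3 ^ n : ℝ) * (-(3 ^ n : ℝ)⁻¹) < 3 ^ n * (x.1.1 - y.1.1) :=
    mul_lt_mul_of_pos_left h2 hpos
  have k3 : (3 ^ n : ℝ) * (x.1.1 - y.1.1) < 3 ^ n * (3 ^ n : ℝ)⁻¹ :=
    mul_lt_mul_of_pos_left h3 hpos
  have k4 : (3 ^ n : ℝ) * (-(3 ^ n : ℝ)⁻¹) < 3 ^ n * (x.1.2 - y.1.2) :=
    mul_lt_mul_of_pos_left h4 hpos
  have k5 : (3 ^ n : ℝ) * (x.1.2 - y.1.2) < 3 ^ n * (3 ^ n : ℝ)⁻¹ :=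
    mul_lt_mul_of_pos_left h5 hpos
  rw [mul_neg, hinv, mul_sub] at k2 k4
  rw [hinv, mul_sub] at k3 k5
  obtain ⟨⟨a1, a2⟩, a3, a4⟩ := hx
  obtain ⟨⟨b1, b2⟩, b3, b4⟩ := hy
  unfold Near
  rw [abs_le, abs_le]
  have e1 : (p.1 : ℝ) < (q.1 + 2 : ℤ) := by push_cast; linarith
  have e2 : (q.1 : ℝ) < (p.1 + 2 : ℤ) := by push_cast; linarith
  have e3 : (p.2 : ℝ) < (q.2 + 2 : ℤ) := by push_cast; linarith
  have e4 : (q.2 : ℝ) < (p.2 + 2 : ℤ) := by push_cast; linarith
  have f1 : p.1 < q.1 + 2 := by exact_mod_cast e1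
  have f2 : q.1 < p.1 + 2 := by exact_mod_cast e2
  have f3 : p.2 < q.2 + 2 := by exact_mod_cast e3
  have f4 : q.2 < p.2 + 2 := by exact_mod_cast e4
  omega

/-- (5.1) cells at distance exactly `r` met by a connected set. Proof: chain as in `reach_conn` from `x ∈ cell n q` to
`z ∈ cell n b`: touching chain `V_0 = q, ..., V_N = b` of present cells meeting `S`; distances to `Q` change by at most one in each
step and `V_0` is at distance `≤ 1`, `V_N` at distance `≥ 15`; take the first `V_t` at distance `≥ r` (then `= r`); `reach_near` for the part up to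
`t` with `A = Near r Q` (also from `Q` to `V_0`). -/
theorem ring_reach {n : ℕ} {S : Set K} (hS : IsPreconnected S) {Q q b : Ix} (hQ : Pres n Q)
    (hq : Pres n q) (hb : Pres n b) (hQq : Near 1 Q q) (hQb : ¬ Near 14 Q b) {x z : K}
    (hx : x ∈ S) (hz : z ∈ S) (hxq : x ∈ cell n q) (hzb : z ∈ cell n b) {r : ℤ} (hr2 : 2 ≤ r)
    (hr : r ≤ 14) :
    ∃ U, Pres n U ∧ Near r Q U ∧ ¬ Near (r - 1) Q U ∧ (∃ s ∈ S, s ∈ cell n U) ∧
      Reach (fun b => Pres n b ∧ Near r Q b) Q U := by
  classical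
  have hε : (0 : ℝ) < (3 ^ n : ℝ)⁻¹ := by positivity
  obtain ⟨N, p, hp0, hpN, hpS, hpd⟩ := exists_chain hS hx hz hε
  -- the chain of cells
  choose g hg1 hg2 using fun w : K => exists_cell_mem n w
  let V : ℕ → Ix := fun i => if i = N then b else if i = 0 then q else g (p i)
  have hVN : V N = b := by simp [V]
  have hN0 : N ≠ 0 := by
    intro h0
    have h1 : x ∈ cell n b := by
      have : x = z := by rw [← hp0, ← hpN, h0]
      rw [this]; exact hzb
    have h2 := ring_near hxq h1 (by rw [dist_self]; exact hε)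
    apply hQb
    unfold Near at *
    rw [abs_le, abs_le] at *
    omega
  have hV0 : V 0 = q := by
    have : (0 : ℕ) ≠ N := fun h => hN0 h.symm
    simp [V, this]
  have hVp : ∀ i, Pres n (V i) := by
    intro i
    simp only [V]
    split_ifs
    · exact hb
    · exact hq
    · exact hg1 _
  have hVm : ∀ i, p i ∈ cell n (V i) ∨ False := by
    intro i
    left
    simp only [V]
    split_ifs with h1 h2
    · rw [h1, hpN]; exact hzb
    · rw [h2, hp0]; exact hxq
    · exact hg2 _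
  have hVm' : ∀ i, p i ∈ cell n (V i) := fun i => (hVm i).resolve_right id
  have hVn : ∀ i < N, Near 1 (V i) (V (i + 1)) := fun i hi =>
    ring_near (hVm' i) (hVm' (i + 1)) (hpd i hi)
  -- the first cell at distance at least r
  have hex : ∃ t, ¬ Near (r - 1) Q (V t) := ⟨N, by
    rw [hVN]
    intro h
    apply hQb
    unfold Near at *
    rw [abs_le, abs_le] at *
    omega⟩
  let t := Nat.find hex
  have ht : ¬ Near (r - 1) Q (V t) := Nat.find_spec hex
  have htm : ∀ i < t, Near (r - 1) Q (V i) := fun i hi => not_not.1 (Nat.find_min hex hi)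
  have htN : t ≤ N := Nat.find_min' hex (by
    rw [hVN]
    intro h
    apply hQb
    unfold Near at *
    rw [abs_le, abs_le] at *
    omega)
  have ht0 : t ≠ 0 := by
    intro h0
    rw [h0, hV0] at ht
    apply ht
    unfold Near at *
    rw [abs_le, abs_le] at *
    omega
  have hA : ∀ i ≤ t, Near r Q (V i) := by
    intro i hi
    rcases Nat.lt_or_ge i t with h | h
    · have := htm i h
      unfold Near at *
      rw [abs_le, abs_le] at *
      omega
    · have hit : i = t := le_antisymm hi h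
      obtain ⟨s, hs⟩ := Nat.exists_eq_succ_of_ne_zero ht0
      have h1 := htm s (by omega)
      have h2 := hVn s (by omega)
      rw [hit, hs]
      unfold Near at *
      rw [Nat.succ_eq_add_one]
      rw [abs_le, abs_le] at *
      omega
  have hAcl : ∀ a b : Ix, Near r Q a → Near r Q b → Near r Q (a.1, b.2) :=
    fun a b ha hb => ⟨ha.1, hb.2⟩
  have hQQ : Near r Q Q := by
    unfold Near
    rw [sub_self, sub_self, abs_zero]
    omega
  have hreach : ∀ i ≤ t, Reach (fun b => Pres n b ∧ Near r Q b) Q (V i) := by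
    intro i
    induction i with
    | zero =>
      intro hi
      rw [hV0]
      exact reach_near hAcl hQ hq hQQ (by rw [← hV0]; exact hA 0 hi) hQq
    | succ i ih =>
      intro hi
      exact (ih (by omega)).trans
        (reach_near hAcl (hVp i) (hVp (i + 1)) (hA i (by omega)) (hA (i + 1) hi)
          (hVn i (by omega)))
  exact ⟨V t, hVp t, hA t le_rfl, ht, ⟨p t, hpS t htN, hVm' t⟩, hreach t le_rfl⟩

end CarpetLib
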