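import Pool.Agent.Lib.MP_f3090c_an.D.Tip1

/-! D16c: paths in the centre cell. -/

open Set Filter Topology

namespace CarpetLib

private theorem tip3_div {M q a y : ℤ} (hM : 0 < M) (hy : y = q * M + a) (h0 : 0 ≤ a) (h1 : a < M) :
    y / M = q := by
  refine ((Int.ediv_emod_unique hM).2 ⟨?_, h0, h1⟩).1
  rw [hy]
  ring

private theorem tip3_near {m : ℕ} (hm : 4 ≤ m) {Q x : Ix} {a b : ℤ}
    (hx1 : x.1 = Q.1 * 3 ^ m + a) (hx2 : x.2 = Q.2 * 3 ^ m + b)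
    (ha : 2 * 3 ^ (m - 3) ≤ a ∧ a ≤ 26 * 3 ^ (m - 3))
    (hb : 2 * 3 ^ (m - 3) ≤ b ∧ b ≤ 26 * 3 ^ (m - 3)) :
    ∀ y, Near 1 x y → par m y = Q := by
  intro y hy
  have hE : (3 : ℤ) ≤ 3 ^ (m - 3) := by
    calc (3 : ℤ) = 3 ^ 1 := by norm_num
      _ ≤ 3 ^ (m - 3) := pow_le_pow_right₀ (by norm_num) (by omega)
  have hM : (3 : ℤ) ^ m = 27 * 3 ^ (m - 3) := by
    conv_lhs => rw [show m = 3 + (m - 3) by omega, pow_add]
    norm_num
  obtain ⟨h1, h2⟩ := hy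
  rw [abs_le] at h1 h2
  unfold par
  refine Prod.ext ?_ ?_
  · dsimp only
    refine tip3_div (a := y.1 - Q.1 * 3 ^ m) (by positivity) (by ring) ?_ ?_
    · linarith [ha.1, h1.2]
    · rw [hx1] at h1
      linarith [ha.2, h1.1]
  · dsimp only
    refine tip3_div (a := y.2 - Q.2 * 3 ^ m) (by positivity) (by ring) ?_ ?_
    · linarith [hb.1, h2.2]
    · rw [hx2] at h2
      linarith [hb.2, h2.1]

private theorem tip3_self {x : Ix} : Near 1 x x := by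
  unfold Near
  simp

/-- inside `Q`: from the centre pixel to the crossing of two candidate lines through candidate lines; all pixels on the way are
interior pixels of `Q`: all pixels touching them are in `Q`. -/
theorem reach_centre {n m : ℕ} (hm : 4 ≤ m) {Q : Ix} (hQ : Pres n Q) {s t : ℤ}
    (hs : s = 2 ∨ s = 8 ∨ s = 20 ∨ s = 26) (ht : t = 2 ∨ t = 8 ∨ t = 20 ∨ t = 26) :
    Reach (fun x => Pres (n + m) x ∧ ∀ y, Near 1 x y → par m y = Q) (oPix m Q)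
      (Q.1 * 3 ^ m + s * 3 ^ (m - 3), Q.2 * 3 ^ m + t * 3 ^ (m - 3)) := by
  have hm3 : 3 ≤ m := by omega
  have hE : (0 : ℤ) < 3 ^ (m - 3) := by positivity
  have hs2 : 2 ≤ s ∧ s ≤ 26 := by omega
  have ht2 : 2 ≤ t ∧ t ≤ 26 := by omega
  have hsE : 2 * 3 ^ (m - 3) ≤ s * 3 ^ (m - 3) ∧ s * 3 ^ (m - 3) ≤ 26 * (3 : ℤ) ^ (m - 3) :=
    ⟨mul_le_mul_of_nonneg_right hs2.1 hE.le, mul_le_mul_of_nonneg_right hs2.2 hE.le⟩
  have htE : 2 * 3 ^ (m - 3) ≤ t * 3 ^ (m - 3) ∧ t * 3 ^ (m - 3) ≤ 26 * (3 : ℤ) ^ (m - 3) :=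
    ⟨mul_le_mul_of_nonneg_right ht2.1 hE.le, mul_le_mul_of_nonneg_right ht2.2 hE.le⟩
  have hrow : ∀ k : ℕ, 2 * 3 ^ (m - 3) + (k : ℤ) ≤ s * 3 ^ (m - 3) →
      Reach (fun x => Pres (n + m) x ∧ ∀ y, Near 1 x y → par m y = Q) (oPix m Q)
        (Q.1 * 3 ^ m + (2 * 3 ^ (m - 3) + k), Q.2 * 3 ^ m + 2 * 3 ^ (m - 3)) := by
    intro k
    induction k with
    | zero =>
      intro _
      rw [Nat.cast_zero, add_zero]
      exact Relation.ReflTransGen.refl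
    | succ k ih =>
      intro hk
      push_cast at hk ⊢
      refine (ih (by linarith)).tail ⟨?_, ?_, ?_⟩
      · right
        refine ⟨rfl, ?_⟩
        rw [abs_le]
        constructor <;> dsimp only <;> linarith
      · have hn := tip3_near (x := (Q.1 * 3 ^ m + (2 * 3 ^ (m - 3) + ((k : ℤ) + 1)),
          Q.2 * 3 ^ m + 2 * 3 ^ (m - 3))) hm rfl rfl ⟨by linarith [Int.natCast_nonneg k],
          by linarith [hsE.2]⟩ ⟨le_rfl, by linarith⟩
        exact free_pres hm3 hQ (hn _ tip3_self) (s := 2) (Or.inl rfl) rfl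
      · exact tip3_near hm rfl rfl ⟨by linarith [Int.natCast_nonneg k],
          by linarith [hsE.2]⟩ ⟨le_rfl, by linarith⟩
  have hcol : ∀ k : ℕ, 2 * 3 ^ (m - 3) + (k : ℤ) ≤ t * 3 ^ (m - 3) →
      Reach (fun x => Pres (n + m) x ∧ ∀ y, Near 1 x y → par m y = Q)
        (Q.1 * 3 ^ m + s * 3 ^ (m - 3), Q.2 * 3 ^ m + 2 * 3 ^ (m - 3))
        (Q.1 * 3 ^ m + s * 3 ^ (m - 3), Q.2 * 3 ^ m + (2 * 3 ^ (m - 3) + k)) := by
    intro k
    induction k with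
    | zero =>
      intro _
      rw [Nat.cast_zero, add_zero]
      exact Relation.ReflTransGen.refl
    | succ k ih =>
      intro hk
      push_cast at hk ⊢
      refine (ih (by linarith)).tail ⟨?_, ?_, ?_⟩
      · left
        refine ⟨rfl, ?_⟩
        rw [abs_le]
        constructor <;> dsimp only <;> linarith
      · have hn := tip3_near (x := (Q.1 * 3 ^ m + s * 3 ^ (m - 3),
          Q.2 * 3 ^ m + (2 * 3 ^ (m - 3) + ((k : ℤ) + 1)))) hm rfl rfl hsE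
          ⟨by linarith [Int.natCast_nonneg k], by linarith [htE.2]⟩
        exact free_pres' hm3 hQ (hn _ tip3_self) (s := s) hs rfl
      · exact tip3_near hm rfl rfl hsE ⟨by linarith [Int.natCast_nonneg k], by linarith [htE.2]⟩
  obtain ⟨k1, hk1⟩ := Int.eq_ofNat_of_zero_le (sub_nonneg.2 hsE.1)
  obtain ⟨k2, hk2⟩ := Int.eq_ofNat_of_zero_le (sub_nonneg.2 htE.1)
  have h1 := hrow k1 (by linarith)
  have h2 := hcol k2 (by linarith)
  have e1 : 2 * (3 : ℤ) ^ (m - 3) + k1 = s * 3 ^ (m - 3) := by linarith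
  have e2 : 2 * (3 : ℤ) ^ (m - 3) + k2 = t * 3 ^ (m - 3) := by linarith
  rw [e1] at h1
  rw [e2] at h2
  exact h1.trans h2

end CarpetLib
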