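import Pool.Agent.Lib.MP_f3090c_an.D.Tip2
import Pool.Agent.Lib.MP_f3090c_an.D.Tip3

/-! D16: existence of tips, (TIP) in section 5.2 of the paper proof. -/

open Set Filter Topology

namespace CarpetLib

/-- the largest coordinate distance -/
private def tpD (a b : Ix) : ℤ := max |a.1 - b.1| |a.2 - b.2|

private theorem tp_near {r : ℤ} {a b : Ix} : Near r a b ↔ tpD a b ≤ r := by
  unfold Near tpD
  rw [max_le_iff]

/-- a radius away from all the (at most three) distances -/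
private theorem tp_radius (T : Finset Ix) (hT : T.card ≤ 3) (f : Ix → ℤ) :
    ∃ r : ℤ, 2 ≤ r ∧ r ≤ 11 ∧ ∀ τ ∈ T, 2 ≤ |r - f τ| := by
  classical
  let bad : Finset ℤ := T.biUnion fun τ => {f τ - 1, f τ, f τ + 1}
  have hbad : bad.card < (Finset.Icc (2 : ℤ) 11).card := by
    have h1 : bad.card ≤ T.card * 3 := by
      refine Finset.card_biUnion_le_card_mul _ _ _ fun τ _ => ?_
      exact Finset.card_le_three
    have h2 : (Finset.Icc (2 : ℤ) 11).card = 10 := by simp
    omega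
  obtain ⟨r, hr, hrb⟩ := Finset.exists_mem_notMem_of_card_lt_card hbad
  rw [Finset.mem_Icc] at hr
  refine ⟨r, hr.1, hr.2, fun τ hτ => ?_⟩
  by_contra hlt
  push Not at hlt
  apply hrb
  refine Finset.mem_biUnion.2 ⟨τ, hτ, ?_⟩
  rw [abs_lt] at hlt
  simp only [Finset.mem_insert, Finset.mem_singleton]
  omega

/-- the last point of a chain has the property -/
private theorem tp_last {A : Ix → Prop} {a b : Ix} (h : Reach A a b) (ha : A a) : A b := by
  induction h with
  | refl => exact ha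
  | tail _ h2 _ => exact h2.2

private theorem tp_mono {A B : Ix → Prop} (hAB : ∀ x, A x → B x) {a b : Ix} (h : Reach A a b) :
    Reach B a b := by
  induction h with
  | refl => exact Relation.ReflTransGen.refl
  | tail _ h2 ih => exact ih.tail ⟨h2.1, hAB _ h2.2⟩

/-- quotient of a position on a candidate line -/
private theorem tp_div {m : ℕ} (hm : 3 ≤ m) (j : ℤ) {s : ℤ}
    (hs : s = 2 ∨ s = 8 ∨ s = 20 ∨ s = 26) : (j * 3 ^ m + s * 3 ^ (m - 3)) / 3 ^ m = j := by
  obtain ⟨k, rfl⟩ : ∃ k, m = k + 3 := ⟨m - 3, by omega⟩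
  have hM : (0 : ℤ) < 3 ^ k := by positivity
  have e : (3 : ℤ) ^ (k + 3) = 27 * 3 ^ k := by rw [pow_add]; ring
  rw [show k + 3 - 3 = k by omega, e]
  rw [show j * (27 * 3 ^ k) + s * 3 ^ k = s * 3 ^ k + (27 * 3 ^ k) * j by ring,
    Int.add_mul_ediv_left _ _ (by positivity), Int.ediv_eq_zero_of_lt, zero_add]
  · rcases hs with rfl | rfl | rfl | rfl <;> positivity
  · rcases hs with rfl | rfl | rfl | rfl <;> nlinarith

/-- positions in cells with indices at distance at least two -/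
private theorem tp_far {M a b : ℤ} (hM : 0 < M) (h : 2 ≤ |a / M - b / M|) : M < |a - b| := by
  have h1 := Int.mul_ediv_self_le (x := a) hM.ne'
  have h2 := Int.lt_mul_ediv_self_add (x := a) hM
  have h3 := Int.mul_ediv_self_le (x := b) hM.ne'
  have h4 := Int.lt_mul_ediv_self_add (x := b) hM
  rcases le_abs.1 h with h5 | h5
  · refine lt_of_lt_of_le ?_ (le_abs_self _)
    nlinarith
  · refine lt_of_lt_of_le ?_ (neg_le_abs _)
    nlinarith

/-- the neighbours of the centre pixel are in the same cell -/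
private theorem tp_centre {m : ℕ} (hm : 4 ≤ m) (j : ℤ) {b : ℤ}
    (hb : |j * 3 ^ m + 2 * 3 ^ (m - 3) - b| ≤ 1) : b / 3 ^ m = j := by
  obtain ⟨k, rfl⟩ : ∃ k, m = k + 4 := ⟨m - 4, by omega⟩
  have hM : (1 : ℤ) ≤ 3 ^ k := one_le_pow₀ (by norm_num)
  have e : (3 : ℤ) ^ (k + 4) = 81 * 3 ^ k := by rw [pow_add]; ring
  have e' : (3 : ℤ) ^ (k + 4 - 3) = 3 * 3 ^ k := by
    rw [show k + 4 - 3 = k + 1 by omega, pow_succ]; ring
  rw [e, e', abs_le] at hb
  rw [e]
  have hb' : b = (b - j * (81 * 3 ^ k)) + (81 * 3 ^ k) * j := by ring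
  rw [hb', Int.add_mul_ediv_left _ _ (by positivity), Int.ediv_eq_zero_of_lt, zero_add]
  · linarith [hb.1, hb.2]
  · linarith [hb.1, hb.2]

/-- (TIP). Proof: section 5.2 of the paper proof, from the lemmas above: `T` gives free rows and columns (`free_line` with the
second, first coordinates of `T`), choose `r* ∈ {2..11}` with `|r* - dist(Q, par m τ)| ≥ 2` for all `τ ∈ T` (10 values, at most 9 excluded), `U` from
`hring r*`. `SS`-chain `reach_centre` from `oPix m Q` to `X Q`; `reach_lines` with `A b = Pres n b ∧ Near r* Q b`,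
`B x = Pres (n+m) x ∧ Near 11 Q (par m x) ∧ ∀ τ ∈ T, ¬ Near (2 * 3^(m-3) - 1) τ x` from `X Q` to `X U`; `reach_inside` in `U` from `X U` to the given pixel of `U`
outside `SS` (pixels of `U` are at distance `> 3^m` from `T`). `first_exit` for the second part starting at the last pixel of the first part: if it is
in `SS`; the chain `o → X Q` lies in `SS`. -/
theorem exists_tip (S : SymForm) {n m : ℕ} (hm : 5 ≤ m) {Q : Ix} (hQ : Pres n Q) {SS : Set Ix}
    (hSS : ∀ x, Pres (n + m) x → (∀ y, Near 1 x y → par m y = Q) → x ∈ SS)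
    (hring : ∀ r : ℤ, 2 ≤ r → r ≤ 11 → ∃ U, Pres n U ∧ Near r Q U ∧ ¬ Near (r - 1) Q U ∧
      (∃ x, Pres (n + m) x ∧ par m x = U ∧ x ∉ SS) ∧
      Reach (fun b => Pres n b ∧ Near r Q b) Q U)
    (T : Finset Ix) (hT : T.card ≤ 3) (hTr : ∀ τ ∈ T, Near 11 Q (par m τ)) :
    ∃ a x, Reach (fun z => z ∈ SS) (oPix m Q) a ∧ a ∈ SS ∧ Rook a x ∧ Pres (n + m) x ∧
      x ∉ SS ∧ Near 11 Q (par m x) ∧ ∀ τ ∈ T, ¬ Near (2 * 3 ^ (m - 3) - 1) τ x := by
  classical
  have hm3 : 3 ≤ m := by omega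
  have hM : (0 : ℤ) < 3 ^ m := by positivity
  -- free lines
  have hrow : ∀ j : ℤ, ∃ s : ℤ, (s = 2 ∨ s = 8 ∨ s = 20 ∨ s = 26) ∧
      ∀ t ∈ T.image Prod.snd, 2 * 3 ^ (m - 3) ≤ |j * 3 ^ m + s * 3 ^ (m - 3) - t| := fun j =>
    free_line hm3 j _ (Finset.card_image_le.trans hT)
  have hcol : ∀ j : ℤ, ∃ s : ℤ, (s = 2 ∨ s = 8 ∨ s = 20 ∨ s = 26) ∧
      ∀ t ∈ T.image Prod.fst, 2 * 3 ^ (m - 3) ≤ |j * 3 ^ m + s * 3 ^ (m - 3) - t| := fun j =>
    free_line hm3 j _ (Finset.card_image_le.trans hT)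
  choose sr hsr hsrT using hrow
  choose sc hsc hscT using hcol
  let r : ℤ → ℤ := fun j => j * 3 ^ m + sr j * 3 ^ (m - 3)
  let c : ℤ → ℤ := fun i => i * 3 ^ m + sc i * 3 ^ (m - 3)
  have hr : ∀ j, r j / 3 ^ m = j := fun j => tp_div hm3 j (hsr j)
  have hc : ∀ j, c j / 3 ^ m = j := fun j => tp_div hm3 j (hsc j)
  -- the radius
  obtain ⟨ρ, hρ2, hρ11, hρ⟩ := tp_radius T hT fun τ => tpD Q (par m τ)
  obtain ⟨U, hU, hQU, hQU', ⟨x0, hx0, hx0U, hx0S⟩, hch⟩ := hring ρ hρ2 hρ11
  rw [tp_near] at hQU hQU'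
  -- the property of the pixels of the second part
  let B : Ix → Prop := fun x => Pres (n + m) x ∧ Near 11 Q (par m x) ∧
    ∀ τ ∈ T, ¬ Near (2 * 3 ^ (m - 3) - 1) τ x
  have hB : ∀ x : Ix, (Pres n (par m x) ∧ Near ρ Q (par m x)) →
      (x.1 = c (par m x).1 ∨ x.2 = r (par m x).2) → B x := by
    rintro x ⟨h1, h2⟩ h3
    refine ⟨?_, ?_, ?_⟩
    · rcases h3 with h3 | h3
      · exact free_pres' hm3 h1 rfl (hsc _) h3
      · exact free_pres hm3 h1 rfl (hsr _) h3
    · rw [tp_near] at h2 ⊢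
      exact h2.trans hρ11
    · intro τ hτ hn
      rcases h3 with h3 | h3
      · have h4 := hscT (par m x).1 τ.1 (Finset.mem_image_of_mem _ hτ)
        have h5 := hn.1
        rw [abs_sub_comm, h3] at h5
        have h6 : c (par m x).1 = (par m x).1 * 3 ^ m + sc (par m x).1 * 3 ^ (m - 3) := rfl
        rw [h6] at h5
        linarith
      · have h4 := hsrT (par m x).2 τ.2 (Finset.mem_image_of_mem _ hτ)
        have h5 := hn.2
        rw [abs_sub_comm, h3] at h5
        have h6 : r (par m x).2 = (par m x).2 * 3 ^ m + sr (par m x).2 * 3 ^ (m - 3) := rfl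
        rw [h6] at h5
        linarith
  have hQQ : Near ρ Q Q := by
    rw [tp_near]
    unfold tpD
    rw [sub_self, sub_self, abs_zero, max_self]
    omega
  -- the crossing pixels
  have hXQ : ∀ V : Ix, par m (c V.1, r V.2) = V := fun V => Prod.ext (hc V.1) (hr V.2)
  -- the centre pixel
  have hop : par m (oPix m Q) = Q := Prod.ext (tp_div hm3 Q.1 (Or.inl rfl))
    (tp_div hm3 Q.2 (Or.inl rfl))
  have ho1 : Pres (n + m) (oPix m Q) := free_pres hm3 hQ hop (Or.inl rfl) rfl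
  have ho : Pres (n + m) (oPix m Q) ∧ ∀ y, Near 1 (oPix m Q) y → par m y = Q :=
    ⟨ho1, fun y hy => Prod.ext (tp_centre (by omega) Q.1 hy.1) (tp_centre (by omega) Q.2 hy.2)⟩
  -- the first part
  have hpart1 : Reach (fun x => Pres (n + m) x ∧ ∀ y, Near 1 x y → par m y = Q) (oPix m Q)
      (c Q.1, r Q.2) := reach_centre (by omega) hQ (hsc Q.1) (hsr Q.2)
  have hXQS : (c Q.1, r Q.2) ∈ SS := by
    have h1 := tp_last hpart1 ho
    exact hSS _ h1.1 h1.2
  have hpart1' : Reach (fun z => z ∈ SS) (oPix m Q) (c Q.1, r Q.2) :=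
    tp_mono (fun x hx => hSS x hx.1 hx.2) hpart1
  -- the second part
  have hpart2 : Reach B (c Q.1, r Q.2) (c U.1, r U.2) :=
    reach_lines (A := fun b => Pres n b ∧ Near ρ Q b) hm3 hc hr hB ⟨hQ, hQQ⟩ hch
  -- the third part
  have hBU : ∀ x, (Pres (n + m) x ∧ par m x = U) → B x := by
    rintro x ⟨h1, h2⟩
    refine ⟨h1, ?_, ?_⟩
    · rw [h2, tp_near]
      exact hQU.trans hρ11
    · intro τ hτ hn
      have h3 := hρ τ hτ
      have h4 : tpD Q U = ρ := by omega
      -- the distance of U and the cell of the point is at least two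
      have h5 : 2 ≤ |U.1 - (par m τ).1| ∨ 2 ≤ |U.2 - (par m τ).2| := by
        by_contra hlt
        push Not at hlt
        obtain ⟨ha, hb⟩ := hlt
        have ha' : |U.1 - (par m τ).1| ≤ 1 := by omega
        have hb' : |U.2 - (par m τ).2| ≤ 1 := by omega
        have hd : |tpD Q U - tpD Q (par m τ)| ≤ 1 := by
          unfold tpD
          refine (abs_max_sub_max_le_max _ _ _ _).trans (max_le ?_ ?_)
          · refine (abs_abs_sub_abs_le_abs_sub _ _).trans ?_
            rw [show Q.1 - U.1 - (Q.1 - (par m τ).1) = -(U.1 - (par m τ).1) by ring, abs_neg]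
            exact ha'
          · refine (abs_abs_sub_abs_le_abs_sub _ _).trans ?_
            rw [show Q.2 - U.2 - (Q.2 - (par m τ).2) = -(U.2 - (par m τ).2) by ring, abs_neg]
            exact hb'
        rw [h4] at hd
        omega
      have hD : (2 : ℤ) * 3 ^ (m - 3) ≤ 3 ^ m := by
        obtain ⟨k, rfl⟩ : ∃ k, m = k + 3 := ⟨m - 3, by omega⟩
        have e : (3 : ℤ) ^ (k + 3) = 27 * 3 ^ k := by rw [pow_add]; ring
        have : (0 : ℤ) < 3 ^ k := by positivity
        rw [show k + 3 - 3 = k by omega, e]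
        linarith
      rw [← h2] at h5
      rcases h5 with h5 | h5
      · have h6 := tp_far hM h5
        have h7 := hn.1
        rw [abs_sub_comm] at h7
        linarith
      · have h6 := tp_far hM h5
        have h7 := hn.2
        rw [abs_sub_comm] at h7
        linarith
  have hXU : Pres (n + m) (c U.1, r U.2) :=
    free_pres hm3 hU (hXQ U) (hsr U.2) rfl
  have hpart3 : Reach B (c U.1, r U.2) x0 :=
    tp_mono hBU (reach_inside S hU hXU hx0 (hXQ U) hx0U)
  obtain ⟨a, y, h1, h2, h3, h4, h5⟩ := first_exit (hpart2.trans hpart3) hXQS hx0S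
  exact ⟨a, y, hpart1'.trans h1, h2, h3, h4.1, h5, h4.2.1, h4.2.2⟩

end CarpetLib
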