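import Pool.Agent.Lib.MP_f3090c_an.D.SitR
import Pool.Agent.Lib.MP_f3090c_an.D.Tip

/-! D20: 5.2 of the paper proof. -/

open Set Filter Topology

namespace CarpetLib

/-- interior pixels of `Q` are in `SSet` -/
theorem Sit.centre {S : SymForm} {c : ℝ} {n m : ℕ} {Q Q2 : Ix} {H : C(K, ℝ)} {δ : ℝ}
    (h : Sit S c n m Q Q2 H δ) (x : Ix) (hx : Pres (n + m) x) (hn : ∀ y, Near 1 x y → par m y = Q) :
    x ∈ SSet H δ (n + m) :=
  ⟨hx, fun x' hx' hxx' => h.small x' hx' (hn x' hxx')⟩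

private theorem sitA_div {q t y : ℤ} (ht : 9 ≤ t) (h1 : |q * (27 * t) + 2 * t - y| ≤ 1) :
    y / (27 * t) = q := by
  rw [abs_le] at h1
  have h27 : 0 < 27 * t := by linarith
  apply le_antisymm
  · apply Int.le_of_lt_add_one
    rw [Int.ediv_lt_iff_lt_mul h27]
    linarith
  · rw [Int.le_ediv_iff_mul_le h27]
    linarith

private theorem sitA_pow {m : ℕ} (hm : 5 ≤ m) :
    (3 : ℤ) ^ m = 27 * 3 ^ (m - 3) ∧ (9 : ℤ) ≤ 3 ^ (m - 3) := by
  obtain ⟨k, rfl⟩ := Nat.exists_eq_add_of_le hm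
  have e : 5 + k - 3 = k + 2 := by omega
  rw [e]
  refine ⟨by ring, ?_⟩
  have h1 : (1 : ℤ) ≤ 3 ^ k := one_le_pow₀ (by norm_num)
  rw [pow_add]
  linarith

private theorem sitA_symm {r : ℤ} {x y : Ix} (h : Near r x y) : Near r y x := by
  unfold Near at *
  rw [abs_sub_comm y.1, abs_sub_comm y.2]
  exact h

/-- four tips. Proof: `exists_tip` four times, `T` = the tips already found. Also `oPix m Q ∈ SSet` (`free_pres`, `Sit.centre`). -/
theorem Sit.tips {S : SymForm} {c : ℝ} {n m : ℕ} {Q Q2 : Ix} {H : C(K, ℝ)} {δ : ℝ}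
    (h : Sit S c n m Q Q2 H δ) :
    oPix m Q ∈ SSet H δ (n + m) ∧ ∃ a x : Fin 4 → Ix,
      (∀ i, Reach (fun z => z ∈ SSet H δ (n + m)) (oPix m Q) (a i) ∧ a i ∈ SSet H δ (n + m) ∧
        Rook (a i) (x i) ∧ Pres (n + m) (x i) ∧ x i ∉ SSet H δ (n + m) ∧ Near 11 Q (par m (x i))) ∧
      ∀ i j, i ≠ j → ¬ Near (2 * 3 ^ (m - 3) - 1) (x i) (x j) := by
  obtain ⟨hp1, hp2⟩ := sitA_pow h.hm
  have hnear : ∀ y, Near 1 (oPix m Q) y → par m y = Q := by
    intro y hy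
    obtain ⟨h1, h2⟩ := hy
    simp only [oPix] at h1 h2
    rw [hp1] at h1 h2
    apply Prod.ext
    · show y.1 / 3 ^ m = Q.1
      rw [hp1]
      exact sitA_div hp2 h1
    · show y.2 / 3 ^ m = Q.2
      rw [hp1]
      exact sitA_div hp2 h2
  have ho : oPix m Q ∈ SSet H δ (n + m) := by
    have h0 : par m (oPix m Q) = Q := hnear _ ⟨by simp, by simp⟩
    refine h.centre _ ?_ hnear
    exact free_pres (by have := h.hm; omega) h.hQ h0 (s := 2) (Or.inl rfl) rfl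
  refine ⟨ho, ?_⟩
  have tip : ∀ T : Finset Ix, T.card ≤ 3 → (∀ τ ∈ T, Near 11 Q (par m τ)) →
      ∃ a x, Reach (fun z => z ∈ SSet H δ (n + m)) (oPix m Q) a ∧ a ∈ SSet H δ (n + m) ∧
      Rook a x ∧ Pres (n + m) x ∧ x ∉ SSet H δ (n + m) ∧ Near 11 Q (par m x) ∧
      ∀ τ ∈ T, ¬ Near (2 * 3 ^ (m - 3) - 1) τ x := fun T hT hTr =>
    exists_tip S h.hm h.hQ (fun x hx hn => h.centre x hx hn) (fun r h2 h11 => h.ring r h2 h11)
      T hT hTr
  obtain ⟨a₀, x₀, r₀, m₀, k₀, p₀, n₀, q₀, -⟩ := tip ∅ (by simp) (by simp)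
  obtain ⟨a₁, x₁, r₁, m₁, k₁, p₁, n₁, q₁, d₁⟩ := tip {x₀} (by simp) (by
    intro τ hτ
    rw [Finset.mem_singleton] at hτ
    rw [hτ]; exact q₀)
  obtain ⟨a₂, x₂, r₂, m₂, k₂, p₂, n₂, q₂, d₂⟩ := tip {x₀, x₁}
    ((Finset.card_le_two).trans (by norm_num)) (by
    intro τ hτ
    rw [Finset.mem_insert, Finset.mem_singleton] at hτ
    rcases hτ with rfl | rfl
    · exact q₀
    · exact q₁)
  obtain ⟨a₃, x₃, r₃, m₃, k₃, p₃, n₃, q₃, d₃⟩ := tip {x₀, x₁, x₂} Finset.card_le_three (by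
    intro τ hτ
    rw [Finset.mem_insert, Finset.mem_insert, Finset.mem_singleton] at hτ
    rcases hτ with rfl | rfl | rfl
    · exact q₀
    · exact q₁
    · exact q₂)
  have e01 := d₁ x₀ (by simp)
  have e02 := d₂ x₀ (by simp)
  have e12 := d₂ x₁ (by simp)
  have e03 := d₃ x₀ (by simp)
  have e13 := d₃ x₁ (by simp)
  have e23 := d₃ x₂ (by simp)
  refine ⟨![a₀, a₁, a₂, a₃], ![x₀, x₁, x₂, x₃], ?_, ?_⟩
  · intro i
    fin_cases i
    · exact ⟨r₀, m₀, k₀, p₀, n₀, q₀⟩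
    · exact ⟨r₁, m₁, k₁, p₁, n₁, q₁⟩
    · exact ⟨r₂, m₂, k₂, p₂, n₂, q₂⟩
    · exact ⟨r₃, m₃, k₃, p₃, n₃, q₃⟩
  · intro i j hij
    fin_cases i <;> fin_cases j
    · exact absurd rfl hij
    · exact e01
    · exact e02
    · exact e03
    · exact fun hh => e01 (sitA_symm hh)
    · exact absurd rfl hij
    · exact e12
    · exact e13
    · exact fun hh => e02 (sitA_symm hh)
    · exact fun hh => e12 (sitA_symm hh)
    · exact absurd rfl hij
    · exact e23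
    · exact fun hh => e03 (sitA_symm hh)
    · exact fun hh => e13 (sitA_symm hh)
    · exact fun hh => e23 (sitA_symm hh)
    · exact absurd rfl hij

end CarpetLib
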