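import Pool.Agent.Lib.MP_f3090c_an.D.SitR
import Pool.Agent.Lib.MP_f3090c_an.D.Geo0

/-! D21: 5.3 of the paper proof. -/

open Set Filter Topology

namespace CarpetLib

/-- 5.3. Proof: `x` is small because `a ∈ SSet` touches it; `x ∉ SSet`, so some present `x'` touching `x` is not small; it is in the
window (`near_par`), so it has a point with `|H| ≥ Gam c * δ` (`h.dich`); `x'` does not touch `a`; `exists_vertex`. -/
theorem Sit.tipD {S : SymForm} {c : ℝ} {n m : ℕ} {Q Q2 : Ix} {H : C(K, ℝ)} {δ : ℝ}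
    (h : Sit S c n m Q Q2 H δ) {a x : Ix} (ha : a ∈ SSet H δ (n + m)) (hr : Rook a x)
    (hx : Pres (n + m) x) (hx' : x ∉ SSet H δ (n + m)) (hw : Near 11 Q (par m x)) :
    ∃ x' v, TipD (n + m) a x x' v ∧ Near 12 Q (par m x') ∧ Small H δ (n + m) x ∧
      ¬ Small H δ (n + m) x' ∧ ∃ z ∈ cell (n + m) x', Gam c * δ ≤ |H z| := by
  have hax : Near 1 a x := by
    rcases hr with ⟨h1, h2⟩ | ⟨h1, h2⟩
    · refine ⟨?_, h2⟩
      rw [h1, sub_self, abs_zero]
      exact zero_le_one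
    · refine ⟨h2, ?_⟩
      rw [h1, sub_self, abs_zero]
      exact zero_le_one
  have hsx : Small H δ (n + m) x := ha.2 x hx hax
  have hex : ∃ x', Pres (n + m) x' ∧ Near 1 x x' ∧ ¬ Small H δ (n + m) x' := by
    by_contra hcon
    push Not at hcon
    exact hx' ⟨hx, hcon⟩
  obtain ⟨x', hpx', hnx', hsx'⟩ := hex
  obtain ⟨v, hv1, hv2, hv3, hv4⟩ := exists_vertex hnx'
  have hw' : Near 12 Q (par m x') := by
    have h1 := near_par (m := m) hnx'
    refine ⟨?_, ?_⟩
    · calc |Q.1 - (par m x').1| ≤ |Q.1 - (par m x).1| + |(par m x).1 - (par m x').1| :=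
            abs_sub_le _ _ _
        _ ≤ 11 + 1 := add_le_add hw.1 h1.1
        _ = 12 := by norm_num
    · calc |Q.2 - (par m x').2| ≤ |Q.2 - (par m x).2| + |(par m x).2 - (par m x').2| :=
            abs_sub_le _ _ _
        _ ≤ 11 + 1 := add_le_add hw.2 h1.2
        _ = 12 := by norm_num
  have hbig := (h.dich x' hpx' hw').resolve_left hsx'
  refine ⟨x', v, ⟨ha.1, hx, hpx', hr, ?_, hnx', ?_, hv1, hv2, hv3, hv4⟩, hw', hsx, hsx', hbig⟩
  · rintro rfl
    exact hx' ha
  · intro hn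
    exact hsx' (ha.2 x' hpx' hn)

end CarpetLib
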