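import Pool.Agent.Lib.MP_f3090c_an.D.SitR
import Pool.Agent.Lib.MP_f3090c_an.D.Geo0

/-! D21b: 5.4 of the paper proof. -/

open Set Filter Topology

namespace CarpetLib

private theorem sitC_sub {l : ℕ} {q : Ix} {z : K} (h : z ∈ cell l q) : z ∈ nb l q := by
  obtain ⟨⟨h1, h2⟩, h3, h4⟩ := h
  exact ⟨⟨by linarith, by linarith⟩, by linarith, by linarith⟩

/-- 5.4. Proof: otherwise `w = K3 c * δ - s * H > 0` on `nb (n+m) x'` and `SupOn S (nb (n+m) x') w` (`E w v = -s (v c00 - v c11) = 0` by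
`far_corner`); Harnack on `x'` with the point `p'`: for `z ∈ cell x'`, `w z ≤ w p' / c < (K3 c + 1) δ / c = Gam c * δ`, so `- s * H z < Gam c * δ` and
`s * H z < K3 c * δ < Gam c * δ`, contradiction to `hbig`. -/
theorem Sit.source {S : SymForm} {c : ℝ} {n m : ℕ} {Q Q2 : Ix} {H : C(K, ℝ)} {δ : ℝ}
    (h : Sit S c n m Q Q2 H δ) {x' : Ix} (hx' : Pres (n + m) x') (hw : Near 12 Q (par m x'))
    (hbig : ∃ z ∈ cell (n + m) x', Gam c * δ ≤ |H z|) {p' : K} (hp' : p' ∈ cell (n + m) x')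
    (hsm : |H p'| < δ) {s : ℝ} (hs : s = 1 ∨ s = -1) :
    ∃ z ∈ nb (n + m) x', K3 c * δ ≤ s * H z := by
  by_contra hcon
  push Not at hcon
  have hc0 := h.hc0
  have hc1 := h.hc1
  have hδ := h.hδ
  have hK : 0 < K3 c := by
    unfold K3
    positivity
  obtain ⟨hc00, hc11⟩ := far_corner h.far hw hx'
  set w : C(K, ℝ) := ContinuousMap.const K (K3 c * δ) - s • H with hwdef
  have hwz : ∀ z, w z = K3 c * δ - s * H z := fun z => rfl
  have hsup : SupOn S (nb (n + m) x') w := by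
    refine ⟨S.dom.sub_mem (S.toRForm.const_mem _) (S.dom.smul_mem _ h.pole.1), fun z hz => ?_,
      fun v hv hv0 hvN => ?_⟩
    · rw [hwz]
      linarith [hcon z hz]
    · have h1 : S.E w v = 0 := by
        rw [hwdef, map_sub, LinearMap.sub_apply, S.toRForm.E_const_left, map_smul,
          LinearMap.smul_apply, h.pole.2 v hv, hvN _ hc00, hvN _ hc11]
        simp
      rw [h1]
  obtain ⟨z, hz, hzb⟩ := hbig
  have h1 := h.har (n + m) x' hx' w hsup p' hp' z hz
  rw [hwz, hwz] at h1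
  have h2 : |s * H p'| < δ := by
    rcases hs with rfl | rfl
    · rwa [one_mul]
    · rwa [neg_one_mul, abs_neg]
  have h3 : |s * H z| = |H z| := by
    rcases hs with rfl | rfl
    · rw [one_mul]
    · rw [neg_one_mul, abs_neg]
  have h4 := hcon z (sitC_sub hz)
  have h5 : c * (K3 c * δ - s * H z) < (K3 c + 1) * δ := by
    have := (abs_lt.1 h2).1
    linarith
  have h6 : K3 c * δ - s * H z < Gam c * δ := by
    have h7 : Gam c * δ = (K3 c + 1) * δ / c := by
      unfold Gam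
      ring
    rw [h7, lt_div_iff₀ hc0]
    linarith
  have h8 : K3 c < Gam c := by
    unfold Gam
    rw [lt_div_iff₀ hc0]
    nlinarith
  have h9 : K3 c * δ < Gam c * δ := mul_lt_mul_of_pos_right h8 hδ
  have h10 : 0 < K3 c * δ := mul_pos hK hδ
  rw [← h3] at hzb
  have h11 : |s * H z| < Gam c * δ := abs_lt.2 ⟨by linarith, by linarith⟩
  linarith

end CarpetLib
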