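import Pool.Agent.Lib.MP_f3090c_an.D.Defs

/-! D17: the situation of section 5 of the paper proof, definitions. -/

open Set Filter Topology

namespace CarpetLib

noncomputable def K3 (c : ℝ) : ℝ := 20 / c ^ 3

noncomputable def Gam (c : ℝ) : ℝ := (K3 c + 1) / c

def Small (H : C(K, ℝ)) (δ : ℝ) (p : ℕ) (x : Ix) : Prop := ∀ z ∈ cell p x, |H z| < δ

/-- present squares all of whose touching present squares are small -/
def SSet (H : C(K, ℝ)) (δ : ℝ) (p : ℕ) : Set Ix :=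
  {x | Pres p x ∧ ∀ x', Pres p x' → Near 1 x x' → Small H δ p x'}

/-- the situation of section 5 (to be refuted): unit cells = level `n`, pixels = level `n + m`. -/
structure Sit (S : SymForm) (c : ℝ) (n m : ℕ) (Q Q2 : Ix) (H : C(K, ℝ)) (δ : ℝ) : Prop where
  hc0 : 0 < c
  hc1 : c < 1
  har : Harnack S c
  hm : 5 ≤ m
  dec : 3 * (1 - c ^ 2) ^ (m - 4) ≤ c ^ 3 / 2
  pole : IsPole S H
  hQ : Pres n Q
  hQ2 : Pres n Q2
  near : Near 1 Q Q2
  far : Far n Q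
  hδ : 0 < δ
  dich : ∀ x, Pres (n + m) x → Near 12 Q (par m x) →
    Small H δ (n + m) x ∨ ∃ z ∈ cell (n + m) x, Gam c * δ ≤ |H z|
  small : ∀ x, Pres (n + m) x → par m x = Q → Small H δ (n + m) x
  big : ∃ z ∈ cell n Q2, Gam c * δ < |H z|

/-- the level `p + 1` subsquare of `x` in the middle of the side towards the rook neighbour `a` -/
def cA (a x : Ix) : Ix := (2 * x.1 + a.1 + 1, 2 * x.2 + a.2 + 1)

/-- the level `p + 1` subsquare of `x` at the vertex `x + v`, `v ∈ {0,1}²` -/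
def cC (x v : Ix) : Ix := (3 * x.1 + 2 * v.1, 3 * x.2 + 2 * v.2)

/-- local data at a tip: `a` previous pixel, `x` tip, `x'` big pixel, `x + v` common vertex of `x` and `x'` -/
structure TipD (p : ℕ) (a x x' v : Ix) : Prop where
  pa : Pres p a
  px : Pres p x
  px' : Pres p x'
  rook : Rook a x
  ne : a ≠ x
  near : Near 1 x x'
  far : ¬ Near 1 a x'
  v1 : v.1 = 0 ∨ v.1 = 1
  v2 : v.2 = 0 ∨ v.2 = 1
  vx1 : x'.1 ≤ x.1 + v.1 ∧ x.1 + v.1 ≤ x'.1 + 1
  vx2 : x'.2 ≤ x.2 + v.2 ∧ x.2 + v.2 ≤ x'.2 + 1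

/-- the corner of the central hole of `x` at the vertex `x + v` (in the plane) -/
noncomputable def yP (p : ℕ) (x v : Ix) : ℝ × ℝ :=
  ((3 * x.1 + 1 + v.1) / 3 ^ (p + 1), (3 * x.2 + 1 + v.2) / 3 ^ (p + 1))

/-- the mid point of the common side of `cA a x` and the central hole of `x` (in the plane) -/
noncomputable def mP (p : ℕ) (a x : Ix) : ℝ × ℝ :=
  ((3 * x.1 + 3 / 2 + (a.1 - x.1) / 2) / 3 ^ (p + 1), (3 * x.2 + 3 / 2 + (a.2 - x.2) / 2) / 3 ^ (p + 1))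

/-- the vertex `x + v` (in the plane) -/
noncomputable def vP (p : ℕ) (x v : Ix) : ℝ × ℝ := ((x.1 + v.1) / 3 ^ p, (x.2 + v.2) / 3 ^ p)

/-- the plane set `L` of a tip -/
noncomputable def LP (p : ℕ) (SS : Set Ix) (o a x v : Ix) : Set (ℝ × ℝ) :=
  (⋃ q ∈ {q | Reach (fun z => z ∈ SS) o q}, sqr p q) ∪
    (sqr (p + 1) (cA a x) ∪ segment ℝ (mP p a x) (yP p x v))

/-- the Dirichlet set of four tips -/
def ZP (p : ℕ) (SS : Set Ix) (a x : Fin 4 → Ix) : Set K :=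
  (⋃ q ∈ SS, cell p q) ∪ ⋃ i, cell (p + 1) (cA (a i) (x i))

end CarpetLib
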