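import Pool.Agent.Lib.MP_f3090c_an.D.SitA
import Pool.Agent.Lib.MP_f3090c_an.D.SitB
import Pool.Agent.Lib.MP_f3090c_an.D.SitC
import Pool.Agent.Lib.MP_f3090c_an.D.Geo1
import Pool.Agent.Lib.MP_f3090c_an.D.Decay
import Pool.Agent.Lib.MP_f3090c_an.D.Geo2
import Pool.Agent.Lib.MP_f3090c_an.D.PotL
import Pool.Agent.Lib.MP_f3090c_an.D.Join
import Pool.Agent.Lib.MP_f3090c_an.D.Pot
import Pool.Agent.Lib.MP_f3090c_an.D.Pair

/-! D24: the situation is impossible. -/

open Set Filter Topology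

namespace CarpetLib

private theorem sf_near_mono {r s : ℤ} {p q : Ix} (hrs : r ≤ s) (h : Near r p q) : Near s p q :=
  ⟨h.1.trans hrs, h.2.trans hrs⟩

private theorem sf_near_trans {x y z : Ix} (h : Near 1 x y) (h' : Near 1 y z) : Near 2 x z := by
  obtain ⟨h1, h2⟩ := h
  obtain ⟨h3, h4⟩ := h'
  rw [abs_le] at h1 h2 h3 h4
  refine ⟨?_, ?_⟩ <;> rw [abs_le] <;> constructor <;> linarith

private theorem sf_near_refl {r : ℤ} (hr : 0 ≤ r) (x : Ix) : Near r x x := by
  refine ⟨?_, ?_⟩ <;> simpa using hr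

private theorem sf_cells {l : ℕ} {q q' : Ix} {z : K} (h : z ∈ cell l q) (h' : z ∈ cell l q') :
    Near 1 q q' := near_of_nb (cell_subset_nb l q h) h'

private theorem sf_pow {m : ℕ} (hm : 5 ≤ m) : (9 : ℤ) ≤ 3 ^ (m - 3) := by
  obtain ⟨k, rfl⟩ : ∃ k, m = k + 5 := ⟨m - 5, by omega⟩
  have h1 : k + 5 - 3 = k + 2 := by omega
  rw [h1, pow_add]
  have : (1 : ℤ) ≤ 3 ^ k := one_le_pow₀ (by norm_num)
  linarith

private theorem sf_far_coord {D u w a b : ℤ} {X : ℝ} (h1 : D ≤ |u - w|) (h2 : |w - a| ≤ 2)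
    (h3 : (a : ℝ) ≤ X) (h4 : X ≤ a + 1) (hD : (b : ℝ) + 3 < D) : (b : ℝ) < |X - u| := by
  have h5 : (D : ℝ) ≤ |(u : ℝ) - w| := by exact_mod_cast h1
  have h6 : |(w : ℝ) - a| ≤ 2 := by exact_mod_cast h2
  have h7 : |(a : ℝ) - X| ≤ 1 := by
    rw [abs_le]; constructor <;> linarith
  have h8 : |(u : ℝ) - w| ≤ |(u : ℝ) - X| + |X - a| + |(a : ℝ) - w| := by
    have e : (u : ℝ) - w = (u - X) + (X - a) + (a - w) := by ring
    rw [e]
    exact (abs_add_le _ _).trans (add_le_add_left (abs_add_le _ _) _)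
  rw [abs_sub_comm (u : ℝ) X, abs_sub_comm X (a : ℝ), abs_sub_comm (a : ℝ) w] at h8
  linarith

/-- Assembly of section 5 of the paper proof. -/
theorem Sit.false {S : SymForm} {c : ℝ} {n m : ℕ} {Q Q2 : Ix} {H : C(K, ℝ)} {δ : ℝ}
    (h : Sit S c n m Q Q2 H δ) : False := by
  classical
  have hc0 := h.hc0
  have hc1 := h.hc1
  have hδ := h.hδ
  obtain ⟨hoS, a, x, hax, hsep⟩ := h.tips
  set p : ℕ := n + m with hp
  set SS : Set Ix := SSet H δ p with hSSdef
  have hSSp : ∀ q ∈ SS, Pres p q := fun q hq => hq.1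
  have hreach : ∀ i, Reach (fun z => z ∈ SS) (oPix m Q) (a i) := fun i => (hax i).1
  have haS : ∀ i, a i ∈ SS := fun i => (hax i).2.1
  have htip : ∀ i, ∃ x' v, TipD p (a i) (x i) x' v ∧ Near 12 Q (par m x') ∧
      Small H δ p (x i) ∧ ¬ Small H δ p x' ∧ ∃ z ∈ cell p x', Gam c * δ ≤ |H z| :=
    fun i => h.tipD (haS i) (hax i).2.2.1 (hax i).2.2.2.1 (hax i).2.2.2.2.1 (hax i).2.2.2.2.2
  choose x' v T hw' hsm hns hbig using htip
  have hpw := sf_pow h.hm
  have hfar5 : ∀ i j, i ≠ j → ¬ Near 5 (x i) (x j) := fun i j hij hn =>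
    hsep i j hij (sf_near_mono (by linarith) hn)
  have hy : ∀ i, ∃ y : K, y.1 = yP p (x i) (v i) ∧ y ∈ cell (p + 1) (cC (x i) (v i)) ∧
      y ∈ cell p (x i) := fun i => (T i).y_mem
  choose y hyP hyC hyx using hy
  have hv : ∀ i, ∃ w : K, w.1 = vP p (x i) (v i) ∧ w ∈ cell (p + 1) (cC (x i) (v i)) ∧
      w ∈ cell p (x i) ∧ w ∈ cell p (x' i) := fun i => (T i).v_mem
  choose w hwP hwC hwx hwx' using hv
  have hK3 : 20 ≤ K3 c := by
    unfold K3
    rw [le_div_iff₀ (by positivity)]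
    have : c ^ 3 ≤ 1 := pow_le_one₀ hc0.le hc1.le
    linarith
  -- sources
  have hsrc : ∀ (i : Fin 4) (s : Bool), ∃ z ∈ nb p (x' i),
      K3 c * δ ≤ (if s then (1 : ℝ) else -1) * H z := fun i s =>
    h.source (T i).px' (hw' i) (hbig i) (hwx' i) (hsm i _ (hwx i)) (by cases s <;> simp)
  choose z hznb hzH using hsrc
  have hzabs : ∀ i s, δ < |H (z i s)| := by
    intro i s
    have h1 := hzH i s
    have h2 : (if s then (1 : ℝ) else -1) * H (z i s) ≤ |H (z i s)| := by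
      cases s
      · simpa using neg_le_abs (H (z i Bool.false))
      · simpa using le_abs_self (H (z i true))
    have h3 : δ < K3 c * δ := by nlinarith
    linarith
  have hcov : ∀ (i : Fin 4) (s : Bool), ∃ q, Pres p q ∧ z i s ∈ cell p q ∧ Near 1 (x' i) q :=
    fun i s => nb_cover (hznb i s)
  choose x'' hx''p hzx'' hx'' using hcov
  have hns'' : ∀ i s, ¬ Small H δ p (x'' i s) := fun i s hs =>
    absurd (hs _ (hzx'' i s)) (not_lt.2 (hzabs i s).le)
  -- the Dirichlet set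
  set Z : Set K := ZP p SS a x with hZdef
  have hZc : IsClosed Z := by
    refine IsClosed.union ?_ ?_
    · exact ((pres_finite p).subset hSSp).isClosed_biUnion fun q _ => cell_closed p q
    · exact isClosed_iUnion_of_finite fun i => cell_closed _ _
  have hZH : ∀ t ∈ Z, |H t| < δ := by
    rintro t (ht | ht)
    · simp only [mem_iUnion] at ht
      obtain ⟨q, hq, ht⟩ := ht
      exact hq.2 q hq.1 (sf_near_refl zero_le_one q) t ht
    · simp only [mem_iUnion] at ht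
      obtain ⟨i, ht⟩ := ht
      exact hsm i t ((T i).cA_subset ht)
  have hzZ : ∀ i s, z i s ∉ Z := fun i s hz => absurd (hZH _ hz) (not_lt.2 (hzabs i s).le)
  have hcAne : ∀ i, (cell (p + 1) (cA (a i) (x i))).Nonempty := fun i =>
    cell_nonempty (T i).pres_cA
  have hcAZ : ∀ i, cell (p + 1) (cA (a i) (x i)) ⊆ Z := fun i t ht =>
    Or.inr (mem_iUnion.2 ⟨i, ht⟩)
  have hZne : Z.Nonempty := (hcAne 0).mono (hcAZ 0)
  -- members of `SS` do not touch big squares
  have hSSx' : ∀ q ∈ SS, ∀ i, ¬ Near 1 q (x' i) := fun q hq i hn =>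
    hns i (hq.2 _ (T i).px' hn)
  have hSSx'' : ∀ q ∈ SS, ∀ i s, ¬ Near 1 q (x'' i s) := fun q hq i s hn =>
    hns'' i s (hq.2 _ (hx''p i s) hn)
  -- disjointness
  have hdis : ∀ (N : Set K), (∀ q ∈ SS, Disjoint N (cell p q)) →
      (∀ j, Disjoint N (cell (p + 1) (cA (a j) (x j)))) → Disjoint N Z := by
    intro N h1 h2
    rw [hZdef, ZP, Set.disjoint_union_right]
    refine ⟨?_, ?_⟩
    · rw [Set.disjoint_iUnion₂_right]
      exact h1
    · rw [Set.disjoint_iUnion_right]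
      exact h2
  have hd1 : ∀ i, Disjoint (nb (p + 1) (cC (x i) (v i))) Z := fun i =>
    hdis _ (fun q hq => (T i).disj1 (hSSx' q hq i)) fun j => by
      by_cases hij : i = j
      · subst hij
        exact (T i).disj2
      · exact (T i).disj6 (T j) (hfar5 i j hij)
  have hd2 : ∀ i, Disjoint (nb p (x' i)) Z := fun i =>
    hdis _ (fun q hq => disj3 (hSSx' q hq i)) fun j => by
      by_cases hij : i = j
      · subst hij
        exact (T i).disj5 (sf_near_refl zero_le_one _) (T i).far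
      · exact disj7 (T j) (sf_near_mono (by norm_num) (T i).near) (hfar5 i j hij)
  have hd3 : ∀ i s, Disjoint (nb p (x'' i s)) Z := fun i s =>
    hdis _ (fun q hq => disj3 (hSSx'' q hq i s)) fun j => by
      by_cases hij : i = j
      · subst hij
        exact (T i).disj5 (hx'' i s) (hSSx'' _ (haS i) i s)
      · exact disj7 (T j) (sf_near_trans (T i).near (hx'' i s)) (hfar5 i j hij)
  -- potentials
  have hpot : ∀ (i : Fin 4) (s : Bool), ∃ g ∈ S.domZ Z, ∃ k : ℝ, 0 < k ∧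
      (∀ t, 0 ≤ g t ∧ g t ≤ 1) ∧ g (z i s) = 1 ∧ (∀ f ∈ S.domZ Z, S.E g f = k * f (z i s)) ∧
      ∀ u ∈ S.dom, (∀ t, 0 ≤ u t) → S.E g u ≤ k * u (z i s) := fun i s =>
    S.toRForm.exists_pot hZc hZne (hzZ i s)
  choose g hgZ κ hκ g01 gz hgE hgsub using hpot
  have hlow : ∀ i s, c ^ 3 ≤ g i s (y i) := by
    intro i s
    have := pot_lower hc0 h.har (hgZ i s).1 (fun t => (g01 i s t).1)
      (fun f hf hf0 => by
        rw [hgE i s f hf]
        exact mul_nonneg (hκ i s).le (hf0 _)) (T i) (hx''p i s) (hx'' i s)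
      (hd1 i) (hd2 i) (hd3 i s) (hzx'' i s) (hyC i)
    rwa [gz, mul_one] at this
  have hdec : ∀ i j s, i ≠ j → g j s (y i) ≤ (1 - c ^ 2) ^ (m - 4) := by
    intro i j s hij
    obtain ⟨t, ht⟩ := hcAne i
    have hk : m - 4 ≤ p := by omega
    refine decay hc0 hc1 h.har (hgZ j s).1 (g01 j s)
      (fun u hu hu0 hz0 => by
        have := hgsub j s u hu hu0
        rwa [hz0, mul_zero] at this) (T i).px ((T i).cA_subset ht)
      ((hgZ j s).2 t (hcAZ i ht)) (m - 4) hk ?_ (hyx i)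
    have hm1 : m - 4 + 1 = m - 3 := by
      have := h.hm
      omega
    rw [hm1]
    have hn2 := sf_near_trans (T j).near (hx'' j s)
    have hzc := hzx'' j s
    have hnn := hsep i j hij
    have hcast : ((3 : ℤ) ^ (m - 3) : ℤ) = (3 : ℤ) ^ (m - 3) := rfl
    have hD : (((3 : ℤ) ^ (m - 3) : ℤ) : ℝ) + 3 < ((2 * 3 ^ (m - 3) : ℤ) : ℝ) := by
      have h9 : (9 : ℝ) ≤ (3 : ℝ) ^ (m - 3) := by exact_mod_cast hpw
      push_cast
      linarith
    have hb : (((3 : ℤ) ^ (m - 3) : ℤ) : ℝ) = (3 : ℝ) ^ (m - 3) := by push_cast; rfl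
    rw [← hb]
    unfold Near at hnn
    rw [not_and_or, not_le, not_le] at hnn
    rcases hnn with h1 | h1
    · left
      exact sf_far_coord (D := 2 * 3 ^ (m - 3)) (by omega) hn2.1 hzc.1.1 hzc.1.2 hD
    · right
      exact sf_far_coord (D := 2 * 3 ^ (m - 3)) (by omega) hn2.2 hzc.2.1 hzc.2.2 hD
  have hyZ : ∀ i, y i ∉ Z := fun i hi => by
    have h1 := hlow i true
    rw [(hgZ i true).2 _ hi] at h1
    have : 0 < c ^ 3 := by positivity
    linarith
  have hyne : ∀ i j, i ≠ j → y i ≠ y j := fun i j hij he => by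
    have h1 : y i ∈ cell p (x j) := by rw [he]; exact hyx j
    exact hfar5 i j hij (sf_near_mono (by norm_num) (sf_cells (hyx i) h1))
  -- the plane sets
  set o : ℝ × ℝ := (((oPix m Q).1 : ℝ) / 3 ^ p, ((oPix m Q).2 : ℝ) / 3 ^ p) with hodef
  have ho : o ∈ sqr p (oPix m Q) := by
    have h3 : (0 : ℝ) < 3 ^ p := by positivity
    refine ⟨⟨?_, ?_⟩, ?_, ?_⟩ <;> simp only [hodef] <;> rw [mul_div_cancel₀ _ h3.ne'] <;> linarith
  refine pairing (fun i => LP p SS (oPix m Q) (a i) (x i) (v i)) o (fun i => (y i).1)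
    (fun i => LP_compact hSSp _ _ _ _) (fun i => (T i).LP_conn (hreach i)) (fun i => ?_)
    (fun i => ?_) (fun i j hij hL => ?_) (fun i j k l hij hik hil hjk hjl hkl => ?_)
  · left
    exact mem_iUnion₂.2 ⟨oPix m Q, Relation.ReflTransGen.refl, ho⟩
  · right; right
    rw [hyP i]
    exact right_mem_segment ℝ _ _
  · rcases (T i).LP_carpet hoS hL with ⟨q, hq, h1⟩ | h1 | h1
    · exact hyZ j (Or.inl (mem_iUnion₂.2 ⟨q, hq, h1⟩))
    · exact hyZ j (hcAZ i h1)
    · exact hyne i j hij (Subtype.ext (by rw [h1, hyP i]))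
  · obtain ⟨A, B, hAc, hAp, hBc, hBp, hiA, hjA, hkB, hlB, hAB, hAZ, hBZ⟩ :=
      join hc0 hδ h.pole hZH (y := y) (fun i => hsm i _ (hyx i)) (z := z)
        (fun i => by simpa using hzH i true) (fun i => by simpa using hzH i Bool.false) hgZ g01 hκ
        hgE hlow h.dec hdec hij hik hil hjk hjl hkl
    have key : ∀ (C D : Set K) (k : Fin 4), Disjoint C Z → Disjoint C D → y k ∈ D →
        Disjoint (Subtype.val '' C) (LP p SS (oPix m Q) (a k) (x k) (v k)) := by
      intro C D k hCZ hCD hkD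
      rw [Set.disjoint_left]
      rintro _ ⟨t, ht, rfl⟩ hL
      rcases (T k).LP_carpet hoS hL with ⟨q, hq, h1⟩ | h1 | h1
      · exact Set.disjoint_left.1 hCZ ht (Or.inl (mem_iUnion₂.2 ⟨q, hq, h1⟩))
      · exact Set.disjoint_left.1 hCZ ht (hcAZ k h1)
      · have : t = y k := Subtype.ext (by rw [h1, hyP k])
        exact Set.disjoint_left.1 hCD ht (this ▸ hkD)
    refine ⟨Subtype.val '' A, Subtype.val '' B, hAc.image continuous_subtype_val,
      hAp.image _ continuous_subtype_val.continuousOn, hBc.image continuous_subtype_val,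
      hBp.image _ continuous_subtype_val.continuousOn, ⟨_, hiA, rfl⟩, ⟨_, hjA, rfl⟩,
      ⟨_, hkB, rfl⟩, ⟨_, hlB, rfl⟩, ?_, key A B k hAZ hAB hkB, key A B l hAZ hAB hlB,
      key B A i hBZ hAB.symm hiA, key B A j hBZ hAB.symm hjA⟩
    exact (Set.disjoint_image_iff Subtype.val_injective).2 hAB

end CarpetLib
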