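import Pool.Agent.Lib.MP_f3090c_an.D.SitDefs
import Pool.Agent.Lib.MP_f3090c_an.D.RookD
import Pool.Agent.Lib.MP_f3090c_an.D.NodalB

/-! D20a: 5.1 of the paper proof. -/

open Set Filter Topology

namespace CarpetLib

private theorem SitR_div_nonpos {a : ℤ} {m : ℕ} (h : a ≤ 0) : a / 3 ^ m ≤ 0 := by
  have hp : (0 : ℤ) < 3 ^ m := by positivity
  have h1 : a / 3 ^ m ≤ 0 / 3 ^ m := Int.ediv_le_ediv hp h
  rwa [Int.zero_ediv] at h1

private theorem SitR_div_top {a : ℤ} {n m : ℕ} (h : 3 ^ (n + m) - 1 ≤ a) :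
    3 ^ n - 1 ≤ a / 3 ^ m := by
  have hp : (0 : ℤ) < 3 ^ m := by positivity
  rw [Int.le_ediv_iff_mul_le hp, sub_mul, ← pow_add]
  linarith

/-- the corners are far from the window -/
theorem far_corner {n m : ℕ} {Q x : Ix} (h : Far n Q) (hx : Near 12 Q (par m x)) (hm : Pres (n + m) x) :
    c00 ∉ nb (n + m) x ∧ c11 ∉ nb (n + m) x := by
  obtain ⟨h1, h2⟩ := hx
  rw [abs_le] at h1 h2
  have e1 : (par m x).1 = x.1 / 3 ^ m := rfl
  have e2 : (par m x).2 = x.2 / 3 ^ m := rfl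
  constructor
  · rintro ⟨⟨a1, -⟩, a3, -⟩
    have a1' : (x.1 : ℝ) - 1 / 3 ≤ 3 ^ (n + m) * 0 := a1
    have a3' : (x.2 : ℝ) - 1 / 3 ≤ 3 ^ (n + m) * 0 := a3
    rw [mul_zero] at a1' a3'
    have b1 : (x.1 : ℝ) < ((1 : ℤ) : ℝ) := by push_cast; linarith
    have b3 : (x.2 : ℝ) < ((1 : ℤ) : ℝ) := by push_cast; linarith
    have b1' : x.1 < 1 := by exact_mod_cast b1
    have b3' : x.2 < 1 := by exact_mod_cast b3
    have d1 := SitR_div_nonpos (m := m) (show x.1 ≤ 0 by omega)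
    have d3 := SitR_div_nonpos (m := m) (show x.2 ≤ 0 by omega)
    rw [e1] at h1
    rw [e2] at h2
    obtain ⟨hf, -⟩ := h
    rcases hf with hf | hf
    · generalize x.1 / 3 ^ m = t at *
      omega
    · generalize x.2 / 3 ^ m = t at *
      omega
  · rintro ⟨⟨-, a2⟩, -, a4⟩
    have a2' : (3 : ℝ) ^ (n + m) * 1 ≤ x.1 + 4 / 3 := a2
    have a4' : (3 : ℝ) ^ (n + m) * 1 ≤ x.2 + 4 / 3 := a4
    have b2 : (((3 : ℤ) ^ (n + m) - 2 : ℤ) : ℝ) < (x.1 : ℝ) := by push_cast; linarith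
    have b4 : (((3 : ℤ) ^ (n + m) - 2 : ℤ) : ℝ) < (x.2 : ℝ) := by push_cast; linarith
    have b2' : (3 : ℤ) ^ (n + m) - 2 < x.1 := by exact_mod_cast b2
    have b4' : (3 : ℤ) ^ (n + m) - 2 < x.2 := by exact_mod_cast b4
    have d2 := SitR_div_top (n := n) (m := m) (show 3 ^ (n + m) - 1 ≤ x.1 by linarith)
    have d4 := SitR_div_top (n := n) (m := m) (show 3 ^ (n + m) - 1 ≤ x.2 by linarith)
    rw [e1] at h1
    rw [e2] at h2
    obtain ⟨-, hf⟩ := h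
    rcases hf with hf | hf
    · generalize x.1 / 3 ^ m = t at *
      linarith [h1.1]
    · generalize x.2 / 3 ^ m = t at *
      linarith [h2.1]

private theorem SitR_case {S : SymForm} {c : ℝ} {n m : ℕ} {Q Q2 : Ix} {H : C(K, ℝ)} {δ : ℝ}
    (h : Sit S c n m Q Q2 H δ) (r : ℤ) (h2 : 2 ≤ r) (h11 : r ≤ 11) {v : C(K, ℝ)}
    (hv : v ∈ S.dom) {b : K} {B : Ix} (hE : ∀ f ∈ S.dom, (∀ x, 0 ≤ f x) → S.E v f ≤ f b)
    {z : K} (hz : z ∈ cell n Q2) (hvz : 0 < v z) (hbig : ∀ s, 0 < v s → δ ≤ |H s|)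
    (hB : Pres n B) (hbB : b ∈ cell n B) (hQB : ¬ Near 14 Q B) :
    ∃ U, Pres n U ∧ Near r Q U ∧ ¬ Near (r - 1) Q U ∧
      (∃ x, Pres (n + m) x ∧ par m x = U ∧ x ∉ SSet H δ (n + m)) ∧
      Reach (fun b => Pres n b ∧ Near r Q b) Q U := by
  obtain ⟨C, -, hCc, hCs, hzC, hbC⟩ := RForm.nodalB S.toRForm hv
    (fun f hf h0 _ => hE f hf h0) hvz
  obtain ⟨U, hU, hU1, hU2, ⟨s, hsC, hsU⟩, hR⟩ :=
    ring_reach hCc h.hQ h.hQ2 hB h.near hQB hzC hbC hz hbB h2 (by omega)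
  refine ⟨U, hU, hU1, hU2, ?_, hR⟩
  obtain ⟨x, hx, hxU, hsx⟩ := cell_sub (m := m) hU hsU
  refine ⟨x, hx, hxU, ?_⟩
  rintro ⟨-, hS⟩
  have hxx : Near 1 x x := by
    unfold Near
    simp
  have h1 := hS x hx hxx s hsx
  exact absurd (hbig s (hCs hsC)) (not_le.2 h1)

/-- 5.1. Proof: `z₂` from `h.big`. If `Gam c * δ < H z₂`: `nodalB` with `v = H - Gam c * δ` (constants: `E_const_left`),
`b = c00`, gives a continuum `C` in `{H > Gam c * δ}` from `z₂` to `c00`; otherwise with `- H` and `c11`.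
`ring_reach` with `S = C`, `q = Q2`, `b = (0,0)` or `(3^n-1, 3^n-1)` (`¬ Near 14 Q b` by `h.far`). The point `s ∈ C ∩ cell n U` is in a pixel
`x` with `par m x = U` (`cell_sub`), not small because `Gam c ≥ 1`, so `x ∉ SSet`. -/
theorem Sit.ring {S : SymForm} {c : ℝ} {n m : ℕ} {Q Q2 : Ix} {H : C(K, ℝ)} {δ : ℝ}
    (h : Sit S c n m Q Q2 H δ) (r : ℤ) (h2 : 2 ≤ r) (h11 : r ≤ 11) :
    ∃ U, Pres n U ∧ Near r Q U ∧ ¬ Near (r - 1) Q U ∧
      (∃ x, Pres (n + m) x ∧ par m x = U ∧ x ∉ SSet H δ (n + m)) ∧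
      Reach (fun b => Pres n b ∧ Near r Q b) Q U := by
  obtain ⟨z, hz, hzb⟩ := h.big
  have hG : 1 ≤ Gam c := by
    unfold Gam K3
    rw [le_div_iff₀ h.hc0]
    have : 0 ≤ 20 / c ^ 3 := by
      have := h.hc0
      positivity
    linarith [h.hc1]
  have hGδ : δ ≤ Gam c * δ := by nlinarith [h.hδ]
  have hp1 : (1 : ℤ) ≤ 3 ^ n := by
    have : (0 : ℤ) < 3 ^ n := by positivity
    omega
  have hpow : (0 : ℝ) < 3 ^ n := by positivity
  have h3r : (1 : ℝ) ≤ 3 ^ n := by exact_mod_cast hp1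
  have hconst : ∀ f, S.E (ContinuousMap.const K (Gam c * δ)) f = 0 :=
    fun f => S.toRForm.E_const_left f _
  have hcm : ContinuousMap.const K (Gam c * δ) ∈ S.dom := S.toRForm.const_mem _
  rcases le_total 0 (H z) with hs | hs
  · rw [abs_of_nonneg hs] at hzb
    refine SitR_case h r h2 h11 (v := H - ContinuousMap.const K (Gam c * δ))
      (S.dom.sub_mem h.pole.1 hcm) (b := c00) (B := (0, 0)) ?_ hz ?_ ?_
      (pres_row0 n le_rfl (by omega)) ?_ ?_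
    · intro f hf h0
      rw [map_sub, LinearMap.sub_apply, hconst, h.pole.2 f hf]
      linarith [h0 c11]
    · show 0 < H z - Gam c * δ
      linarith
    · intro s hs'
      have : 0 < H s - Gam c * δ := hs'
      exact le_trans (by linarith) (le_abs_self _)
    · refine ⟨⟨?_, ?_⟩, ?_, ?_⟩
      · show (((0 : ℤ) : ℝ)) ≤ 3 ^ n * 0
        simp
      · show (3 : ℝ) ^ n * 0 ≤ ((0 : ℤ) : ℝ) + 1
        simp
      · show (((0 : ℤ) : ℝ)) ≤ 3 ^ n * 0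
        simp
      · show (3 : ℝ) ^ n * 0 ≤ ((0 : ℤ) : ℝ) + 1
        simp
    · rintro ⟨k1, k2⟩
      rw [abs_le] at k1 k2
      simp only at k1 k2
      have := h.far.1
      omega
  · rw [abs_of_nonpos hs] at hzb
    refine SitR_case h r h2 h11 (v := -H - ContinuousMap.const K (Gam c * δ))
      (S.dom.sub_mem (S.dom.neg_mem h.pole.1) hcm) (b := c11) (B := (3 ^ n - 1, 3 ^ n - 1)) ?_ hz
      ?_ ?_ ?_ ?_ ?_
    · intro f hf h0
      rw [map_sub, LinearMap.sub_apply, hconst, map_neg, LinearMap.neg_apply, h.pole.2 f hf]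
      linarith [h0 c00]
    · show 0 < -H z - Gam c * δ
      linarith
    · intro s hs'
      have : 0 < -H s - Gam c * δ := hs'
      exact le_trans (by linarith) (neg_le_abs _)
    · have k1 : Pres n (3 ^ n - 1, 0) := pres_row0 n (by omega) (by omega)
      have k2 : Pres n (0, 3 ^ n - 1) := pres_sw.1 k1
      have k3 := pres_rx.1 k2
      simpa using k3
    · refine ⟨⟨?_, ?_⟩, ?_, ?_⟩
      · show (((3 ^ n - 1 : ℤ) : ℝ)) ≤ 3 ^ n * 1
        push_cast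
        linarith
      · show (3 : ℝ) ^ n * 1 ≤ ((3 ^ n - 1 : ℤ) : ℝ) + 1
        push_cast
        linarith
      · show (((3 ^ n - 1 : ℤ) : ℝ)) ≤ 3 ^ n * 1
        push_cast
        linarith
      · show (3 : ℝ) ^ n * 1 ≤ ((3 ^ n - 1 : ℤ) : ℝ) + 1
        push_cast
        linarith
    · rintro ⟨k1, k2⟩
      rw [abs_le] at k1 k2
      simp only at k1 k2
      have := h.far.2
      omega

end CarpetLib
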