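import Pool.Agent.Lib.MP_f3090c_an.D.One
import Pool.Agent.Lib.MP_f3090c_an.D.Cmp

/-! D09a: stars. -/

open Set Filter Topology

namespace CarpetLib

/-- closed star of the vertex `v` of level `l` -/
def star (l : ℕ) (v : Ix) : Set K := {z | |3 ^ l * z.1.1 - v.1| ≤ 1 ∧ |3 ^ l * z.1.2 - v.2| ≤ 1}

/-- open star of the vertex `v` of level `l` -/
def ostar (l : ℕ) (v : Ix) : Set K := {z | |3 ^ l * z.1.1 - v.1| < 1 ∧ |3 ^ l * z.1.2 - v.2| < 1}

theorem ostar_open (l : ℕ) (v : Ix) : IsOpen (ostar l v) := by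
  have h1 : Continuous fun z : K => |3 ^ l * z.1.1 - (v.1 : ℝ)| := by fun_prop
  have h2 : Continuous fun z : K => |3 ^ l * z.1.2 - (v.2 : ℝ)| := by fun_prop
  exact (isOpen_lt h1 continuous_const).inter (isOpen_lt h2 continuous_const)

/-- `f ∘ fold` vanishes off the open star -/
theorem fold_off {S : SymForm} {f : C(K, ℝ)} (hf : f ∈ S.domZ TR) {l : ℕ} {v : Ix} {z : K}
    (hz : z ∉ ostar l v) : f (fold l v z) = 0 := by
  refine hf.2 _ ?_
  have h : ¬ (|3 ^ l * z.1.1 - (v.1 : ℝ)| < 1 ∧ |3 ^ l * z.1.2 - (v.2 : ℝ)| < 1) := hz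
  rw [not_and_or, not_lt, not_lt] at h
  rcases h with h | h
  · left
    exact min_eq_right h
  · right
    exact min_eq_right h

end CarpetLib
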