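import Pool.Agent.Lib.MP_f3090c_an.D.SubDefs
import Pool.Agent.Lib.MP_f3090c_an.D.WBasic

/-! Doubling DB04: chains of cells and the energy on a union of cells. -/

open Set Filter Topology

namespace CarpetLib

private theorem SubBound_cell (S : SymForm) {Rc : ℝ} (hRc : 0 < Rc)
    (hR : ∀ f ∈ S.dom, ∀ x y, (f x - f y) ^ 2 ≤ Rc * S.E f f) {C : Finset (List Dig)}
    {f : C(sub C, ℝ)} (hf : ∀ w : C, f.comp (psiS C w) ∈ S.dom) {w : List Dig} (hw : w ∈ C)
    {x y : sub C} (hx : x.1 ∈ cellW w) (hy : y.1 ∈ cellW w) :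
    |f x - f y| ≤ √(Rc * ∑ w : C, S.E (f.comp (psiS C w)) (f.comp (psiS C w))) := by
  obtain ⟨a, ha⟩ := hx
  obtain ⟨b, hb⟩ := hy
  have h1 : (f.comp (psiS C ⟨w, hw⟩)) a = f x := congrArg f (Subtype.ext ha)
  have h2 : (f.comp (psiS C ⟨w, hw⟩)) b = f y := congrArg f (Subtype.ext hb)
  have h3 := hR _ (hf ⟨w, hw⟩) a b
  rw [h1, h2] at h3
  refine Real.abs_le_sqrt (h3.trans (mul_le_mul_of_nonneg_left ?_ hRc.le))
  exact Finset.single_le_sum (f := fun w : C => S.E (f.comp (psiS C w)) (f.comp (psiS C w)))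
    (fun w _ => S.nonneg _) (Finset.mem_univ (⟨w, hw⟩ : C))

private theorem SubBound_aux (S : SymForm) {Rc : ℝ} (hRc : 0 < Rc)
    (hR : ∀ f ∈ S.dom, ∀ x y, (f x - f y) ^ 2 ≤ Rc * S.E f f) {C : Finset (List Dig)}
    {f : C(sub C, ℝ)} (hf : ∀ w : C, f.comp (psiS C w) ∈ S.dom) (y : sub C) (l : ℕ) :
    ∀ x : sub C, ChainPts C l x.1 y.1 → |f x - f y| ≤
      ((l : ℝ) + 1) * √(Rc * ∑ w : C, S.E (f.comp (psiS C w)) (f.comp (psiS C w))) := by
  induction l with
  | zero =>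
    rintro x ⟨L, hL, hx, hy, -⟩
    rw [Nat.cast_zero, zero_add, one_mul]
    exact SubBound_cell S hRc hR hf (hL 0 le_rfl) hx hy
  | succ l ih =>
    rintro x ⟨L, hL, hx, hy, hL2⟩
    obtain ⟨z, hz1, hz2⟩ := hL2 0 (Nat.succ_pos l)
    have hz : z ∈ sub C := mem_sub.2 ⟨L 0, hL 0 (Nat.zero_le _), hz1⟩
    have h1 : |f x - f ⟨z, hz⟩| ≤ _ := SubBound_cell S hRc hR hf (hL 0 (Nat.zero_le _)) hx hz1
    have h2 := ih ⟨z, hz⟩ ⟨fun i => L (i + 1), fun i hi => hL (i + 1) (by omega), hz2, hy,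
      fun i hi => hL2 (i + 1) (by omega)⟩
    have h3 : |f x - f y| ≤ |f x - f ⟨z, hz⟩| + |f ⟨z, hz⟩ - f y| := abs_sub_le _ _ _
    push_cast
    linarith

/-- Along a chain of `l + 1` cells the oscillation is at most `l + 1` times the square root of
`Rc` times the sum of the cell energies. Proof: triangle inequality over the cells of the chain,
`(f x - f y)² ≤ Rc E(f ∘ ψ_w, f ∘ ψ_w) ≤ Rc ∑` in each cell. -/
theorem chain_bound (S : SymForm) {Rc : ℝ} (hRc : 0 < Rc)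
    (hR : ∀ f ∈ S.dom, ∀ x y, (f x - f y) ^ 2 ≤ Rc * S.E f f) {C : Finset (List Dig)}
    {f : C(sub C, ℝ)} (hf : ∀ w : C, f.comp (psiS C w) ∈ S.dom) {l : ℕ} {x y : sub C}
    (h : ChainPts C l x.1 y.1) :
    (f x - f y) ^ 2 ≤
      ((l : ℝ) + 1) ^ 2 * (Rc * ∑ w : C, S.E (f.comp (psiS C w)) (f.comp (psiS C w))) := by
  have h1 := SubBound_aux S hRc hR hf y l x h
  have h2 : 0 ≤ Rc * ∑ w : C, S.E (f.comp (psiS C w)) (f.comp (psiS C w)) :=
    mul_nonneg hRc.le (Finset.sum_nonneg fun w _ => S.nonneg _)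
  calc (f x - f y) ^ 2 = |f x - f y| ^ 2 := (sq_abs _).symm
    _ ≤ (((l : ℝ) + 1) * √(Rc * ∑ w : C, S.E (f.comp (psiS C w)) (f.comp (psiS C w)))) ^ 2 :=
      pow_le_pow_left₀ (abs_nonneg _) h1 2
    _ = _ := by rw [mul_pow, Real.sq_sqrt h2]

theorem ChainPts.mono {C C' : Finset (List Dig)} (hC : C ⊆ C') {l l' : ℕ} (hl : l ≤ l') {x y : K}
    (h : ChainPts C l x y) : ChainPts C' l' x y := by
  obtain ⟨L, h1, h2, h3, h4⟩ := h
  refine ⟨fun i => L (min i l), fun i _ => hC (h1 _ (min_le_right _ _)), ?_, ?_, fun i hi => ?_⟩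
  · beta_reduce
    rw [Nat.zero_min]
    exact h2
  · beta_reduce
    rw [min_eq_right hl]
    exact h3
  · beta_reduce
    rcases lt_or_ge i l with h5 | h5
    · rw [min_eq_left h5.le, min_eq_left (show i + 1 ≤ l from h5)]
      exact h4 i h5
    · rw [min_eq_right h5, min_eq_right (h5.trans (Nat.le_succ i)), inter_self]
      exact cellW_nonempty _

private theorem SubBound_words {C : Finset (List Dig)} {w w' : List Dig} (hw : w ∈ C)
    (h : Relation.ReflTransGen (fun u v => u ∈ C ∧ v ∈ C ∧ (cellW u ∩ cellW v).Nonempty) w w') :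
    ∃ l, ∀ x ∈ cellW w, ∀ y ∈ cellW w', ChainPts C l x y := by
  have key : ∃ (l : ℕ) (L : ℕ → List Dig), (∀ i ≤ l, L i ∈ C) ∧ L 0 = w ∧ L l = w' ∧
      ∀ i < l, (cellW (L i) ∩ cellW (L (i + 1))).Nonempty := by
    induction h with
    | refl => exact ⟨0, fun _ => w, fun _ _ => hw, rfl, rfl, fun i hi => absurd hi (Nat.not_lt_zero i)⟩
    | @tail u v _ huv ih =>
      obtain ⟨l, L, h1, h2, h3, h4⟩ := ih
      refine ⟨l + 1, fun i => if i ≤ l then L i else v, fun i _ => ?_, ?_, ?_, fun i hi => ?_⟩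
      · beta_reduce
        split_ifs with h5
        · exact h1 i h5
        · exact huv.2.1
      · beta_reduce
        rw [if_pos (Nat.zero_le l)]
        exact h2
      · beta_reduce
        rw [if_neg (by omega)]
      · beta_reduce
        rw [if_pos (show i ≤ l by omega)]
        rcases Nat.lt_or_ge i l with h5 | h5
        · rw [if_pos (show i + 1 ≤ l from h5)]
          exact h4 i h5
        · have h6 : i = l := by omega
          rw [if_neg (by omega), h6, h3]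
          exact huv.2.2
  obtain ⟨l, L, h1, h2, h3, h4⟩ := key
  exact ⟨l, fun x hx y hy => ⟨L, h1, by rw [h2]; exact hx, by rw [h3]; exact hy, h4⟩⟩

/-- points of a chain connected union are joined by chains of at most `C.card` cells -/
theorem exists_chainPts {C : Finset (List Dig)} (hc : ChainConn C) {x y : K} (hx : x ∈ sub C)
    (hy : y ∈ sub C) : ∃ l, ChainPts C l x y := by
  obtain ⟨w, hw, hxw⟩ := mem_sub.1 hx
  obtain ⟨w', hw', hyw⟩ := mem_sub.1 hy
  obtain ⟨l, hl⟩ := SubBound_words hw (hc w hw w' hw')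
  exact ⟨l, hl x hxw y hyw⟩

/-- uniform version. Proof: finitely many pairs of words; a chain may be prolonged by repeating
its last word. -/
theorem exists_chainPts_unif {C : Finset (List Dig)} (hc : ChainConn C) :
    ∃ l, ∀ x ∈ sub C, ∀ y ∈ sub C, ChainPts C l x y := by
  have h1 : ∀ p : C × C, ∃ l, ∀ x ∈ cellW p.1.1, ∀ y ∈ cellW p.2.1, ChainPts C l x y :=
    fun p => SubBound_words p.1.2 (hc _ p.1.2 _ p.2.2)
  choose l hl using h1
  refine ⟨Finset.univ.sup l, fun x hx y hy => ?_⟩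
  obtain ⟨w, hw, hxw⟩ := mem_sub.1 hx
  obtain ⟨w', hw', hyw⟩ := mem_sub.1 hy
  exact (hl (⟨w, hw⟩, ⟨w', hw'⟩) x hxw y hyw).mono (Finset.Subset.refl _)
    (Finset.le_sup (f := l) (Finset.mem_univ _))

end CarpetLib
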