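import Pool.Agent.Lib.MP_f3090c_an.D.SubBound
import Pool.Agent.Lib.MP_f3090c_an.R.Basic

/-! Doubling DB05: completeness of the form on a union of cells. -/

open Set Filter Topology

namespace CarpetLib

private theorem sub_complete_shift (S : SymForm) (f : C(K, ℝ)) (c : ℝ) :
    S.E (f - ContinuousMap.const K c) (f - ContinuousMap.const K c) = S.E f f := by
  simp only [map_sub, LinearMap.sub_apply, S.toRForm.E_const_right, S.toRForm.E_const_left,
    sub_zero]

/-- Completeness. Proof: by `chain_bound` and `exists_chainPts_unif` the functions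
`u n - u n x0` form a Cauchy sequence in `C(sub C, ℝ)`; let `f` be the limit. For each `w` the functions
`u n ∘ ψ_w` are Cauchy for `S.E`, by `S.complete` they converge in energy to some `g ∈ S.dom`, and by
`S.bound` `u n ∘ ψ_w - g` minus constants tends to `0` uniformly, so `f ∘ ψ_w - g` is constant. -/
theorem sub_complete (S : SymForm) {C : Finset (List Dig)} (hne : C.Nonempty)
    (hc : ChainConn C) (u : ℕ → C(sub C, ℝ)) (hu : ∀ n, ∀ w : C, (u n).comp (psiS C w) ∈ S.dom)
    (hC : ∀ ε > 0, ∃ N, ∀ m ≥ N, ∀ n ≥ N,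
      ∑ w : C, S.E ((u m - u n).comp (psiS C w)) ((u m - u n).comp (psiS C w)) < ε) :
    ∃ f : C(sub C, ℝ), (∀ w : C, f.comp (psiS C w) ∈ S.dom) ∧
      Tendsto (fun n => ∑ w : C, S.E ((u n - f).comp (psiS C w)) ((u n - f).comp (psiS C w)))
        atTop (𝓝 0) := by
  obtain ⟨Rc, hRc, hR⟩ := S.bound
  obtain ⟨l, hl⟩ := exists_chainPts_unif hc
  obtain ⟨w0, hw0⟩ := hne
  set x0 : sub C := psiS C ⟨w0, hw0⟩ c00 with hx0
  have hdiff : ∀ m n, ∀ w : C, (u m - u n).comp (psiS C w) ∈ S.dom := by
    intro m n w
    have : (u m - u n).comp (psiS C w) = (u m).comp (psiS C w) - (u n).comp (psiS C w) := rfl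
    rw [this]
    exact S.dom.sub_mem (hu m w) (hu n w)
  have hcb : ∀ m n, ∀ x y : sub C, ((u m - u n) x - (u m - u n) y) ^ 2 ≤
      ((l : ℝ) + 1) ^ 2 * (Rc * ∑ w : C, S.E ((u m - u n).comp (psiS C w))
        ((u m - u n).comp (psiS C w))) := fun m n x y =>
    chain_bound S hRc hR (hdiff m n) (hl x.1 x.2 y.1 y.2)
  -- the normalised functions
  set v : ℕ → C(sub C, ℝ) := fun n => u n - ContinuousMap.const _ (u n x0) with hv
  have hcauchy : CauchySeq v := by
    rw [Metric.cauchySeq_iff]
    intro ε hε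
    have hK : 0 < ((l : ℝ) + 1) ^ 2 * Rc := by positivity
    obtain ⟨N, hN⟩ := hC ((ε / 2) ^ 2 / (((l : ℝ) + 1) ^ 2 * Rc)) (by positivity)
    refine ⟨N, fun m hm n hn => ?_⟩
    have h1 : dist (v m) (v n) ≤ ε / 2 := by
      rw [ContinuousMap.dist_le (by positivity)]
      intro x
      have h2 := hcb m n x x0
      have h3 := hN m hm n hn
      rw [lt_div_iff₀ hK] at h3
      have h4 : ((u m - u n) x - (u m - u n) x0) ^ 2 ≤ (ε / 2) ^ 2 := by
        refine h2.trans ?_
        nlinarith [h3]
      have h5 := abs_le_of_sq_le_sq h4 (by positivity)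
      rw [Real.dist_eq]
      have h6 : v m x - v n x = (u m - u n) x - (u m - u n) x0 := by
        simp only [hv, ContinuousMap.sub_apply, ContinuousMap.const_apply]
        ring
      rw [h6]
      exact h5
    linarith
  obtain ⟨f, hf⟩ := cauchySeq_tendsto_of_complete hcauchy
  have hfx : ∀ x, Tendsto (fun n => v n x) atTop (𝓝 (f x)) := fun x =>
    ((continuous_eval_const x).tendsto f).comp hf
  have key : ∀ w : C, f.comp (psiS C w) ∈ S.dom ∧
      Tendsto (fun n => S.E ((u n - f).comp (psiS C w)) ((u n - f).comp (psiS C w)))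
        atTop (𝓝 0) := by
    intro w
    have h1 : ∀ ε > 0, ∃ N, ∀ m ≥ N, ∀ n ≥ N,
        S.E ((u m).comp (psiS C w) - (u n).comp (psiS C w))
          ((u m).comp (psiS C w) - (u n).comp (psiS C w)) < ε := by
      intro ε hε
      obtain ⟨N, hN⟩ := hC ε hε
      refine ⟨N, fun m hm n hn => lt_of_le_of_lt ?_ (hN m hm n hn)⟩
      exact Finset.single_le_sum (f := fun w : C => S.E ((u m - u n).comp (psiS C w))
        ((u m - u n).comp (psiS C w))) (fun w _ => S.nonneg _) (Finset.mem_univ w)
    obtain ⟨g, hg, hgt⟩ := S.complete (fun n => (u n).comp (psiS C w)) (fun n => hu n w) h1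
    -- `f ∘ ψ_w - g` is constant
    have h2 : ∀ x y, (f.comp (psiS C w) x - g x) - (f.comp (psiS C w) y - g y) = 0 := by
      intro x y
      have t1 : Tendsto (fun n => ((v n (psiS C w x) - g x) - (v n (psiS C w y) - g y)) ^ 2) atTop
          (𝓝 (((f.comp (psiS C w) x - g x) - (f.comp (psiS C w) y - g y)) ^ 2)) :=
        (((hfx _).sub_const _).sub ((hfx _).sub_const _)).pow 2
      have t2 : Tendsto (fun n => ((v n (psiS C w x) - g x) - (v n (psiS C w y) - g y)) ^ 2) atTop
          (𝓝 0) := by
        have t3 := hgt.const_mul Rc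
        rw [mul_zero] at t3
        refine squeeze_zero (fun n => sq_nonneg _) (fun n => ?_) t3
        have h3 := hR ((u n).comp (psiS C w) - g) (S.dom.sub_mem (hu n w) hg) x y
        refine le_trans (le_of_eq ?_) h3
        simp only [hv, ContinuousMap.sub_apply, ContinuousMap.const_apply,
          ContinuousMap.comp_apply]
        ring
      exact pow_eq_zero_iff (two_ne_zero) |>.1 (tendsto_nhds_unique t1 t2)
    have h3 : f.comp (psiS C w) = g + ContinuousMap.const K (f.comp (psiS C w) c00 - g c00) := by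
      ext x
      have := h2 x c00
      simp only [ContinuousMap.add_apply, ContinuousMap.const_apply] at this ⊢
      linarith
    refine ⟨?_, ?_⟩
    · rw [h3]
      exact S.dom.add_mem hg (S.toRForm.const_mem _)
    · refine hgt.congr fun n => ?_
      have h4 : (u n - f).comp (psiS C w) = ((u n).comp (psiS C w) - g) -
          ContinuousMap.const K (f.comp (psiS C w) c00 - g c00) := by
        have : (u n - f).comp (psiS C w) = (u n).comp (psiS C w) - f.comp (psiS C w) := rfl
        rw [this, sub_sub, ← h3]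
      rw [h4, sub_complete_shift]
  refine ⟨f, fun w => (key w).1, ?_⟩
  have h5 := tendsto_finsetSum (Finset.univ : Finset C) fun w _ => (key w).2
  rw [Finset.sum_const_zero] at h5
  exact h5

end CarpetLib
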