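import Pool.Agent.Lib.MP_f3090c_an.D.WDefs
import Pool.Agent.Lib.MP_f3090c_an.R.Defs

/-! Doubling, definitions: unions of cells and the forms on them. -/

open Set Filter Topology

namespace CarpetLib

/-- the union of the cells of a finite set of words -/
def sub (C : Finset (List Dig)) : Set K := ⋃ w ∈ C, cellW w

theorem mem_sub {C : Finset (List Dig)} {z : K} : z ∈ sub C ↔ ∃ w ∈ C, z ∈ cellW w := by
  simp [sub]

theorem sub_closed (C : Finset (List Dig)) : IsClosed (sub C) :=
  C.finite_toSet.isClosed_biUnion fun w _ => cellW_closed w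

instance (C : Finset (List Dig)) : CompactSpace (sub C) :=
  isCompact_iff_compactSpace.1 (sub_closed C).isCompact

/-- the parametrisation of the cell of `w` as a map into the union -/
noncomputable def psiS (C : Finset (List Dig)) (w : C) : C(K, sub C) :=
  ⟨fun z => ⟨psiW w.1 z, mem_sub.2 ⟨w.1, w.2, z, rfl⟩⟩,
    (psiW w.1).continuous.subtype_mk _⟩

/-- the inclusion of the union -/
def incS (C : Finset (List Dig)) : C(sub C, K) := ⟨Subtype.val, continuous_subtype_val⟩

theorem incS_psiS (C : Finset (List Dig)) (w : C) (f : C(K, ℝ)) :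
    (f.comp (incS C)).comp (psiS C w) = f.comp (psiW w.1) := rfl

/-- `R` is the form of the union of the `m`-cells in `C` -/
def IsSub (S : SymForm) (m : ℕ) (C : Finset (List Dig)) (R : RForm (sub C)) : Prop :=
  (∀ f : C(sub C, ℝ), f ∈ R.dom ↔ ∀ w : C, f.comp (psiS C w) ∈ S.dom) ∧
    ∀ f g : C(sub C, ℝ), R.E f g =
      S.ρ ^ m * ∑ w : C, S.E (f.comp (psiS C w)) (g.comp (psiS C w))

end CarpetLib
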