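import Pool.Agent.Lib.MP_f3090c_an.D.SubDefs
import Pool.Agent.Lib.MP_f3090c_an.D.GlueW

/-! Doubling DB06: density and locality on a union of cells. -/

open Set Filter Topology

namespace CarpetLib

/-- Density: a function on the closed set `sub C` extends to `K` (Tietze), approximate the
extension in `S.dom` (`S.dense`) and restrict. -/
theorem sub_dense (S : SymForm) (C : Finset (List Dig)) :
    Dense {f : C(sub C, ℝ) | ∀ w : C, f.comp (psiS C w) ∈ S.dom} := by
  have hsurj : Function.Surjective (fun F : C(K, ℝ) => F.comp (incS C)) := by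
    intro f
    obtain ⟨F, hF⟩ := ContinuousMap.exists_restrict_eq (sub_closed C) f
    refine ⟨F, ?_⟩
    rw [← hF]
    rfl
  have hcont : Continuous (fun F : C(K, ℝ) => F.comp (incS C)) :=
    ContinuousMap.continuous_precomp (incS C)
  have h1 := hsurj.denseRange.dense_image hcont S.dense
  refine h1.mono ?_
  rintro _ ⟨F, hF, rfl⟩ w
  exact comp_mem S hF w.1

/-- Locality, cell by cell: `tsupport (f ∘ ψ_w)` is contained in the preimage of `tsupport f`. -/
theorem sub_loc (S : SymForm) (C : Finset (List Dig)) {f g : C(sub C, ℝ)}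
    (h : ∀ w : C, (f + g).comp (psiS C w) ∈ S.dom) (hd : Disjoint (tsupport f) (tsupport g)) :
    ∀ w : C, f.comp (psiS C w) ∈ S.dom ∧ g.comp (psiS C w) ∈ S.dom ∧
      S.E (f.comp (psiS C w)) (g.comp (psiS C w)) = 0 := by
  intro w
  have hs : ∀ u : C(sub C, ℝ), tsupport (u.comp (psiS C w)) ⊆ (psiS C w) ⁻¹' tsupport u := by
    intro u
    refine closure_minimal ?_ ((isClosed_tsupport _).preimage (psiS C w).continuous)
    intro z hz
    exact subset_tsupport _ hz
  exact S.loc _ _ (h w) ((hd.preimage (psiS C w)).mono (hs f) (hs g))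

end CarpetLib
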