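import Pool.Agent.Lib.MP_f3090c_an.D.SubComplete
import Pool.Agent.Lib.MP_f3090c_an.D.SubLoc

/-! Doubling DB07: the form on a union of cells is an `RForm`. -/

open Set Filter Topology

namespace CarpetLib

/-- precomposition with the parametrisation of a cell -/
private noncomputable def subForm_pre (C : Finset (List Dig)) (w : C) :
    C(sub C, ℝ) →ₗ[ℝ] C(K, ℝ) where
  toFun f := f.comp (psiS C w)
  map_add' _ _ := rfl
  map_smul' _ _ := rfl

/-- the form -/
private noncomputable def subForm_E (S : SymForm) (m : ℕ) (C : Finset (List Dig)) :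
    C(sub C, ℝ) →ₗ[ℝ] C(sub C, ℝ) →ₗ[ℝ] ℝ :=
  S.ρ ^ m • ∑ w : C, S.E.compl₁₂ (subForm_pre C w) (subForm_pre C w)

private theorem subForm_E_apply (S : SymForm) (m : ℕ) (C : Finset (List Dig))
    (f g : C(sub C, ℝ)) : subForm_E S m C f g =
      S.ρ ^ m * ∑ w : C, S.E (f.comp (psiS C w)) (g.comp (psiS C w)) := by
  unfold subForm_E
  rw [LinearMap.smul_apply, LinearMap.smul_apply, smul_eq_mul, LinearMap.sum_apply,
    LinearMap.sum_apply]
  rfl

/-- the domain -/
private noncomputable def subForm_dom (S : SymForm) (C : Finset (List Dig)) :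
    Submodule ℝ C(sub C, ℝ) where
  carrier := {f | ∀ w : C, f.comp (psiS C w) ∈ S.dom}
  add_mem' := fun hf hg w => S.dom.add_mem (hf w) (hg w)
  zero_mem' := fun _ => S.dom.zero_mem
  smul_mem' := fun c _ hf w => S.dom.smul_mem c (hf w)

private theorem subForm_sum_nonneg (S : SymForm) (C : Finset (List Dig)) (f : C(sub C, ℝ)) :
    0 ≤ ∑ w : C, S.E (f.comp (psiS C w)) (f.comp (psiS C w)) :=
  Finset.sum_nonneg fun _ _ => S.nonneg _

/-- Proof: `dom` and `E` as in `IsSub` (`E` is bilinear on all of `C(sub C, ℝ)`); `const_of_zero` and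
`bound` from `chain_bound` and `exists_chainPts_unif`; `complete`, `dense`, `loc` from the previous files;
`markov` and the rest cell by cell. -/
theorem exists_subForm (S : SymForm) (m : ℕ) {C : Finset (List Dig)} (hne : C.Nonempty)
    (hc : ChainConn C) : ∃ R : RForm (sub C), IsSub S m C R := by
  obtain ⟨Rc, hRc, hR⟩ := S.bound
  obtain ⟨l, hl⟩ := exists_chainPts_unif hc
  have hρ : 0 < S.ρ ^ m := pow_pos S.ρ_pos m
  refine ⟨{ dom := subForm_dom S C
            E := subForm_E S m C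
            symm := ?_
            nonneg := ?_
            one_mem := fun _ => S.one_mem
            E_one := ?_
            const_of_zero := ?_
            bound := ?_
            complete := ?_
            markov := ?_
            dense := sub_dense S C
            loc := ?_ }, fun f => Iff.rfl, subForm_E_apply S m C⟩
  · intro f g
    rw [subForm_E_apply, subForm_E_apply]
    exact congrArg _ (Finset.sum_congr rfl fun w _ => S.symm _ _)
  · intro f
    rw [subForm_E_apply]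
    exact mul_nonneg hρ.le (subForm_sum_nonneg S C f)
  · rw [subForm_E_apply, Finset.sum_eq_zero, mul_zero]
    exact fun w _ => S.E_one
  · intro f hf h0 x y
    rw [subForm_E_apply] at h0
    have h1 := (mul_eq_zero.1 h0).resolve_left hρ.ne'
    have h2 := chain_bound S hRc hR hf (hl x.1 x.2 y.1 y.2)
    rw [h1, mul_zero, mul_zero] at h2
    have h3 : (f x - f y) ^ 2 = 0 := le_antisymm h2 (sq_nonneg _)
    exact sub_eq_zero.1 (pow_eq_zero_iff two_ne_zero |>.1 h3)
  · refine ⟨((l : ℝ) + 1) ^ 2 * (Rc / S.ρ ^ m), by positivity, fun f hf x y => ?_⟩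
    have h2 := chain_bound S hRc hR hf (hl x.1 x.2 y.1 y.2)
    refine h2.trans (le_of_eq ?_)
    rw [subForm_E_apply]
    field_simp
  · intro u hu hC
    obtain ⟨f, hf, hlim⟩ := sub_complete S hne hc u hu (by
      intro ε hε
      obtain ⟨N, hN⟩ := hC (S.ρ ^ m * ε) (mul_pos hρ hε)
      refine ⟨N, fun a ha b hb => ?_⟩
      have h1 := hN a ha b hb
      rw [subForm_E_apply] at h1
      exact lt_of_mul_lt_mul_left h1 hρ.le)
    refine ⟨f, hf, ?_⟩
    have h1 := hlim.const_mul (S.ρ ^ m)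
    rw [mul_zero] at h1
    refine h1.congr fun n => ?_
    rw [subForm_E_apply]
  · intro f hf φ hφ
    refine ⟨fun w => (S.markov _ (hf w) φ hφ).1, ?_⟩
    rw [subForm_E_apply, subForm_E_apply]
    exact mul_le_mul_of_nonneg_left
      (Finset.sum_le_sum fun w _ => (S.markov _ (hf w) φ hφ).2) hρ.le
  · intro f g hfg hd
    have h := sub_loc S C hfg hd
    refine ⟨fun w => (h w).1, fun w => (h w).2.1, ?_⟩
    rw [subForm_E_apply, Finset.sum_eq_zero fun w _ => (h w).2.2, mul_zero]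

/-- chain bound for the form of a union of cells -/
theorem sub_chain (S : SymForm) {Rc : ℝ} (hRc : 0 < Rc)
    (hR : ∀ f ∈ S.dom, ∀ x y, (f x - f y) ^ 2 ≤ Rc * S.E f f) {m : ℕ} {C : Finset (List Dig)}
    {R : RForm (sub C)} (hS : IsSub S m C R) {l : ℕ} {x y : sub C} (h : ChainPts C l x.1 y.1)
    {f : C(sub C, ℝ)} (hf : f ∈ R.dom) :
    (f x - f y) ^ 2 ≤ ((l : ℝ) + 1) ^ 2 * (Rc * (R.E f f / S.ρ ^ m)) := by
  have hρ : 0 < S.ρ ^ m := pow_pos S.ρ_pos m
  have h1 := chain_bound S hRc hR ((hS.1 f).1 hf) h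
  rw [hS.2 f f, mul_div_cancel_left₀ _ hρ.ne']
  exact h1

/-- restrictions of functions of the domain have at most the energy of the function -/
theorem sub_restrict (S : SymForm) {m : ℕ} {C : Finset (List Dig)} (hC : C ⊆ Wd m)
    {R : RForm (sub C)} (hS : IsSub S m C R) {f : C(K, ℝ)} (hf : f ∈ S.dom) :
    f.comp (incS C) ∈ R.dom ∧ R.E (f.comp (incS C)) (f.comp (incS C)) ≤ S.E f f := by
  refine ⟨(hS.1 _).2 fun w => ?_, ?_⟩
  · rw [incS_psiS]
    exact comp_mem S hf w.1
  · rw [hS.2]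
    refine le_trans (le_of_eq ?_) (E_word_le S hf C hC)
    congr 1
    rw [← Finset.sum_coe_sort C fun w => S.E (f.comp (psiW w)) (f.comp (psiW w))]
    rfl

/-- `E(q, g)` on `K` of a function `g` vanishing on the cells outside `C` -/
theorem sub_E_eq (S : SymForm) {m : ℕ} {C : Finset (List Dig)} (hC : C ⊆ Wd m)
    {R : RForm (sub C)} (hS : IsSub S m C R) {q g : C(K, ℝ)} (hq : q ∈ S.dom) (hg : g ∈ S.dom)
    (h0 : ∀ w ∈ Wd m, w ∉ C → ∀ z ∈ cellW w, g z = 0) :
    S.E q g = R.E (q.comp (incS C)) (g.comp (incS C)) := by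
  rw [hS.2, E_words S m hq hg]
  congr 1
  have h1 : ∑ w ∈ C, S.E (q.comp (psiW w)) (g.comp (psiW w)) =
      ∑ w ∈ Wd m, S.E (q.comp (psiW w)) (g.comp (psiW w)) := by
    refine Finset.sum_subset hC fun w hw hwC => ?_
    have h2 : g.comp (psiW w) = 0 := by
      ext z
      exact h0 w hw hwC _ ⟨z, rfl⟩
    rw [h2, map_zero]
  rw [← h1, ← Finset.sum_coe_sort C fun w => S.E (q.comp (psiW w)) (g.comp (psiW w))]
  rfl

/-- Extension by zero: `C' := ` the other cells; `g` vanishes where the cells of `C` meet cells outside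
`C`. Proof: `glue_words`, `mem_words`. -/
theorem sub_extend (S : SymForm) {m : ℕ} {C : Finset (List Dig)} (hC : C ⊆ Wd m)
    {R : RForm (sub C)} (hS : IsSub S m C R) {g : C(sub C, ℝ)} (hg : g ∈ R.dom)
    (h0 : ∀ x : sub C, (∃ w ∈ Wd m, w ∉ C ∧ x.1 ∈ cellW w) → g x = 0) :
    ∃ G ∈ S.dom, (∀ x : sub C, G x.1 = g x) ∧ ∀ w ∈ Wd m, w ∉ C → ∀ z ∈ cellW w, G z = 0 := by
  classical
  let f : List Dig → C(K, ℝ) := fun w => if h : w ∈ C then g.comp (psiS C ⟨w, h⟩) else 0
  have f1 : ∀ w (h : w ∈ C), f w = g.comp (psiS C ⟨w, h⟩) := fun w h => dif_pos h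
  have f0 : ∀ w, w ∉ C → f w = 0 := fun w h => dif_neg h
  have hz : ∀ w (h : w ∈ C), ∀ w' ∈ Wd m, w' ∉ C → ∀ z z', psiW w z = psiW w' z' →
      g (psiS C ⟨w, h⟩ z) = 0 := by
    intro w h w' hw' hw'C z z' e
    exact h0 _ ⟨w', hw', hw'C, ⟨z', e.symm⟩⟩
  obtain ⟨G, hG⟩ := glue_words m f (by
    intro w _ w' _ z z' e
    by_cases hwC : w ∈ C
    · by_cases hw'C : w' ∈ C
      · rw [f1 w hwC, f1 w' hw'C]
        exact congrArg g (Subtype.ext e)
      · rw [f1 w hwC, f0 w' hw'C]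
        exact hz w hwC w' ‹_› hw'C z z' e
    · by_cases hw'C : w' ∈ C
      · rw [f0 w hwC, f1 w' hw'C]
        exact (hz w' hw'C w ‹_› hwC z' z e.symm).symm
      · rw [f0 w hwC, f0 w' hw'C]
        rfl)
  have hGz : ∀ w ∈ Wd m, ∀ z, G (psiW w z) = f w z := fun w hw z =>
    DFunLike.congr_fun (hG w hw) z
  refine ⟨G, (mem_words S m G).2 fun w hw => ?_, fun x => ?_, fun w hw hwC z hz' => ?_⟩
  · rw [hG w hw]
    by_cases hwC : w ∈ C
    · rw [f1 w hwC]
      exact (hS.1 g).1 hg ⟨w, hwC⟩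
    · rw [f0 w hwC]
      exact S.dom.zero_mem
  · obtain ⟨w, hwC, z, hzx⟩ := mem_sub.1 x.2
    rw [← hzx, hGz w (hC hwC) z, f1 w hwC]
    exact congrArg g (Subtype.ext hzx)
  · obtain ⟨z0, rfl⟩ := hz'
    rw [hGz w hw z0, f0 w hwC]
    rfl

end CarpetLib
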