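import Pool.Agent.Lib.MP_f3090c_an.D.Defs

/-! D14: combinatorics of present squares (section 4 of the paper proof). -/

open Set Filter Topology

namespace CarpetLib

private theorem third_succ (l : ℕ) (a b : ℤ) :
    Pres (l + 1) (a, b) ↔ (Pres l (a / 3, b / 3) ∧ ¬ (a % 3 = 1 ∧ b % 3 = 1)) := Iff.rfl

/-- (C1) third cell. Proof: induction on `l`. For level `l + 1` put `p = 3 p' + r`, `q = 3 q' + s` (`/ 3`, `% 3`); `Near 1 p q` gives
`Near 1 p' q'`, so by induction `(p'.1, q'.2)` or `(q'.1, p'.2)` is present. If `p.1 = q.1` or `p.2 = q.2` trivial. Otherwise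
`q.1 = p.1 ± 1`, `q.2 = p.2 ± 1`, cases whether the coordinates change the parent:
no coordinate changes parent: all parents equal, present; not both `(p.1 % 3, q.2 % 3)` and `(q.1 % 3, p.2 % 3)` can be `(1,1)`, as then
`p % 3 = ...`: if `p.1 % 3 = 1 = q.2 % 3` and `q.1 % 3 = 1` then `p.1 = q.1`. One coordinate, say the first, changes parent: then
`p.1 % 3, q.1 % 3 ∈ {0, 2}`, `p'.2 = q'.2`, so the parents of `(p.1, q.2)` and `(q.1, p.2)` are `p'`, `q'`, both are present. Both change parent:
all residues in `{0, 2}`, use the induction hypothesis. -/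
theorem third {l : ℕ} {p q : Ix} (hp : Pres l p) (hq : Pres l q) (h : Near 1 p q) :
    Pres l (p.1, q.2) ∨ Pres l (q.1, p.2) := by
  induction l generalizing p q with
  | zero =>
    have e1 : p = (0, 0) := hp
    have e2 : q = (0, 0) := hq
    left
    rw [e1, e2]
    exact rfl
  | succ l ih =>
    obtain ⟨a, b⟩ := p
    obtain ⟨c, d⟩ := q
    have h1 : |a - c| ≤ 1 := h.1
    have h2 : |b - d| ≤ 1 := h.2
    rw [abs_le] at h1 h2
    rw [third_succ] at hp hq
    show Pres (l + 1) (a, d) ∨ Pres (l + 1) (c, b)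
    rw [third_succ, third_succ]
    have hn : Near 1 ((a / 3, b / 3) : Ix) ((c / 3, d / 3) : Ix) := by
      constructor
      · show |a / 3 - c / 3| ≤ 1
        rw [abs_le]
        constructor <;> omega
      · show |b / 3 - d / 3| ≤ 1
        rw [abs_le]
        constructor <;> omega
    have ih' : Pres l (a / 3, d / 3) ∨ Pres l (c / 3, b / 3) := ih hp.1 hq.1 hn
    by_cases e1 : a = c
    · left
      rw [e1]
      exact hq
    by_cases e2 : b = d
    · left
      rw [← e2]
      exact hp
    by_cases e3 : a / 3 = c / 3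
    · by_cases e4 : b / 3 = d / 3
      · by_cases e5 : a % 3 = 1 ∧ d % 3 = 1
        · right
          refine ⟨by rw [← e3]; exact hp.1, fun e6 => ?_⟩
          omega
        · left
          exact ⟨by rw [← e4]; exact hp.1, e5⟩
      · left
        exact ⟨by rw [e3]; exact hq.1, fun e6 => by omega⟩
    · by_cases e4 : b / 3 = d / 3
      · left
        exact ⟨by rw [← e4]; exact hp.1, fun e6 => by omega⟩
      · rcases ih' with h3 | h3
        · left
          exact ⟨h3, fun e6 => by omega⟩
        · right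
          exact ⟨h3, fun e6 => by omega⟩

/-- squares in the row `0` -/
theorem pres_row0 (l : ℕ) {a : ℤ} (h0 : 0 ≤ a) (h1 : a < 3 ^ l) : Pres l (a, 0) := by
  induction l generalizing a with
  | zero =>
    have : a = 0 := by
      rw [pow_zero] at h1
      omega
    rw [this]
    exact rfl
  | succ l ih =>
    rw [third_succ]
    refine ⟨ih (by omega) ?_, fun h => by omega⟩
    rw [pow_succ] at h1
    omega

/-- present is invariant under exchange of the coordinates -/
theorem pres_sw {l : ℕ} {p : Ix} : Pres l p ↔ Pres l (p.2, p.1) := by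
  induction l generalizing p with
  | zero =>
    obtain ⟨a, b⟩ := p
    show ((a, b) : Ix) = (0, 0) ↔ ((b, a) : Ix) = (0, 0)
    rw [Prod.mk.injEq, Prod.mk.injEq]
    exact and_comm
  | succ l ih =>
    obtain ⟨a, b⟩ := p
    show Pres (l + 1) (a, b) ↔ Pres (l + 1) (b, a)
    rw [third_succ, third_succ, ih (p := (a / 3, b / 3)), and_comm (a := a % 3 = 1)]

/-- ... and under reflection -/
theorem pres_rx {l : ℕ} {p : Ix} : Pres l p ↔ Pres l (3 ^ l - 1 - p.1, p.2) := by
  induction l generalizing p with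
  | zero =>
    obtain ⟨a, b⟩ := p
    show ((a, b) : Ix) = (0, 0) ↔ ((3 ^ 0 - 1 - a, b) : Ix) = (0, 0)
    rw [Prod.mk.injEq, Prod.mk.injEq, pow_zero]
    constructor
    · rintro ⟨h1, h2⟩
      exact ⟨by omega, h2⟩
    · rintro ⟨h1, h2⟩
      exact ⟨by omega, h2⟩
  | succ l ih =>
    obtain ⟨a, b⟩ := p
    show Pres (l + 1) (a, b) ↔ Pres (l + 1) (3 ^ (l + 1) - 1 - a, b)
    rw [third_succ, third_succ, ih (p := (a / 3, b / 3))]
    have e1 : (3 ^ (l + 1) - 1 - a) / 3 = 3 ^ l - 1 - a / 3 := by
      rw [pow_succ]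
      omega
    have e2 : (3 ^ (l + 1) - 1 - a) % 3 = 1 ↔ a % 3 = 1 := by
      rw [pow_succ]
      omega
    rw [e1, e2]

/-- free lines: `s = 2, 8, 20, 26` (ternary digits `002, 022, 202, 222`) times `3 ^ k`, level `k + 3`.
Proof: induction on `k`, `k = 0`: finite check; step: last digit of the second coordinate is `0`. -/
theorem pres_line (k : ℕ) {a s : ℤ} (h0 : 0 ≤ a) (h1 : a < 3 ^ (k + 3))
    (hs : s = 2 ∨ s = 8 ∨ s = 20 ∨ s = 26) : Pres (k + 3) (a, s * 3 ^ k) := by
  induction k generalizing a with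
  | zero =>
    have h2 : a < 27 := by
      norm_num at h1
      exact h1
    show Pres (2 + 1) (a, s * 3 ^ 0)
    rw [pow_zero, mul_one, third_succ]
    show Pres (1 + 1) (a / 3, s / 3) ∧ _
    rw [third_succ]
    show (Pres (0 + 1) (a / 3 / 3, s / 3 / 3) ∧ _) ∧ _
    rw [third_succ]
    refine ⟨⟨⟨?_, fun h => by omega⟩, fun h => by omega⟩, fun h => by omega⟩
    show ((a / 3 / 3 / 3, s / 3 / 3 / 3) : Ix) = (0, 0)
    rw [Prod.mk.injEq]
    constructor <;> omega
  | succ k ih =>
    show Pres ((k + 3) + 1) (a, s * 3 ^ (k + 1))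
    rw [third_succ]
    have e1 : s * 3 ^ (k + 1) / 3 = s * 3 ^ k := by
      rw [pow_succ, ← mul_assoc]
      omega
    have e2 : s * 3 ^ (k + 1) % 3 = 0 := by
      rw [pow_succ, ← mul_assoc]
      omega
    rw [e1, e2]
    refine ⟨ih (by omega) ?_, fun h => by omega⟩
    have h2 : a < 3 ^ (k + 3) * 3 := by
      rw [← pow_succ]
      exact h1
    omega

end CarpetLib
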