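import Pool.Agent.Lib.MP_f3090c_an.D.RookC

/-! D16a: free lines. -/

open Set Filter Topology

namespace CarpetLib

/-- a candidate is at distance `≥ D = 2 * 3^(m-3)` from all the (at most three) heights in `T`.
Proof: the four candidates `j * 3^m + s * 3^(m-3)`, `s = 2, 8, 20, 26`, have mutual distances `≥ 6 * 3^(m-3) > 2 D`; each `t ∈ T` is at distance `< D`
from at most one of them; pigeonhole. -/
theorem free_line {m : ℕ} (hm : 3 ≤ m) (j : ℤ) (T : Finset ℤ) (hT : T.card ≤ 3) :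
    ∃ s : ℤ, (s = 2 ∨ s = 8 ∨ s = 20 ∨ s = 26) ∧
      ∀ t ∈ T, 2 * 3 ^ (m - 3) ≤ |j * 3 ^ m + s * 3 ^ (m - 3) - t| := by
  by_contra hcon
  push Not at hcon
  set D : ℤ := 3 ^ (m - 3) with hD
  have hD0 : 0 < D := by positivity
  set A : Finset ℤ := {2, 8, 20, 26} with hA
  have h1 : ∀ s ∈ A, ∃ t ∈ T, |j * 3 ^ m + s * D - t| < 2 * D := by
    intro s hs
    refine hcon s ?_
    simpa [hA] using hs
  choose! f hfT hf using h1
  have hinj : Set.InjOn f A := by
    intro s hs s' hs' heq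
    by_contra hne
    have h2 := abs_lt.1 (hf s hs)
    have h3 := abs_lt.1 (hf s' hs')
    rw [← heq] at h3
    have h4 : 6 ≤ s - s' ∨ 6 ≤ s' - s := by
      simp only [hA, Finset.coe_insert, Finset.coe_singleton, Set.mem_insert_iff,
        Set.mem_singleton_iff] at hs hs'
      rcases hs with rfl | rfl | rfl | rfl <;> rcases hs' with rfl | rfl | rfl | rfl <;>
        first
        | exact absurd rfl hne
        | norm_num
    rcases h4 with h4 | h4
    · have h5 : 6 * D ≤ (s - s') * D := mul_le_mul_of_nonneg_right h4 hD0.le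
      rw [sub_mul] at h5
      linarith [h2.1, h2.2, h3.1, h3.2]
    · have h5 : 6 * D ≤ (s' - s) * D := mul_le_mul_of_nonneg_right h4 hD0.le
      rw [sub_mul] at h5
      linarith [h2.1, h2.2, h3.1, h3.2]
  have h5 : A.card ≤ T.card := Finset.card_le_card_of_injOn f (fun s hs => hfT s hs) hinj
  have h6 : A.card = 4 := by
    rw [hA]
    rfl
  omega

private theorem tip1_swap (l : ℕ) (q : Ix) (h : Pres l q) : Pres l (q.2, q.1) := by
  induction l generalizing q with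
  | zero =>
    have h' : q = (0, 0) := h
    rw [h']
    rfl
  | succ l ih => exact ⟨ih _ h.1, fun h1 => h.2 ⟨h1.2, h1.1⟩⟩

private theorem tip1_mod {m : ℕ} (hm : 3 ≤ m) {s : ℤ} (hs : s = 2 ∨ s = 8 ∨ s = 20 ∨ s = 26)
    (a : ℤ) : (a * 3 ^ m + s * 3 ^ (m - 3)) % 3 ^ m = s * 3 ^ (m - 3) := by
  have h0 : (0 : ℤ) < 3 ^ (m - 3) := by positivity
  have h1 : (3 : ℤ) ^ m = 27 * 3 ^ (m - 3) := by
    conv_lhs => rw [← Nat.sub_add_cancel hm, pow_add]
    ring
  rw [add_comm, Int.add_mul_emod_self_right]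
  refine Int.emod_eq_of_lt ?_ ?_
  · rcases hs with rfl | rfl | rfl | rfl <;> positivity
  · rw [h1]
    rcases hs with rfl | rfl | rfl | rfl <;> linarith

private theorem tip1_line {m : ℕ} (hm : 3 ≤ m) {s : ℤ} (hs : s = 2 ∨ s = 8 ∨ s = 20 ∨ s = 26)
    (a : ℤ) : Pres m (a % 3 ^ m, s * 3 ^ (m - 3)) := by
  have h0 : (0 : ℤ) < 3 ^ m := by positivity
  have h1 := pres_line (m - 3) (a := a % 3 ^ m) (s := s) (Int.emod_nonneg _ h0.ne') (by
    rw [Nat.sub_add_cancel hm]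
    exact Int.emod_lt_of_pos _ h0) hs
  rwa [Nat.sub_add_cancel hm] at h1

/-- a square on a free row in a present unit cell is present.
Proof: `pres_add`, `pres_line` (with `k = m - 3`). -/
theorem free_pres {n m : ℕ} (hm : 3 ≤ m) {U : Ix} (hU : Pres n U) {x : Ix} (hx : par m x = U)
    {s : ℤ} (hs : s = 2 ∨ s = 8 ∨ s = 20 ∨ s = 26) (hxs : x.2 = U.2 * 3 ^ m + s * 3 ^ (m - 3)) :
    Pres (n + m) x := by
  rw [pres_add, hx]
  refine ⟨hU, ?_⟩
  rw [hxs, tip1_mod hm hs]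
  exact tip1_line hm hs _

theorem free_pres' {n m : ℕ} (hm : 3 ≤ m) {U : Ix} (hU : Pres n U) {x : Ix} (hx : par m x = U)
    {s : ℤ} (hs : s = 2 ∨ s = 8 ∨ s = 20 ∨ s = 26) (hxs : x.1 = U.1 * 3 ^ m + s * 3 ^ (m - 3)) :
    Pres (n + m) x := by
  rw [pres_add, hx]
  refine ⟨hU, ?_⟩
  rw [hxs, tip1_mod hm hs]
  exact tip1_swap _ _ (tip1_line hm hs _)

/-- the centre pixel of the unit cell `Q` -/
def oPix (m : ℕ) (Q : Ix) : Ix := (Q.1 * 3 ^ m + 2 * 3 ^ (m - 3), Q.2 * 3 ^ m + 2 * 3 ^ (m - 3))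

end CarpetLib
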