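import Pool.Agent.Lib.MP_f3090c_an.D.Defs

/-! D16b: straight paths, first exit. -/

open Set Filter Topology

namespace CarpetLib

private theorem tip2_line {B : Ix → Prop} {f : ℤ → Ix} (hf : ∀ t, Rook (f t) (f (t + 1)))
    (hf' : ∀ t, Rook (f (t + 1)) (f t)) (a : ℤ) (k : ℕ)
    (h : ∀ t, a ≤ t → t ≤ a + k → B (f t)) :
    Reach B (f a) (f (a + k)) ∧ Reach B (f (a + k)) (f a) := by
  induction k with
  | zero =>
    have e : a + ((0 : ℕ) : ℤ) = a := by simp
    rw [e]
    exact ⟨Relation.ReflTransGen.refl, Relation.ReflTransGen.refl⟩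
  | succ k ih =>
    obtain ⟨h1, h2⟩ := ih fun t ht ht' => h t ht (by push_cast; linarith)
    have e : a + ((k + 1 : ℕ) : ℤ) = a + k + 1 := by push_cast; ring
    rw [e]
    refine ⟨h1.tail ⟨hf _, h _ (by linarith [Int.natCast_nonneg k]) (by push_cast; linarith)⟩,
      Relation.ReflTransGen.head ⟨hf' _, h _ (by linarith [Int.natCast_nonneg k])
        (by push_cast; linarith)⟩ h2⟩

private theorem tip2_line' {B : Ix → Prop} {f : ℤ → Ix} (hf : ∀ t, Rook (f t) (f (t + 1)))
    (hf' : ∀ t, Rook (f (t + 1)) (f t)) (a b : ℤ)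
    (h : ∀ t, min a b ≤ t → t ≤ max a b → B (f t)) : Reach B (f a) (f b) := by
  rcases le_total a b with hab | hab
  · obtain ⟨k, hk⟩ := Int.eq_ofNat_of_zero_le (sub_nonneg.mpr hab)
    have e : b = a + k := by linarith
    rw [min_eq_left hab, max_eq_right hab] at h
    rw [e] at h ⊢
    exact (tip2_line hf hf' a k h).1
  · obtain ⟨k, hk⟩ := Int.eq_ofNat_of_zero_le (sub_nonneg.mpr hab)
    have e : a = b + k := by linarith
    rw [min_eq_right hab, max_eq_left hab] at h
    rw [e] at h ⊢
    exact (tip2_line hf hf' b k h).2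

/-- straight path along free lines through a rook chain of present unit cells. `c i`, `r j` are the positions of the free column of the
unit column `i` and of the free row of the unit row `j`; `B` holds for all pixels on these lines in present unit cells with property `A`.
Proof: induction on the chain: from the crossing pixel `X U = (c U.1, r U.2)` of `U` to that of a rook neighbour `U'` move along the
common free row (column); all pixels of this straight line are in `U` or `U'`. -/
theorem reach_lines {m : ℕ} (hm : 3 ≤ m) {A : Ix → Prop} {B : Ix → Prop} {c r : ℤ → ℤ}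
    (hc : ∀ i, c i / 3 ^ m = i) (hr : ∀ j, r j / 3 ^ m = j)
    (hB : ∀ x : Ix, A (par m x) → (x.1 = c (par m x).1 ∨ x.2 = r (par m x).2) → B x)
    {U V : Ix} (hU : A U) (h : Reach A U V) : Reach B (c U.1, r U.2) (c V.1, r V.2) := by
  have hpos : (0 : ℤ) < 3 ^ m := by positivity
  have hdiv : ∀ {a b t : ℤ}, |a / 3 ^ m - b / 3 ^ m| ≤ 1 → min a b ≤ t → t ≤ max a b →
      t / 3 ^ m = a / 3 ^ m ∨ t / 3 ^ m = b / 3 ^ m := by
    intro a b t hab h1 h2
    rw [abs_le] at hab
    rcases le_total a b with hle | hle
    · rw [min_eq_left hle] at h1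
      rw [max_eq_right hle] at h2
      have h3 := Int.ediv_le_ediv hpos h1
      have h4 := Int.ediv_le_ediv hpos h2
      omega
    · rw [min_eq_right hle] at h1
      rw [max_eq_left hle] at h2
      have h3 := Int.ediv_le_ediv hpos h1
      have h4 := Int.ediv_le_ediv hpos h2
      omega
  have main : A V ∧ Reach B (c U.1, r U.2) (c V.1, r V.2) := by
    induction h with
    | refl => exact ⟨hU, Relation.ReflTransGen.refl⟩
    | @tail W V _ hWV ih =>
      obtain ⟨hW, hr1⟩ := ih
      obtain ⟨hrk, hV⟩ := hWV
      refine ⟨hV, hr1.trans ?_⟩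
      obtain ⟨w1, w2⟩ := W
      obtain ⟨v1, v2⟩ := V
      rcases hrk with ⟨h1, h2⟩ | ⟨h1, h2⟩
      · simp only at h1 h2
        subst h1
        refine tip2_line' (B := B) (f := fun t => (c w1, t)) (fun t => ?_) (fun t => ?_) (r w2)
          (r v2) (fun t ht ht' => ?_)
        · left
          refine ⟨rfl, ?_⟩
          simp
        · left
          refine ⟨rfl, ?_⟩
          simp
        · have h3 := hdiv (a := r w2) (b := r v2) (t := t) (by rw [hr, hr]; exact h2) ht ht'
          rw [hr, hr] at h3
          have h4 : par m ((c w1, t) : Ix) = (w1, t / 3 ^ m) := by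
            simp only [par, hc]
          refine hB _ ?_ (Or.inl ?_)
          · rw [h4]
            rcases h3 with h3 | h3 <;> rw [h3]
            · exact hW
            · exact hV
          · rw [h4]
      · simp only at h1 h2
        subst h1
        refine tip2_line' (B := B) (f := fun t => (t, r w2)) (fun t => ?_) (fun t => ?_) (c w1)
          (c v1) (fun t ht ht' => ?_)
        · right
          refine ⟨rfl, ?_⟩
          simp
        · right
          refine ⟨rfl, ?_⟩
          simp
        · have h3 := hdiv (a := c w1) (b := c v1) (t := t) (by rw [hc, hc]; exact h2) ht ht'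
          rw [hc, hc] at h3
          have h4 : par m ((t, r w2) : Ix) = (t / 3 ^ m, w2) := by
            simp only [par, hr]
          refine hB _ ?_ (Or.inr ?_)
          · rw [h4]
            rcases h3 with h3 | h3 <;> rw [h3]
            · exact hW
            · exact hV
          · rw [h4]
  exact main.2

/-- first exit: on a chain from a point of `SS` to a point outside `SS` there is a first pixel outside. -/
theorem first_exit {B : Ix → Prop} {SS : Set Ix} {o x : Ix} (h : Reach B o x) (ho : o ∈ SS)
    (hx : x ∉ SS) :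
    ∃ a y, Reach (fun z => z ∈ SS) o a ∧ a ∈ SS ∧ Rook a y ∧ B y ∧ y ∉ SS := by
  have main : (Reach (fun z => z ∈ SS) o x ∧ x ∈ SS) ∨
      ∃ a y, Reach (fun z => z ∈ SS) o a ∧ a ∈ SS ∧ Rook a y ∧ B y ∧ y ∉ SS := by
    clear hx
    induction h with
    | refl => exact Or.inl ⟨Relation.ReflTransGen.refl, ho⟩
    | @tail b c _ hbc ih =>
      rcases ih with ⟨h1, h2⟩ | h1
      · by_cases hc : c ∈ SS
        · exact Or.inl ⟨h1.tail ⟨hbc.1, hc⟩, hc⟩
        · exact Or.inr ⟨b, c, h1, h2, hbc.1, hbc.2, hc⟩
      · exact Or.inr h1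
  rcases main with ⟨-, h2⟩ | h1
  · exact absurd h2 hx
  · exact h1

end CarpetLib
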