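import Pool.Agent.Lib.MP_f3090c_an.D.SubForm
import Pool.Agent.Lib.MP_f3090c_an.D.Dip
import Pool.Agent.Lib.MP_f3090c_an.D.Bump

/-! Doubling, definitions: the local situation of the four tips lemma. -/

open Set Filter Topology

namespace CarpetLib

/-- `Z` is a set of removed `m`-cells, `C` a chain component of the other ones, `R` the form of the
union of `C`, `q` a dipole potential with poles in `sub C`, far from `Z`, and `|q - c0| ≤ s` near `Z`. -/
structure TipCtx (S : SymForm) (m : ℕ) (Z C : Finset (List Dig)) (R : RForm (sub C))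
    (q : C(K, ℝ)) (b1 b2 : K) (c0 s : ℝ) : Prop where
  hZ : Z ⊆ Wd m
  hC : C ⊆ Wd m
  hCZ : ∀ w ∈ C, w ∉ Z
  closed : ∀ w ∈ C, ∀ w' ∈ Wd m, w' ∉ Z → (cellW w ∩ cellW w').Nonempty → w' ∈ C
  comp : ∀ D : Set K, IsPreconnected D → Disjoint D (sub Z) → (D ∩ sub C).Nonempty → D ⊆ sub C
  isSub : IsSub S m C R
  dip : IsDip S b1 b2 q
  b1mem : b1 ∈ sub C
  b2mem : b2 ∈ sub C
  far : ∀ w ∈ nbhd 2 m Z, b1 ∉ cellW w ∧ b2 ∉ cellW w
  spos : 0 < s
  good : ∀ w ∈ nbhd 2 m Z, ∀ z ∈ cellW w, |q z - c0| ≤ s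

/-- `q - c0` restricted to the union -/
noncomputable def pS (C : Finset (List Dig)) (q : C(K, ℝ)) (c0 : ℝ) : C(sub C, ℝ) :=
  (q - ContinuousMap.const K c0).comp (incS C)

@[simp] theorem pS_apply (C : Finset (List Dig)) (q : C(K, ℝ)) (c0 : ℝ) (x : sub C) :
    pS C q c0 x = q x.1 - c0 := rfl

end CarpetLib
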