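import Pool.Agent.Lib.MP_f3090c_an.D.Comp
import Pool.Agent.Lib.MP_f3090c_an.D.Flux
import Pool.Agent.Lib.MP_f3090c_an.D.RCut

/-! Doubling DB15: a tip where `ψ ≤ - 1 / 2` is joined to `b1` inside `{q - c0 - τ ψ > 0}`. -/

open Set Filter Topology

namespace CarpetLib

private theorem TipJoin_nbhd {m r r' : ℕ} (hr : r ≤ r') {Z : Finset (List Dig)} :
    nbhd r m Z ⊆ nbhd r' m Z := by
  intro w hw
  rw [nbhd, Finset.mem_filter] at hw ⊢
  obtain ⟨h1, w', h2, ⟨h3, h4⟩, h5, h6⟩ := hw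
  exact ⟨h1, w', h2, ⟨by omega, by omega⟩, by omega, by omega⟩

private theorem TipJoin_self {m r : ℕ} {Z : Finset (List Dig)} (hZ : Z ⊆ Wd m) :
    Z ⊆ nbhd r m Z := by
  intro w hw
  rw [nbhd, Finset.mem_filter]
  exact ⟨hZ hw, w, hw, ⟨by omega, by omega⟩, by omega, by omega⟩

private theorem TipJoin_quad {E F P C2 s M b : ℝ} (hP : 0 < P) (hC2 : 0 ≤ C2) (hs : 0 ≤ s)
    (hM : 0 ≤ M) (hE : 0 ≤ E) (hEF : E ≤ F) (hb : 0 ≤ b)
    (h : (F - (0 - b)) ^ 2 ≤ C2 * s ^ 2 * P * (E + M ^ 2 * (C2 * P))) :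
    E / P ≤ C2 * s ^ 2 + C2 * s * M := by
  by_contra hcon
  push Not at hcon
  set A := E / P with hA
  have hEA : E = A * P := by
    rw [hA]
    field_simp
  have h1 : E ^ 2 ≤ C2 * s ^ 2 * P * (E + M ^ 2 * (C2 * P)) := by
    refine le_trans ?_ h
    exact pow_le_pow_left₀ hE (by linarith) 2
  have h2 : A ^ 2 ≤ C2 * s ^ 2 * (A + M ^ 2 * C2) := by
    rw [hEA] at h1
    have h3 : P ^ 2 * A ^ 2 ≤ P ^ 2 * (C2 * s ^ 2 * (A + M ^ 2 * C2)) := by
      calc P ^ 2 * A ^ 2 = (A * P) ^ 2 := by ring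
        _ ≤ _ := h1
        _ = _ := by ring
    exact le_of_mul_le_mul_left h3 (by positivity)
  have h4 : 0 ≤ C2 * s * M := by positivity
  have h5 : 0 ≤ C2 * s ^ 2 := by positivity
  have h6 : C2 * s * M < A - C2 * s ^ 2 := by linarith
  have h7 : C2 * s * M < A := by linarith
  have h8 : (C2 * s * M) * (C2 * s * M) < A * (A - C2 * s ^ 2) := by
    rcases h4.eq_or_lt with h9 | h9
    · rw [← h9] at h6 h7 ⊢
      rw [mul_zero]
      exact mul_pos h7 h6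
    · exact mul_lt_mul'' h7 h6 h4 h4
  nlinarith

/-- Proof: `Rc` from `S.bound`, `C2` from `flux_err`, `K1 := 16 (l + 1)² (Rc + 1) C2 + 16`, `v = p - K1 s ψ`. Suppose
`t` is not joined to `b1` in `{v > 0}`. It is not joined to a `y i` either: `v (y i) > 0` implies
`q (y i) - c0 > K1 s` (as `|ψ| ≤ 1` and `K1 s < |q (y i) - c0|`), and by `IsDip.nodal` `y i` is joined to
`b1` by a continuum in `{q - c0 > K1 s}`, which is disjoint from `sub Z` (`good`), so contained in `sub C`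
(`comp`), and contained in `{v > 0}`. `cut_off` with `T = {b1} ∪ {y i}`, `ε = s` (`v t ≥ K1 s / 2 - s > s`): `φ`. Then
`E(φ, φ) ≤ E(v, φ) = E(p, φ)` (`E(ψ, φ) = 0`), `φ b1 = 0`, `φ b2 ≥ 0`; `flux_err` with `M = (1 + K1) s` (on the cells
of `nbhd 1 m Z`, `v ≤ s + K1 s`): with `A = E(φ, φ) / ρ^m`: `A² ≤ C2 s² (A + M² C2)`, so
`A ≤ C2 s² + C2 s M ≤ C2 (2 + K1) s²`. By `sub_chain` `φ(t)² = (φ(t) - φ(y i0))² ≤ (l+1)² Rc A`, but
`φ(t) = v(t) - s ≥ (K1 / 2 - 2) s`. Contradiction. -/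
theorem tip_joined (S : SymForm) (l N : ℕ) : ∃ K1 : ℝ, 1 ≤ K1 ∧ ∀ (m : ℕ)
    (Z C : Finset (List Dig)) (R : RForm (sub C)) (q : C(K, ℝ)) (b1 b2 : K) (c0 s : ℝ)
    (h : TipCtx S m Z C R q b1 b2 c0 s), Z.card ≤ N → ∀ ψ ∈ R.dom, (∀ x, |ψ x| ≤ 1) →
    ∀ y : Fin 4 → sub C, (∀ f ∈ R.dom, (∀ i, f (y i) = 0) → R.E ψ f = 0) →
    (∀ i, K1 * s < |q (y i).1 - c0|) → ∀ t : sub C, |q t.1 - c0| ≤ s → ψ t ≤ - (1 / 2) →
    (∃ i, ChainPts C l t.1 (y i).1) →
    Joined' {x : sub C | 0 < (q x.1 - c0) - K1 * s * ψ x} t ⟨b1, h.b1mem⟩ := by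
  obtain ⟨Rc, hRc, hR⟩ := S.bound
  obtain ⟨C2, hC2, hflux⟩ := flux_err S N
  have hC20 : 0 ≤ C2 := zero_le_one.trans hC2
  set W : ℝ := ((l : ℝ) + 1) ^ 2 * (Rc + 1) * C2 with hW
  have hW0 : 0 ≤ W := by positivity
  refine ⟨16 * W + 16, by linarith, ?_⟩
  set K1 : ℝ := 16 * W + 16 with hK1
  intro m Z C R q b1 b2 c0 s h hN ψ hψ hψ1 y hψ0 hy t ht hψt hch
  classical
  have hs : 0 < s := h.spos
  have hK1s : s ≤ K1 * s := by nlinarith
  have hK10 : 0 ≤ K1 * s := hs.le.trans hK1s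
  by_contra hcon
  set p : C(sub C, ℝ) := pS C q c0 with hp
  have hpm : p ∈ R.dom := by
    have h1 := sub_restrict S h.hC h.isSub (S.dom.sub_mem h.dip.1 (S.toRForm.const_mem c0))
    exact h1.1
  set v : C(sub C, ℝ) := p - (K1 * s) • ψ with hv
  have hvm : v ∈ R.dom := R.dom.sub_mem hpm (R.dom.smul_mem _ hψ)
  have hvx : ∀ x, v x = (q x.1 - c0) - K1 * s * ψ x := fun x => rfl
  have hset : {x : sub C | 0 < (q x.1 - c0) - K1 * s * ψ x} = {x | 0 < v x} := rfl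
  rw [hset] at hcon
  have habs : ∀ x, |K1 * s * ψ x| ≤ K1 * s := by
    intro x
    rw [abs_mul, abs_of_nonneg hK10]
    exact mul_le_of_le_one_right hK10 (hψ1 x)
  have hnot : ∀ i, ¬ Joined' {x | 0 < v x} t (y i) := by
    rintro i ⟨D0, hD0c, hD0p, hD0s, htD, hyD⟩
    have h1 : 0 < v (y i) := hD0s hyD
    rw [hvx] at h1
    have h2 := abs_le.1 (habs (y i))
    have h3 : K1 * s < q (y i).1 - c0 := by
      rcases le_or_gt 0 (q (y i).1 - c0) with h4 | h4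
      · have h5 := hy i
        rwa [abs_of_nonneg h4] at h5
      · have h5 := hy i
        rw [abs_of_neg h4] at h5
        linarith
    obtain ⟨D, hDc, hDp, hDs, hyD', hbD⟩ := h.dip.nodal (c := c0 + K1 * s) (y := (y i).1)
      (by linarith)
    have hdisj : Disjoint D (sub Z) := by
      rw [disjoint_left]
      intro z hz hzZ
      obtain ⟨w, hw, hzw⟩ := mem_sub.1 hzZ
      have h5 := h.good w (TipJoin_self h.hZ hw) z hzw
      have h6 : c0 + K1 * s < q z := hDs hz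
      have h7 := (abs_le.1 h5).2
      linarith
    have hDC : D ⊆ sub C := h.comp D hDp hdisj ⟨b1, hbD, h.b1mem⟩
    have hemb : IsClosedEmbedding (Subtype.val : sub C → K) :=
      (sub_closed C).isClosedEmbedding_subtypeVal
    set D' : Set (sub C) := Subtype.val ⁻¹' D with hD'
    have himg : Subtype.val '' D' = D := by
      rw [hD', Subtype.image_preimage_coe]
      exact inter_eq_right.2 hDC
    have hD'c : IsCompact D' := hemb.isCompact_preimage hDc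
    have hD'p : IsPreconnected D' := by
      rw [← hemb.isInducing.isPreconnected_image, himg]
      exact hDp
    refine hcon ⟨D0 ∪ D', hD0c.union hD'c, ?_, ?_, Or.inl htD, Or.inr hbD⟩
    · exact hD0p.union (y i) hyD hyD' hD'p
    · rintro x (hx | hx)
      · exact hD0s hx
      · have h5 : c0 + K1 * s < q x.1 := hDs hx
        have h6 := (abs_le.1 (habs x)).2
        show 0 < v x
        rw [hvx]
        linarith
  have hvt : (K1 / 2 - 1) * s ≤ v t := by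
    rw [hvx]
    have h1 := (abs_le.1 ht).1
    have h2 : K1 * s * ψ t ≤ K1 * s * (- (1 / 2)) := mul_le_mul_of_nonneg_left hψt hK10
    linarith
  have hvs : s < v t := by
    refine lt_of_lt_of_le ?_ hvt
    have h1 : 1 < K1 / 2 - 1 := by
      rw [hK1]
      linarith
    nlinarith
  obtain ⟨φ, hφm, hφ0, hφv, hφt, hφT, hφE⟩ := R.cut_off hvm (y := t)
    (insert ⟨b1, h.b1mem⟩ (Finset.univ.image y)) (by
      intro t' ht'
      rw [Finset.mem_insert, Finset.mem_image] at ht'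
      rcases ht' with rfl | ⟨i, -, rfl⟩
      · exact hcon
      · exact hnot i) hs hvs
  have hφb : φ ⟨b1, h.b1mem⟩ = 0 := hφT _ (Finset.mem_insert_self _ _)
  have hφy : ∀ i, φ (y i) = 0 := fun i =>
    hφT _ (Finset.mem_insert_of_mem (Finset.mem_image_of_mem _ (Finset.mem_univ i)))
  have hEp : R.E φ φ ≤ R.E p φ := by
    have h1 : R.E v φ = R.E p φ - (K1 * s) * R.E ψ φ := by
      rw [hv]
      simp only [map_sub, map_smul, LinearMap.sub_apply, LinearMap.smul_apply, smul_eq_mul]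
    rw [h1, hψ0 φ hφm hφy, mul_zero, sub_zero] at hφE
    exact hφE
  have hM : 0 ≤ (1 + K1) * s := by nlinarith
  have hfl := hflux m Z C R q b1 b2 c0 s h hN φ hφm hφ0 ((1 + K1) * s) hM (by
    rintro x ⟨w, hw, hxw⟩
    have h1 := (abs_le.1 (h.good w (TipJoin_nbhd (by norm_num) hw) x.1 hxw)).2
    refine (hφv x).trans (max_le ?_ hM)
    have h2 := (abs_le.1 (habs x)).1
    rw [hvx]
    linarith)
  rw [hφb] at hfl
  have hP : 0 < S.ρ ^ m := pow_pos S.ρ_pos m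
  have hA := TipJoin_quad hP hC20 hs.le hM (R.nonneg φ) hEp (hφ0 ⟨b2, h.b2mem⟩) hfl
  obtain ⟨i, hi⟩ := hch
  have hc := sub_chain S hRc hR h.isSub hi hφm
  rw [hφy i, sub_zero, hφt] at hc
  have h1 : (K1 / 2 - 2) * s ≤ v t - s := by linarith
  have h2 : 0 ≤ (K1 / 2 - 2) * s := by
    refine mul_nonneg ?_ hs.le
    rw [hK1]
    linarith
  have h3 : ((K1 / 2 - 2) * s) ^ 2 ≤ (v t - s) ^ 2 := pow_le_pow_left₀ h2 h1 2
  have h4 : ((l : ℝ) + 1) ^ 2 * (Rc * (R.E φ φ / S.ρ ^ m)) ≤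
      ((l : ℝ) + 1) ^ 2 * (Rc * (C2 * s ^ 2 + C2 * s * ((1 + K1) * s))) := by
    refine mul_le_mul_of_nonneg_left (mul_le_mul_of_nonneg_left hA hRc.le) (by positivity)
  have h5 : ((K1 / 2 - 2) * s) ^ 2 ≤
      ((l : ℝ) + 1) ^ 2 * (Rc * (C2 * s ^ 2 + C2 * s * ((1 + K1) * s))) := h3.trans (hc.trans h4)
  have h6 : ((l : ℝ) + 1) ^ 2 * (Rc * (C2 * s ^ 2 + C2 * s * ((1 + K1) * s))) =
      s ^ 2 * ((((l : ℝ) + 1) ^ 2 * Rc * C2) * (K1 + 2)) := by ring
  have h7 : ((l : ℝ) + 1) ^ 2 * Rc * C2 ≤ W := by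
    rw [hW]
    have : ((l : ℝ) + 1) ^ 2 * Rc ≤ ((l : ℝ) + 1) ^ 2 * (Rc + 1) :=
      mul_le_mul_of_nonneg_left (by linarith) (by positivity)
    exact mul_le_mul_of_nonneg_right this hC20
  rw [h6, mul_pow, mul_comm ((K1 / 2 - 2) ^ 2)] at h5
  have h8 := le_of_mul_le_mul_left h5 (by positivity)
  have h9 : ((l : ℝ) + 1) ^ 2 * Rc * C2 * (K1 + 2) ≤ W * (K1 + 2) := by
    refine mul_le_mul_of_nonneg_right h7 ?_
    rw [hK1]
    linarith
  have h10 := h8.trans h9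
  rw [hK1] at h10
  nlinarith

end CarpetLib
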