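import Pool.Agent.Lib.MP_f3090c_an.K.Words
import Pool.Agent.Lib.MP_f3090c_an.K.Sym
import Pool.Agent.Lib.MP_f3090c_an.K.Points
import Pool.Agent.Lib.MP_f3090c_an.K.Digits

/-! Doubling, definitions: words of a fixed length, cells, distance of cells, chains. -/

open Set Filter Topology

namespace CarpetLib

/-- the words of length `m` -/
def Wd : ℕ → Finset (List Dig)
  | 0 => {[]}
  | m + 1 => (Finset.univ ×ˢ Wd m).image (fun p => p.1 :: p.2)

theorem mem_Wd {m : ℕ} {w : List Dig} : w ∈ Wd m ↔ w.length = m := by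
  induction m generalizing w with
  | zero => simp [Wd, List.length_eq_zero_iff]
  | succ m ih =>
    simp only [Wd, Finset.mem_image, Finset.mem_product, Finset.mem_univ, true_and, Prod.exists]
    constructor
    · rintro ⟨d, v, hv, rfl⟩
      simp [ih.1 hv]
    · intro h
      cases w with
      | nil => simp at h
      | cons d v => exact ⟨d, v, ih.2 (by simpa using h), rfl⟩

/-- the cell of the word `w` -/
def cellW (w : List Dig) : Set K := range (psiW w)

/-- the cells of `w` and `w'` (words of the same length) are at sup-distance at most `r` -/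
def Nb (r : ℕ) (w w' : List Dig) : Prop :=
  (ix w ≤ ix w' + r ∧ ix w' ≤ ix w + r) ∧ (iy w ≤ iy w' + r ∧ iy w' ≤ iy w + r)

/-- equal or side adjacent -/
def SAdj (w w' : List Dig) : Prop :=
  (ix w = ix w' ∧ (iy w = iy w' ∨ iy w + 1 = iy w' ∨ iy w' + 1 = iy w)) ∨
    (iy w = iy w' ∧ (ix w + 1 = ix w' ∨ ix w' + 1 = ix w))

/-- a chain of `l + 1` side adjacent words of length `n` -/
def SChain (n l : ℕ) (w w' : List Dig) : Prop :=
  ∃ L : ℕ → List Dig, L 0 = w ∧ L l = w' ∧ (∀ i ≤ l, L i ∈ Wd n) ∧ ∀ i < l, SAdj (L i) (L (i + 1))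

/-- `(a, b)` is the position of an `m`-cell: no ternary digit position carries the digit `1` in
both coordinates -/
def Cel : ℕ → ℕ → ℕ → Prop
  | 0, a, b => a = 0 ∧ b = 0
  | m + 1, a, b => ¬ (a % 3 = 1 ∧ b % 3 = 1) ∧ Cel m (a / 3) (b / 3)

/-- two points are joined by a chain of `l + 1` cells of `C`, consecutive ones intersecting -/
def ChainPts (C : Finset (List Dig)) (l : ℕ) (x y : K) : Prop :=
  ∃ L : ℕ → List Dig, (∀ i ≤ l, L i ∈ C) ∧ x ∈ cellW (L 0) ∧ y ∈ cellW (L l) ∧
    ∀ i < l, (cellW (L i) ∩ cellW (L (i + 1))).Nonempty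

/-- chain connectedness of a finite set of words -/
def ChainConn (C : Finset (List Dig)) : Prop :=
  ∀ w ∈ C, ∀ w' ∈ C,
    Relation.ReflTransGen (fun u v => u ∈ C ∧ v ∈ C ∧ (cellW u ∩ cellW v).Nonempty) w w'

theorem cellW_closed (w : List Dig) : IsClosed (cellW w) :=
  (isCompact_range (psiW w).continuous).isClosed

theorem cellW_nonempty (w : List Dig) : (cellW w).Nonempty := range_nonempty _

theorem cellW_preconnected_of (h : IsPreconnected (univ : Set K)) (w : List Dig) :
    IsPreconnected (cellW w) := by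
  rw [cellW, ← image_univ]
  exact h.image _ (psiW w).continuous.continuousOn

end CarpetLib
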